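import Pool.Agent.Q48.RD.One

/-!
# Patterns on both sides of a given integer, at mirror positions with restricted digits
-/

set_option autoImplicit false

namespace Pool.Agent.Q48.RD

open Filter Finset
open Pool.Agent.Q315.RD

/-- All numbers `s + (m + h j)` and `s - (m + h j)` have the property `Q`. -/
def Around {k : ℕ} (h : Fin k → ℕ) (s : ℕ) (Q : ℕ → Prop) (m : ℕ) : Prop := ∀ j, Q (s + (m + h j)) ∧ Q (s - (m + h j))

/-- the leading coefficients -/
def aroundA (k : ℕ) : Fin (k + k) → ℤ := Fin.append (fun _ => 1) (fun _ => -1)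

/-- the constant terms -/
def aroundB {k : ℕ} (h : Fin k → ℕ) (s : ℕ) : Fin (k + k) → ℤ := Fin.append (fun i => (s : ℤ) + h i) (fun i => (s : ℤ) - h i)

/-- The product of `1 - ν (p) / p` over the primes `p ≤ y`, `ν (p)` the number of the zeros modulo `p` of the product of the `2 k`
polynomials `s + h i + X`, `s - h i - X`. -/
noncomputable def aroundV {k : ℕ} (h : Fin k → ℕ) (s y : ℕ) : ℝ := linDensity (aroundA k) (aroundB h s) y

/-- There is no fixed divisor if all small primes divide the `h i`. -/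
lemma around_adm {k : ℕ} (h : Fin k → ℕ) (hh : ∀ p : ℕ, p.Prime → p ≤ 2 * k → ∀ j, p ∣ h j) (s : ℕ) :
    AdmZ (aroundA k) (aroundB h s) := by
  intro p hp
  have hpz := Nat.prime_iff_prime_int.1 hp
  rcases Nat.lt_or_ge (k + k) p with h0 | h0
  · refine adm_bigZ _ _ hp h0 fun j => ?_
    have h1 : ¬ (p : ℤ) ∣ 1 := fun h1 => by
      have h2 : (p : ℤ) ∣ ((1 : ℕ) : ℤ) := by exact_mod_cast h1
      exact hp.one_lt.ne' (Nat.dvd_one.1 (Int.natCast_dvd_natCast.1 h2))
    unfold aroundA
    refine Fin.addCases (fun i => ?_) (fun i => ?_) j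
    · rw [Fin.append_left]; exact h1
    · rw [Fin.append_right, dvd_neg]; exact h1
  · have key : ∃ m : ℤ, ¬ (p : ℤ) ∣ (s : ℤ) + m ∧ ¬ (p : ℤ) ∣ (s : ℤ) - m := by
      rcases hp.eq_two_or_odd' with h2 | h2
      · subst h2
        refine ⟨s + 1, ?_, ?_⟩
        · push_cast; omega
        · push_cast; omega
      · obtain ⟨t, ht⟩ := Pool.Agent.Y816.PD.adm_two hp (by have := hp.two_le; obtain ⟨w, hw⟩ := h2; omega) (s : ℤ) (s : ℤ)
        exact ⟨t, fun h3 => ht (h3.mul_right _), fun h3 => ht (h3.mul_left _)⟩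
    obtain ⟨m, h1, h2⟩ := key
    refine ⟨m, fun j => ?_⟩
    unfold aroundA aroundB
    refine Fin.addCases (fun i => ?_) (fun i => ?_) j
    · rw [Fin.append_left, Fin.append_left]
      intro h3
      apply h1
      have h4 : (p : ℤ) ∣ (h i : ℤ) := Int.natCast_dvd_natCast.2 (hh p hp (by omega) i)
      have h5 := dvd_sub h3 h4
      have e : 1 * m + ((s : ℤ) + h i) - h i = s + m := by ring
      rwa [e] at h5
    · rw [Fin.append_right, Fin.append_right]
      intro h3
      apply h2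
      have h4 : (p : ℤ) ∣ (h i : ℤ) := Int.natCast_dvd_natCast.2 (hh p hp (by omega) i)
      have h5 := dvd_add h3 h4
      have e : -1 * m + ((s : ℤ) - h i) + h i = s - m := by ring
      rwa [e] at h5

/-- **Patterns on both sides of a given integer, at mirror positions with restricted digits.** -/
theorem around {k : ℕ} (h : Fin k → ℕ) (hh : ∀ p : ℕ, p.Prime → p ≤ 2 * k → ∀ j, p ∣ h j) (E : ℕ) :
    ∃ c : ℝ, 0 < c ∧ ∃ r₀ : ℕ, 2 ≤ r₀ ∧ ∀ r : ℕ, r₀ ≤ r → ∀ g : ℕ, 2 ≤ g → ∃ κ C : ℝ, 0 < κ ∧ 0 < C ∧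
      ∀ᶠ K : ℕ in atTop, ∀ s m₀ : ℕ, s ≤ g ^ (E * K) → (∀ j, 2 * (m₀ + g ^ K + h j) ≤ s) → m₀ ≤ s →
        ∀ A : ℕ → Finset ℕ, Rich c g K A →
          ((∃ d ∈ A 0, Around h s (fun n => n.Coprime g) (m₀ + d)) →
            κ * aroundV h s (g ^ K) * choices K A ≤ count g K A (fun t => Around h s (AlmostPrime (g ^ K) r) (m₀ + t)) ∧
            κ * choices K A / (K : ℝ) ^ (2 * k) ≤ count g K A (fun t => Around h s (AlmostPrime (g ^ K) r) (m₀ + t))) ∧
          (count g K A (fun t => Around h s Nat.Prime (m₀ + t)) : ℝ) ≤ C * aroundV h s (g ^ K) * choices K A := by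
  obtain ⟨c, hc, r₀, hr₀, hfam⟩ := famLin' (k + k) (E + 1)
  refine ⟨c, hc, r₀, hr₀, fun r hr g hg => ?_⟩
  obtain ⟨κ, C, hκ, hC, h1⟩ := hfam r hr g hg
  refine ⟨κ, C, hκ, hC, ?_⟩
  filter_upwards [h1, eventually_ge_atTop 1] with K hK hK1
  intro s m₀ hs hm hms A hA
  have hg1 : 1 ≤ g := by omega
  obtain ⟨f, hf⟩ : ∃ f : Fin (k + k) → ℕ → ℕ, f = Fin.append (fun (i : Fin k) t => s + (m₀ + t + h i))
    (fun (i : Fin k) t => s - (m₀ + t + h i)) := ⟨_, rfl⟩
  have hfl : ∀ (i : Fin k) t, f (Fin.castAdd k i) t = s + (m₀ + t + h i) := fun i t => by rw [hf, Fin.append_left]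
  have hfr : ∀ (i : Fin k) t, f (Fin.natAdd k i) t = s - (m₀ + t + h i) := fun i t => by rw [hf, Fin.append_right]
  have hconv : ∀ (Q : ℕ → Prop) (t : ℕ), (∀ j, Q (f j t)) ↔ Around h s Q (m₀ + t) := by
    intro Q t
    constructor
    · intro hQ i
      have h2 := hQ (Fin.castAdd k i)
      have h3 := hQ (Fin.natAdd k i)
      rw [hfl] at h2
      rw [hfr] at h3
      exact ⟨h2, h3⟩
    · intro hQ j
      refine Fin.addCases (fun i => ?_) (fun i => ?_) j
      · rw [hfl]; exact (hQ i).1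
      · rw [hfr]; exact (hQ i).2
  have hpow : 2 * s ≤ g ^ ((E + 1) * K) := by
    rw [add_mul, one_mul, pow_add, mul_comm]
    exact Nat.mul_le_mul hs (hg.trans (Nat.le_self_pow (by omega) g))
  have hpowz : 2 * (s : ℤ) ≤ (g : ℤ) ^ ((E + 1) * K) := by exact_mod_cast hpow
  obtain ⟨h2, h3⟩ := hK (aroundA k) (aroundB h s) m₀ f
    (fun j => by
      have h4 : (1 : ℤ) ≤ (g : ℤ) ^ ((E + 1) * K) := by
        have : 1 ≤ g ^ ((E + 1) * K) := Nat.one_le_pow _ _ hg1
        exact_mod_cast this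
      unfold aroundA
      refine Fin.addCases (fun i => ?_) (fun i => ?_) j
      · rw [Fin.append_left, abs_one]; exact h4
      · rw [Fin.append_right, abs_neg, abs_one]; exact h4)
    (fun j => by
      refine le_trans ?_ hpowz
      unfold aroundB
      refine Fin.addCases (fun i => ?_) (fun i => ?_) j
      · rw [Fin.append_left, abs_of_nonneg (by positivity)]
        have := hm i
        have h5 : h i ≤ s := by omega
        have h6 : (h i : ℤ) ≤ s := by exact_mod_cast h5
        linarith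
      · rw [Fin.append_right]
        have := hm i
        have h5 : h i ≤ s := by omega
        have h6 : (h i : ℤ) ≤ s := by exact_mod_cast h5
        have h7 : (0 : ℤ) ≤ h i := Int.natCast_nonneg _
        rw [abs_le]
        constructor <;> linarith)
    (by omega)
    (around_adm h hh s)
    (fun t ht j => by
      unfold aroundA aroundB
      refine Fin.addCases (fun i => ?_) (fun i => ?_) j
      · rw [Fin.append_left, Fin.append_left, hfl]
        push_cast
        ring
      · rw [Fin.append_right, Fin.append_right, hfr]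
        have h5 : m₀ + t + h i ≤ s := by have := hm i; omega
        rw [Nat.cast_sub h5]
        push_cast
        ring)
    (fun t ht j => by
      refine Fin.addCases (fun i => ?_) (fun i => ?_) j
      · rw [hfl]
        omega
      · rw [hfr]
        have := hm i
        omega) A hA
  simp only [hconv] at h2 h3
  refine ⟨fun ⟨d, hd, h4⟩ => ?_, h3⟩
  obtain ⟨h5, h6⟩ := h2 ⟨d, hd, (hconv _ d).2 h4⟩
  rw [← two_mul] at h6
  exact ⟨h5, h6⟩

end Pool.Agent.Q48.RD
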