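import Pool.Agent.Q48.RD.Pat

/-!
# Patterns of consecutive almost primes at integers with restricted digits
-/

set_option autoImplicit false

namespace Pool.Agent.Q48.RD

open Filter Finset Polynomial
open Pool.Agent.Q315.RD
open Pool.Agent.W123.RU.Poly (Sys)
open Pool.Agent.W182.PW (lin lin_eval)

/-- **Almost prime values of linear forms at integers with restricted digits, the values of other forms having small prime factors.** -/
theorem consecLin {k : ℕ} (a b : Fin k → ℕ) (ha : ∀ j, 1 ≤ a j) (hinj : ∀ i j, a i = a j → b i = b j → i = j)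
    (hadm : AdmLin a b) (S : Finset (ℕ × ℕ)) (hS : ∀ e ∈ S, 1 ≤ e.1 ∧ ∀ j, ¬ (a j = e.1 ∧ b j = e.2)) (E : ℕ) :
    ∃ c : ℝ, 0 < c ∧ ∃ r₀ : ℕ, 2 ≤ r₀ ∧ ∀ r : ℕ, r₀ ≤ r → ∀ g : ℕ, 2 ≤ g → ∃ κ C : ℝ, 0 < κ ∧ 0 < C ∧
      ∀ᶠ K : ℕ in atTop, ∀ N : ℕ, N ≤ g ^ (E * K) → ∀ A : ℕ → Finset ℕ, Rich c g K A →
        ((∃ d ∈ A 0, ∀ j, (a j * (N + d) + b j).Coprime g) →
          κ * choices K A / (K : ℝ) ^ k ≤ count g K A fun t =>
            (∀ j, AlmostPrime (g ^ K) r (a j * (N + t) + b j)) ∧ ∀ e ∈ S, ∃ p : ℕ, p.Prime ∧ p ∣ e.1 * (N + t) + e.2 ∧ p ^ r ≤ g ^ K) ∧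
        (count g K A (fun t => ∀ j, (a j * (N + t) + b j).Prime) : ℝ) ≤ C * choices K A / (K : ℝ) ^ k := by
  classical
  -- the good exceptional forms
  obtain ⟨T, hT⟩ : ∃ T : Finset (ℕ × ℕ), T = S.filter fun e => AdmLin (Fin.cons e.1 a : Fin (k + 1) → ℕ) (Fin.cons e.2 b) := ⟨_, rfl⟩
  obtain ⟨c1, hc1, r1, hr1, h1⟩ := fixN (fun j => lin (a j) (b j : ℤ)) (sysLin a b ha hinj hadm) (fun j n => a j * n + b j) 0
    (fun j n _ => by rw [lin_eval]; push_cast; rfl) E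
  obtain ⟨c2, hc2, r2, hr2, h2⟩ := fixNs T
    (fun e j => lin ((Fin.cons e.1 a : Fin (k + 1) → ℕ) j) (((Fin.cons e.2 b : Fin (k + 1) → ℕ) j : ℕ) : ℤ))
    (fun e he => by
      rw [hT, mem_filter] at he
      obtain ⟨he1, he2⟩ := he
      obtain ⟨h3, h4⟩ := hS e he1
      refine sysLin _ _ (fun j => ?_) (fun i j => ?_) he2
      · refine Fin.cases ?_ (fun j => ?_) j
        · simpa using h3
        · simpa using ha j
      · refine Fin.cases ?_ (fun i => ?_) i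
        · refine Fin.cases ?_ (fun j => ?_) j
          · intro _ _; rfl
          · intro h5 h6
            simp only [Fin.cons_zero, Fin.cons_succ] at h5 h6
            exact absurd ⟨h5.symm, h6.symm⟩ (h4 j)
        · refine Fin.cases ?_ (fun j => ?_) j
          · intro h5 h6
            simp only [Fin.cons_zero, Fin.cons_succ] at h5 h6
            exact absurd ⟨h5, h6⟩ (h4 i)
          · intro h5 h6
            simp only [Fin.cons_succ] at h5 h6
            rw [hinj i j h5 h6])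
    (fun e j n => (Fin.cons e.1 a : Fin (k + 1) → ℕ) j * n + (Fin.cons e.2 b : Fin (k + 1) → ℕ) j) 0
    (fun e _ j n _ => by rw [lin_eval]; push_cast; rfl) E
  -- the primes for the other exceptional forms
  have hbad : ∀ e : ℕ × ℕ, ∃ q : ℕ, e ∈ S → e ∉ T → q.Prime ∧ ∀ n : ℕ, (∃ j, q ∣ a j * n + b j) ∨ q ∣ e.1 * n + e.2 := by
    intro e
    by_cases he : e ∈ S ∧ e ∉ T
    · rw [hT, mem_filter] at he
      have h3 : ¬ AdmLin (Fin.cons e.1 a : Fin (k + 1) → ℕ) (Fin.cons e.2 b) := fun h => he.2 ⟨he.1, h⟩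
      unfold AdmLin at h3
      push Not at h3
      obtain ⟨q, hq, h4⟩ := h3
      refine ⟨q, fun _ _ => ⟨hq, fun n => ?_⟩⟩
      obtain ⟨j, hj⟩ := h4 n
      revert hj
      refine Fin.cases (fun hj => Or.inr (by simpa using hj)) (fun j hj => Or.inl ⟨j, by simpa using hj⟩) j
    · exact ⟨0, fun h5 h6 => absurd ⟨h5, h6⟩ he⟩
  choose q hq using hbad
  obtain ⟨m, hm⟩ : ∃ m : ℕ, ∀ e ∈ S, q e ≤ m :=
    ⟨∑ e ∈ S, q e, fun e he => single_le_sum (f := q) (fun _ _ => Nat.zero_le _) he⟩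
  refine ⟨min c1 c2, by positivity, max r1 r2, hr1.trans (le_max_left _ _), fun r hr g hg => ?_⟩
  have hr2' : 2 ≤ r := (hr1.trans (le_max_left _ _)).trans hr
  obtain ⟨κ, C1, hκ, hC1, h3⟩ := h1 r ((le_max_left _ _).trans hr) g hg
  obtain ⟨C2, hC2, h4⟩ := h2 r ((le_max_right _ _).trans hr) g hg
  refine ⟨κ / 2, C1, by positivity, hC1, ?_⟩
  filter_upwards [h3, h4, removes (C := max C2 1) S hκ k, eventually_ge_atTop (m * r + 1)]
    with K hK3 hK4 hK5 hKr
  intro N hN A hA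
  have hcs : (0 : ℝ) ≤ choices K A := Nat.cast_nonneg _
  obtain ⟨e1, e2⟩ := hK3 N (Nat.zero_le _) hN A (rich_mono hA (min_le_left _ _))
  have e3 := fun h hh => hK4 h hh N (Nat.zero_le _) hN A (rich_mono hA (min_le_right _ _))
  have hmr : m ^ r < g ^ K := by
    calc m ^ r ≤ (2 ^ m) ^ r := Nat.pow_le_pow_left (Nat.lt_two_pow_self).le r
      _ = 2 ^ (m * r) := by rw [pow_mul]
      _ < 2 ^ K := Nat.pow_lt_pow_right (by norm_num) (by omega)
      _ ≤ g ^ K := Nat.pow_le_pow_left hg K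
  refine ⟨fun hd => ?_, ?_⟩
  · refine hK5 g A (fun t => ∀ j, AlmostPrime (g ^ K) r (a j * (N + t) + b j)) _
      (fun e t => (∀ j, AlmostPrime (g ^ K) r (a j * (N + t) + b j)) ∧ ∀ p : ℕ, p.Prime → p ∣ e.1 * (N + t) + e.2 → g ^ K < p ^ r)
      (fun t ht hP => ?_) (e1 hd) (fun e he => ?_)
    · by_cases hQ : ∀ e ∈ S, ∃ p : ℕ, p.Prime ∧ p ∣ e.1 * (N + t) + e.2 ∧ p ^ r ≤ g ^ K
      · exact Or.inl ⟨hP, hQ⟩
      · push Not at hQ
        obtain ⟨e, he1, he2⟩ := hQ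
        exact Or.inr ⟨e, he1, hP, he2⟩
    · by_cases heT : e ∈ T
      · refine le_trans (Nat.cast_le.2 (count_mono fun t ht hp => ?_)) ((e3 e heT).trans ?_)
        · intro j
          refine Fin.cases ?_ (fun j => ?_) j
          · simp only [Fin.cons_zero]
            intro p hp1 hp2
            exact ht.trans (hp.2 p hp1 hp2)
          · simp only [Fin.cons_succ]
            exact roughAt_of (hp.1 j) ht.le
        · exact div_le_div_of_nonneg_right (mul_le_mul_of_nonneg_right (le_max_left _ _) hcs) (by positivity)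
      · obtain ⟨hq1, hq2⟩ := hq e he heT
        have h5 : count g K A (fun t => (∀ j, AlmostPrime (g ^ K) r (a j * (N + t) + b j)) ∧
            ∀ p : ℕ, p.Prime → p ∣ e.1 * (N + t) + e.2 → g ^ K < p ^ r) = 0 := by
          unfold count
          refine Nat.le_zero.1 (le_trans (card_le_card (t := ∅) fun t ht => ?_) card_empty.le)
          exfalso
          simp only [mem_filter] at ht
          obtain ⟨-, -, h6, h7⟩ := ht
          have h9 : q e ^ r ≤ m ^ r := Nat.pow_le_pow_left (hm e he) r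
          rcases hq2 (N + t) with ⟨j, hj⟩ | hj
          · have h8 := (h6 j).1 _ hq1 hj
            omega
          · have h8 := h7 _ hq1 hj
            omega
        rw [h5, Nat.cast_zero]
        positivity
  · refine le_trans (Nat.cast_le.2 (count_mono fun t ht hp j => roughAt_prime hr2' (hp j) ?_)) e2
    have h6 : N + t ≤ a j * (N + t) := Nat.le_mul_of_pos_left _ (ha j)
    omega

/-- The numbers `m + h j` are almost primes, and all other integers between `m - L` and `m + L` have a prime factor `p` with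
`p ^ r ≤ y`. -/
def Consecutive {k : ℕ} (h : Fin k → ℕ) (L y r m : ℕ) : Prop :=
  (∀ j, AlmostPrime y r (m + h j)) ∧ ∀ n : ℕ, m ≤ n + L → n ≤ m + L → (∀ j, n ≠ m + h j) → ∃ p : ℕ, p.Prime ∧ p ∣ n ∧ p ^ r ≤ y

/-- **Patterns of consecutive almost primes at integers with restricted digits.** -/
theorem consecPattern {k : ℕ} (h : Fin k → ℕ) (hinj : Function.Injective h)
    (hadm : ∀ p : ℕ, p.Prime → ∃ n : ℕ, ∀ j, ¬ p ∣ n + h j) (L E : ℕ) :
    ∃ c : ℝ, 0 < c ∧ ∃ r₀ : ℕ, 2 ≤ r₀ ∧ ∀ r : ℕ, r₀ ≤ r → ∀ g : ℕ, 2 ≤ g → ∃ κ C : ℝ, 0 < κ ∧ 0 < C ∧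
      ∀ᶠ K : ℕ in atTop, ∀ N : ℕ, L ≤ N → N ≤ g ^ (E * K) → ∀ A : ℕ → Finset ℕ, Rich c g K A →
        ((∃ d ∈ A 0, ∀ j, (N + d + h j).Coprime g) →
          κ * choices K A / (K : ℝ) ^ k ≤ count g K A fun t => Consecutive h L (g ^ K) r (N + t)) ∧
        (count g K A (fun t => ∀ j, (N + t + h j).Prime) : ℝ) ≤ C * choices K A / (K : ℝ) ^ k := by
  classical
  have hadm' : AdmLin (fun _ : Fin k => 1) (fun j => L + h j) := by
    intro p hp
    obtain ⟨n, hn⟩ := hadm p hp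
    have h2 := Nat.pos_of_ne_zero hp.ne_zero
    refine ⟨n + (p - 1) * L, fun j hj => hn j ?_⟩
    have e : 1 * (n + (p - 1) * L) + (L + h j) = p * L + (n + h j) := by
      obtain ⟨q, rfl⟩ : ∃ q, p = q + 1 := ⟨p - 1, by omega⟩
      simp only [Nat.add_sub_cancel]
      ring
    rw [e] at hj
    exact (Nat.dvd_add_right (Dvd.intro L rfl)).1 hj
  obtain ⟨c, hc, r₀, hr₀, h1⟩ := consecLin (fun _ : Fin k => 1) (fun j => L + h j) (fun _ => le_rfl)
    (fun i j _ hij => hinj (by simpa using hij)) hadm'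
    (((range (2 * L + 1)).filter fun i => ∀ j, i ≠ L + h j).image fun i => (1, i))
    (fun e he => by
      obtain ⟨i, hi, rfl⟩ := mem_image.1 he
      obtain ⟨-, h3⟩ := mem_filter.1 hi
      exact ⟨le_rfl, fun j hj => h3 j hj.2.symm⟩) E
  refine ⟨c, hc, r₀, hr₀, fun r hr g hg => ?_⟩
  obtain ⟨κ, C, hκ, hC, h2⟩ := h1 r hr g hg
  refine ⟨κ, C, hκ, hC, ?_⟩
  filter_upwards [h2] with K hK
  intro N hLN hN A hA
  obtain ⟨e1, e2⟩ := hK (N - L) ((Nat.sub_le _ _).trans hN) A hA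
  have e3 : ∀ t x : ℕ, 1 * (N - L + t) + (L + x) = N + t + x := fun t x => by omega
  simp only [e3] at e1 e2
  refine ⟨?_, e2⟩
  rintro ⟨d, hd, hcop⟩
  refine (e1 ⟨d, hd, hcop⟩).trans (Nat.cast_le.2 (count_mono fun t ht hP => ?_))
  refine ⟨hP.1, fun n hn1 hn2 hn3 => ?_⟩
  have h5 := hP.2 (1, n + L - (N + t)) (mem_image.2 ⟨n + L - (N + t), mem_filter.2 ⟨mem_range.2 (by omega), fun j hj => hn3 j (by omega)⟩, rfl⟩)
  have e4 : 1 * (N - L + t) + (n + L - (N + t)) = n := by omega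
  simpa only [e4] using h5

end Pool.Agent.Q48.RD
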