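import Pool.Agent.Q48.RD.Win

/-!
# Densities of systems of linear forms, and a second moment method
-/

set_option autoImplicit false

namespace Pool.Agent.Q48.RD

open Filter Finset Polynomial
open Pool.Agent.Q315.RD
open Pool.Agent.Erdos456 (GG)

/-- A counting lemma: the elements with the same value as a smaller element give pairs. -/
lemma card_le_image_add_pairs {k : ℕ} {α : Type*} [DecidableEq α] (z : Fin k → α) (J : Finset (Fin k)) :
    J.card ≤ (J.image z).card + ((J ×ˢ J).filter fun x => x.1 < x.2 ∧ z x.1 = z x.2).card := by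
  classical
  refine Finset.induction_on_max J (by simp) ?_
  intro a s ha ih
  · have has : a ∉ s := fun h => (lt_irrefl _ (ha a h))
    rw [card_insert_of_notMem has, image_insert]
    have hsub : ((s ×ˢ s).filter fun x => x.1 < x.2 ∧ z x.1 = z x.2) ⊆
        ((insert a s ×ˢ insert a s).filter fun x => x.1 < x.2 ∧ z x.1 = z x.2) := by
      intro x hx
      simp only [mem_filter, mem_product, mem_insert] at hx ⊢
      exact ⟨⟨Or.inr hx.1.1, Or.inr hx.1.2⟩, hx.2⟩
    by_cases hza : z a ∈ s.image z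
    · obtain ⟨i, hi, hiz⟩ := mem_image.1 hza
      rw [insert_eq_of_mem hza]
      have h1 : ((s ×ˢ s).filter fun x => x.1 < x.2 ∧ z x.1 = z x.2).card + 1 ≤
          ((insert a s ×ˢ insert a s).filter fun x => x.1 < x.2 ∧ z x.1 = z x.2).card := by
        rw [← card_insert_of_notMem (a := (i, a)) (by
          intro h
          exact has (mem_product.1 (mem_filter.1 h).1).2)]
        apply card_le_card
        apply insert_subset _ hsub
        exact mem_filter.2 ⟨mem_product.2 ⟨mem_insert_of_mem hi, mem_insert_self _ _⟩, ha i hi, hiz⟩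
      omega
    · rw [card_insert_of_notMem hza]
      have := card_le_card hsub
      omega

/-- the number of the zeros of a system of linear forms -/
lemma zeros_ge {k : ℕ} (α β : Fin k → ℤ) {p : ℕ} (hp : p.Prime) :
    (univ.filter fun j : Fin k => ¬ (p : ℤ) ∣ α j).card ≤ (classes p fun n => (p : ℤ) ∣ ∏ j, (α j * n + β j)) +
      ((univ : Finset (Fin k × Fin k)).filter fun x => x.1 < x.2 ∧ (p : ℤ) ∣ α x.1 * β x.2 - α x.2 * β x.1).card := by
  classical
  have := Fact.mk hp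
  have hpz := Nat.prime_iff_prime_int.1 hp
  obtain ⟨z, hz⟩ : ∃ z : Fin k → ZMod p, z = fun j => -(β j : ZMod p) / (α j : ZMod p) := ⟨_, rfl⟩
  have h1 := card_le_image_add_pairs z (univ.filter fun j : Fin k => ¬ (p : ℤ) ∣ α j)
  refine h1.trans (Nat.add_le_add ?_ ?_)
  · rw [classes_eq]
    refine le_trans (card_le_card_of_injOn (fun x : ZMod p => x.val) ?_ (fun x _ y _ h => ZMod.val_injective p h)) le_rfl
    intro x hx
    rw [mem_coe, mem_image] at hx
    obtain ⟨j, hj, rfl⟩ := hx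
    rw [mem_filter] at hj
    rw [mem_coe, mem_filter, mem_range]
    refine ⟨ZMod.val_lt _, ?_⟩
    have ha : ((α j : ℤ) : ZMod p) ≠ 0 := fun h0 => hj.2 ((ZMod.intCast_zmod_eq_zero_iff_dvd _ p).1 h0)
    refine (hpz.dvd_finsetProd_iff _).2 ⟨j, mem_univ j, ?_⟩
    rw [← ZMod.intCast_zmod_eq_zero_iff_dvd]
    push_cast
    rw [ZMod.natCast_val, ZMod.cast_id, hz]
    field_simp
    ring
  · apply card_le_card
    intro x hx
    simp only [mem_filter, mem_product, mem_univ, true_and] at hx ⊢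
    obtain ⟨⟨h2, h3⟩, h4, h5⟩ := hx
    refine ⟨h4, ?_⟩
    have ha1 : ((α x.1 : ℤ) : ZMod p) ≠ 0 := fun h0 => h2 ((ZMod.intCast_zmod_eq_zero_iff_dvd _ p).1 h0)
    have ha2 : ((α x.2 : ℤ) : ZMod p) ≠ 0 := fun h0 => h3 ((ZMod.intCast_zmod_eq_zero_iff_dvd _ p).1 h0)
    rw [← ZMod.intCast_zmod_eq_zero_iff_dvd]
    push_cast
    rw [hz] at h5
    field_simp at h5
    linear_combination h5

/-- the density of a system of linear forms, compared with the densities of the single forms -/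
lemma linDensity_le {k : ℕ} (α β : Fin k → ℤ) (hΔ : ∀ i j, i < j → α i * β j - α j * β i ≠ 0) (y : ℕ) :
    linDensity α β y ≤ (∏ j, oneV (α j) y) *
      ∏ x ∈ (univ : Finset (Fin k × Fin k)).filter (fun x => x.1 < x.2), GG (α x.1 * β x.2 - α x.2 * β x.1).natAbs := by
  classical
  obtain ⟨R, hR⟩ : ∃ R : Finset (Fin k × Fin k), R = univ.filter (fun x => x.1 < x.2) := ⟨_, rfl⟩
  obtain ⟨Δ, hΔd⟩ : ∃ Δ : Fin k × Fin k → ℕ, Δ = fun x => (α x.1 * β x.2 - α x.2 * β x.1).natAbs := ⟨_, rfl⟩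
  have hΔ0 : ∀ x ∈ R, 1 ≤ Δ x := by
    intro x hx
    rw [hR, mem_filter] at hx
    rw [hΔd]
    exact Int.natAbs_pos.2 (hΔ x.1 x.2 hx.2)
  have hGG : ∀ x ∈ R, 1 ≤ GG (Δ x) := fun x hx => GG_ge_one (hΔ0 x hx)
  obtain ⟨b, hb⟩ : ∃ b : ℕ → ℕ, b = fun p => (R.filter fun x => p ∣ Δ x).card := ⟨_, rfl⟩
  have hrat : ∀ p : ℕ, p.Prime → 0 < 1 - 1 / (p : ℝ) ∧ 1 - 1 / (p : ℝ) ≤ 1 := by
    intro p hp
    have h2 : (2 : ℝ) ≤ p := by exact_mod_cast hp.two_le
    have h3 : 1 / (p : ℝ) ≤ 1 / 2 := one_div_le_one_div_of_le (by norm_num) h2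
    have h4 : 0 ≤ 1 / (p : ℝ) := by positivity
    constructor <;> linarith
  -- one prime
  have h1 : linDensity α β y * ∏ p ∈ (Icc 1 y).filter Nat.Prime, (1 - 1 / (p : ℝ)) ^ b p ≤ ∏ j, oneV (α j) y := by
    have hV : ∏ j, oneV (α j) y = ∏ p ∈ (Icc 1 y).filter Nat.Prime, (1 - 1 / (p : ℝ)) ^ (univ.filter fun j : Fin k => ¬ (p : ℤ) ∣ α j).card := by
      have e : ∀ j, oneV (α j) y = ∏ p ∈ (Icc 1 y).filter Nat.Prime, if ¬ (p : ℤ) ∣ α j then (1 - 1 / (p : ℝ)) else 1 := by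
        intro j
        unfold oneV
        rw [← filter_filter, prod_filter]
      simp only [e]
      rw [Finset.prod_comm]
      apply prod_congr rfl
      intro p _
      rw [← prod_filter, prod_const]
    rw [hV]
    unfold linDensity rootDensity
    rw [← prod_mul_distrib]
    apply Finset.prod_le_prod
    · intro p hp
      have hp2 := (mem_filter.1 hp).2
      have hp0 : (0 : ℝ) < p := by exact_mod_cast hp2.pos
      refine mul_nonneg ?_ (pow_nonneg (hrat p hp2).1.le _)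
      rw [sub_nonneg, div_le_one hp0]
      apply Nat.cast_le.2
      rw [classes_eq]
      exact (card_filter_le _ _).trans (card_range p).le
    · intro p hp
      have hp2 := (mem_filter.1 hp).2
      have hp0 : (0 : ℝ) < p := by exact_mod_cast hp2.pos
      obtain ⟨h2, h3⟩ := hrat p hp2
      have h4 : 1 - ((classes p fun n => (p : ℤ) ∣ ∏ j, (α j * n + β j) : ℕ) : ℝ) / p ≤
          (1 - 1 / (p : ℝ)) ^ (classes p fun n => (p : ℤ) ∣ ∏ j, (α j * n + β j)) := by
        have h5 := one_add_mul_le_pow (a := -(1 / (p : ℝ))) (by linarith) (classes p fun n => (p : ℤ) ∣ ∏ j, (α j * n + β j))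
        calc 1 - ((classes p fun n => (p : ℤ) ∣ ∏ j, (α j * n + β j) : ℕ) : ℝ) / p =
            1 + ((classes p fun n => (p : ℤ) ∣ ∏ j, (α j * n + β j) : ℕ) : ℝ) * -(1 / (p : ℝ)) := by ring
          _ ≤ _ := h5
          _ = _ := by rw [← sub_eq_add_neg]
      refine (mul_le_mul_of_nonneg_right h4 (pow_nonneg h2.le _)).trans ?_
      rw [← pow_add]
      apply pow_le_pow_of_le_one h2.le h3
      have h6 := zeros_ge α β hp2
      have h7 : ((univ : Finset (Fin k × Fin k)).filter fun x => x.1 < x.2 ∧ (p : ℤ) ∣ α x.1 * β x.2 - α x.2 * β x.1).card = b p := by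
        rw [hb, hR]
        simp only
        rw [filter_filter]
        congr 1
        apply filter_congr
        intro x _
        rw [hΔd]
        simp only [Int.natCast_dvd]
      rw [h7] at h6
      exact h6
  -- the product of the powers
  have h2 : 1 ≤ (∏ p ∈ (Icc 1 y).filter Nat.Prime, (1 - 1 / (p : ℝ)) ^ b p) * ∏ x ∈ R, GG (Δ x) := by
    have h3 : ∏ p ∈ (Icc 1 y).filter Nat.Prime, (1 - 1 / (p : ℝ)) ^ b p =
        ∏ x ∈ R, ∏ p ∈ (Icc 1 y).filter Nat.Prime, if p ∣ Δ x then (1 - 1 / (p : ℝ)) else 1 := by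
      rw [Finset.prod_comm]
      apply prod_congr rfl
      intro p _
      rw [← prod_filter, prod_const, hb]
    rw [h3, ← prod_mul_distrib]
    apply Finset.one_le_prod
    intro x hx
    have h4 : ∏ p ∈ (Δ x).primeFactors, (1 - 1 / (p : ℝ)) ≤ ∏ p ∈ (Icc 1 y).filter Nat.Prime, if p ∣ Δ x then (1 - 1 / (p : ℝ)) else 1 := by
      rw [← prod_filter]
      apply Finset.prod_le_prod_of_subset_of_le_one
      · intro p hp
        simp only [mem_filter, mem_Icc] at hp
        exact Nat.mem_primeFactors.2 ⟨hp.1.2, hp.2, by have := hΔ0 x hx; omega⟩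
      · intro p hp
        exact (hrat p (Nat.prime_of_mem_primeFactors hp)).1.le
      · intro p hp _
        exact (hrat p (Nat.prime_of_mem_primeFactors hp)).2
    have h5 := GG_prod (hΔ0 x hx)
    calc (1 : ℝ) = (∏ p ∈ (Δ x).primeFactors, (1 - 1 / (p : ℝ))) * GG (Δ x) := by rw [mul_comm, h5]
      _ ≤ _ := mul_le_mul_of_nonneg_right h4 (by linarith [hGG x hx])
  have h7 : 0 ≤ linDensity α β y := by
    unfold linDensity rootDensity
    apply prod_nonneg
    intro p hp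
    have hp2 := (mem_filter.1 hp).2
    have hp0 : (0 : ℝ) < p := by exact_mod_cast hp2.pos
    rw [sub_nonneg, div_le_one hp0]
    apply Nat.cast_le.2
    rw [classes_eq]
    exact (card_filter_le _ _).trans (card_range p).le
  have h8 : 0 ≤ ∏ x ∈ R, GG (Δ x) := prod_nonneg fun x hx => by linarith [hGG x hx]
  have h9 : ∏ x ∈ (univ : Finset (Fin k × Fin k)).filter (fun x => x.1 < x.2), GG (α x.1 * β x.2 - α x.2 * β x.1).natAbs =
      ∏ x ∈ R, GG (Δ x) := by rw [hR, hΔd]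
  rw [h9]
  calc linDensity α β y ≤ linDensity α β y * ((∏ p ∈ (Icc 1 y).filter Nat.Prime, (1 - 1 / (p : ℝ)) ^ b p) * ∏ x ∈ R, GG (Δ x)) :=
        le_mul_of_one_le_right h7 h2
    _ = (linDensity α β y * ∏ p ∈ (Icc 1 y).filter Nat.Prime, (1 - 1 / (p : ℝ)) ^ b p) * ∏ x ∈ R, GG (Δ x) := by ring
    _ ≤ _ := mul_le_mul_of_nonneg_right h1 h8

/-- forms without fixed divisors are a system without fixed divisors, unless there is a small prime -/
lemma adm_or {k : ℕ} (α β : Fin k → ℤ) (hco : ∀ j, IsCoprime (α j) (β j)) :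
    AdmZ α β ∨ ∃ p : ℕ, p.Prime ∧ p ≤ k ∧ ∀ n : ℤ, ∃ j, (p : ℤ) ∣ α j * n + β j := by
  classical
  by_cases h : AdmZ α β
  · exact Or.inl h
  right
  unfold AdmZ at h
  push Not at h
  obtain ⟨p, hp, h1⟩ := h
  refine ⟨p, hp, ?_, h1⟩
  by_contra hcon
  push Not at hcon
  have hpz := Nat.prime_iff_prime_int.1 hp
  choose f hf using fun n : Fin p => h1 ((n : ℕ) : ℤ)
  obtain ⟨n, n', hne, hnn⟩ := Fintype.exists_ne_map_eq_of_card_lt f (by simpa using hcon)
  have h2 := hf n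
  have h3 := hf n'
  rw [← hnn] at h3
  have h4 : (p : ℤ) ∣ α (f n) * (((n : ℕ) : ℤ) - ((n' : ℕ) : ℤ)) := by
    have := dvd_sub h2 h3
    have e : α (f n) * ((n : ℕ) : ℤ) + β (f n) - (α (f n) * ((n' : ℕ) : ℤ) + β (f n)) = α (f n) * (((n : ℕ) : ℤ) - ((n' : ℕ) : ℤ)) := by ring
    rwa [e] at this
  rcases hpz.dvd_mul.1 h4 with h5 | h5
  · have h6 : (p : ℤ) ∣ β (f n) := (dvd_add_right (h5.mul_right _)).1 h2
    exact hpz.not_isUnit ((hco (f n)).isUnit_of_dvd' h5 h6)
  · apply hne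
    apply Fin.ext
    have h6 := n.2
    have h7 := n'.2
    have h8 : (((n : ℕ) : ℤ) - ((n' : ℕ) : ℤ)) = 0 := by
      apply Int.eq_zero_of_abs_lt_dvd h5
      rw [abs_lt]
      constructor <;> omega
    omega

/-- **Upper bounds for systems of linear forms at integers with restricted digits, in terms of the single forms.** -/
theorem upForms (k E : ℕ) :
    ∃ c : ℝ, 0 < c ∧ ∃ r₀ : ℕ, 2 ≤ r₀ ∧ ∀ r : ℕ, r₀ ≤ r → ∀ g : ℕ, 2 ≤ g → ∃ C : ℝ, 0 < C ∧
      ∀ᶠ K : ℕ in atTop, ∀ (α β : Fin k → ℤ) (N : ℕ) (f : Fin k → ℕ → ℕ), (∀ j, |α j| ≤ (g : ℤ) ^ (E * K)) →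
        (∀ j, |β j| ≤ (g : ℤ) ^ (E * K)) → N ≤ g ^ (E * K) → (∀ j, IsCoprime (α j) (β j)) →
        (∀ i j, i < j → α i * β j - α j * β i ≠ 0) →
        (∀ t < g ^ K, ∀ j, (f j t : ℤ) = α j * ((N : ℤ) + t) + β j) → ∀ A : ℕ → Finset ℕ, Rich c g K A →
          (count g K A (fun t => ∀ j, AlmostPrime (g ^ K) r (f j t)) : ℝ) ≤ C * ((∏ j, oneV (α j) (g ^ K)) *
            ∏ x ∈ (univ : Finset (Fin k × Fin k)).filter (fun x => x.1 < x.2), GG (α x.1 * β x.2 - α x.2 * β x.1).natAbs) *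
              choices K A := by
  obtain ⟨c, hc, r0, hr0, h⟩ := famLinR k E
  refine ⟨c, hc, r0, hr0, fun r hr g hg => ?_⟩
  obtain ⟨κ, C', hκ, hC, h1⟩ := h r hr g hg
  refine ⟨C', hC, ?_⟩
  filter_upwards [h1, eventually_ge_atTop (k * r + 1)] with K hK hK1
  intro α β N f hα hβ hN hco hΔ hf A hA
  have hcs : (0 : ℝ) ≤ choices K A := Nat.cast_nonneg _
  have hrhs : 0 ≤ (∏ j, oneV (α j) (g ^ K)) *
      ∏ x ∈ (univ : Finset (Fin k × Fin k)).filter (fun x => x.1 < x.2), GG (α x.1 * β x.2 - α x.2 * β x.1).natAbs := by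
    apply mul_nonneg (prod_nonneg fun j _ => oneV_nonneg _ _)
    apply prod_nonneg
    intro x _
    unfold GG
    positivity
  rcases adm_or α β hco with hadm | ⟨p, hp, hpk, hdiv⟩
  · obtain ⟨-, h2⟩ := hK α β N f hα hβ hN hadm hf A hA
    have h3 : count g K A (fun t => ∀ j, AlmostPrime (g ^ K) r (f j t)) ≤ count g K A (fun t => ∀ j, RoughAt r t (f j t)) :=
      count_mono fun t ht hP j => roughAt_of (hP j) ht.le
    refine (Nat.cast_le.2 h3).trans (h2.trans ?_)
    apply mul_le_mul_of_nonneg_right _ hcs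
    exact mul_le_mul_of_nonneg_left (linDensity_le α β hΔ _) hC.le
  · have h0 : count g K A (fun t => ∀ j, AlmostPrime (g ^ K) r (f j t)) = 0 := by
      apply count_zero
      intro t ht hP
      obtain ⟨j, hj⟩ := hdiv ((N : ℤ) + t)
      rw [← hf t ht j] at hj
      have h2 := (hP j).1 p hp (Int.natCast_dvd_natCast.1 hj)
      have h3 : p ^ r ≤ g ^ K := by
        calc p ^ r ≤ (2 ^ k) ^ r := Nat.pow_le_pow_left (hpk.trans (Nat.lt_two_pow_self).le) r
          _ = 2 ^ (k * r) := by rw [← pow_mul]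
          _ ≤ 2 ^ K := Nat.pow_le_pow_right (by norm_num) (by omega)
          _ ≤ g ^ K := Nat.pow_le_pow_left hg K
      omega
    rw [h0, Nat.cast_zero]
    positivity

/-- **The second moment method**, relative to a base event `B`. -/
theorem pz {g K : ℕ} {A : ℕ → Finset ℕ} {ι : Type*} (H : Finset ι) (B : ℕ → Prop)
    (P : ι → ℕ → Prop) (b X Y : ℝ) (hb0 : 0 < b) (hX0 : 0 ≤ X) (hY0 : 0 < Y)
    (hb : (count g K A B : ℝ) ≤ b * choices K A)
    (hX : X * choices K A ≤ ∑ h ∈ H, (count g K A (fun t => B t ∧ P h t) : ℝ))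
    (hY : ∑ h ∈ H, ∑ h' ∈ H, (count g K A (fun t => B t ∧ P h t ∧ P h' t) : ℝ) ≤ Y * choices K A) :
    open Classical in
    X ^ 2 / (4 * Y) * choices K A ≤ count g K A (fun t => B t ∧ X / (2 * b) ≤ ((H.filter fun h => P h t).card : ℝ)) := by
  classical
  obtain ⟨Q, hQ⟩ : ∃ Q : ℝ, Q = choices K A := ⟨_, rfl⟩
  have hQ0 : 0 ≤ Q := by rw [hQ]; exact Nat.cast_nonneg _
  obtain ⟨D, hD⟩ : ∃ D : Finset ℕ, D = (range (g ^ K)).filter (fun t => HasDigits g K A t ∧ B t) := ⟨_, rfl⟩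
  obtain ⟨S, hS⟩ : ∃ S : ℕ → ℝ, S = fun t => ((H.filter fun h => P h t).card : ℝ) := ⟨_, rfl⟩
  have hS0 : ∀ t, 0 ≤ S t := fun t => by rw [hS]; exact Nat.cast_nonneg _
  rw [← hQ] at hb hX hY ⊢
  have hDc : (D.card : ℝ) ≤ b * Q := by
    refine le_trans (le_of_eq ?_) hb
    rw [hD]
    unfold count
    congr!
  have hcB : ∀ R : ℕ → Prop, (count g K A (fun t => B t ∧ R t) : ℝ) = ∑ t ∈ D, if R t then 1 else 0 := by
    intro R
    unfold count
    rw [sum_boole, hD, filter_filter]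
    congr 2
    ext t
    simp only [mem_filter]
    tauto
  have hX1 : X * Q ≤ ∑ t ∈ D, S t := by
    refine hX.trans (le_of_eq ?_)
    simp only [hcB]
    rw [sum_comm]
    apply sum_congr rfl
    intro t _
    rw [hS, sum_boole]
  have hY1 : ∑ t ∈ D, S t ^ 2 ≤ Y * Q := by
    refine le_trans (le_of_eq ?_) hY
    simp only [hcB]
    have h1 : ∀ t, S t ^ 2 = ∑ h ∈ H, ∑ h' ∈ H, if P h t ∧ P h' t then (1 : ℝ) else 0 := by
      intro t
      simp only [hS]
      rw [sq, ← sum_boole, sum_mul_sum]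
      apply sum_congr rfl
      intro h _
      apply sum_congr rfl
      intro h' _
      split_ifs <;> simp_all
    simp only [h1]
    rw [sum_comm]
    apply sum_congr rfl
    intro h _
    rw [sum_comm]
    exact sum_congr rfl fun y _ => sum_congr rfl fun x _ => by congr
  obtain ⟨G, hG⟩ : ∃ G : Finset ℕ, G = D.filter fun t => X / (2 * b) ≤ S t := ⟨_, rfl⟩
  have hlow : X * Q / 2 ≤ ∑ t ∈ G, S t := by
    have h1 : ∑ t ∈ D, S t = ∑ t ∈ G, S t + ∑ t ∈ D.filter (fun t => ¬ X / (2 * b) ≤ S t), S t := by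
      rw [hG, sum_filter_add_sum_filter_not]
    have h2 : ∑ t ∈ D.filter (fun t => ¬ X / (2 * b) ≤ S t), S t ≤ X * Q / 2 := by
      calc ∑ t ∈ D.filter (fun t => ¬ X / (2 * b) ≤ S t), S t ≤
            ∑ t ∈ D.filter (fun t => ¬ X / (2 * b) ≤ S t), X / (2 * b) :=
            sum_le_sum fun t ht => (not_le.1 (mem_filter.1 ht).2).le
        _ = (D.filter (fun t => ¬ X / (2 * b) ≤ S t)).card * (X / (2 * b)) := by rw [sum_const, nsmul_eq_mul]
        _ ≤ (b * Q) * (X / (2 * b)) := by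
            apply mul_le_mul_of_nonneg_right _ (by positivity)
            exact le_trans (by exact_mod_cast card_filter_le _ _) hDc
        _ = _ := by field_simp
    linarith
  have hcs : (∑ t ∈ G, S t) ^ 2 ≤ G.card * ∑ t ∈ D, S t ^ 2 := by
    have h1 := sq_sum_le_card_mul_sum_sq (s := G) (f := S)
    refine h1.trans (mul_le_mul_of_nonneg_left ?_ (Nat.cast_nonneg _))
    rw [hG]
    exact sum_le_sum_of_subset_of_nonneg (filter_subset _ _) fun _ _ _ => sq_nonneg _
  have hfin : (G.card : ℝ) = count g K A (fun t => B t ∧ X / (2 * b) ≤ ((H.filter fun h => P h t).card : ℝ)) := by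
    rw [hG, hD, filter_filter, hS]
    unfold count
    congr 2
    ext t
    simp only [mem_filter]
    tauto
  rw [← hfin]
  have h1 : (X * Q / 2) ^ 2 ≤ G.card * (Y * Q) := by
    refine (pow_le_pow_left₀ (by positivity) hlow 2).trans (hcs.trans ?_)
    exact mul_le_mul_of_nonneg_left hY1 (Nat.cast_nonneg _)
  rcases hQ0.lt_or_eq with hQp | hQz
  · rw [div_mul_eq_mul_div, div_le_iff₀ (by positivity)]
    have h2 : X ^ 2 * Q * Q ≤ G.card * (4 * Y) * Q := by
      calc X ^ 2 * Q * Q = 4 * (X * Q / 2) ^ 2 := by ring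
        _ ≤ 4 * (G.card * (Y * Q)) := by linarith
        _ = _ := by ring
    exact le_of_mul_le_mul_right h2 hQp
  · rw [← hQz, mul_zero]
    exact Nat.cast_nonneg _

end Pool.Agent.Q48.RD
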