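import Pool.Agent.Q48.RD.Lin

/-!
# Patterns at both ends of an interval, at distances with restricted digits from the end points
-/

set_option autoImplicit false

namespace Pool.Agent.Q48.RD

open Filter Finset
open Pool.Agent.Q315.RD

/-- the leading coefficients -/
def endsA (k : ℕ) : Fin (k + k) → ℤ := Fin.append (fun _ => 1) (fun _ => -1)

/-- the constant terms -/
def endsB {k : ℕ} (h : Fin k → ℕ) (a b : ℕ) : Fin (k + k) → ℤ := Fin.append (fun i => ((a + h i : ℕ) : ℤ)) (fun i => (b : ℤ) - h i)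

/-- The product of `1 - ν (p) / p` over the primes `p ≤ y`, `ν (p)` the number of the zeros modulo `p` of the product of the `2 k`
polynomials `a + h_j + X`, `b - h_j - X`. -/
noncomputable def endsV {k : ℕ} (h : Fin k → ℕ) (a b y : ℕ) : ℝ := linDensity (endsA k) (endsB h a b) y

/-- All numbers `a + m + h_j` and `b - m - h_j` have the property `Q`. -/
def AtEnds {k : ℕ} (h : Fin k → ℕ) (a b : ℕ) (Q : ℕ → Prop) (m : ℕ) : Prop := ∀ j, Q (a + m + h j) ∧ Q (b - (m + h j))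

lemma ends_adm {k : ℕ} (h : Fin k → ℕ) (a b : ℕ)
    (hs : ∀ p : ℕ, p.Prime → p ≤ k + k → ∃ m : ℤ, ∀ j, ¬ (p : ℤ) ∣ (a : ℤ) + h j + m ∧ ¬ (p : ℤ) ∣ (b : ℤ) - h j - m) :
    AdmZ (endsA k) (endsB h a b) := by
  intro p hp
  rcases Nat.lt_or_ge (k + k) p with hk | hk
  · refine adm_bigZ _ _ hp hk fun j => ?_
    have h1 : ¬ (p : ℤ) ∣ 1 := fun h1 => by
      have h2 : (p : ℤ) ∣ ((1 : ℕ) : ℤ) := by exact_mod_cast h1
      exact hp.one_lt.ne' (Nat.dvd_one.1 (Int.natCast_dvd_natCast.1 h2))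
    unfold endsA
    refine Fin.addCases (fun i => ?_) (fun i => ?_) j
    · rw [Fin.append_left]; exact h1
    · rw [Fin.append_right, dvd_neg]; exact h1
  · obtain ⟨m, hm⟩ := hs p hp hk
    refine ⟨m, fun j => ?_⟩
    unfold endsA endsB
    refine Fin.addCases (fun i => ?_) (fun i => ?_) j
    · rw [Fin.append_left, Fin.append_left]
      have h1 : 1 * m + ((a + h i : ℕ) : ℤ) = (a : ℤ) + h i + m := by push_cast; ring
      rw [h1]
      exact (hm i).1
    · rw [Fin.append_right, Fin.append_right]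
      have h1 : -1 * m + ((b : ℤ) - h i) = (b : ℤ) - h i - m := by ring
      rw [h1]
      exact (hm i).2

lemma ends_adm_sym {k : ℕ} (h : Fin k → ℕ) (a b : ℕ) (hab : (2 * k).factorial ∣ a + b)
    (hh : ∀ p : ℕ, p.Prime → ∃ m : ℕ, ∀ j, ¬ p ∣ m + h j) : AdmZ (endsA k) (endsB h a b) := by
  apply ends_adm
  intro p hp hpk
  obtain ⟨m, hm⟩ := hh p hp
  have h1 : p ∣ a + b := ((Nat.Prime.dvd_factorial hp).2 (by omega)).trans hab
  have h2 : (p : ℤ) ∣ (a : ℤ) + b := by exact_mod_cast Int.natCast_dvd_natCast.2 h1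
  refine ⟨(m : ℤ) - a, fun j => ⟨fun h3 => hm j ?_, fun h3 => hm j ?_⟩⟩
  · have h4 : (a : ℤ) + h j + (m - a) = ((m + h j : ℕ) : ℤ) := by push_cast; ring
    rw [h4] at h3
    exact Int.natCast_dvd_natCast.1 h3
  · have h4 := dvd_sub h2 h3
    have h5 : (a : ℤ) + b - (b - h j - (m - a)) = ((m + h j : ℕ) : ℤ) := by push_cast; ring
    rw [h5] at h4
    exact Int.natCast_dvd_natCast.1 h4

/-- **Patterns at both ends of an interval.** -/
theorem ends {k : ℕ} (h : Fin k → ℕ) (E : ℕ) :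
    ∃ c : ℝ, 0 < c ∧ ∃ r₀ : ℕ, 2 ≤ r₀ ∧ ∀ r : ℕ, r₀ ≤ r → ∀ g : ℕ, 2 ≤ g → ∃ κ C : ℝ, 0 < κ ∧ 0 < C ∧
      ∀ᶠ K : ℕ in atTop, ∀ a b m₀ : ℕ, b ≤ g ^ (E * K) → (∀ j, a + 2 * (m₀ + g ^ K + h j) ≤ b) →
        AdmZ (endsA k) (endsB h a b) → ∀ A : ℕ → Finset ℕ, Rich c g K A →
          ((∃ d ∈ A 0, AtEnds h a b (fun n => n.Coprime g) (m₀ + d)) →
            κ * endsV h a b (g ^ K) * choices K A ≤ count g K A (fun t => AtEnds h a b (AlmostPrime (g ^ K) r) (m₀ + t)) ∧
            κ * choices K A / (K : ℝ) ^ (2 * k) ≤ count g K A (fun t => AtEnds h a b (AlmostPrime (g ^ K) r) (m₀ + t))) ∧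
          (count g K A (fun t => AtEnds h a b Nat.Prime (m₀ + t)) : ℝ) ≤ C * endsV h a b (g ^ K) * choices K A := by
  obtain ⟨c, hc, r₀, hr₀, h0⟩ := famLin' (k + k) (E + 1)
  refine ⟨c, hc, r₀, hr₀, fun r hr g hg => ?_⟩
  obtain ⟨κ, C, hκ, hC, h1⟩ := h0 r hr g hg
  refine ⟨κ, C, hκ, hC, ?_⟩
  filter_upwards [h1, eventually_ge_atTop (1 + ∑ j, h j)] with K hK hK1
  intro a b m₀ hb hab hadm A hA
  have hg1 : 1 ≤ g := by omega
  have hpow : g ^ (E * K) ≤ g ^ ((E + 1) * K) := Nat.pow_le_pow_right hg1 (by nlinarith)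
  obtain ⟨f, hf⟩ : ∃ f : Fin (k + k) → ℕ → ℕ, f = Fin.append (fun (i : Fin k) t => a + (m₀ + t) + h i)
    (fun (i : Fin k) t => b - (m₀ + t + h i)) := ⟨_, rfl⟩
  have hfl : ∀ (i : Fin k) t, f (Fin.castAdd k i) t = a + (m₀ + t) + h i := fun i t => by rw [hf, Fin.append_left]
  have hfr : ∀ (i : Fin k) t, f (Fin.natAdd k i) t = b - (m₀ + t + h i) := fun i t => by rw [hf, Fin.append_right]
  have hconv : ∀ (Q : ℕ → Prop) (t : ℕ), (∀ j, Q (f j t)) ↔ AtEnds h a b Q (m₀ + t) := by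
    intro Q t
    constructor
    · intro hQ i
      have h2 := hQ (Fin.castAdd k i)
      have h3 := hQ (Fin.natAdd k i)
      rw [hfl] at h2
      rw [hfr] at h3
      exact ⟨h2, h3⟩
    · intro hQ j
      refine Fin.addCases (fun i => ?_) (fun i => ?_) j
      · rw [hfl]; exact (hQ i).1
      · rw [hfr]; exact (hQ i).2
  by_cases hk : k = 0
  · -- no forms
    subst hk
    have h4 : (1 : ℤ) ≤ (g : ℤ) ^ ((E + 1) * K) := by
      have : 1 ≤ g ^ ((E + 1) * K) := Nat.one_le_pow _ _ hg1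
      exact_mod_cast this
    obtain ⟨h2, h3⟩ := hK (endsA 0) (endsB h a b) 0 f (fun j => j.elim0) (fun j => j.elim0) (Nat.zero_le _) hadm
      (fun t _ j => j.elim0) (fun t _ j => j.elim0) A hA
    simp only [hconv] at h2 h3
    refine ⟨?_, h3⟩
    rintro ⟨d, hd, -⟩
    obtain ⟨h5, h6⟩ := h2 ⟨d, hd, fun j => j.elim0⟩
    exact ⟨h5, h6⟩
  have hk1 : 0 < k := Nat.pos_of_ne_zero hk
  have hb2 := hab ⟨0, hk1⟩
  have habs : ∀ x : ℕ, x ≤ b → (x : ℤ) ≤ (g : ℤ) ^ ((E + 1) * K) := by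
    intro x hx
    exact_mod_cast (hx.trans hb).trans hpow
  obtain ⟨h2, h3⟩ := hK (endsA k) (endsB h a b) m₀ f
    (fun j => by
      have h4 : (1 : ℤ) ≤ (g : ℤ) ^ ((E + 1) * K) := by
        have : 1 ≤ g ^ ((E + 1) * K) := Nat.one_le_pow _ _ hg1
        exact_mod_cast this
      unfold endsA
      refine Fin.addCases (fun i => ?_) (fun i => ?_) j
      · rw [Fin.append_left, abs_one]; exact h4
      · rw [Fin.append_right, abs_neg, abs_one]; exact h4)
    (fun j => by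
      unfold endsB
      refine Fin.addCases (fun i => ?_) (fun i => ?_) j
      · rw [Fin.append_left, abs_of_nonneg (by positivity)]
        exact habs _ (by have := hab i; omega)
      · rw [Fin.append_right]
        have h5 := habs b le_rfl
        have h6 : (h i : ℤ) ≤ b := by
          have := hab i
          exact_mod_cast (by omega : h i ≤ b)
        rw [abs_of_nonneg (by linarith)]
        have h7 : (0 : ℤ) ≤ h i := by positivity
        linarith)
    (by
      have := habs m₀ (by omega)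
      exact_mod_cast this)
    hadm
    (fun t ht j => by
      unfold endsA endsB
      refine Fin.addCases (fun i => ?_) (fun i => ?_) j
      · rw [Fin.append_left, Fin.append_left, hfl]
        push_cast
        ring
      · rw [Fin.append_right, Fin.append_right, hfr]
        have h5 : m₀ + t + h i ≤ b := by have := hab i; omega
        rw [Nat.cast_sub h5]
        push_cast
        ring)
    (fun t ht j => by
      refine Fin.addCases (fun i => ?_) (fun i => ?_) j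
      · rw [hfl]
        omega
      · rw [hfr]
        have h5 := hab i
        omega) A hA
  simp only [hconv] at h2 h3
  refine ⟨?_, h3⟩
  rintro ⟨d, hd, h4⟩
  obtain ⟨h5, h6⟩ := h2 ⟨d, hd, (hconv (fun m => m.Coprime g) d).2 h4⟩
  rw [← two_mul] at h6
  exact ⟨h5, h6⟩

end Pool.Agent.Q48.RD
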