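import Pool.Agent.Q48.RD.Rough

/-!
# Almost prime values of linear forms at integers with restricted digits, with composite values of other forms
-/

set_option autoImplicit false

namespace Pool.Agent.Q48.RD

open Filter Finset Polynomial
open Pool.Agent.Q315.RD
open Pool.Agent.W123.RU.Poly (Sys)
open Pool.Agent.W182.PW (lin lin_eval)

/-- No prime divides, for every `n`, one of the numbers `a_j n + b_j`. -/
def AdmLin {k : ℕ} (a b : Fin k → ℕ) : Prop := ∀ p : ℕ, p.Prime → ∃ n : ℕ, ∀ j, ¬ p ∣ a j * n + b j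

lemma coprime_of_adm {k : ℕ} {a b : Fin k → ℕ} (h : AdmLin a b) (j : Fin k) : (a j).Coprime (b j) := by
  by_contra hcon
  obtain ⟨p, hp, h1, h2⟩ := Nat.Prime.not_coprime_iff_dvd.1 hcon
  obtain ⟨n, hn⟩ := h p hp
  exact hn j (dvd_add (h1.mul_right _) h2)

lemma sysLin {k : ℕ} (a b : Fin k → ℕ) (ha : ∀ j, 1 ≤ a j) (hinj : ∀ i j, a i = a j → b i = b j → i = j)
    (hadm : AdmLin a b) : Sys (fun j => lin (a j) (b j : ℤ)) :=
  Pool.Agent.TH977.PW.sys_lin a (fun j => (b j : ℤ)) (fun j => ha j)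
    (fun j => Nat.isCoprime_iff_coprime.2 (coprime_of_adm hadm j))
    (fun i j h1 h2 => hinj i j h1 (by exact_mod_cast h2))
    (fun p hp => by
      obtain ⟨n, hn⟩ := hadm p hp
      refine ⟨n, fun j hd => hn j ?_⟩
      exact_mod_cast hd)

/-- Primes which are larger than the number of the forms are no obstruction. -/
lemma adm_big {k : ℕ} (a b : Fin k → ℕ) {p : ℕ} (hp : p.Prime) (hk : k < p) (ha : ∀ j, ¬ p ∣ a j) :
    ∃ n : ℕ, ∀ j, ¬ p ∣ a j * n + b j := by
  classical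
  have ha0 : ∀ j, (a j : ℤ) ≠ 0 := fun j h => ha j (by
    have : a j = 0 := by exact_mod_cast h
    rw [this]
    exact dvd_zero p)
  have hpz := Nat.prime_iff_prime_int.1 hp
  obtain ⟨n, hn⟩ := Pool.Agent.Y816.PD.adm_deg hp (∏ j, (C (a j : ℤ) * X + C (b j : ℤ)))
    (by
      rw [leadingCoeff_prod]
      intro h
      obtain ⟨j, -, hj⟩ := (hpz.dvd_finsetProd_iff _).1 h
      rw [leadingCoeff_linear (ha0 j)] at hj
      exact ha j (Int.natCast_dvd_natCast.1 hj))
    (by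
      refine lt_of_le_of_lt (natDegree_prod_le _ _) ?_
      refine lt_of_le_of_lt (sum_le_card_nsmul _ _ 1 fun j _ => ?_) (by simpa using hk)
      rw [natDegree_linear (ha0 j)])
  refine ⟨n, fun j hj => hn ?_⟩
  rw [eval_prod]
  refine (Int.natCast_dvd_natCast.2 hj).trans ?_
  have : ((a j * n + b j : ℕ) : ℤ) = (C (a j : ℤ) * X + C (b j : ℤ)).eval (n : ℤ) := by simp
  rw [this]
  exact dvd_prod_of_mem (fun j => (C (a j : ℤ) * X + C (b j : ℤ)).eval (n : ℤ)) (mem_univ j)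

/-- A sparse set of digits still has many elements. -/
lemma many (m k : ℕ) : ∀ᶠ K : ℕ in atTop, ∀ g : ℕ, 2 ≤ g → ∀ A : ℕ → Finset ℕ, Rich (1 / 2) g K A →
    (m : ℝ) ≤ choices K A / (K : ℝ) ^ k := by
  have h1 : Tendsto (fun K : ℕ => (K : ℝ) ^ k / (Real.exp (1 / 8)) ^ K) atTop (nhds 0) :=
    tendsto_pow_const_div_const_pow_of_one_lt k (Real.one_lt_exp_iff.2 (by norm_num))
  have h2 : ∀ᶠ K : ℕ in atTop, (m : ℝ) * ((K : ℝ) ^ k / (Real.exp (1 / 8)) ^ K) < 1 := by
    have h3 := h1.const_mul (m : ℝ)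
    rw [mul_zero] at h3
    exact (tendsto_order.1 h3).2 1 one_pos
  filter_upwards [h2, eventually_ge_atTop 1] with K hK hK1 g hg A hA
  have hK0 : (0 : ℝ) < K := by exact_mod_cast hK1
  have he : 0 < (Real.exp (1 / 8)) ^ K := by positivity
  have h4 : (m : ℝ) * (K : ℝ) ^ k ≤ (Real.exp (1 / 8)) ^ K := by
    rw [← mul_div_assoc, div_lt_one he] at hK
    exact hK.le
  have h5 : Real.exp (5 / 8) ≤ 2 := by
    rw [← Real.le_log_iff_exp_le (by norm_num)]
    linarith [Real.log_two_gt_d9]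
  have h6 : Real.exp (1 / 2 * K) * (Real.exp (1 / 8)) ^ K ≤ (g : ℝ) ^ K := by
    rw [mul_comm (1 / 2 : ℝ) K, Real.exp_nat_mul, ← mul_pow, ← Real.exp_add]
    apply pow_le_pow_left₀ (Real.exp_pos _).le
    have h7 : (2 : ℝ) ≤ g := by exact_mod_cast hg
    have h8 : (1 / 2 + 1 / 8 : ℝ) = 5 / 8 := by norm_num
    rw [h8]
    exact h5.trans h7
  have h9 : Real.exp (1 / 2 * K) * (Real.exp (1 / 8)) ^ K ≤ Real.exp (1 / 2 * K) * choices K A := h6.trans hA.2
  have h10 : (Real.exp (1 / 8)) ^ K ≤ (choices K A : ℝ) := le_of_mul_le_mul_left h9 (Real.exp_pos _)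
  rw [le_div_iff₀ (by positivity)]
  exact h4.trans h10

/-- **Almost prime values of linear forms at integers with restricted digits, the values of other forms not being primes.** -/
theorem exactLin {k : ℕ} (a b : Fin k → ℕ) (ha : ∀ j, 1 ≤ a j) (hinj : ∀ i j, a i = a j → b i = b j → i = j)
    (hadm : AdmLin a b) (S : Finset (ℕ × ℕ)) (hS : ∀ e ∈ S, 1 ≤ e.1 ∧ ∀ j, ¬ (a j = e.1 ∧ b j = e.2)) (E : ℕ) :
    ∃ c : ℝ, 0 < c ∧ ∃ r₀ : ℕ, 2 ≤ r₀ ∧ ∀ r : ℕ, r₀ ≤ r → ∀ g : ℕ, 2 ≤ g → ∃ κ C : ℝ, 0 < κ ∧ 0 < C ∧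
      ∀ᶠ K : ℕ in atTop, ∀ N : ℕ, N ≤ g ^ (E * K) → ∀ A : ℕ → Finset ℕ, Rich c g K A →
        ((∃ d ∈ A 0, ∀ j, (a j * (N + d) + b j).Coprime g) →
          κ * choices K A / (K : ℝ) ^ k ≤ count g K A fun t =>
            (∀ j, AlmostPrime (g ^ K) r (a j * (N + t) + b j)) ∧ ∀ e ∈ S, ¬ (e.1 * (N + t) + e.2).Prime) ∧
        (count g K A (fun t => ∀ j, (a j * (N + t) + b j).Prime) : ℝ) ≤ C * choices K A / (K : ℝ) ^ k := by
  classical
  -- the good exceptional forms
  obtain ⟨T, hT⟩ : ∃ T : Finset (ℕ × ℕ), T = S.filter fun e => AdmLin (Fin.cons e.1 a : Fin (k + 1) → ℕ) (Fin.cons e.2 b) := ⟨_, rfl⟩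
  obtain ⟨c1, hc1, r1, hr1, h1⟩ := fixN (fun j => lin (a j) (b j : ℤ)) (sysLin a b ha hinj hadm) (fun j n => a j * n + b j) 0
    (fun j n _ => by rw [lin_eval]; push_cast; rfl) E
  obtain ⟨c2, hc2, r2, hr2, h2⟩ := fixNs T
    (fun e j => lin ((Fin.cons e.1 a : Fin (k + 1) → ℕ) j) (((Fin.cons e.2 b : Fin (k + 1) → ℕ) j : ℕ) : ℤ))
    (fun e he => by
      rw [hT, mem_filter] at he
      obtain ⟨he1, he2⟩ := he
      obtain ⟨h3, h4⟩ := hS e he1
      refine sysLin _ _ (fun j => ?_) (fun i j => ?_) he2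
      · refine Fin.cases ?_ (fun j => ?_) j
        · simpa using h3
        · simpa using ha j
      · refine Fin.cases ?_ (fun i => ?_) i
        · refine Fin.cases ?_ (fun j => ?_) j
          · intro _ _; rfl
          · intro h5 h6
            simp only [Fin.cons_zero, Fin.cons_succ] at h5 h6
            exact absurd ⟨h5.symm, h6.symm⟩ (h4 j)
        · refine Fin.cases ?_ (fun j => ?_) j
          · intro h5 h6
            simp only [Fin.cons_zero, Fin.cons_succ] at h5 h6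
            exact absurd ⟨h5, h6⟩ (h4 i)
          · intro h5 h6
            simp only [Fin.cons_succ] at h5 h6
            rw [hinj i j h5 h6])
    (fun e j n => (Fin.cons e.1 a : Fin (k + 1) → ℕ) j * n + (Fin.cons e.2 b : Fin (k + 1) → ℕ) j) 0
    (fun e _ j n _ => by rw [lin_eval]; push_cast; rfl) E
  -- the primes for the other exceptional forms
  have hbad : ∀ e : ℕ × ℕ, ∃ q : ℕ, e ∈ S → e ∉ T → q.Prime ∧ ∀ n : ℕ, (∃ j, q ∣ a j * n + b j) ∨ q ∣ e.1 * n + e.2 := by
    intro e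
    by_cases he : e ∈ S ∧ e ∉ T
    · rw [hT, mem_filter] at he
      have h3 : ¬ AdmLin (Fin.cons e.1 a : Fin (k + 1) → ℕ) (Fin.cons e.2 b) := fun h => he.2 ⟨he.1, h⟩
      unfold AdmLin at h3
      push Not at h3
      obtain ⟨q, hq, h4⟩ := h3
      refine ⟨q, fun _ _ => ⟨hq, fun n => ?_⟩⟩
      obtain ⟨j, hj⟩ := h4 n
      revert hj
      refine Fin.cases (fun hj => Or.inr (by simpa using hj)) (fun j hj => Or.inl ⟨j, by simpa using hj⟩) j
    · exact ⟨0, fun h5 h6 => absurd ⟨h5, h6⟩ he⟩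
  choose q hq using hbad
  obtain ⟨m, hm⟩ : ∃ m : ℕ, ∀ e ∈ S, q e ≤ m :=
    ⟨∑ e ∈ S, q e, fun e he => single_le_sum (f := q) (fun _ _ => Nat.zero_le _) he⟩
  refine ⟨min (min c1 c2) (1 / 2), by positivity, max r1 r2, hr1.trans (le_max_left _ _), fun r hr g hg => ?_⟩
  have hr2' : 2 ≤ r := (hr1.trans (le_max_left _ _)).trans hr
  obtain ⟨κ, C1, hκ, hC1, h3⟩ := h1 r ((le_max_left _ _).trans hr) g hg
  obtain ⟨C2, hC2, h4⟩ := h2 r ((le_max_right _ _).trans hr) g hg
  refine ⟨κ / 2, C1, by positivity, hC1, ?_⟩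
  filter_upwards [h3, h4, removes (C := max C2 1) S hκ k, many (m + 1) (k + 1), eventually_ge_atTop (m * r + 1)]
    with K hK3 hK4 hK5 hK6 hKr
  intro N hN A hA
  have hcs : (0 : ℝ) ≤ choices K A := Nat.cast_nonneg _
  obtain ⟨e1, e2⟩ := hK3 N (Nat.zero_le _) hN A (rich_mono hA ((min_le_left _ _).trans (min_le_left _ _)))
  have e3 := fun h hh => hK4 h hh N (Nat.zero_le _) hN A (rich_mono hA ((min_le_left _ _).trans (min_le_right _ _)))
  have e4 := hK6 g hg A (rich_mono hA (min_le_right _ _))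
  have hmr : m ^ r < g ^ K := by
    calc m ^ r ≤ (2 ^ m) ^ r := Nat.pow_le_pow_left (Nat.lt_two_pow_self).le r
      _ = 2 ^ (m * r) := by rw [pow_mul]
      _ < 2 ^ K := Nat.pow_lt_pow_right (by norm_num) (by omega)
      _ ≤ g ^ K := Nat.pow_le_pow_left hg K
  refine ⟨fun hd => ?_, ?_⟩
  · refine hK5 g A (fun t => ∀ j, AlmostPrime (g ^ K) r (a j * (N + t) + b j)) _
      (fun e t => (∀ j, AlmostPrime (g ^ K) r (a j * (N + t) + b j)) ∧ (e.1 * (N + t) + e.2).Prime)
      (fun t ht hP => ?_) (e1 hd) (fun e he => ?_)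
    · by_cases hQ : ∀ e ∈ S, ¬ (e.1 * (N + t) + e.2).Prime
      · exact Or.inl ⟨hP, hQ⟩
      · push Not at hQ
        obtain ⟨e, he1, he2⟩ := hQ
        exact Or.inr ⟨e, he1, hP, he2⟩
    · by_cases heT : e ∈ T
      · refine le_trans (Nat.cast_le.2 (count_mono fun t ht hp => ?_)) ((e3 e heT).trans ?_)
        · intro j
          refine Fin.cases ?_ (fun j => ?_) j
          · simp only [Fin.cons_zero]
            refine roughAt_prime hr2' hp.2 ?_
            have h5 := (hS e he).1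
            have h6 : N + t ≤ e.1 * (N + t) := Nat.le_mul_of_pos_left _ h5
            omega
          · simp only [Fin.cons_succ]
            exact roughAt_of (hp.1 j) ht.le
        · exact div_le_div_of_nonneg_right (mul_le_mul_of_nonneg_right (le_max_left _ _) hcs) (by positivity)
      · obtain ⟨hq1, hq2⟩ := hq e he heT
        have h5 : count g K A (fun t => (∀ j, AlmostPrime (g ^ K) r (a j * (N + t) + b j)) ∧ (e.1 * (N + t) + e.2).Prime) ≤ m + 1 := by
          unfold count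
          refine le_trans (card_le_card (t := range (m + 1)) ?_) (card_range _).le
          intro t ht
          simp only [mem_filter] at ht
          obtain ⟨-, -, h6, h7⟩ := ht
          rw [mem_range]
          rcases hq2 (N + t) with ⟨j, hj⟩ | hj
          · have h8 := (h6 j).1 _ hq1 hj
            have h9 : q e ^ r ≤ m ^ r := Nat.pow_le_pow_left (hm e he) r
            omega
          · have h8 : q e = e.1 * (N + t) + e.2 := (Nat.prime_dvd_prime_iff_eq hq1 h7).1 hj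
            have h9 := (hS e he).1
            have h10 : N + t ≤ e.1 * (N + t) := Nat.le_mul_of_pos_left _ h9
            have h11 := hm e he
            omega
        calc (count g K A (fun t => (∀ j, AlmostPrime (g ^ K) r (a j * (N + t) + b j)) ∧ (e.1 * (N + t) + e.2).Prime) : ℝ) ≤
              ((m + 1 : ℕ) : ℝ) := Nat.cast_le.2 h5
          _ ≤ choices K A / (K : ℝ) ^ (k + 1) := e4
          _ = 1 * choices K A / (K : ℝ) ^ (k + 1) := by rw [one_mul]
          _ ≤ _ := div_le_div_of_nonneg_right (mul_le_mul_of_nonneg_right (le_max_right _ _) hcs) (by positivity)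
  · refine le_trans (Nat.cast_le.2 (count_mono fun t ht hp j => roughAt_prime hr2' (hp j) ?_)) e2
    have h6 : N + t ≤ a j * (N + t) := Nat.le_mul_of_pos_left _ (ha j)
    omega

end Pool.Agent.Q48.RD
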