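import Pool.Agent.Q315.RD2
import Pool.Agent.W123.RU.PolyV

/-!
# Values of polynomials at integers with restricted digits: a version for families of systems

A variant of `Pool.Agent.Q315.RD.formsZ` for systems of polynomials with an arbitrary base point.
-/

set_option autoImplicit false

namespace Pool.Agent.Q48.RD

open Filter Finset Polynomial
open Pool.Agent.Q315.RD

lemma count_congr {g K : ℕ} {A : ℕ → Finset ℕ} {P Q : ℕ → Prop} (h : ∀ t < g ^ K, (P t ↔ Q t)) :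
    count g K A P = count g K A Q :=
  le_antisymm (count_mono fun t ht => (h t ht).1) (count_mono fun t ht => (h t ht).2)

/-- **Families of systems of polynomials at integers with restricted digits.** -/
theorem fam (k δ D : ℕ) :
    ∃ c : ℝ, 0 < c ∧ ∃ r₀ : ℕ, 2 ≤ r₀ ∧ ∀ r : ℕ, r₀ ≤ r → ∀ g : ℕ, 2 ≤ g → ∃ κ C : ℝ, 0 < κ ∧ 0 < C ∧
      ∀ᶠ K : ℕ in atTop, ∀ P : Fin k → ℤ[X], (∀ j, (P j).natDegree ≤ δ) →
        (∀ p : ℕ, p.Prime → ∃ t : ℤ, ∀ j, ¬ (p : ℤ) ∣ (P j).eval t) → ∀ N : ℕ,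
        (∀ t < g ^ K, ∀ j, t ≤ ((P j).eval ((N : ℤ) + t)).natAbs) →
        (∀ t < g ^ K, ∀ j, ((P j).eval ((N : ℤ) + t)).natAbs ≤ g ^ (D * K)) →
        ∀ A : ℕ → Finset ℕ, Rich c g K A →
          ((∃ d ∈ A 0, ∀ j, ((P j).eval ((N : ℤ) + d)).natAbs.Coprime g) →
            κ * rootDensity (fun n => ∏ j, (P j).eval (n : ℤ)) (g ^ K) * choices K A ≤
              count g K A fun t => ∀ j, AlmostPrime (g ^ K) r ((P j).eval ((N : ℤ) + t)).natAbs) ∧
          (count g K A (fun t => ∀ j, ((P j).eval ((N : ℤ) + t)).natAbs.Prime) : ℝ) ≤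
            C * rootDensity (fun n => ∏ j, (P j).eval (n : ℤ)) (g ^ K) * choices K A := by
  classical
  obtain ⟨c, hc, r0, hr0, h⟩ := formsZ (k * δ + 1) (k * D) (by omega)
  refine ⟨c, hc, r0, hr0, fun r hr g hg => ?_⟩
  obtain ⟨κ, C, hκ, hC, h1⟩ := h r hr g hg
  refine ⟨κ, C, hκ, hC, ?_⟩
  filter_upwards [h1] with K hK
  intro P hdeg hadm N hpos hsz A hA
  have hden : rootDensity (fun t => ∏ j, (P j).eval ((N : ℤ) + t)) (g ^ K) =
      rootDensity (fun n => ∏ j, (P j).eval (n : ℤ)) (g ^ K) := by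
    have h2 := rootDensity_shift (∏ j, P j) N (g ^ K)
    simpa only [eval_prod] using h2
  have h3 := hK k (fun j t => (P j).eval ((N : ℤ) + t))
    ⟨(∏ j, P j).comp (X + Polynomial.C (N : ℤ)), by
      rw [natDegree_comp, natDegree_X_add_C, mul_one]
      refine (natDegree_prod_le _ _).trans ?_
      have h4 : ∑ j : Fin k, (P j).natDegree ≤ ∑ _j : Fin k, δ := sum_le_sum fun j _ => hdeg j
      rw [sum_const, card_univ, Fintype.card_fin, smul_eq_mul] at h4
      omega, fun t => by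
      rw [eval_comp, eval_add, eval_X, eval_C, add_comm, eval_prod]⟩
    (fun p hp => by
      obtain ⟨t, ht⟩ := hadm p hp
      have hp0 : (0 : ℤ) < p := by exact_mod_cast hp.pos
      refine ⟨((t - N) % p).toNat, fun hd => ?_⟩
      obtain ⟨j, hj⟩ := (dvd_prodZ (fun j t => (P j).eval ((N : ℤ) + t)) hp _).1 hd
      apply ht j
      have e : ((((t - N) % p).toNat : ℕ) : ℤ) = (t - N) % p := Int.toNat_of_nonneg (Int.emod_nonneg _ hp0.ne')
      rw [e] at hj
      refine (dvd_eval_iff (P j) ?_).1 hj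
      have h5 : (p : ℤ) ∣ (t - N) % p - (t - N) := by
        have := Int.emod_add_mul_ediv (t - N) p
        exact ⟨-((t - N) / p), by linarith⟩
      have h6 : (N : ℤ) + (t - N) % p - t = (t - N) % p - (t - N) := by ring
      rw [h6]
      exact h5)
    hpos
    (fun t ht => by
      calc ∏ j, ((P j).eval ((N : ℤ) + t)).natAbs ≤ ∏ _j : Fin k, g ^ (D * K) :=
            prod_le_prod (fun _ _ => Nat.zero_le _) (fun j _ => hsz t ht j)
        _ = g ^ (k * D * K) := by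
            rw [prod_const, card_univ, Fintype.card_fin, ← pow_mul]
            congr 1
            ring)
    A hA
  rw [hden] at h3
  exact h3

lemma density_fam {k : ℕ} (P : Fin k → ℤ[X]) (f : Fin k → ℕ → ℕ) (h : ∀ (j : Fin k) (n : ℕ), (P j).eval (n : ℤ) = f j n) (y : ℕ) :
    rootDensity (fun n => ∏ j, (P j).eval (n : ℤ)) y = density f y := by
  rw [← density_eq, rootDensity_eq]
  congr 1
  funext n
  exact prod_congr rfl fun j _ => h j n

/-- The version of `fam` for polynomials with values in the natural numbers. -/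
theorem famN (k δ D : ℕ) :
    ∃ c : ℝ, 0 < c ∧ ∃ r₀ : ℕ, 2 ≤ r₀ ∧ ∀ r : ℕ, r₀ ≤ r → ∀ g : ℕ, 2 ≤ g → ∃ κ C : ℝ, 0 < κ ∧ 0 < C ∧
      ∀ᶠ K : ℕ in atTop, ∀ (P : Fin k → ℤ[X]) (f : Fin k → ℕ → ℕ), (∀ (j : Fin k) (n : ℕ), (P j).eval (n : ℤ) = f j n) →
        (∀ j, (P j).natDegree ≤ δ) → (∀ p : ℕ, p.Prime → ∃ n : ℕ, ∀ j, ¬ p ∣ f j n) → ∀ N : ℕ,
        (∀ t < g ^ K, ∀ j, t ≤ f j (N + t)) → (∀ t < g ^ K, ∀ j, f j (N + t) ≤ g ^ (D * K)) →
        ∀ A : ℕ → Finset ℕ, Rich c g K A →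
          ((∃ d ∈ A 0, ∀ j, (f j (N + d)).Coprime g) →
            κ * density f (g ^ K) * choices K A ≤
              count g K A fun t => ∀ j, AlmostPrime (g ^ K) r (f j (N + t))) ∧
          (count g K A (fun t => ∀ j, (f j (N + t)).Prime) : ℝ) ≤ C * density f (g ^ K) * choices K A := by
  obtain ⟨c, hc, r0, hr0, h⟩ := fam k δ D
  refine ⟨c, hc, r0, hr0, fun r hr g hg => ?_⟩
  obtain ⟨κ, C, hκ, hC, h1⟩ := h r hr g hg
  refine ⟨κ, C, hκ, hC, ?_⟩
  filter_upwards [h1] with K hK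
  intro P f hf hdeg hadm N hpos hsz A hA
  have e : ∀ (j : Fin k) (t : ℕ), (P j).eval ((N : ℤ) + t) = (f j (N + t) : ℤ) := by
    intro j t
    rw [← hf j (N + t)]
    push_cast
    rfl
  have h2 := hK P hdeg (fun p hp => by
    obtain ⟨n, hn⟩ := hadm p hp
    refine ⟨n, fun j hd => hn j ?_⟩
    rw [hf] at hd
    exact Int.natCast_dvd_natCast.1 hd) N
    (fun t ht j => by rw [e, Int.natAbs_natCast]; exact hpos t ht j)
    (fun t ht j => by rw [e, Int.natAbs_natCast]; exact hsz t ht j) A hA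
  rw [density_fam P f hf] at h2
  simpa only [e, Int.natAbs_natCast] using h2

open Pool.Agent.W123.RU.Poly Pool.Agent.W123.RP Pool.Agent.H373R2.T7 in
/-- The order of magnitude of the sieve product of a fixed system. -/
lemma order {k : ℕ} (P : Fin k → ℤ[X]) (hP : Sys P) (g : ℕ) (hg : 2 ≤ g) :
    ∃ v C : ℝ, 0 < v ∧ 0 < C ∧ ∀ᶠ K : ℕ in atTop,
      v / (K : ℝ) ^ k ≤ rootDensity (fun n => ∏ j, (P j).eval (n : ℤ)) (g ^ K) ∧
      rootDensity (fun n => ∏ j, (P j).eval (n : ℤ)) (g ^ K) ≤ C / (K : ℝ) ^ k := by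
  obtain ⟨v, Cv, hv, hCv, h⟩ := V_bounds P hP
  have hb1 : (1 : ℝ) < g := by exact_mod_cast (by omega : 1 < g)
  have hlb : 0 < Real.log g := Real.log_pos hb1
  have key : ∀ y : ℕ, rootDensity (fun n => ∏ j, (P j).eval (n : ℤ)) y = Vq (Pool.Agent.W123.RU.Poly.Q P) y := by
    intro y
    unfold rootDensity Vq pz
    apply prod_congr rfl
    intro p hp
    have hp2 := (mem_filter.1 hp).2
    congr 3
    unfold classes nuB
    apply congrArg
    ext t
    simp only [mem_filter]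
    refine and_congr_right fun _ => ?_
    exact dvd_prodZ (fun j n => (P j).eval (n : ℤ)) hp2 t
  refine ⟨v / Real.log g ^ k, Cv / Real.log g ^ k, by positivity, by positivity, ?_⟩
  filter_upwards [eventually_ge_atTop 2] with K hK
  have hK0 : (0 : ℝ) < K := by exact_mod_cast (by omega : 0 < K)
  have h3 : 3 ≤ g ^ K := by
    calc 3 ≤ 2 ^ 2 := by norm_num
      _ ≤ 2 ^ K := Nat.pow_le_pow_right (by norm_num) hK
      _ ≤ g ^ K := Nat.pow_le_pow_left hg K
  obtain ⟨h4, h5⟩ := h (g ^ K) h3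
  rw [key]
  rw [Fintype.card_fin] at h4 h5
  push_cast at h4 h5
  rw [Real.log_pow] at h4 h5
  have e : ∀ u : ℝ, u / Real.log g ^ k / (K : ℝ) ^ k = u / ((K : ℝ) * Real.log g) ^ k := by
    intro u
    rw [mul_pow]
    field_simp
  rw [e, e]
  exact ⟨h4, h5⟩

end Pool.Agent.Q48.RD
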