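import Pool.Agent.Q48.RD.Den

/-!
# Moments of `n / φ (n)`
-/

set_option autoImplicit false

namespace Pool.Agent.Q48.RD

open Filter Finset
open Pool.Agent.Erdos456 (GG)

lemma pow_compare (m : ℕ) : ∃ c : ℝ, 0 ≤ c ∧ ∀ x : ℝ, 0 ≤ x → x ≤ 1 / 2 → 1 ≤ (1 - x) ^ m * (1 + c * x) := by
  induction m with
  | zero => exact ⟨0, le_rfl, fun x _ _ => by simp⟩
  | succ m ih =>
    obtain ⟨c, hc, h⟩ := ih
    refine ⟨2 * c + 2, by linarith, fun x hx hx2 => ?_⟩
    have h1 := h x hx hx2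
    have h2 : 1 ≤ (1 - x) * (1 + 2 * x) := by nlinarith
    have h3 : (1 + c * x) * (1 + 2 * x) ≤ 1 + (2 * c + 2) * x := by nlinarith [mul_nonneg hc hx]
    have h4 : 0 ≤ (1 - x) ^ (m + 1) := pow_nonneg (by linarith) _
    have h5 : 0 ≤ (1 - x) ^ m * (1 + c * x) := by linarith
    calc (1 : ℝ) = 1 * 1 := (one_mul 1).symm
      _ ≤ ((1 - x) ^ m * (1 + c * x)) * ((1 - x) * (1 + 2 * x)) := mul_le_mul h1 h2 zero_le_one h5
      _ = (1 - x) ^ (m + 1) * ((1 + c * x) * (1 + 2 * x)) := by ring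
      _ ≤ _ := mul_le_mul_of_nonneg_left h3 h4

lemma sum_prod_le (c : ℝ) (hc : 0 ≤ c) (X : ℕ) :
    ∑ n ∈ Icc 1 X, ∏ p ∈ n.primeFactors, (1 + c / (p : ℝ)) ≤ Real.exp (2 * c) * X := by
  classical
  obtain ⟨R, hR⟩ : ∃ R : Finset ℕ, R = (Icc 1 X).filter Nat.Prime := ⟨_, rfl⟩
  have h1 : ∀ n ∈ Icc 1 X, ∏ p ∈ n.primeFactors, (1 + c / (p : ℝ)) = ∑ s ∈ R.powerset, if s ⊆ n.primeFactors then ∏ p ∈ s, c / (p : ℝ) else 0 := by
    intro n hn
    rw [mem_Icc] at hn
    have hsub : n.primeFactors ⊆ R := by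
      intro p hp
      rw [hR, mem_filter, mem_Icc]
      have h2 := Nat.prime_of_mem_primeFactors hp
      exact ⟨⟨h2.pos, (Nat.le_of_dvd (by omega) (Nat.dvd_of_mem_primeFactors hp)).trans hn.2⟩, h2⟩
    rw [prod_one_add, ← sum_filter]
    apply sum_congr _ fun _ _ => rfl
    ext s
    simp only [mem_powerset, mem_filter]
    exact ⟨fun h => ⟨h.trans hsub, h⟩, fun h => h.2⟩
  rw [sum_congr rfl h1, sum_comm]
  have h2 : ∀ s ∈ R.powerset, ∑ n ∈ Icc 1 X, (if s ⊆ n.primeFactors then ∏ p ∈ s, c / (p : ℝ) else 0) ≤ X * ∏ p ∈ s, c / (p : ℝ) ^ 2 := by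
    intro s hs
    rw [mem_powerset] at hs
    have hprime : ∀ p ∈ s, p.Prime := fun p hp => by
      have := hs hp
      rw [hR, mem_filter] at this
      exact this.2
    have hs0 : 0 < ∏ p ∈ s, p := prod_pos fun p hp => (hprime p hp).pos
    have hc0 : 0 ≤ ∏ p ∈ s, c / (p : ℝ) := prod_nonneg fun p _ => by positivity
    rw [← sum_filter, sum_const, nsmul_eq_mul]
    have h3 : (((Icc 1 X).filter fun n => s ⊆ n.primeFactors).card : ℝ) ≤ X / ((∏ p ∈ s, p : ℕ) : ℝ) := by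
      have h4 : ((Icc 1 X).filter fun n => s ⊆ n.primeFactors).card ≤ X / ∏ p ∈ s, p := by
        rw [← Nat.Ioc_filter_dvd_card_eq_div]
        apply card_le_card
        intro n hn
        rw [mem_filter, mem_Icc] at hn
        rw [mem_filter, mem_Ioc]
        refine ⟨⟨by omega, hn.1.2⟩, ?_⟩
        exact (prod_dvd_prod_of_subset _ _ _ hn.2).trans (Nat.prod_primeFactors_dvd n)
      exact (Nat.cast_le.2 h4).trans Nat.cast_div_le
    refine (mul_le_mul_of_nonneg_right h3 hc0).trans (le_of_eq ?_)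
    have h5 : ∏ p ∈ s, c / (p : ℝ) ^ 2 = (∏ p ∈ s, c / (p : ℝ)) / ((∏ p ∈ s, p : ℕ) : ℝ) := by
      push_cast
      rw [← prod_div_distrib]
      apply prod_congr rfl
      intro p hp
      have : (p : ℝ) ≠ 0 := by exact_mod_cast (hprime p hp).ne_zero
      field_simp
    rw [h5]
    ring
  refine (sum_le_sum h2).trans ?_
  rw [← mul_sum, mul_comm]
  apply mul_le_mul_of_nonneg_right _ (Nat.cast_nonneg X)
  rw [← prod_one_add]
  have h3 : ∏ p ∈ R, (1 + c / (p : ℝ) ^ 2) ≤ ∏ p ∈ R, Real.exp (c / (p : ℝ) ^ 2) := by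
    apply Finset.prod_le_prod
    · intro p _; positivity
    · intro p _
      rw [add_comm]
      exact Real.add_one_le_exp _
  refine h3.trans ?_
  rw [← Real.exp_sum]
  apply Real.exp_le_exp.2
  have h4 : ∑ p ∈ R, c / (p : ℝ) ^ 2 ≤ ∑ n ∈ Icc 1 X, c / (n : ℝ) ^ 2 := by
    rw [hR]
    exact sum_le_sum_of_subset_of_nonneg (filter_subset _ _) fun _ _ _ => by positivity
  refine h4.trans ?_
  have h5 : ∀ X : ℕ, ∑ n ∈ Icc 1 X, c / (n : ℝ) ^ 2 ≤ 2 * c - c / X := by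
    intro X
    induction X with
    | zero =>
      simp
      linarith
    | succ X ih =>
      rw [sum_Icc_succ_top (by omega)]
      rcases Nat.eq_zero_or_pos X with rfl | hX
      · simp
        linarith
      · have hX0 : (0 : ℝ) < X := by exact_mod_cast hX
        have h6 : c / ((X + 1 : ℕ) : ℝ) ^ 2 ≤ c / X - c / (X + 1 : ℕ) := by
          push_cast
          rw [div_sub_div _ _ hX0.ne' (by positivity), div_le_div_iff₀ (by positivity) (by positivity)]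
          nlinarith [mul_nonneg hc hX0.le, mul_nonneg hc (sq_nonneg (X : ℝ))]
        linarith
  have := h5 X
  have h6 : 0 ≤ c / (X : ℝ) := by positivity
  linarith

/-- **All moments of `n / φ (n)` are bounded.** -/
theorem GG_moment (m : ℕ) : ∃ C : ℝ, 0 < C ∧ ∀ X : ℕ, ∑ n ∈ Icc 1 X, GG n ^ m ≤ C * X := by
  obtain ⟨c, hc, h⟩ := pow_compare m
  refine ⟨Real.exp (2 * c), Real.exp_pos _, fun X => le_trans (sum_le_sum fun n hn => ?_) (sum_prod_le c hc X)⟩
  rw [mem_Icc] at hn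
  have h1 := GG_prod hn.1
  have hG := GG_ge_one hn.1
  have h2 : 1 ≤ (∏ p ∈ n.primeFactors, (1 - 1 / (p : ℝ))) ^ m * ∏ p ∈ n.primeFactors, (1 + c / (p : ℝ)) := by
    rw [← prod_pow, ← prod_mul_distrib]
    apply Finset.one_le_prod
    intro p hp
    have h2 : (2 : ℝ) ≤ p := by exact_mod_cast (Nat.prime_of_mem_primeFactors hp).two_le
    have h3 := h (1 / p) (by positivity) (one_div_le_one_div_of_le (by norm_num) h2)
    rwa [mul_one_div] at h3
  calc GG n ^ m = GG n ^ m * 1 := (mul_one _).symm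
    _ ≤ GG n ^ m * ((∏ p ∈ n.primeFactors, (1 - 1 / (p : ℝ))) ^ m * ∏ p ∈ n.primeFactors, (1 + c / (p : ℝ))) :=
        mul_le_mul_of_nonneg_left h2 (by positivity)
    _ = (GG n * ∏ p ∈ n.primeFactors, (1 - 1 / (p : ℝ))) ^ m * ∏ p ∈ n.primeFactors, (1 + c / (p : ℝ)) := by
        rw [mul_pow]; ring
    _ = _ := by rw [h1, one_pow, one_mul]

end Pool.Agent.Q48.RD
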