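import Pool.Agent.Q48.RD.Two

/-!
# Families of polynomials at integers with restricted digits, with an explicit lower bound
-/

set_option autoImplicit false

namespace Pool.Agent.Q48.RD

open Filter Finset Polynomial
open Pool.Agent.Q315.RD
open Pool.Agent.W182.PW (lin lin_eval)

/-- **A lower bound for the sieve products with at most `k` zeros modulo the primes, and without fixed divisors.** -/
lemma rootDensity_lower (k g : ℕ) (hg : 2 ≤ g) : ∃ v : ℝ, 0 < v ∧ ∀ᶠ K : ℕ in atTop, ∀ G : ℕ → ℤ,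
    (∀ p : ℕ, p.Prime → (classes p fun n => (p : ℤ) ∣ G n) ≤ k ∧ (classes p fun n => (p : ℤ) ∣ G n) < p) →
    v / (K : ℝ) ^ k ≤ rootDensity G (g ^ K) := by
  classical
  have hadm0 : AdmLin (fun _ : Fin k => 1) (fun i : Fin k => (i : ℕ) * k.factorial) := by
    intro p hp
    rcases Nat.lt_or_ge k p with h | h
    · exact adm_big _ _ hp h fun _ h1 => hp.one_lt.ne' (Nat.dvd_one.1 h1)
    · refine ⟨1, fun j h1 => hp.one_lt.ne' (Nat.dvd_one.1 ?_)⟩
      have h2 : p ∣ (j : ℕ) * k.factorial := ((Nat.Prime.dvd_factorial hp).2 h).mul_left _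
      have h3 := (Nat.dvd_add_left h2).1 h1
      simpa using h3
  obtain ⟨v, C, hv, -, h⟩ := order _ (sysLin (fun _ : Fin k => 1) (fun i : Fin k => (i : ℕ) * k.factorial) (fun _ => le_refl 1)
    (fun i j _ h1 => Fin.ext (Nat.eq_of_mul_eq_mul_right (Nat.factorial_pos k) h1)) hadm0) g hg
  refine ⟨v / ∏ p ∈ (Icc 1 k).filter Nat.Prime, (p : ℝ), div_pos hv (prod_pos fun p hp => ?_), ?_⟩
  · exact_mod_cast (mem_filter.1 hp).2.pos
  filter_upwards [h, eventually_ge_atTop 1] with K hK hK1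
  intro G hadm
  have hD : 0 < ∏ p ∈ (Icc 1 k).filter Nat.Prime, (p : ℝ) := prod_pos fun p hp => by exact_mod_cast (mem_filter.1 hp).2.pos
  rw [div_div, mul_comm, ← div_div, div_le_iff₀ hD]
  refine hK.1.trans ?_
  unfold rootDensity
  -- compare the factors
  obtain ⟨w, hw⟩ : ∃ w : ℕ → ℝ, w = fun p => if p ≤ k then (p : ℝ) else 1 := ⟨_, rfl⟩
  have h1 : ∏ p ∈ (Icc 1 (g ^ K)).filter Nat.Prime, w p ≤ ∏ p ∈ (Icc 1 k).filter Nat.Prime, (p : ℝ) := by
    have h2 : ∏ p ∈ (Icc 1 (g ^ K)).filter Nat.Prime, w p = ∏ p ∈ ((Icc 1 (g ^ K)).filter Nat.Prime).filter (fun p => p ≤ k), (p : ℝ) := by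
      rw [hw]
      exact (prod_filter _ _).symm
    rw [h2]
    have h3 : ∏ p ∈ ((Icc 1 (g ^ K)).filter Nat.Prime).filter (fun p => p ≤ k), p ≤ ∏ p ∈ (Icc 1 k).filter Nat.Prime, p := by
      apply Finset.prod_le_prod_of_subset_of_one_le'
      · intro p hp
        simp only [mem_filter, mem_Icc] at hp ⊢
        exact ⟨⟨hp.1.1.1, hp.2⟩, hp.1.2⟩
      · intro p hp _
        exact (mem_filter.1 hp).2.pos
    calc ∏ p ∈ ((Icc 1 (g ^ K)).filter Nat.Prime).filter (fun p => p ≤ k), (p : ℝ) =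
          ((∏ p ∈ ((Icc 1 (g ^ K)).filter Nat.Prime).filter (fun p => p ≤ k), p : ℕ) : ℝ) := by push_cast; rfl
      _ ≤ ((∏ p ∈ (Icc 1 k).filter Nat.Prime, p : ℕ) : ℝ) := Nat.cast_le.2 h3
      _ = _ := by push_cast; rfl
  calc ∏ p ∈ (Icc 1 (g ^ K)).filter Nat.Prime, (1 - (classes p fun n => (p : ℤ) ∣ ∏ j : Fin k,
        (Pool.Agent.W182.PW.lin 1 (((j : ℕ) * k.factorial : ℕ) : ℤ)).eval (n : ℤ)) / (p : ℝ))
      ≤ ∏ p ∈ (Icc 1 (g ^ K)).filter Nat.Prime, ((1 - (classes p fun n => (p : ℤ) ∣ G n) / (p : ℝ)) * w p) := by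
        apply Finset.prod_le_prod
        · intro p hp
          have hp2 := (mem_filter.1 hp).2
          have hp0 : (0 : ℝ) < p := by exact_mod_cast hp2.pos
          rw [sub_nonneg, div_le_one hp0]
          apply Nat.cast_le.2
          rw [classes_eq]
          exact (card_filter_le _ _).trans (card_range p).le
        · intro p hp
          have hp2 := (mem_filter.1 hp).2
          have hp0 : (0 : ℝ) < p := by exact_mod_cast hp2.pos
          rw [hw]
          by_cases hpk : p ≤ k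
          · simp only [hpk, if_true]
            have h3 := (hadm p hp2).2
            have h4 : ((classes p fun n => (p : ℤ) ∣ G n : ℕ) : ℝ) + 1 ≤ p := by exact_mod_cast h3
            have h5 : (1 - ((classes p fun n => (p : ℤ) ∣ G n : ℕ) : ℝ) / (p : ℝ)) * p =
                p - ((classes p fun n => (p : ℤ) ∣ G n : ℕ) : ℝ) := by
              field_simp
            rw [h5]
            have h6 : (0 : ℝ) ≤ ((classes p fun n => (p : ℤ) ∣ ∏ j : Fin k,
              (Pool.Agent.W182.PW.lin 1 (((j : ℕ) * k.factorial : ℕ) : ℤ)).eval (n : ℤ)) : ℕ) / (p : ℝ) := by positivity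
            linarith
          · simp only [hpk, if_false, mul_one]
            apply sub_le_sub_left
            apply div_le_div_of_nonneg_right _ hp0.le
            apply Nat.cast_le.2
            refine ((hadm p hp2).1).trans ?_
            have h3 := roots_ge hp2 (by omega : k < p)
            have h4 : ∀ n : ℕ, ∏ j : Fin k, (Pool.Agent.W182.PW.lin 1 (((j : ℕ) * k.factorial : ℕ) : ℤ)).eval (n : ℤ) =
                ∏ i : Fin k, ((1 : ℤ) * n + ((i : ℕ) * k.factorial : ℕ)) := by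
              intro n
              apply prod_congr rfl
              intro i _
              rw [Pool.Agent.W182.PW.lin_eval]
              push_cast
              rfl
            simp only [h4]
            exact h3
    _ = (∏ p ∈ (Icc 1 (g ^ K)).filter Nat.Prime, (1 - (classes p fun n => (p : ℤ) ∣ G n) / (p : ℝ))) *
          ∏ p ∈ (Icc 1 (g ^ K)).filter Nat.Prime, w p := prod_mul_distrib
    _ ≤ _ := by
        apply mul_le_mul_of_nonneg_left h1
        apply prod_nonneg
        intro p hp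
        have hp2 := (mem_filter.1 hp).2
        have hp0 : (0 : ℝ) < p := by exact_mod_cast hp2.pos
        rw [sub_nonneg, div_le_one hp0]
        exact Nat.cast_le.2 ((hadm p hp2).2).le

/-- The number of the zeros of a polynomial. -/
lemma classes_poly {m : ℕ} (P : ℤ[X]) {p : ℕ} (hp : p.Prime) (hne : ∃ t : ℤ, ¬ (p : ℤ) ∣ P.eval t) (hdeg : P.natDegree ≤ m) :
    (classes p fun n => (p : ℤ) ∣ P.eval (n : ℤ)) ≤ m ∧ (classes p fun n => (p : ℤ) ∣ P.eval (n : ℤ)) < p := by
  classical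
  have := Fact.mk hp
  obtain ⟨t, ht⟩ := hne
  have hev : ∀ n : ℤ, (p : ℤ) ∣ P.eval n ↔ (P.map (Int.castRingHom (ZMod p))).eval (n : ZMod p) = 0 := by
    intro n
    rw [← ZMod.intCast_zmod_eq_zero_iff_dvd, eval_intCast_map]
    simp
  have hP0 : P.map (Int.castRingHom (ZMod p)) ≠ 0 := by
    intro h0
    apply ht
    rw [hev, h0, eval_zero]
  rw [classes_eq]
  constructor
  · have h1 : ((range p).filter fun n : ℕ => (p : ℤ) ∣ P.eval (n : ℤ)).card ≤
        (P.map (Int.castRingHom (ZMod p))).roots.toFinset.card := by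
      apply card_le_card_of_injOn (fun n : ℕ => (n : ZMod p))
      · intro n hn
        have hn' := mem_filter.1 (mem_coe.1 hn)
        rw [mem_coe, Multiset.mem_toFinset, mem_roots hP0, IsRoot]
        have h2 := (hev n).1 hn'.2
        simpa using h2
      · intro n hn n' hn' h2
        have h3 := mem_range.1 (mem_filter.1 (mem_coe.1 hn)).1
        have h4 := mem_range.1 (mem_filter.1 (mem_coe.1 hn')).1
        have h5 := congrArg ZMod.val h2
        simp only [ZMod.val_natCast, Nat.mod_eq_of_lt h3, Nat.mod_eq_of_lt h4] at h5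
        exact h5
    refine h1.trans ((Multiset.toFinset_card_le _).trans ((card_roots' _).trans ((natDegree_map_le).trans hdeg)))
  · have h1 : ((range p).filter fun n : ℕ => (p : ℤ) ∣ P.eval (n : ℤ)) ⊂ range p := by
      refine (filter_ssubset).2 ⟨((t : ZMod p)).val, mem_range.2 (ZMod.val_lt _), fun h2 => ht ?_⟩
      rw [hev] at h2 ⊢
      rw [← h2]
      congr 1
      push_cast
      rw [ZMod.natCast_val, ZMod.cast_id]
    have := card_lt_card h1
    simpa using this

/-- **Families of polynomials at integers with restricted digits**, with an explicit lower bound. -/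
theorem famP (k δ m D : ℕ) :
    ∃ c : ℝ, 0 < c ∧ ∃ r₀ : ℕ, 2 ≤ r₀ ∧ ∀ r : ℕ, r₀ ≤ r → ∀ g : ℕ, 2 ≤ g → ∃ κ C : ℝ, 0 < κ ∧ 0 < C ∧
      ∀ᶠ K : ℕ in atTop, ∀ P : Fin k → ℤ[X], (∀ j, (P j).natDegree ≤ δ) → ∑ j, (P j).natDegree ≤ m →
        (∀ p : ℕ, p.Prime → ∃ t : ℤ, ∀ j, ¬ (p : ℤ) ∣ (P j).eval t) → ∀ (N : ℕ) (f : Fin k → ℕ → ℕ),
        (∀ t < g ^ K, ∀ j, (P j).eval ((N : ℤ) + t) = f j t) → (∀ t < g ^ K, ∀ j, t ≤ f j t) →
        (∀ t < g ^ K, ∀ j, f j t ≤ g ^ (D * K)) → ∀ A : ℕ → Finset ℕ, Rich c g K A →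
          ((∃ d ∈ A 0, ∀ j, (f j d).Coprime g) →
            κ * rootDensity (fun n => ∏ j, (P j).eval (n : ℤ)) (g ^ K) * choices K A ≤
              count g K A (fun t => ∀ j, AlmostPrime (g ^ K) r (f j t)) ∧
            κ * choices K A / (K : ℝ) ^ m ≤ count g K A (fun t => ∀ j, AlmostPrime (g ^ K) r (f j t))) ∧
          (count g K A (fun t => ∀ j, (f j t).Prime) : ℝ) ≤
            C * rootDensity (fun n => ∏ j, (P j).eval (n : ℤ)) (g ^ K) * choices K A := by
  obtain ⟨c, hc, r0, hr0, h⟩ := fam k δ D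
  refine ⟨c, hc, r0, hr0, fun r hr g hg => ?_⟩
  obtain ⟨κ, C', hκ, hC, h1⟩ := h r hr g hg
  obtain ⟨v, hv, h2⟩ := rootDensity_lower m g hg
  refine ⟨min κ (κ * v), C', by positivity, hC, ?_⟩
  filter_upwards [h1, h2, eventually_ge_atTop 1] with K hK hV hK1
  intro P hdeg hsum hadm N f hf hpos hsz A hA
  have hcs : (0 : ℝ) ≤ choices K A := Nat.cast_nonneg _
  have hg1 : 1 ≤ g := by omega
  have hna : ∀ t < g ^ K, ∀ j, ((P j).eval ((N : ℤ) + t)).natAbs = f j t := fun t ht j => by rw [hf t ht j]; rfl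
  obtain ⟨h3, h4⟩ := hK P hdeg hadm N (fun t ht j => by rw [hna t ht j]; exact hpos t ht j)
    (fun t ht j => by rw [hna t ht j]; exact hsz t ht j) A hA
  have h5 := hV (fun n => ∏ j, (P j).eval (n : ℤ)) (fun p hp => by
    have h6 := classes_poly (m := m) (∏ j, P j) hp (by
      obtain ⟨t, ht⟩ := hadm p hp
      refine ⟨t, fun hd => ?_⟩
      rw [eval_prod] at hd
      obtain ⟨j, -, hj⟩ := ((Nat.prime_iff_prime_int.1 hp).dvd_finsetProd_iff _).1 hd
      exact ht j hj) ((natDegree_prod_le _ _).trans hsum)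
    simpa only [eval_prod] using h6)
  have h6 : 0 ≤ rootDensity (fun n => ∏ j, (P j).eval (n : ℤ)) (g ^ K) := le_trans (by positivity) h5
  have hdig : ∀ d ∈ A 0, d < g ^ K := fun d hd =>
    (mem_range.1 (hA.1 0 (by omega) hd)).trans_le (Nat.le_self_pow (by omega) g)
  have hcount1 : count g K A (fun t => ∀ j, AlmostPrime (g ^ K) r ((P j).eval ((N : ℤ) + t)).natAbs) ≤
      count g K A (fun t => ∀ j, AlmostPrime (g ^ K) r (f j t)) := count_mono fun t ht hP j => by
    have := hP j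
    rwa [hna t ht j] at this
  have hcount2 : count g K A (fun t => ∀ j, (f j t).Prime) ≤ count g K A (fun t => ∀ j, ((P j).eval ((N : ℤ) + t)).natAbs.Prime) :=
    count_mono fun t ht hP j => by rw [hna t ht j]; exact hP j
  refine ⟨fun ⟨d, hd, hcop⟩ => ?_, (Nat.cast_le.2 hcount2).trans h4⟩
  have h7 := (h3 ⟨d, hd, fun j => by rw [hna d (hdig d hd) j]; exact hcop j⟩).trans (Nat.cast_le.2 hcount1)
  constructor
  · refine le_trans ?_ h7
    exact mul_le_mul_of_nonneg_right (mul_le_mul_of_nonneg_right (min_le_left _ _) h6) hcs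
  · refine le_trans ?_ h7
    calc min κ (κ * v) * choices K A / (K : ℝ) ^ m ≤ κ * v * choices K A / (K : ℝ) ^ m :=
          div_le_div_of_nonneg_right (mul_le_mul_of_nonneg_right (min_le_right _ _) hcs) (by positivity)
      _ = κ * (v / (K : ℝ) ^ m) * choices K A := by ring
      _ ≤ _ := mul_le_mul_of_nonneg_right (mul_le_mul_of_nonneg_left h5 hκ.le) hcs

end Pool.Agent.Q48.RD
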