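import Pool.Agent.Q48.RD.MomS2

/-!
# Joint moments of the numbers of almost primes in several short intervals
-/

set_option autoImplicit false

namespace Pool.Agent.Q48.RD

open Filter Finset
open Pool.Agent.Q315.RD
open Pool.Agent.Erdos456 (GG)

/-- primitive proportional forms are equal -/
lemma prim_prop {a a' β β' : ℤ} (ha : 0 < a) (ha' : 0 < a') (h : IsCoprime a β) (h' : IsCoprime a' β')
    (hd : a * β' - a' * β = 0) : a = a' ∧ β = β' := by
  have h1 : a ∣ a' := by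
    have h2 : a ∣ a' * β := ⟨β', by linarith⟩
    exact h.dvd_of_dvd_mul_right h2
  have h2 : a' ∣ a := by
    have h2 : a' ∣ a * β' := ⟨β, by linarith⟩
    exact h'.dvd_of_dvd_mul_right h2
  have h3 : a = a' := Int.dvd_antisymm ha.le ha'.le h1 h2
  subst h3
  refine ⟨rfl, ?_⟩
  have h4 : a * β = a * β' := by linarith
  exact mul_left_cancel₀ ha.ne' h4

/-- **Upper bound on average over all tuples of shifts, in several windows.** -/
theorem jointMean {l : ℕ} (a : Fin l → ℕ) (ha : ∀ i, 1 ≤ a i) (B₀ m : ℕ) (J : Fin m → Fin l) (E : ℕ) :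
    ∃ c : ℝ, 0 < c ∧ ∃ r₀ : ℕ, 2 ≤ r₀ ∧ ∀ r : ℕ, r₀ ≤ r → ∀ g : ℕ, 2 ≤ g → ∃ C : ℝ, 0 < C ∧
      ∀ᶠ K : ℕ in atTop, ∀ N T : ℕ, N ≤ g ^ (E * K) → 1 ≤ T → T ≤ g ^ (E * K) → ∀ b : Fin l → ℕ, (∀ i, b i ≤ B₀ * T) →
        (∀ i j, i ≠ j → a i = a j → b i + T ≤ b j ∨ b j + T ≤ b i) → ∀ A : ℕ → Finset ℕ, Rich c g K A →
        ∑ h ∈ (Fintype.piFinset fun _ : Fin m => Icc 1 T).filter (fun h => ∀ u v, J u = J v → h u = h v → u = v),
          (count g K A (fun t => ∀ u, AlmostPrime (g ^ K) r (a (J u) * (N + t) + b (J u) + h u)) : ℝ) ≤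
            C * (T / (K : ℝ)) ^ m * choices K A := by
  classical
  obtain ⟨c2, hc2, r2, hr2, H2⟩ := upForms m (E + 1)
  obtain ⟨R, hR⟩ : ∃ R : Finset (Fin m × Fin m), R = univ.filter (fun x => x.1 < x.2) := ⟨_, rfl⟩
  obtain ⟨B, hB, HB⟩ := GG_moment R.card
  have hG : ∀ n : ℕ, 0 ≤ GG n := fun n => by unfold GG; positivity
  obtain ⟨D, hD1, hDa⟩ : ∃ D : ℕ, 1 ≤ D ∧ (∀ j, a j ≤ D) := by
    refine ⟨∑ j, a j + 1, by omega, fun j => ?_⟩
    have := single_le_sum (f := a) (fun _ _ => Nat.zero_le _) (mem_univ j)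
    omega
  refine ⟨c2, hc2, r2, hr2, fun r hr g hg => ?_⟩
  obtain ⟨C2, hC2, H2⟩ := H2 r hr g hg
  obtain ⟨w, W, hw, hW, HG⟩ := oneV_GG (E + 1) g hg
  obtain ⟨Z, hZ⟩ : ∃ Z : ℝ, Z = 2 * (B * (D * (2 + 2 * B₀))) := ⟨_, rfl⟩
  have hZ0 : 0 ≤ Z := by rw [hZ]; positivity
  refine ⟨C2 * (W * D) ^ m * (1 + R.card * Z) + 1, by positivity, ?_⟩
  filter_upwards [H2, HG, eventually_ge_atTop (D + B₀ + 1), eventually_ge_atTop (D ^ r)] with K K2 KG hK1 hKD
  intro N T hN hT1 hT b hb hsep A hA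
  have hKr : (0 : ℝ) < K := by exact_mod_cast (by omega : 0 < K)
  have hg1 : 1 ≤ g := by omega
  have hcs : (0 : ℝ) ≤ choices K A := Nat.cast_nonneg _
  have hTr : (1 : ℝ) ≤ T := by exact_mod_cast hT1
  have hDr : (1 : ℝ) ≤ D := by exact_mod_cast hD1
  have hle : g ^ (E * K) ≤ g ^ ((E + 1) * K) := Nat.pow_le_pow_right hg1 (by nlinarith)
  have hN' : N ≤ g ^ ((E + 1) * K) := hN.trans hle
  have hKg : K < g ^ K := Nat.lt_pow_self (by omega)
  have hDg : D ≤ g ^ ((E + 1) * K) := (by omega : D ≤ g ^ K).trans (Nat.pow_le_pow_right hg1 (by nlinarith))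
  have hV1 : ∀ j, oneV ((a j : ℕ) : ℤ) (g ^ K) ≤ W * D / K := by
    intro j
    refine (KG (a j) (ha j) (by have := hDa j; omega)).2.trans ?_
    have h1 := (GG_le_self (ha j)).trans (by exact_mod_cast hDa j : ((a j : ℕ) : ℝ) ≤ D)
    gcongr
  obtain ⟨P, hP⟩ : ∃ P : Finset (Fin m → ℕ), P = Fintype.piFinset (fun _ : Fin m => Icc 1 T) := ⟨_, rfl⟩
  rw [← hP]
  have hmem : ∀ h : Fin m → ℕ, h ∈ P ↔ ∀ a, h a ∈ Icc 1 T := by
    intro h
    rw [hP, Fintype.mem_piFinset]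
  -- the resultants
  obtain ⟨F, hF⟩ : ∃ F : Fin m × Fin m → ℕ → ℕ → ℝ, F = fun x (u v : ℕ) =>
    if ((a (J x.1) : ℕ) : ℤ) * ((v : ℤ) - (0 : ℕ)) + (a (J x.1) * b (J x.2) - a (J x.2) * (b (J x.1) + u)) = 0 then (0 : ℝ) else
      GG (((a (J x.1) : ℕ) : ℤ) * ((v : ℤ) - (0 : ℕ)) + (a (J x.1) * b (J x.2) - a (J x.2) * (b (J x.1) + u))).natAbs ^ R.card := ⟨_, rfl⟩
  have hF0 : ∀ x u v, 0 ≤ F x u v := by
    intro x u v
    rw [hF]
    dsimp only
    split_ifs
    · exact le_rfl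
    · exact pow_nonneg (hG _) _
  have hone_h : ∀ h ∈ P.filter (fun h => ∀ u v, J u = J v → h u = h v → u = v),
      (count g K A (fun t => ∀ u, AlmostPrime (g ^ K) r (a (J u) * (N + t) + b (J u) + h u)) : ℝ) ≤
      C2 * (W * D) ^ m / (K : ℝ) ^ m * choices K A * (1 + ∑ x ∈ R, F x (h x.1) (h x.2)) := by
    intro h hh
    rw [mem_filter, hmem] at hh
    obtain ⟨hh, hinj⟩ := hh
    have hRHS : 0 ≤ C2 * (W * D) ^ m / (K : ℝ) ^ m * choices K A * (1 + ∑ x ∈ R, F x (h x.1) (h x.2)) := by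
      have : 0 ≤ ∑ x ∈ R, F x (h x.1) (h x.2) := sum_nonneg fun _ _ => hF0 _ _ _
      positivity
    by_cases hcop : ∀ u, IsCoprime ((a (J u) : ℕ) : ℤ) ((b (J u) + h u : ℕ) : ℤ)
    swap
    · push Not at hcop
      obtain ⟨u, hu⟩ := hcop
      rw [Nat.isCoprime_iff_coprime] at hu
      obtain ⟨p, hp, hp1, hp2⟩ := Nat.Prime.not_coprime_iff_dvd.1 hu
      rw [count_zero, Nat.cast_zero]
      · exact hRHS
      · intro t _ hcon
        have h1 := (hcon u).1 p hp (by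
          rw [add_assoc]
          exact (hp1.mul_right _).add hp2)
        have h2 : p ≤ D := (Nat.le_of_dvd (ha _) hp1).trans (hDa _)
        have h3 : p ^ r ≤ D ^ r := Nat.pow_le_pow_left h2 r
        omega
    have hres : ∀ x : Fin m × Fin m, ((a (J x.1) : ℕ) : ℤ) * ((b (J x.2) + h x.2 : ℕ) : ℤ) -
        a (J x.2) * ((b (J x.1) + h x.1 : ℕ) : ℤ) =
        ((a (J x.1) : ℕ) : ℤ) * ((h x.2 : ℤ) - (0 : ℕ)) + (a (J x.1) * b (J x.2) - a (J x.2) * (b (J x.1) + h x.1)) := by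
      intro x
      push_cast
      ring
    have hne : ∀ u v : Fin m, u < v → ((a (J u) : ℕ) : ℤ) * ((b (J v) + h v : ℕ) : ℤ) -
        a (J v) * ((b (J u) + h u : ℕ) : ℤ) ≠ 0 := by
      intro u v huv h0
      have h1 := prim_prop (by exact_mod_cast ha (J u)) (by exact_mod_cast ha (J v)) (hcop u) (hcop v) h0
      have h2 : a (J u) = a (J v) := by exact_mod_cast h1.1
      have h3 : b (J u) + h u = b (J v) + h v := by exact_mod_cast h1.2
      have hu := mem_Icc.1 (hh u)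
      have hv := mem_Icc.1 (hh v)
      by_cases hJuv : J u = J v
      · rw [hJuv] at h3
        exact huv.ne (hinj u v hJuv (by omega))
      · rcases hsep _ _ hJuv h2 with h4 | h4 <;> omega
    have h4 := K2 (fun u => ((a (J u) : ℕ) : ℤ)) (fun u => ((b (J u) + h u : ℕ) : ℤ)) N
      (fun u t => a (J u) * (N + t) + b (J u) + h u)
      (fun u => by
        rw [abs_of_nonneg (by positivity)]
        have h1 := hDa (J u)
        have h2 : a (J u) ≤ g ^ ((E + 1) * K) := by omega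
        exact_mod_cast h2)
      (fun u => by
        have h1 := (mem_Icc.1 (hh u)).2
        rw [abs_of_nonneg (by positivity)]
        have h2 : b (J u) + h u ≤ g ^ ((E + 1) * K) := by
          have e : g ^ ((E + 1) * K) = g ^ K * g ^ (E * K) := by rw [← pow_add]; congr 1; ring
          calc b (J u) + h u ≤ B₀ * T + T := Nat.add_le_add (hb _) h1
            _ = (B₀ + 1) * T := by ring
            _ ≤ g ^ K * g ^ (E * K) := Nat.mul_le_mul (by omega) hT
            _ = _ := e.symm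
        exact_mod_cast h2) hN' hcop hne
      (fun t _ u => by
        push_cast
        ring) A hA
    rw [← hR] at h4
    refine h4.trans ?_
    have h6 := prod_le_sum_pow R (fun x => GG (((a (J x.1) : ℕ) : ℤ) * ((b (J x.2) + h x.2 : ℕ) : ℤ) -
        a (J x.2) * ((b (J x.1) + h x.1 : ℕ) : ℤ)).natAbs) (fun _ _ => hG _)
    have h7 : ∑ x ∈ R, GG (((a (J x.1) : ℕ) : ℤ) * ((b (J x.2) + h x.2 : ℕ) : ℤ) -
        a (J x.2) * ((b (J x.1) + h x.1 : ℕ) : ℤ)).natAbs ^ R.card = ∑ x ∈ R, F x (h x.1) (h x.2) := by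
      apply sum_congr rfl
      intro x hx
      rw [hR, mem_filter] at hx
      have h8 := hne x.1 x.2 hx.2
      rw [hres x] at h8 ⊢
      rw [hF]
      dsimp only
      rw [if_neg h8]
    rw [h7] at h6
    have h8 : ∏ u : Fin m, oneV ((a (J u) : ℕ) : ℤ) (g ^ K) ≤ (W * D / K) ^ m := by
      calc ∏ u : Fin m, oneV ((a (J u) : ℕ) : ℤ) (g ^ K) ≤ ∏ _u : Fin m, (W * D / K) :=
            Finset.prod_le_prod (fun u _ => oneV_nonneg _ _) fun u _ => hV1 _
        _ = _ := by rw [prod_const, card_univ, Fintype.card_fin]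
    calc C2 * ((∏ u : Fin m, oneV ((a (J u) : ℕ) : ℤ) (g ^ K)) * ∏ x ∈ R, GG (((a (J x.1) : ℕ) : ℤ) * ((b (J x.2) + h x.2 : ℕ) : ℤ) -
        a (J x.2) * ((b (J x.1) + h x.1 : ℕ) : ℤ)).natAbs) * choices K A
        ≤ C2 * ((W * D / K) ^ m * (1 + ∑ x ∈ R, F x (h x.1) (h x.2))) * choices K A := by
          apply mul_le_mul_of_nonneg_right _ hcs
          apply mul_le_mul_of_nonneg_left _ hC2.le
          apply mul_le_mul h8 h6 (prod_nonneg fun _ _ => hG _) (by positivity)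
      _ = _ := by rw [div_pow]; ring
  have hcardP : (P.card : ℝ) = (T : ℝ) ^ m := by
    rw [hP, Fintype.card_piFinset, prod_const, card_univ, Fintype.card_fin, Nat.card_Icc, Nat.add_sub_cancel]
    push_cast
    rfl
  have hpairs : ∀ x ∈ R, ∑ h ∈ P, F x (h x.1) (h x.2) ≤ (T : ℝ) ^ m * Z := by
    intro x hx
    rw [hR, mem_filter] at hx
    have hrow : ∀ u ∈ Icc 1 T, ∑ v ∈ Icc 1 T, F x u v ≤ Z * T := by
      intro u hu
      rw [mem_Icc] at hu
      have h3 := sum_lin HB (a (J x.1)) (ha _) (a (J x.1) * b (J x.2) - a (J x.2) * (b (J x.1) + u)) T 0 (by omega)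
      rw [hF]
      refine h3.trans ?_
      have h4 : ((a (J x.1) : ℕ) : ℝ) ≤ D := by exact_mod_cast hDa _
      have h5 : (((((a (J x.1) : ℕ) : ℤ) * b (J x.2) - a (J x.2) * (b (J x.1) + u)).natAbs : ℕ) : ℝ) ≤ D * (1 + 2 * B₀) * T := by
        have h6 : (((a (J x.1) : ℕ) : ℤ) * b (J x.2) - a (J x.2) * (b (J x.1) + u)).natAbs ≤ D * (1 + 2 * B₀) * T := by
          have h7 := Int.natAbs_sub_le (((a (J x.1) : ℕ) : ℤ) * b (J x.2)) (a (J x.2) * (b (J x.1) + u))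
          have e1 : (((a (J x.1) : ℕ) : ℤ) * b (J x.2)).natAbs = a (J x.1) * b (J x.2) := by
            rw [Int.natAbs_mul, Int.natAbs_natCast, Int.natAbs_natCast]
          have e2 : (((a (J x.2) : ℕ) : ℤ) * (b (J x.1) + u)).natAbs = a (J x.2) * (b (J x.1) + u) := by
            have : ((b (J x.1) : ℤ) + u) = ((b (J x.1) + u : ℕ) : ℤ) := by push_cast; ring
            rw [this, Int.natAbs_mul, Int.natAbs_natCast, Int.natAbs_natCast]
          rw [e1, e2] at h7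
          have h8 := Nat.mul_le_mul (hDa (J x.1)) (hb (J x.2))
          have h9 := Nat.mul_le_mul (hDa (J x.2)) (Nat.add_le_add (hb (J x.1)) hu.2)
          calc _ ≤ _ := h7
            _ ≤ D * (B₀ * T) + D * (B₀ * T + T) := Nat.add_le_add h8 h9
            _ = _ := by ring
        exact_mod_cast h6
      calc 2 * (B * ((a (J x.1) : ℕ) * T + ((((a (J x.1) : ℕ) : ℤ) * b (J x.2) - a (J x.2) * (b (J x.1) + u)).natAbs : ℕ)))
          ≤ 2 * (B * (D * T + D * (1 + 2 * B₀) * T)) := by gcongr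
        _ = Z * T := by rw [hZ]; ring
    have h5 := sum_two_coord T x.1 x.2 hx.2.ne (F x) (Z * T) hrow
    rw [← hP] at h5
    have h6 : (T : ℝ) * ∑ h ∈ P, F x (h x.1) (h x.2) ≤ (T : ℝ) * ((T : ℝ) ^ m * Z) := by
      refine h5.trans (le_of_eq ?_)
      ring
    exact le_of_mul_le_mul_left h6 (by linarith)
  have hc0 : 0 ≤ C2 * (W * D) ^ m / (K : ℝ) ^ m * choices K A := by positivity
  calc ∑ h ∈ P.filter (fun h => ∀ u v, J u = J v → h u = h v → u = v),
        (count g K A (fun t => ∀ u, AlmostPrime (g ^ K) r (a (J u) * (N + t) + b (J u) + h u)) : ℝ)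
      ≤ ∑ h ∈ P.filter (fun h => ∀ u v, J u = J v → h u = h v → u = v),
          C2 * (W * D) ^ m / (K : ℝ) ^ m * choices K A * (1 + ∑ x ∈ R, F x (h x.1) (h x.2)) := sum_le_sum hone_h
    _ ≤ ∑ h ∈ P, C2 * (W * D) ^ m / (K : ℝ) ^ m * choices K A * (1 + ∑ x ∈ R, F x (h x.1) (h x.2)) := by
        apply sum_le_sum_of_subset_of_nonneg (filter_subset _ _)
        intro h _ _
        have : 0 ≤ ∑ x ∈ R, F x (h x.1) (h x.2) := sum_nonneg fun _ _ => hF0 _ _ _
        positivity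
    _ = C2 * (W * D) ^ m / (K : ℝ) ^ m * choices K A * ((T : ℝ) ^ m + ∑ x ∈ R, ∑ h ∈ P, F x (h x.1) (h x.2)) := by
        rw [← mul_sum, sum_add_distrib, sum_const, nsmul_eq_mul, mul_one, hcardP, sum_comm]
    _ ≤ C2 * (W * D) ^ m / (K : ℝ) ^ m * choices K A * ((T : ℝ) ^ m + R.card * ((T : ℝ) ^ m * Z)) := by
        apply mul_le_mul_of_nonneg_left _ hc0
        apply add_le_add_right
        refine (sum_le_sum hpairs).trans (le_of_eq ?_)
        rw [sum_const, nsmul_eq_mul]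
    _ = (C2 * (W * D) ^ m * (1 + R.card * Z)) * (T / (K : ℝ)) ^ m * choices K A := by
        rw [div_pow]
        ring
    _ ≤ _ := by
        gcongr
        linarith

end Pool.Agent.Q48.RD
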