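import Pool.Agent.Q48.RD.Joint

/-!
# Joint moments of the numbers of almost primes in several short intervals: upper bounds
-/

set_option autoImplicit false

namespace Pool.Agent.Q48.RD

open Filter Finset
open Pool.Agent.Q315.RD

/-- the window of an index -/
def wI {l : ℕ} (m : Fin l → ℕ) (u : Fin (∑ i, m i)) : Fin l := (finSigmaFinEquiv.symm u).1

/-- products of falling factorials and tuples -/
lemma prod_desc_le {l : ℕ} (S : Fin l → Finset ℕ) (U : Finset ℕ) (hSU : ∀ i, S i ⊆ U) (m : Fin l → ℕ)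
    (Q : (Fin (∑ i, m i) → ℕ) → Prop) [DecidablePred Q] (hQ : ∀ h : Fin (∑ i, m i) → ℕ, (∀ u, h u ∈ S (wI m u)) → Q h)
    [DecidablePred fun h : Fin (∑ i, m i) → ℕ => ∀ u v, wI m u = wI m v → h u = h v → u = v] :
    ∏ i, (S i).card.descFactorial (m i) ≤ (((Fintype.piFinset fun _ : Fin (∑ i, m i) => U).filter
      (fun h => ∀ u v, wI m u = wI m v → h u = h v → u = v)).filter Q).card := by
  classical
  have h1 : ∀ i, Fintype.card (Fin (m i) ↪ S i) = (S i).card.descFactorial (m i) := by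
    intro i
    rw [Fintype.card_embedding_eq, Fintype.card_coe, Fintype.card_fin]
  have h2 : ∏ i, (S i).card.descFactorial (m i) = Fintype.card (∀ i, Fin (m i) ↪ S i) := by
    rw [Fintype.card_pi]
    exact prod_congr rfl fun i _ => (h1 i).symm
  rw [h2, ← Fintype.card_coe]
  refine Fintype.card_le_of_injective (fun e : ∀ i, Fin (m i) ↪ S i =>
    (⟨fun u => (e (finSigmaFinEquiv.symm u).1 (finSigmaFinEquiv.symm u).2 : ℕ), ?_⟩ :
    {x // x ∈ ((Fintype.piFinset fun _ : Fin (∑ i, m i) => U).filter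
      (fun h => ∀ u v, wI m u = wI m v → h u = h v → u = v)).filter Q})) ?_
  · rw [mem_filter, mem_filter, Fintype.mem_piFinset]
    refine ⟨⟨fun u => hSU _ (e _ _).2, ?_⟩, hQ _ fun u => (e _ _).2⟩
    intro u v huv hval
    apply finSigmaFinEquiv.symm.injective
    unfold wI at huv
    rcases hu : finSigmaFinEquiv.symm u with ⟨i, x⟩
    rcases hv : finSigmaFinEquiv.symm v with ⟨j, y⟩
    rw [hu, hv] at huv
    dsimp only at hval huv
    rw [hu, hv] at hval
    dsimp only at hval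
    subst huv
    have := (e i).injective (Subtype.ext hval)
    rw [this]
  · intro e e' hee
    funext i
    ext x
    have h3 := congrArg Subtype.val hee
    have h4 := congrFun h3 (finSigmaFinEquiv ⟨i, x⟩)
    dsimp only at h4
    rw [Equiv.symm_apply_apply] at h4
    exact h4

lemma prod_desc (g K : ℕ) (A : ℕ → Finset ℕ) (N T : ℕ) {l : ℕ} (m a b : Fin l → ℕ) (P : ℕ → Prop) :
    ∑ t ∈ digitSet g K A, ∏ i, (numIn P (a i * (N + t) + b i) T).descFactorial (m i) ≤
      ∑ h ∈ (Fintype.piFinset fun _ : Fin (∑ i, m i) => Icc 1 T).filter (fun h => ∀ u v, wI m u = wI m v → h u = h v → u = v),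
        count g K A (fun t => ∀ u, P (a (wI m u) * (N + t) + b (wI m u) + h u)) := by
  classical
  rw [count_sum]
  unfold digitSet
  have e : ∀ t : ℕ, ∏ i, (numIn P (a i * (N + t) + b i) T).descFactorial (m i) ≤
      (((Fintype.piFinset fun _ : Fin (∑ i, m i) => Icc 1 T).filter (fun h => ∀ u v, wI m u = wI m v → h u = h v → u = v)).filter
        (fun h => ∀ u, P (a (wI m u) * (N + t) + b (wI m u) + h u))).card := by
    intro t
    refine le_trans (le_of_eq ?_) (prod_desc_le (fun i => (Icc 1 T).filter fun h => P (a i * (N + t) + b i + h)) (Icc 1 T)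
      (fun i => filter_subset _ _) m (fun h => ∀ u, P (a (wI m u) * (N + t) + b (wI m u) + h u)) ?_)
    · apply prod_congr rfl
      intro i _
      rw [numIn_eq]
    · intro h hh u
      exact (mem_filter.1 (hh u)).2
  refine (sum_le_sum fun t _ => e t).trans (le_of_eq ?_)
  apply sum_congr
  · congr!
  · intro t _
    congr!

/-- **Upper bounds for the joint moments.** -/
theorem jointUpper {l : ℕ} (a : Fin l → ℕ) (ha : ∀ i, 1 ≤ a i) (B₀ k : ℕ) (hk : 1 ≤ k) (E : ℕ) :
    ∃ c : ℝ, 0 < c ∧ ∃ r₀ : ℕ, 2 ≤ r₀ ∧ ∀ r : ℕ, r₀ ≤ r → ∀ g : ℕ, 2 ≤ g → ∃ C : ℝ, 0 < C ∧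
      ∀ᶠ K : ℕ in atTop, ∀ N T : ℕ, N ≤ g ^ (E * K) → 1 ≤ T → T ≤ g ^ (E * K) → ∀ b : Fin l → ℕ, (∀ i, b i ≤ B₀ * T) →
        (∀ i j, i ≠ j → a i = a j → b i + T ≤ b j ∨ b j + T ≤ b i) → ∀ A : ℕ → Finset ℕ, Rich c g K A →
        ∑ t ∈ digitSet g K A, ∏ i, (numIn (AlmostPrime (g ^ K) r) (a i * (N + t) + b i) T : ℝ) ^ k ≤
          C * (min 1 ((T : ℝ) / K) * max 1 ((T : ℝ) / K) ^ k) ^ l * choices K A := by
  classical
  obtain ⟨mm, hmm⟩ : ∃ mm : (Fin l → Bool) → Fin l → ℕ, mm = fun p i => if p i then 1 else k := ⟨_, rfl⟩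
  have H := fun p : Fin l → Bool => jointMean a ha B₀ (∑ i, mm p i) (wI (mm p)) E
  choose c hc r0 hr0 H using H
  have hne : (univ : Finset (Fin l → Bool)).Nonempty := univ_nonempty
  obtain ⟨c1, hc1⟩ : ∃ c1 : ℝ, c1 = univ.inf' hne c := ⟨_, rfl⟩
  have hc1pos : 0 < c1 := by
    rw [hc1, Finset.lt_inf'_iff]
    exact fun p _ => hc p
  have hc1le : ∀ p, c1 ≤ c p := fun p => by rw [hc1]; exact Finset.inf'_le _ (mem_univ p)
  obtain ⟨r1, hr1⟩ : ∃ r1 : ℕ, r1 = univ.sup r0 := ⟨_, rfl⟩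
  have hr1le : ∀ p, r0 p ≤ r1 := fun p => by rw [hr1]; exact Finset.le_sup (mem_univ p)
  refine ⟨c1, hc1pos, r1, (hr0 (fun _ => true)).trans (hr1le _), fun r hr g hg => ?_⟩
  have H' := fun p => H p r ((hr1le p).trans hr) g hg
  choose C hC H' using H'
  refine ⟨((k : ℝ) ^ k) ^ l * ∑ p, C p, by
    have : (0 : ℝ) < k := by exact_mod_cast (by omega : 0 < k)
    have h2 : 0 < ∑ p, C p := sum_pos (fun p _ => hC p) hne
    positivity, ?_⟩
  filter_upwards [eventually_all.2 H', eventually_ge_atTop 1] with K HK hK1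
  intro N T hN hT1 hT b hb hsep A hA
  have hKr : (0 : ℝ) < K := by exact_mod_cast (by omega : 0 < K)
  have hTr : (0 : ℝ) < T := by exact_mod_cast (by omega : 0 < T)
  have hcs : (0 : ℝ) ≤ choices K A := Nat.cast_nonneg _
  obtain ⟨u, hu⟩ : ∃ u : ℝ, u = (T : ℝ) / K := ⟨_, rfl⟩
  have hu0 : 0 < u := by rw [hu]; positivity
  obtain ⟨hm1, hm2⟩ := min_max_one hu0 k hk
  rw [← hu]
  obtain ⟨M, hM⟩ : ∃ M : ℝ, M = min 1 u * max 1 u ^ k := ⟨_, rfl⟩
  rw [← hM] at hm1 hm2 ⊢
  have hM0 : 0 < M := lt_of_lt_of_le hu0 hm1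
  obtain ⟨X, hX⟩ : ∃ X : Fin l → ℕ → ℕ, X = fun i t => numIn (AlmostPrime (g ^ K) r) (a i * (N + t) + b i) T := ⟨_, rfl⟩
  have eX : ∀ i t, (numIn (AlmostPrime (g ^ K) r) (a i * (N + t) + b i) T : ℝ) = (X i t : ℝ) := by
    intro i t
    rw [hX]
  simp only [eX]
  -- the bound for each pattern
  have hpat : ∀ p : Fin l → Bool, ∑ t ∈ digitSet g K A, ∏ i, ((X i t).descFactorial (mm p i) : ℝ) ≤ C p * M ^ l * choices K A := by
    intro p
    have h1 := HK p N T hN hT1 hT b hb hsep A ⟨hA.1, hA.2.trans (by gcongr; exact hc1le p)⟩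
    have h2 : (∑ t ∈ digitSet g K A, ∏ i, ((X i t).descFactorial (mm p i) : ℝ)) ≤ C p * (T / (K : ℝ)) ^ (∑ i, mm p i) * choices K A := by
      refine le_trans ?_ h1
      rw [hX]
      exact_mod_cast prod_desc g K A N T (mm p) a b (AlmostPrime (g ^ K) r)
    refine h2.trans ?_
    apply mul_le_mul_of_nonneg_right _ hcs
    apply mul_le_mul_of_nonneg_left _ (hC p).le
    rw [← hu, ← prod_pow_eq_pow_sum]
    calc ∏ i, u ^ mm p i ≤ ∏ _i : Fin l, M := by
          apply Finset.prod_le_prod (fun i _ => by positivity)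
          intro i _
          rw [hmm]
          dsimp only
          split_ifs
          · rw [pow_one]; exact hm1
          · exact hm2
      _ = M ^ l := by rw [prod_const, card_univ, Fintype.card_fin]
  have hpt : ∀ t, ∏ i, (X i t : ℝ) ^ k ≤ ((k : ℝ) ^ k) ^ l * ∑ p : Fin l → Bool, ∏ i, ((X i t).descFactorial (mm p i) : ℝ) := by
    intro t
    have h1 : ∀ i, (X i t : ℝ) ^ k ≤ (k : ℝ) ^ k * ∑ s : Bool, ((X i t).descFactorial (if s then 1 else k) : ℝ) := by
      intro i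
      rw [Fintype.sum_bool]
      simp only [if_true, Bool.false_eq_true, if_false, Nat.descFactorial_one]
      exact_mod_cast pow_le_desc (X i t) k hk
    calc ∏ i, (X i t : ℝ) ^ k ≤ ∏ i, ((k : ℝ) ^ k * ∑ s : Bool, ((X i t).descFactorial (if s then 1 else k) : ℝ)) :=
          Finset.prod_le_prod (fun i _ => by positivity) fun i _ => h1 i
      _ = ((k : ℝ) ^ k) ^ l * ∏ i, ∑ s : Bool, ((X i t).descFactorial (if s then 1 else k) : ℝ) := by
          rw [prod_mul_distrib, prod_const, card_univ, Fintype.card_fin]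
      _ = _ := by
          congr 1
          rw [Finset.prod_univ_sum]
          rw [Fintype.piFinset_univ]
          apply sum_congr rfl
          intro p _
          apply prod_congr rfl
          intro i _
          rw [hmm]
  calc ∑ t ∈ digitSet g K A, ∏ i, (X i t : ℝ) ^ k
      ≤ ∑ t ∈ digitSet g K A, ((k : ℝ) ^ k) ^ l * ∑ p : Fin l → Bool, ∏ i, ((X i t).descFactorial (mm p i) : ℝ) :=
        sum_le_sum fun t _ => hpt t
    _ = ((k : ℝ) ^ k) ^ l * ∑ p : Fin l → Bool, ∑ t ∈ digitSet g K A, ∏ i, ((X i t).descFactorial (mm p i) : ℝ) := by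
        rw [← mul_sum, sum_comm]
    _ ≤ ((k : ℝ) ^ k) ^ l * ∑ p : Fin l → Bool, C p * M ^ l * choices K A := by
        apply mul_le_mul_of_nonneg_left _ (by positivity)
        exact sum_le_sum fun p _ => hpat p
    _ = _ := by
        rw [← sum_mul, ← sum_mul]; ring

end Pool.Agent.Q48.RD
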