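import Pool.Agent.Q48.RD.Joint2

/-!
# Joint moments of the numbers of almost primes in several short intervals: the lower bound for the first one
-/

set_option autoImplicit false

namespace Pool.Agent.Q48.RD

open Filter Finset
open Pool.Agent.Q315.RD

/-- **The joint first moment.** -/
theorem jointFirst {l : ℕ} (a : Fin l → ℕ) (ha : ∀ i, 1 ≤ a i) (B₀ E : ℕ) :
    ∃ c : ℝ, 0 < c ∧ ∃ r₀ : ℕ, 2 ≤ r₀ ∧ ∀ r : ℕ, r₀ ≤ r → ∀ g : ℕ, 2 ≤ g → ∃ κ : ℝ, 0 < κ ∧ ∃ T₀ : ℕ,
      ∀ᶠ K : ℕ in atTop, ∀ N T : ℕ, N ≤ g ^ (E * K) → T₀ ≤ T → T ≤ g ^ (E * K) → ∀ b : Fin l → ℕ, (∀ i, b i ≤ B₀ * T) →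
        ∀ A : ℕ → Finset ℕ, Rich c g K A →
        κ * (T / (K : ℝ)) ^ l * choices K A ≤
          ∑ t ∈ digitSet g K A, ∏ i, (numIn (AlmostPrime (g ^ K) r) (a i * (N + t) + b i) T : ℝ) := by
  classical
  obtain ⟨c1, hc1, r1, hr1, H1⟩ := famLinR l (E + 1)
  obtain ⟨D, hD1, hDa⟩ : ∃ D : ℕ, 1 ≤ D ∧ (∀ j, a j ≤ D) := by
    refine ⟨∑ j, a j + 1, by omega, fun j => ?_⟩
    have := single_le_sum (f := a) (fun _ _ => Nat.zero_le _) (mem_univ j)
    omega
  refine ⟨c1, hc1, r1, hr1, fun r hr g hg => ?_⟩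
  obtain ⟨κ1, C1, hκ1, hC1, H1⟩ := H1 r hr g hg
  obtain ⟨M, hM⟩ : ∃ M : ℕ, M = g * ((∏ i, a i) * (l + 1).factorial) := ⟨_, rfl⟩
  have hprod : 0 < ∏ i, a i := Finset.prod_pos fun i _ => ha i
  have hM2 : 2 ≤ M := by
    rw [hM]
    calc 2 ≤ g := hg
      _ ≤ _ := Nat.le_mul_of_pos_right g (Nat.mul_pos hprod (Nat.factorial_pos _))
  have hgM : g ∣ M := by rw [hM]; exact Dvd.intro _ rfl
  have haM : ∀ i, a i ∣ M := fun i => by
    rw [hM]
    exact Dvd.dvd.mul_left ((Finset.dvd_prod_of_mem a (mem_univ i)).mul_right _) g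
  have hfM : (l + 1).factorial ∣ M := by
    rw [hM]
    exact Dvd.dvd.mul_left (Dvd.intro_left _ rfl) g
  have hM0 : (0 : ℝ) < M := by exact_mod_cast (by omega : 0 < M)
  refine ⟨κ1 / (2 * M) ^ l, by positivity, M, ?_⟩
  filter_upwards [H1, eventually_ge_atTop (D + B₀ + 1)] with K K1 hK1
  intro N T hN hMT hT b hb A hA
  have hKr : (0 : ℝ) < K := by exact_mod_cast (by omega : 0 < K)
  have hg1 : 1 ≤ g := by omega
  have hcs : (0 : ℝ) ≤ choices K A := Nat.cast_nonneg _
  have hle : g ^ (E * K) ≤ g ^ ((E + 1) * K) := Nat.pow_le_pow_right hg1 (by nlinarith)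
  have hKg : K < g ^ K := Nat.lt_pow_self (by omega)
  have hDg : D ≤ g ^ ((E + 1) * K) := (by omega : D ≤ g ^ K).trans (Nat.pow_le_pow_right hg1 (by nlinarith))
  have hA0 : (A 0).Nonempty := by
    rw [← card_pos, Nat.pos_iff_ne_zero]
    intro h0
    have h2 : choices K A = 0 := prod_eq_zero (mem_range.2 (by omega : 0 < K)) h0
    have h1 := hA.2
    rw [h2, Nat.cast_zero, mul_zero] at h1
    have : (0 : ℝ) < (g : ℝ) ^ K := by positivity
    linarith
  obtain ⟨d, hd⟩ := hA0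
  obtain ⟨S, hS⟩ : ∃ S : Fin l → Finset ℕ, S = fun i => (Icc 1 T).filter fun h => (a i * (N + d) + b i) + h ≡ 1 [MOD M] := ⟨_, rfl⟩
  have hScard : ∀ i, (T : ℝ) / (2 * M) ≤ ((S i).card : ℝ) := by
    intro i
    rw [hS]
    exact class_many hM2 hMT
  have hpi : ((T : ℝ) / (2 * M)) ^ l ≤ ((Fintype.piFinset S).card : ℝ) := by
    rw [Fintype.card_piFinset, Nat.cast_prod]
    calc ((T : ℝ) / (2 * M)) ^ l = ∏ _i : Fin l, ((T : ℝ) / (2 * M)) := by rw [prod_const, card_univ, Fintype.card_fin]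
      _ ≤ ∏ i, ((S i).card : ℝ) := Finset.prod_le_prod (fun i _ => by positivity) fun i _ => hScard i
  -- each tuple
  have htup : ∀ h ∈ Fintype.piFinset S, κ1 * choices K A / (K : ℝ) ^ l ≤
      (count g K A (fun t => ∀ i, AlmostPrime (g ^ K) r (a i * (N + t) + b i + h i)) : ℝ) := by
    intro h hh
    rw [Fintype.mem_piFinset] at hh
    have hh' : ∀ i, (1 ≤ h i ∧ h i ≤ T) ∧ (a i * (N + d) + b i) + h i ≡ 1 [MOD M] := by
      intro i
      have h1 := hh i
      rw [hS] at h1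
      dsimp only at h1
      rw [mem_filter, mem_Icc] at h1
      exact h1
    have hnd : ∀ p : ℕ, p.Prime → p ∣ M → ∀ i, ¬ p ∣ a i * (N + d) + b i + h i := by
      intro p hp hpM i hdiv
      have h1 : a i * (N + d) + b i + h i ≡ 1 [MOD p] := ((hh' i).2).of_dvd hpM
      have h2 : p ∣ 1 := (h1.dvd_iff dvd_rfl).1 hdiv
      exact hp.one_lt.ne' (Nat.dvd_one.1 h2)
    have h4 := K1 (fun i => ((a i : ℕ) : ℤ)) (fun i => ((b i + h i : ℕ) : ℤ)) N (fun i t => a i * (N + t) + b i + h i)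
      (fun i => by
        rw [abs_of_nonneg (by positivity)]
        have h1 := hDa i
        have h2 : a i ≤ g ^ ((E + 1) * K) := by omega
        exact_mod_cast h2)
      (fun i => by
        have h1 := (hh' i).1.2
        rw [abs_of_nonneg (by positivity)]
        have h2 : b i + h i ≤ g ^ ((E + 1) * K) := by
          have e : g ^ ((E + 1) * K) = g ^ K * g ^ (E * K) := by rw [← pow_add]; congr 1; ring
          calc b i + h i ≤ B₀ * T + T := Nat.add_le_add (hb _) h1
            _ = (B₀ + 1) * T := by ring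
            _ ≤ g ^ K * g ^ (E * K) := Nat.mul_le_mul (by omega) hT
            _ = _ := e.symm
        exact_mod_cast h2) (hN.trans hle)
      (fun p hp => by
        by_cases hpM : p ∣ M
        · refine ⟨((N + d : ℕ) : ℤ), fun i hi => hnd p hp hpM i ?_⟩
          have e : ((a i : ℕ) : ℤ) * ((N + d : ℕ) : ℤ) + ((b i + h i : ℕ) : ℤ) = ((a i * (N + d) + b i + h i : ℕ) : ℤ) := by
            push_cast; ring
          rw [e] at hi
          exact_mod_cast hi
        · refine adm_bigZ _ _ hp ?_ ?_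
          · by_contra hlp
            exact hpM ((Nat.dvd_factorial hp.pos (by omega)).trans hfM)
          · intro i hi
            exact hpM ((by exact_mod_cast hi : p ∣ a i).trans (haM i)))
      (fun t _ i => by
        push_cast
        ring) A hA
    exact (h4.1 ⟨d, hd, fun i => by
      apply Nat.coprime_of_dvd
      intro p hp h2 h3
      exact hnd p hp (h3.trans hgM) i h2⟩).2
  have hsum : ∑ h ∈ Fintype.piFinset S, (count g K A (fun t => ∀ i, AlmostPrime (g ^ K) r (a i * (N + t) + b i + h i)) : ℝ) ≤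
      ∑ t ∈ digitSet g K A, ∏ i, (numIn (AlmostPrime (g ^ K) r) (a i * (N + t) + b i) T : ℝ) := by
    have h1 := count_sum (g := g) (K := K) (A := A) (Fintype.piFinset S)
      (fun h t => ∀ i, AlmostPrime (g ^ K) r (a i * (N + t) + b i + h i))
    have h2 : ∀ t : ℕ, ((Fintype.piFinset S).filter fun h => ∀ i, AlmostPrime (g ^ K) r (a i * (N + t) + b i + h i)).card ≤
        ∏ i, numIn (AlmostPrime (g ^ K) r) (a i * (N + t) + b i) T := by
      intro t
      have h3 : ∏ i, numIn (AlmostPrime (g ^ K) r) (a i * (N + t) + b i) T =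
          (Fintype.piFinset fun i => (Icc 1 T).filter fun h => AlmostPrime (g ^ K) r (a i * (N + t) + b i + h)).card := by
        rw [Fintype.card_piFinset]
        apply prod_congr rfl
        intro i _
        rw [numIn_eq]
      rw [h3]
      apply card_le_card
      intro h hh
      rw [mem_filter, Fintype.mem_piFinset] at hh
      rw [Fintype.mem_piFinset]
      intro i
      refine mem_filter.2 ⟨?_, hh.2 i⟩
      have h4 := hh.1 i
      rw [hS] at h4
      exact (mem_filter.1 h4).1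
    have h5 : ∑ h ∈ Fintype.piFinset S, count g K A (fun t => ∀ i, AlmostPrime (g ^ K) r (a i * (N + t) + b i + h i)) ≤
        ∑ t ∈ digitSet g K A, ∏ i, numIn (AlmostPrime (g ^ K) r) (a i * (N + t) + b i) T := by
      rw [h1]
      unfold digitSet
      refine le_trans (sum_le_sum (g := fun t => ∏ i, numIn (AlmostPrime (g ^ K) r) (a i * (N + t) + b i) T) fun t _ => ?_)
        (le_of_eq ?_)
      · refine le_trans (le_of_eq ?_) (h2 t)
        congr!
      · apply sum_congr _ (fun _ _ => rfl)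
        congr!
    exact_mod_cast h5
  refine le_trans ?_ hsum
  calc κ1 / (2 * (M : ℝ)) ^ l * (T / (K : ℝ)) ^ l * choices K A = ((T : ℝ) / (2 * M)) ^ l * (κ1 * choices K A / (K : ℝ) ^ l) := by
        rw [div_pow, div_pow]; field_simp
    _ ≤ ((Fintype.piFinset S).card : ℝ) * (κ1 * choices K A / (K : ℝ) ^ l) := mul_le_mul_of_nonneg_right hpi (by positivity)
    _ = ∑ h ∈ Fintype.piFinset S, κ1 * choices K A / (K : ℝ) ^ l := by rw [sum_const, nsmul_eq_mul]
    _ ≤ _ := sum_le_sum htup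

end Pool.Agent.Q48.RD
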