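import Pool.Agent.Q48.RD.Joint3

/-!
# Joint moments of the numbers of primes and almost primes in several short intervals
-/

set_option autoImplicit false

namespace Pool.Agent.Q48.RD

open Filter Finset
open Pool.Agent.Q315.RD

lemma min_pow_one {u : ℝ} (hu : 0 < u) (l : ℕ) : min 1 (u ^ l) = (min 1 u) ^ l := by
  rcases le_total 1 u with h | h
  · rw [min_eq_left h, min_eq_left (one_le_pow₀ h), one_pow]
  · rw [min_eq_right h, min_eq_right (pow_le_one₀ hu.le h)]

lemma max_pow_one {u : ℝ} (hu : 0 < u) (l : ℕ) : max 1 (u ^ l) = (max 1 u) ^ l := by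
  rcases le_total 1 u with h | h
  · rw [max_eq_right h, max_eq_right (one_le_pow₀ h)]
  · rw [max_eq_left h, max_eq_left (pow_le_one₀ hu.le h), one_pow]

/-- the factors of a large product of bounded factors are large -/
lemma factor_large {l : ℕ} (X : Fin l → ℝ) (hX : ∀ i, 0 ≤ X i) (κ lam u : ℝ) (hlam : 1 ≤ lam) (hu : 0 < u)
    (hup : ∀ i, X i ≤ lam * u) (hY : κ * u ^ l ≤ ∏ i, X i) (i : Fin l) : κ / lam ^ l * u ≤ X i := by
  classical
  have hl : 0 < l := i.pos
  have h1 : ∏ j, X j ≤ X i * (lam * u) ^ (l - 1) := by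
    rw [← mul_prod_erase univ X (mem_univ i)]
    apply mul_le_mul_of_nonneg_left _ (hX i)
    calc ∏ j ∈ univ.erase i, X j ≤ ∏ _j ∈ univ.erase i, (lam * u) := Finset.prod_le_prod (fun j _ => hX j) fun j _ => hup j
      _ = (lam * u) ^ (l - 1) := by rw [prod_const, card_erase_of_mem (mem_univ i), card_univ, Fintype.card_fin]
  have hlam0 : 0 < lam := by linarith
  have h2 : κ * u ^ l ≤ X i * (lam * u) ^ (l - 1) := hY.trans h1
  have h3 : u ^ l = u * u ^ (l - 1) := by rw [← pow_succ']; congr 1; omega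
  have h4 : κ * u ≤ X i * lam ^ (l - 1) := by
    rw [h3, mul_pow] at h2
    have hp : 0 < u ^ (l - 1) := pow_pos hu _
    have h5 : (κ * u) * u ^ (l - 1) ≤ (X i * lam ^ (l - 1)) * u ^ (l - 1) := by linarith
    exact le_of_mul_le_mul_right h5 hp
  have h6 : X i * lam ^ (l - 1) ≤ X i * lam ^ l := by
    apply mul_le_mul_of_nonneg_left _ (hX i)
    exact pow_le_pow_right₀ hlam (by omega)
  rw [div_mul_eq_mul_div, div_le_iff₀ (by positivity)]
  exact h4.trans h6

/-- **Joint moments of the numbers of primes and almost primes in several short intervals.** -/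
theorem jointMoments {l : ℕ} (hl : 0 < l) (a : Fin l → ℕ) (ha : ∀ i, 1 ≤ a i) (B₀ k : ℕ) (hk : 1 ≤ k) (E : ℕ) :
    ∃ c : ℝ, 0 < c ∧ ∃ r₀ : ℕ, 2 ≤ r₀ ∧ ∀ r : ℕ, r₀ ≤ r → ∀ g : ℕ, 2 ≤ g → ∃ κ C : ℝ, ∃ T₀ : ℕ, 0 < κ ∧ 0 < C ∧
      ∀ᶠ K : ℕ in atTop, ∀ N T : ℕ, N ≤ g ^ (E * K) → 1 ≤ T → T ≤ g ^ (E * K) → ∀ b : Fin l → ℕ, (∀ i, b i ≤ B₀ * T) →
        (∀ i j, i ≠ j → a i = a j → b i + T ≤ b j ∨ b j + T ≤ b i) → ∀ A : ℕ → Finset ℕ, Rich c g K A →
        ∑ t ∈ digitSet g K A, ∏ i, (numIn Nat.Prime (a i * (N + t) + b i) T : ℝ) ^ k ≤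
          C * (min 1 ((T : ℝ) / K) * max 1 ((T : ℝ) / K) ^ k) ^ l * choices K A ∧
        ∑ t ∈ digitSet g K A, ∏ i, (numIn (AlmostPrime (g ^ K) r) (a i * (N + t) + b i) T : ℝ) ^ k ≤
          C * (min 1 ((T : ℝ) / K) * max 1 ((T : ℝ) / K) ^ k) ^ l * choices K A ∧
        (T₀ ≤ T → κ * (min 1 ((T : ℝ) / K) * max 1 ((T : ℝ) / K) ^ k) ^ l * choices K A ≤
            ∑ t ∈ digitSet g K A, ∏ i, (numIn (AlmostPrime (g ^ K) r) (a i * (N + t) + b i) T : ℝ) ^ k ∧
          κ * min 1 ((T : ℝ) / K) ^ l * choices K A ≤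
            count g K A (fun t => ∀ i, κ * max 1 ((T : ℝ) / K) ≤ numIn (AlmostPrime (g ^ K) r) (a i * (N + t) + b i) T)) := by
  classical
  obtain ⟨c1, hc1, r1, hr1, H1⟩ := jointUpper a ha B₀ k hk E
  obtain ⟨c2, hc2, r2, hr2, H2⟩ := jointUpper a ha B₀ 2 (by norm_num) E
  obtain ⟨c3, hc3, r3, hr3, H3⟩ := jointFirst a ha B₀ E
  have H4 := fun j : Fin l => jointUpper (l := 1) (fun _ => a j) (fun _ => ha j) B₀ 2 (by norm_num) E
  choose cs hcs0 rs hrs H4 using H4
  have : Nonempty (Fin l) := ⟨⟨0, hl⟩⟩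
  obtain ⟨c4, hc4⟩ : ∃ c4 : ℝ, c4 = univ.inf' univ_nonempty cs := ⟨_, rfl⟩
  have hc4pos : 0 < c4 := by
    rw [hc4, Finset.lt_inf'_iff]
    exact fun p _ => hcs0 p
  have hc4le : ∀ p, c4 ≤ cs p := fun p => by rw [hc4]; exact Finset.inf'_le _ (mem_univ p)
  obtain ⟨r4, hr4⟩ : ∃ r4 : ℕ, r4 = univ.sup rs := ⟨_, rfl⟩
  have hr4le : ∀ p, rs p ≤ r4 := fun p => by rw [hr4]; exact Finset.le_sup (mem_univ p)
  refine ⟨min (min (min c1 c2) (min c3 c4)) (1 / 8), by positivity, max (max (max r1 r2) (max r3 r4)) 5, by omega, fun r hr g hg => ?_⟩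
  obtain ⟨C1, hC1, H1⟩ := H1 r (by omega) g hg
  obtain ⟨C2, hC2, H2⟩ := H2 r (by omega) g hg
  obtain ⟨κ3, hκ3, T₀, H3⟩ := H3 r (by omega) g hg
  have H4 := fun j => H4 j r ((hr4le j).trans (by omega)) g hg
  choose Cs hCs H4 using H4
  obtain ⟨κ', hκ'd⟩ : ∃ κ' : ℝ, κ' = min (min 1 (κ3 / 2)) (κ3 ^ 2 / (4 * C2)) := ⟨_, rfl⟩
  have hκ' : 0 < κ' := by rw [hκ'd]; positivity
  have hκ'1 : κ' ≤ 1 := by rw [hκ'd]; exact (min_le_left _ _).trans (min_le_left _ _)
  obtain ⟨Ct, hCt⟩ : ∃ Ct : ℝ, Ct = ∑ j, Cs j := ⟨_, rfl⟩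
  have hCt0 : 0 < Ct := by rw [hCt]; exact sum_pos (fun j _ => hCs j) univ_nonempty
  obtain ⟨lam, hlam⟩ : ∃ lam : ℝ, lam = 1 + 2 * Ct / κ' := ⟨_, rfl⟩
  have hlam1 : 1 ≤ lam := by
    rw [hlam]
    have : 0 ≤ 2 * Ct / κ' := by positivity
    linarith
  have hlam2 : Ct / lam ^ 2 ≤ κ' / 2 := by
    have h1 : 2 * Ct / κ' ≤ lam ^ 2 := by
      have h2 : 2 * Ct / κ' ≤ lam := by rw [hlam]; linarith
      have h3 : lam ≤ lam ^ 2 := by nlinarith
      linarith
    rw [div_le_iff₀ (by positivity)]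
    rw [div_le_iff₀ hκ'] at h1
    linarith
  obtain ⟨κ, hκd⟩ : ∃ κ : ℝ, κ = min (κ' / 2) (κ' / lam ^ l) := ⟨_, rfl⟩
  have hκ : 0 < κ := by rw [hκd]; positivity
  have hκκ' : κ ≤ κ' / 2 := by rw [hκd]; exact min_le_left _ _
  have hκlam : κ ≤ κ' / lam ^ l := by rw [hκd]; exact min_le_right _ _
  refine ⟨min κ (κ * (κ ^ k) ^ l), C1 + 1, T₀, lt_min hκ (by positivity), by linarith, ?_⟩
  filter_upwards [H1, H2, H3, eventually_all.2 H4, pow_small' (k * l), small_part 1 one_pos g hg, eventually_ge_atTop 24]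
    with K K1 K2 K3 K4 KP KS hKD
  intro N T hN hT1 hT b hb hsep A hA
  have hrich : ∀ c' : ℝ, min (min (min c1 c2) (min c3 c4)) (1 / 8) ≤ c' → Rich c' g K A := fun c' hc' => ⟨hA.1, hA.2.trans (by gcongr)⟩
  have hcs : (0 : ℝ) ≤ choices K A := Nat.cast_nonneg _
  have hKr : (0 : ℝ) < K := by exact_mod_cast (by omega : 0 < K)
  have hTr : (0 : ℝ) < T := by exact_mod_cast (by omega : 0 < T)
  have hg1 : (1 : ℝ) ≤ g := by exact_mod_cast (by omega : 1 ≤ g)
  obtain ⟨u, hu⟩ : ∃ u : ℝ, u = (T : ℝ) / K := ⟨_, rfl⟩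
  have hu0 : 0 < u := by rw [hu]; positivity
  have h1 := K1 N T hN hT1 hT b hb hsep A (hrich c1 (((min_le_left _ _).trans (min_le_left _ _)).trans (min_le_left _ _)))
  have h2 := K2 N T hN hT1 hT b hb hsep A (hrich c2 (((min_le_left _ _).trans (min_le_left _ _)).trans (min_le_right _ _)))
  rw [← hu] at h1 h2 ⊢
  obtain ⟨M, hM⟩ : ∃ M : ℝ, M = min 1 u * max 1 u ^ k := ⟨_, rfl⟩
  have hM0 : 0 ≤ M := by rw [hM]; positivity
  rw [← hM] at h1 ⊢
  obtain ⟨X, hX⟩ : ∃ X : Fin l → ℕ → ℕ, X = fun i t => numIn (AlmostPrime (g ^ K) r) (a i * (N + t) + b i) T := ⟨_, rfl⟩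
  have eX : ∀ i t, numIn (AlmostPrime (g ^ K) r) (a i * (N + t) + b i) T = X i t := by
    intro i t
    rw [hX]
  simp only [eX] at h1 h2 ⊢
  have hcard : ((digitSet g K A).card : ℝ) ≤ choices K A := by
    rw [← card_digits (by omega) hA.1]
    apply Nat.cast_le.2
    unfold digitSet
    exact card_le_card (by intro t ht; convert ht)
  refine ⟨?_, ?_, fun hgT => ?_⟩
  · -- the small `t` contribute very little
    have hsmall : (g : ℝ) ^ (K / 3) * ((T : ℝ) ^ k) ^ l ≤ M ^ l * choices K A := by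
      have hS := KS A (hrich (1 / 8) (min_le_right _ _))
      rw [one_mul] at hS
      have h3 : (K : ℝ) ^ (k * l) * (g : ℝ) ^ (K / 3) ≤ choices K A := by
        calc (K : ℝ) ^ (k * l) * (g : ℝ) ^ (K / 3) ≤ 2 ^ (K / 8) * (g : ℝ) ^ (K / 3) := by gcongr
          _ ≤ (g : ℝ) ^ (K / 8) * (g : ℝ) ^ (K / 3) := by
              gcongr
              exact_mod_cast hg
          _ = (g : ℝ) ^ (K / 8 + K / 3) := (pow_add _ _ _).symm
          _ ≤ (g : ℝ) ^ (K / 2) := pow_le_pow_right₀ hg1 (by omega)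
          _ ≤ _ := hS
      have h4 := (min_max_one hu0 k hk).2
      rw [← hM] at h4
      calc (g : ℝ) ^ (K / 3) * ((T : ℝ) ^ k) ^ l = (u ^ k) ^ l * ((K : ℝ) ^ (k * l) * (g : ℝ) ^ (K / 3)) := by
            rw [hu, div_pow, div_pow, ← pow_mul, ← pow_mul]; field_simp
        _ ≤ M ^ l * choices K A := by gcongr
    have hsplit : ∀ t ∈ digitSet g K A, ∏ i, (numIn Nat.Prime (a i * (N + t) + b i) T : ℝ) ^ k ≤
        (if t < g ^ (K / 3) then ((T : ℝ) ^ k) ^ l else 0) + ∏ i, (X i t : ℝ) ^ k := by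
      intro t _
      have h4 : (0 : ℝ) ≤ ∏ i, (X i t : ℝ) ^ k := by positivity
      split_ifs with ht
      · have h3 : ∏ i, (numIn Nat.Prime (a i * (N + t) + b i) T : ℝ) ^ k ≤ ∏ _i : Fin l, (T : ℝ) ^ k := by
          apply Finset.prod_le_prod (fun i _ => by positivity)
          intro i _
          have := numIn_le Nat.Prime (a i * (N + t) + b i) T
          gcongr
        rw [prod_const, card_univ, Fintype.card_fin] at h3
        linarith
      · rw [zero_add]
        apply Finset.prod_le_prod (fun i _ => by positivity)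
        intro i _
        have h3 : numIn Nat.Prime (a i * (N + t) + b i) T ≤ X i t := by
          rw [hX]
          apply numIn_mono
          intro n hn hP
          have h5 : t ≤ a i * (N + t) := (Nat.le_add_left t N).trans (Nat.le_mul_of_pos_left _ (ha i))
          have h6 : g ^ (K / 4) ≤ g ^ (K / 3) := Nat.pow_le_pow_right (by omega) (by omega)
          exact prime_almost' hg (by omega) (by omega) h6 hP (by omega)
        gcongr
    refine (sum_le_sum hsplit).trans ?_
    rw [sum_add_distrib]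
    have h5 : ∑ t ∈ digitSet g K A, (if t < g ^ (K / 3) then ((T : ℝ) ^ k) ^ l else 0) ≤ (g : ℝ) ^ (K / 3) * ((T : ℝ) ^ k) ^ l := by
      rw [← sum_filter, sum_const, nsmul_eq_mul]
      apply mul_le_mul_of_nonneg_right _ (by positivity)
      have h6 : (filter (fun t => t < g ^ (K / 3)) (digitSet g K A)).card ≤ (range (g ^ (K / 3))).card := by
        apply card_le_card
        intro t ht
        exact mem_range.2 (mem_filter.1 ht).2
      rw [card_range] at h6
      exact_mod_cast h6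
    calc _ ≤ M ^ l * choices K A + C1 * M ^ l * choices K A := add_le_add (h5.trans hsmall) h1
      _ = _ := by ring
  · refine h1.trans ?_
    gcongr
    linarith
  · have h3 := K3 N T hN hgT hT b hb A (hrich c3 (((min_le_left _ _).trans (min_le_right _ _)).trans (min_le_left _ _)))
    rw [← hu] at h3
    simp only [eX] at h3
    obtain ⟨Y, hY⟩ : ∃ Y : ℕ → ℕ, Y = fun t => ∏ i, X i t := ⟨_, rfl⟩
    have hYr : ∀ t, (Y t : ℝ) = ∏ i, (X i t : ℝ) := by
      intro t
      rw [hY]
      push_cast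
      rfl
    have h4 := large_values (digitSet g K A) Y (u ^ l) κ3 C2 (choices K A) (by positivity) hκ3 hC2 hcs hcard
      (by simp only [hYr]; exact h3)
      (by
        have e1 : ∀ t, (Y t : ℝ) ^ 2 = ∏ i, (X i t : ℝ) ^ 2 := by
          intro t
          rw [hYr, prod_pow]
        simp only [e1]
        refine h2.trans (le_of_eq ?_)
        rw [min_pow_one hu0, max_pow_one hu0, mul_pow]
        ring)
    rw [← hκ'd, min_pow_one hu0, max_pow_one hu0] at h4
    have hlarge : κ * min 1 u ^ l * choices K A ≤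
        (((digitSet g K A).filter fun t => ∀ i, κ * max 1 u ≤ (X i t : ℝ)).card : ℝ) := by
      rcases le_total 1 u with hu1 | hu1
      · rw [min_eq_left hu1, max_eq_right hu1, one_pow, mul_one] at h4 ⊢
        obtain ⟨G, hGd⟩ : ∃ G : Finset ℕ, G = (digitSet g K A).filter fun t => κ' * u ^ l ≤ (Y t : ℝ) := ⟨_, rfl⟩
        rw [← hGd] at h4
        obtain ⟨Bd, hBd⟩ : ∃ Bd : Fin l → Finset ℕ, Bd = fun j => (digitSet g K A).filter fun t => lam * u < (X j t : ℝ) := ⟨_, rfl⟩
        have hBcard : ∀ j, ((Bd j).card : ℝ) ≤ Cs j / lam ^ 2 * choices K A := by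
          intro j
          have h5 := K4 j N T hN hT1 hT (fun _ => b j) (fun _ => hb j) (fun i i' hii' => absurd (Subsingleton.elim i i') hii') A
            (hrich (cs j) ((((min_le_left _ _).trans (min_le_right _ _)).trans (min_le_right _ _)).trans (hc4le j)))
          rw [← hu, min_eq_left hu1, max_eq_right hu1, one_mul, pow_one] at h5
          simp only [Fin.prod_univ_one, eX] at h5
          have h6 : ((Bd j).card : ℝ) * (lam * u) ^ 2 ≤ ∑ t ∈ digitSet g K A, (X j t : ℝ) ^ 2 := by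
            rw [← nsmul_eq_mul, ← sum_const]
            refine le_trans (sum_le_sum (g := fun t => (X j t : ℝ) ^ 2) fun t ht => ?_) ?_
            · rw [hBd] at ht
              exact pow_le_pow_left₀ (by positivity) (mem_filter.1 ht).2.le 2
            · apply sum_le_sum_of_subset_of_nonneg
              · rw [hBd]
                exact filter_subset _ _
              · intro _ _ _
                positivity
          have h7 : ((Bd j).card : ℝ) * lam ^ 2 * u ^ 2 ≤ Cs j * choices K A * u ^ 2 := by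
            calc ((Bd j).card : ℝ) * lam ^ 2 * u ^ 2 = ((Bd j).card : ℝ) * (lam * u) ^ 2 := by ring
              _ ≤ _ := h6
              _ ≤ _ := h5
              _ = _ := by ring
          have h8 := le_of_mul_le_mul_right h7 (by positivity)
          rw [div_mul_eq_mul_div, le_div_iff₀ (by positivity)]
          exact h8
        have hBsum : ((univ.biUnion Bd).card : ℝ) ≤ κ' / 2 * choices K A := by
          calc ((univ.biUnion Bd).card : ℝ) ≤ ∑ j, ((Bd j).card : ℝ) := by exact_mod_cast card_biUnion_le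
            _ ≤ ∑ j, Cs j / lam ^ 2 * choices K A := sum_le_sum fun j _ => hBcard j
            _ = Ct / lam ^ 2 * choices K A := by rw [← sum_mul, ← sum_div, hCt]
            _ ≤ _ := mul_le_mul_of_nonneg_right hlam2 hcs
        have hsub : G \ univ.biUnion Bd ⊆ (digitSet g K A).filter fun t => ∀ i, κ * u ≤ (X i t : ℝ) := by
          intro t ht
          rw [Finset.mem_sdiff, hGd, mem_filter] at ht
          refine mem_filter.2 ⟨ht.1.1, fun i => ?_⟩
          have h5 : ∀ j, (X j t : ℝ) ≤ lam * u := by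
            intro j
            by_contra hcon
            push Not at hcon
            apply ht.2
            rw [mem_biUnion]
            refine ⟨j, mem_univ j, ?_⟩
            rw [hBd]
            exact mem_filter.2 ⟨ht.1.1, hcon⟩
          have h6 := factor_large (fun i => (X i t : ℝ)) (fun i => Nat.cast_nonneg _) κ' lam u hlam1 hu0 h5
            (by rw [← hYr]; exact ht.1.2) i
          refine le_trans ?_ h6
          gcongr
        have h5 : (G.card : ℝ) ≤ ((G \ univ.biUnion Bd).card : ℝ) + ((univ.biUnion Bd).card : ℝ) := by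
          have := card_le_card_sdiff_add_card (s := G) (t := univ.biUnion Bd)
          exact_mod_cast this
        have h6 : ((G \ univ.biUnion Bd).card : ℝ) ≤ (((digitSet g K A).filter fun t => ∀ i, κ * u ≤ (X i t : ℝ)).card : ℝ) :=
          Nat.cast_le.2 (card_le_card hsub)
        have h7 : κ * choices K A ≤ κ' / 2 * choices K A := mul_le_mul_of_nonneg_right hκκ' hcs
        linarith
      · rw [min_eq_right hu1, max_eq_left hu1, one_pow, mul_one] at h4
        rw [min_eq_right hu1, max_eq_left hu1, mul_one]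
        refine le_trans ?_ (h4.trans (Nat.cast_le.2 (card_le_card ?_)))
        · have : κ ≤ κ' := hκκ'.trans (by linarith)
          gcongr
        · intro t ht
          rw [mem_filter] at ht
          refine mem_filter.2 ⟨ht.1, fun i => ?_⟩
          have h5 : 0 < (Y t : ℝ) := lt_of_lt_of_le hκ' ht.2
          have h6 : Y t ≠ 0 := by
            intro h0
            rw [h0, Nat.cast_zero] at h5
            exact lt_irrefl _ h5
          rw [hY] at h6
          have h7 : X i t ≠ 0 := fun h0 => h6 (prod_eq_zero (mem_univ i) h0)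
          have h8 : (1 : ℝ) ≤ X i t := by exact_mod_cast Nat.one_le_iff_ne_zero.2 h7
          linarith
    have hmin0 : 0 ≤ min 1 u := by positivity
    obtain ⟨m, hm⟩ : ∃ m : ℝ, m = max 1 u := ⟨_, rfl⟩
    have hm0 : 0 < m := by rw [hm]; exact lt_of_lt_of_le one_pos (le_max_left _ _)
    rw [← hm] at hlarge hM ⊢
    constructor
    · have h5 : ((((digitSet g K A).filter fun t => ∀ i, κ * m ≤ (X i t : ℝ)).card : ℝ)) * ((κ * m) ^ k) ^ l ≤
          ∑ t ∈ digitSet g K A, ∏ i, (X i t : ℝ) ^ k := by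
        rw [← nsmul_eq_mul, ← sum_const]
        refine le_trans (sum_le_sum (g := fun t => ∏ i, (X i t : ℝ) ^ k) fun t ht => ?_) ?_
        · calc ((κ * m) ^ k) ^ l = ∏ _i : Fin l, (κ * m) ^ k := by rw [prod_const, card_univ, Fintype.card_fin]
            _ ≤ ∏ i, (X i t : ℝ) ^ k := Finset.prod_le_prod (fun i _ => by positivity) fun i _ =>
                pow_le_pow_left₀ (by positivity) ((mem_filter.1 ht).2 i) k
        · exact sum_le_sum_of_subset_of_nonneg (filter_subset _ _) fun _ _ _ => by positivity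
      refine le_trans ?_ h5
      calc min κ (κ * (κ ^ k) ^ l) * M ^ l * choices K A ≤ κ * (κ ^ k) ^ l * M ^ l * choices K A := by
            gcongr
            exact min_le_right _ _
        _ = (κ * min 1 u ^ l * choices K A) * ((κ * m) ^ k) ^ l := by
            rw [hM, mul_pow, mul_pow, mul_pow]; ring
        _ ≤ _ := mul_le_mul_of_nonneg_right hlarge (by positivity)
    · refine le_trans ?_ (hlarge.trans (Nat.cast_le.2 ?_))
      · gcongr
        exact min_le_left _ _
      · have hsub2 : ((digitSet g K A).filter fun t => ∀ i, κ * m ≤ (X i t : ℝ)) ⊆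
            (digitSet g K A).filter fun t => ∀ i, min κ (κ * (κ ^ k) ^ l) * m ≤ (X i t : ℝ) := by
          intro t ht
          rw [mem_filter] at ht ⊢
          refine ⟨ht.1, fun i => le_trans ?_ (ht.2 i)⟩
          gcongr
          exact min_le_left _ _
        refine (card_le_card hsub2).trans (le_of_eq ?_)
        unfold count digitSet
        rw [filter_filter]
        congr!

end Pool.Agent.Q48.RD
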