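import Pool.Agent.Q48.RD.Exact

/-!
# Families of linear forms with integer coefficients at integers with restricted digits
-/

set_option autoImplicit false

namespace Pool.Agent.Q48.RD

open Filter Finset Polynomial
open Pool.Agent.Q315.RD

/-- No prime divides, for every `n`, one of the numbers `α_j n + β_j`. -/
def AdmZ {k : ℕ} (α β : Fin k → ℤ) : Prop := ∀ p : ℕ, p.Prime → ∃ n : ℤ, ∀ j, ¬ (p : ℤ) ∣ α j * n + β j

/-- The product of `1 - ν (p) / p` over the primes `p ≤ y`, where `ν (p)` is the number of the `n < p` such that `p` divides one of the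
numbers `α_j n + β_j` (that is, their product). -/
noncomputable def linDensity {k : ℕ} (α β : Fin k → ℤ) (y : ℕ) : ℝ := rootDensity (fun n => ∏ j, (α j * n + β j)) y

/-- Primes which are larger than the number of the forms are no obstruction. -/
lemma adm_bigZ {k : ℕ} (α β : Fin k → ℤ) {p : ℕ} (hp : p.Prime) (hk : k < p) (ha : ∀ j, ¬ (p : ℤ) ∣ α j) :
    ∃ n : ℤ, ∀ j, ¬ (p : ℤ) ∣ α j * n + β j := by
  classical
  have ha0 : ∀ j, α j ≠ 0 := fun j h => ha j (by rw [h]; exact dvd_zero _)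
  have hpz := Nat.prime_iff_prime_int.1 hp
  obtain ⟨n, hn⟩ := Pool.Agent.Y816.PD.adm_deg hp (∏ j, (C (α j) * X + C (β j)))
    (by
      rw [leadingCoeff_prod]
      intro h
      obtain ⟨j, -, hj⟩ := (hpz.dvd_finsetProd_iff _).1 h
      rw [leadingCoeff_linear (ha0 j)] at hj
      exact ha j hj)
    (by
      refine lt_of_le_of_lt (natDegree_prod_le _ _) ?_
      refine lt_of_le_of_lt (sum_le_card_nsmul _ _ 1 fun j _ => ?_) (by simpa using hk)
      rw [natDegree_linear (ha0 j)])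
  refine ⟨n, fun j hj => hn ?_⟩
  rw [eval_prod]
  refine hj.trans ?_
  have : α j * n + β j = (C (α j) * X + C (β j)).eval (n : ℤ) := by simp
  rw [this]
  exact dvd_prod_of_mem (fun j => (C (α j) * X + C (β j)).eval (n : ℤ)) (mem_univ j)

lemma classes_eq (p : ℕ) (B : ℕ → Prop) [DecidablePred B] : classes p B = ((range p).filter B).card := by
  unfold classes
  congr!

/-- A system of `k` linear forms without fixed divisors has at most `k` zeros modulo `p`. -/
lemma classes_le {k : ℕ} (α β : Fin k → ℤ) (hadm : AdmZ α β) {p : ℕ} (hp : p.Prime) :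
    (classes p fun n => (p : ℤ) ∣ ∏ j, (α j * n + β j)) ≤ k := by
  classical
  obtain ⟨n0, hn0⟩ := hadm p hp
  have hpz := Nat.prime_iff_prime_int.1 hp
  rw [classes_eq]
  have h1 : ((range p).filter fun n : ℕ => (p : ℤ) ∣ ∏ j, (α j * n + β j)) ⊆
      univ.biUnion fun j : Fin k => (range p).filter fun n : ℕ => (p : ℤ) ∣ α j * n + β j := by
    intro n hn
    simp only [mem_filter] at hn
    obtain ⟨j, -, hj⟩ := (hpz.dvd_finsetProd_iff _).1 hn.2
    simp only [mem_biUnion, mem_univ, true_and, mem_filter]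
    exact ⟨j, hn.1, hj⟩
  have h2 : ∀ j ∈ (univ : Finset (Fin k)), ((range p).filter fun n : ℕ => (p : ℤ) ∣ α j * n + β j).card ≤ 1 := by
    intro j _
    rw [card_le_one]
    intro x hx y hy
    simp only [mem_filter, mem_range] at hx hy
    have h3 : (p : ℤ) ∣ α j * ((x : ℤ) - y) := by
      have := dvd_sub hx.2 hy.2
      have e : α j * x + β j - (α j * y + β j) = α j * ((x : ℤ) - y) := by ring
      rwa [e] at this
    rcases hpz.dvd_or_dvd h3 with h4 | h4
    · exfalso
      have h5 : (p : ℤ) ∣ β j := (dvd_add_right (h4.mul_right _)).1 hx.2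
      exact hn0 j (dvd_add (h4.mul_right _) h5)
    · have h5 : ((x : ℤ) - y) = 0 := by
        apply Int.eq_zero_of_abs_lt_dvd h4
        rw [abs_lt]
        omega
      omega
  calc _ ≤ _ := card_le_card h1
    _ ≤ ∑ j : Fin k, _ := card_biUnion_le
    _ ≤ ∑ _j : Fin k, 1 := sum_le_sum h2
    _ = k := by simp

lemma classes_lt {k : ℕ} (α β : Fin k → ℤ) (hadm : AdmZ α β) {p : ℕ} (hp : p.Prime) :
    (classes p fun n => (p : ℤ) ∣ ∏ j, (α j * n + β j)) < p := by
  classical
  obtain ⟨n0, hn0⟩ := hadm p hp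
  have hpz := Nat.prime_iff_prime_int.1 hp
  have hp0 : (0 : ℤ) < p := by exact_mod_cast hp.pos
  rw [classes_eq]
  have h1 : ((range p).filter fun n : ℕ => (p : ℤ) ∣ ∏ j, (α j * n + β j)) ⊂ range p := by
    refine (filter_ssubset).2 ⟨(n0 % p).toNat, ?_, ?_⟩
    · rw [mem_range]
      have h2 := Int.emod_lt_of_pos n0 hp0
      have h3 := Int.emod_nonneg n0 hp0.ne'
      omega
    · intro h
      obtain ⟨j, -, hj⟩ := (hpz.dvd_finsetProd_iff _).1 h
      apply hn0 j
      have e : (((n0 % p).toNat : ℕ) : ℤ) = n0 % p := Int.toNat_of_nonneg (Int.emod_nonneg _ hp0.ne')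
      rw [e] at hj
      have h4 : (p : ℤ) ∣ α j * n0 + β j - (α j * (n0 % p) + β j) := by
        have := Int.emod_add_mul_ediv n0 p
        refine ⟨α j * (n0 / p), ?_⟩
        have e2 : n0 - n0 % p = p * (n0 / p) := by linarith
        calc α j * n0 + β j - (α j * (n0 % p) + β j) = α j * (n0 - n0 % p) := by ring
          _ = _ := by rw [e2]; ring
      exact (dvd_sub_left hj).1 h4
  have := card_lt_card h1
  simpa using this

/-- The fixed system with the smallest sieve product. -/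
lemma roots_ge {k p : ℕ} (hp : p.Prime) (hk : k < p) :
    k ≤ classes p fun n => (p : ℤ) ∣ ∏ i : Fin k, ((1 : ℤ) * n + ((i : ℕ) * k.factorial : ℕ)) := by
  classical
  rw [classes_eq]
  have h0 : (k.factorial).Coprime p := by
    rw [Nat.coprime_comm, hp.coprime_iff_not_dvd, hp.dvd_factorial]
    omega
  have h1 : (range k).card ≤ ((range p).filter fun n : ℕ =>
      (p : ℤ) ∣ ∏ i : Fin k, ((1 : ℤ) * n + ((i : ℕ) * k.factorial : ℕ))).card := by
    apply card_le_card_of_injOn (fun i => ((p - 1) * (i * k.factorial)) % p)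
    · intro i hi
      have hi' : i < k := by simpa using hi
      simp only [coe_filter, mem_range, Set.mem_ofPred_eq]
      refine ⟨Nat.mod_lt _ hp.pos, ?_⟩
      refine Dvd.dvd.trans ?_ (dvd_prod_of_mem _ (mem_univ (⟨i, hi'⟩ : Fin k)))
      have h2 : p ∣ ((p - 1) * (i * k.factorial)) % p + i * k.factorial := by
        rw [Nat.dvd_iff_mod_eq_zero, Nat.mod_add_mod]
        have e : (p - 1) * (i * k.factorial) + i * k.factorial = p * (i * k.factorial) := by
          have := hp.one_lt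
          calc (p - 1) * (i * k.factorial) + i * k.factorial = ((p - 1) + 1) * (i * k.factorial) := by ring
            _ = _ := by rw [Nat.sub_add_cancel (by omega)]
        rw [e, Nat.mul_mod_right]
      have h3 : ((p : ℕ) : ℤ) ∣ ((((p - 1) * (i * k.factorial)) % p + i * k.factorial : ℕ) : ℤ) := Int.natCast_dvd_natCast.2 h2
      rw [one_mul]
      exact_mod_cast h3
    · intro i hi j hj hij
      have hi' : i < k := by simpa using hi
      have hj' : j < k := by simpa using hj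
      have h2 : (p - 1) * (i * k.factorial) ≡ (p - 1) * (j * k.factorial) [MOD p] := hij
      have h3 : (p - 1).Coprime p := by
        have := hp.one_lt
        exact (Nat.coprime_self_sub_left (by omega)).2 (Nat.coprime_one_left p)
      have h4 : i * k.factorial ≡ j * k.factorial [MOD p] :=
        Nat.ModEq.cancel_left_of_coprime (by rw [Nat.gcd_comm]; exact h3) h2
      have h5 : i ≡ j [MOD p] := Nat.ModEq.cancel_right_of_coprime (by rw [Nat.gcd_comm]; exact h0) h4
      exact Nat.ModEq.eq_of_lt_of_lt h5 (by omega) (by omega)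
  simpa using h1

/-- **A lower bound for the sieve products of all systems of `k` linear forms without fixed divisors.** -/
lemma linDensity_lower (k g : ℕ) (hg : 2 ≤ g) : ∃ v : ℝ, 0 < v ∧ ∀ᶠ K : ℕ in atTop, ∀ α β : Fin k → ℤ, AdmZ α β →
    v / (K : ℝ) ^ k ≤ linDensity α β (g ^ K) := by
  classical
  have hadm0 : AdmLin (fun _ : Fin k => 1) (fun i : Fin k => (i : ℕ) * k.factorial) := by
    intro p hp
    rcases Nat.lt_or_ge k p with h | h
    · exact adm_big _ _ hp h fun _ h1 => hp.one_lt.ne' (Nat.dvd_one.1 h1)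
    · refine ⟨1, fun j h1 => hp.one_lt.ne' (Nat.dvd_one.1 ?_)⟩
      have h2 : p ∣ (j : ℕ) * k.factorial := ((Nat.Prime.dvd_factorial hp).2 h).mul_left _
      have h3 := (Nat.dvd_add_left h2).1 h1
      simpa using h3
  obtain ⟨v, C, hv, -, h⟩ := order _ (sysLin (fun _ : Fin k => 1) (fun i : Fin k => (i : ℕ) * k.factorial) (fun _ => le_refl 1)
    (fun i j _ h1 => Fin.ext (Nat.eq_of_mul_eq_mul_right (Nat.factorial_pos k) h1)) hadm0) g hg
  refine ⟨v / ∏ p ∈ (Icc 1 k).filter Nat.Prime, (p : ℝ), div_pos hv (prod_pos fun p hp => ?_), ?_⟩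
  · exact_mod_cast (mem_filter.1 hp).2.pos
  filter_upwards [h, eventually_ge_atTop 1] with K hK hK1
  intro α β hadm
  have hD : 0 < ∏ p ∈ (Icc 1 k).filter Nat.Prime, (p : ℝ) := prod_pos fun p hp => by exact_mod_cast (mem_filter.1 hp).2.pos
  rw [div_div, mul_comm, ← div_div, div_le_iff₀ hD]
  refine hK.1.trans ?_
  unfold linDensity rootDensity
  -- compare the factors
  obtain ⟨w, hw⟩ : ∃ w : ℕ → ℝ, w = fun p => if p ≤ k then (p : ℝ) else 1 := ⟨_, rfl⟩
  have h1 : ∏ p ∈ (Icc 1 (g ^ K)).filter Nat.Prime, w p ≤ ∏ p ∈ (Icc 1 k).filter Nat.Prime, (p : ℝ) := by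
    have h2 : ∏ p ∈ (Icc 1 (g ^ K)).filter Nat.Prime, w p = ∏ p ∈ ((Icc 1 (g ^ K)).filter Nat.Prime).filter (fun p => p ≤ k), (p : ℝ) := by
      rw [hw]
      exact (prod_filter _ _).symm
    rw [h2]
    have h3 : ∏ p ∈ ((Icc 1 (g ^ K)).filter Nat.Prime).filter (fun p => p ≤ k), p ≤ ∏ p ∈ (Icc 1 k).filter Nat.Prime, p := by
      apply Finset.prod_le_prod_of_subset_of_one_le'
      · intro p hp
        simp only [mem_filter, mem_Icc] at hp ⊢
        exact ⟨⟨hp.1.1.1, hp.2⟩, hp.1.2⟩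
      · intro p hp _
        exact (mem_filter.1 hp).2.pos
    calc ∏ p ∈ ((Icc 1 (g ^ K)).filter Nat.Prime).filter (fun p => p ≤ k), (p : ℝ) =
          ((∏ p ∈ ((Icc 1 (g ^ K)).filter Nat.Prime).filter (fun p => p ≤ k), p : ℕ) : ℝ) := by push_cast; rfl
      _ ≤ ((∏ p ∈ (Icc 1 k).filter Nat.Prime, p : ℕ) : ℝ) := Nat.cast_le.2 h3
      _ = _ := by push_cast; rfl
  calc ∏ p ∈ (Icc 1 (g ^ K)).filter Nat.Prime, (1 - (classes p fun n => (p : ℤ) ∣ ∏ j : Fin k,
        (Pool.Agent.W182.PW.lin 1 (((j : ℕ) * k.factorial : ℕ) : ℤ)).eval (n : ℤ)) / (p : ℝ))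
      ≤ ∏ p ∈ (Icc 1 (g ^ K)).filter Nat.Prime, ((1 - (classes p fun n => (p : ℤ) ∣ ∏ j, (α j * n + β j)) / (p : ℝ)) * w p) := by
        apply Finset.prod_le_prod
        · intro p hp
          have hp2 := (mem_filter.1 hp).2
          have hp0 : (0 : ℝ) < p := by exact_mod_cast hp2.pos
          rw [sub_nonneg, div_le_one hp0]
          apply Nat.cast_le.2
          rw [classes_eq]
          exact (card_filter_le _ _).trans (card_range p).le
        · intro p hp
          have hp2 := (mem_filter.1 hp).2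
          have hp0 : (0 : ℝ) < p := by exact_mod_cast hp2.pos
          rw [hw]
          by_cases hpk : p ≤ k
          · simp only [hpk, if_true]
            have h3 := classes_lt α β hadm hp2
            have h4 : ((classes p fun n => (p : ℤ) ∣ ∏ j, (α j * n + β j) : ℕ) : ℝ) + 1 ≤ p := by exact_mod_cast h3
            have h5 : (1 - ((classes p fun n => (p : ℤ) ∣ ∏ j, (α j * n + β j) : ℕ) : ℝ) / (p : ℝ)) * p =
                p - ((classes p fun n => (p : ℤ) ∣ ∏ j, (α j * n + β j) : ℕ) : ℝ) := by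
              field_simp
            rw [h5]
            have h6 : (0 : ℝ) ≤ ((classes p fun n => (p : ℤ) ∣ ∏ j : Fin k,
              (Pool.Agent.W182.PW.lin 1 (((j : ℕ) * k.factorial : ℕ) : ℤ)).eval (n : ℤ)) : ℕ) / (p : ℝ) := by positivity
            linarith
          · simp only [hpk, if_false, mul_one]
            apply sub_le_sub_left
            apply div_le_div_of_nonneg_right _ hp0.le
            apply Nat.cast_le.2
            refine (classes_le α β hadm hp2).trans ?_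
            have h3 := roots_ge hp2 (by omega : k < p)
            have h4 : ∀ n : ℕ, ∏ j : Fin k, (Pool.Agent.W182.PW.lin 1 (((j : ℕ) * k.factorial : ℕ) : ℤ)).eval (n : ℤ) =
                ∏ i : Fin k, ((1 : ℤ) * n + ((i : ℕ) * k.factorial : ℕ)) := by
              intro n
              apply prod_congr rfl
              intro i _
              rw [Pool.Agent.W182.PW.lin_eval]
              push_cast
              rfl
            simp only [h4]
            exact h3
    _ = (∏ p ∈ (Icc 1 (g ^ K)).filter Nat.Prime, (1 - (classes p fun n => (p : ℤ) ∣ ∏ j, (α j * n + β j)) / (p : ℝ))) *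
          ∏ p ∈ (Icc 1 (g ^ K)).filter Nat.Prime, w p := prod_mul_distrib
    _ ≤ _ := by
        apply mul_le_mul_of_nonneg_left h1
        apply prod_nonneg
        intro p hp
        have hp2 := (mem_filter.1 hp).2
        have hp0 : (0 : ℝ) < p := by exact_mod_cast hp2.pos
        rw [sub_nonneg, div_le_one hp0]
        exact Nat.cast_le.2 (classes_lt α β hadm hp2).le

/-- **Families of linear forms at integers with restricted digits.** -/
theorem famLin (k E : ℕ) :
    ∃ c : ℝ, 0 < c ∧ ∃ r₀ : ℕ, 2 ≤ r₀ ∧ ∀ r : ℕ, r₀ ≤ r → ∀ g : ℕ, 2 ≤ g → ∃ κ C : ℝ, 0 < κ ∧ 0 < C ∧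
      ∀ᶠ K : ℕ in atTop, ∀ (α β : Fin k → ℤ) (N : ℕ) (f : Fin k → ℕ → ℕ), (∀ j, |α j| ≤ (g : ℤ) ^ (E * K)) →
        (∀ j, |β j| ≤ (g : ℤ) ^ (E * K)) → N ≤ g ^ (E * K) → AdmZ α β →
        (∀ t < g ^ K, ∀ j, (f j t : ℤ) = α j * ((N : ℤ) + t) + β j) → (∀ t < g ^ K, ∀ j, t ≤ f j t) →
        ∀ A : ℕ → Finset ℕ, Rich c g K A →
          ((∃ d ∈ A 0, ∀ j, (f j d).Coprime g) →
            κ * linDensity α β (g ^ K) * choices K A ≤ count g K A fun t => ∀ j, AlmostPrime (g ^ K) r (f j t)) ∧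
          (count g K A (fun t => ∀ j, (f j t).Prime) : ℝ) ≤ C * linDensity α β (g ^ K) * choices K A := by
  obtain ⟨c, hc, r0, hr0, h⟩ := fam k 1 (2 * E + 4)
  refine ⟨c, hc, r0, hr0, fun r hr g hg => ?_⟩
  obtain ⟨κ, C', hκ, hC, h1⟩ := h r hr g hg
  refine ⟨κ, C', hκ, hC, ?_⟩
  filter_upwards [h1, eventually_ge_atTop 1] with K hK hK1
  intro α β N f hα hβ hN hadm hf hpos A hA
  have hg1 : 1 ≤ g := by omega
  have e : ∀ t < g ^ K, ∀ j, (C (α j) * X + C (β j)).eval ((N : ℤ) + t) = (f j t : ℤ) := by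
    intro t ht j
    rw [hf t ht j]
    simp
  have hden : rootDensity (fun n => ∏ j, (C (α j) * X + C (β j)).eval (n : ℤ)) (g ^ K) = linDensity α β (g ^ K) := by
    unfold linDensity
    simp
  have hdK : ∀ d ∈ A 0, d < g ^ K := fun d hd =>
    lt_of_lt_of_le (mem_range.1 (hA.1 0 (by omega) hd)) (Nat.le_self_pow (by omega) g)
  have h2 := hK (fun j => C (α j) * X + C (β j)) (fun j => natDegree_linear_le)
    (fun p hp => by
      obtain ⟨n, hn⟩ := hadm p hp
      exact ⟨n, fun j => by simpa using hn j⟩) N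
    (fun t ht j => by rw [e t ht j, Int.natAbs_natCast]; exact hpos t ht j)
    (fun t ht j => by
      rw [e t ht j, Int.natAbs_natCast]
      have h3 : (f j t : ℤ) ≤ (g : ℤ) ^ (E * K) * ((g : ℤ) ^ (E * K) + (g : ℤ) ^ K) + (g : ℤ) ^ (E * K) := by
        rw [hf t ht j]
        have h4 : α j * ((N : ℤ) + t) ≤ (g : ℤ) ^ (E * K) * ((g : ℤ) ^ (E * K) + (g : ℤ) ^ K) := by
          have h5 : ((N : ℤ) + t) ≤ (g : ℤ) ^ (E * K) + (g : ℤ) ^ K := by
            have := ht.le
            exact_mod_cast Nat.add_le_add hN this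
          have h6 : (0 : ℤ) ≤ (N : ℤ) + t := by positivity
          calc α j * ((N : ℤ) + t) ≤ |α j| * ((N : ℤ) + t) := mul_le_mul_of_nonneg_right (le_abs_self _) h6
            _ ≤ (g : ℤ) ^ (E * K) * ((g : ℤ) ^ (E * K) + (g : ℤ) ^ K) :=
                mul_le_mul (hα j) h5 h6 (by positivity)
        have h7 := (le_abs_self (β j)).trans (hβ j)
        linarith
      have h3' : f j t ≤ g ^ (E * K) * (g ^ (E * K) + g ^ K) + g ^ (E * K) := by exact_mod_cast h3
      have e1 : g ^ (E * K) ≤ g ^ ((E + 1) * K) := Nat.pow_le_pow_right hg1 (by nlinarith)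
      have e2 : g ^ K ≤ g ^ ((E + 1) * K) := Nat.pow_le_pow_right hg1 (by nlinarith)
      have e0 : 1 ≤ g ^ ((E + 1) * K) := Nat.one_le_pow _ _ hg1
      have e3 : 3 ≤ g ^ (2 * K) := by
        calc 3 ≤ 2 ^ 2 := by norm_num
          _ ≤ 2 ^ (2 * K) := Nat.pow_le_pow_right (by norm_num) (by omega)
          _ ≤ g ^ (2 * K) := Nat.pow_le_pow_left hg _
      calc f j t ≤ g ^ (E * K) * (g ^ (E * K) + g ^ K) + g ^ (E * K) := h3'
        _ ≤ g ^ ((E + 1) * K) * (g ^ ((E + 1) * K) + g ^ ((E + 1) * K)) + g ^ ((E + 1) * K) * g ^ ((E + 1) * K) :=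
            Nat.add_le_add (Nat.mul_le_mul e1 (Nat.add_le_add e1 e2)) (e1.trans (Nat.le_mul_of_pos_left _ e0))
        _ = 3 * (g ^ ((E + 1) * K)) ^ 2 := by ring
        _ ≤ g ^ (2 * K) * (g ^ ((E + 1) * K)) ^ 2 := Nat.mul_le_mul_right _ e3
        _ = g ^ ((2 * E + 4) * K) := by rw [← pow_mul, ← pow_add]; congr 1; ring) A hA
  rw [hden] at h2
  obtain ⟨h3, h4⟩ := h2
  constructor
  · rintro ⟨d, hd, h5⟩
    refine (h3 ⟨d, hd, fun j => by rw [e d (hdK d hd) j, Int.natAbs_natCast]; exact h5 j⟩).trans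
      (Nat.cast_le.2 (count_mono fun t ht hP j => ?_))
    have := hP j
    rwa [e t ht j, Int.natAbs_natCast] at this
  · refine le_trans (Nat.cast_le.2 (count_mono fun t ht hP j => ?_)) h4
    rw [e t ht j, Int.natAbs_natCast]
    exact hP j

/-- **Families of linear forms at integers with restricted digits**, with an explicit lower bound. -/
theorem famLin' (k E : ℕ) :
    ∃ c : ℝ, 0 < c ∧ ∃ r₀ : ℕ, 2 ≤ r₀ ∧ ∀ r : ℕ, r₀ ≤ r → ∀ g : ℕ, 2 ≤ g → ∃ κ C : ℝ, 0 < κ ∧ 0 < C ∧
      ∀ᶠ K : ℕ in atTop, ∀ (α β : Fin k → ℤ) (N : ℕ) (f : Fin k → ℕ → ℕ), (∀ j, |α j| ≤ (g : ℤ) ^ (E * K)) →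
        (∀ j, |β j| ≤ (g : ℤ) ^ (E * K)) → N ≤ g ^ (E * K) → AdmZ α β →
        (∀ t < g ^ K, ∀ j, (f j t : ℤ) = α j * ((N : ℤ) + t) + β j) → (∀ t < g ^ K, ∀ j, t ≤ f j t) →
        ∀ A : ℕ → Finset ℕ, Rich c g K A →
          ((∃ d ∈ A 0, ∀ j, (f j d).Coprime g) →
            κ * linDensity α β (g ^ K) * choices K A ≤ count g K A (fun t => ∀ j, AlmostPrime (g ^ K) r (f j t)) ∧
            κ * choices K A / (K : ℝ) ^ k ≤ count g K A (fun t => ∀ j, AlmostPrime (g ^ K) r (f j t))) ∧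
          (count g K A (fun t => ∀ j, (f j t).Prime) : ℝ) ≤ C * linDensity α β (g ^ K) * choices K A := by
  obtain ⟨c, hc, r0, hr0, h⟩ := famLin k E
  refine ⟨c, hc, r0, hr0, fun r hr g hg => ?_⟩
  obtain ⟨κ, C', hκ, hC, h1⟩ := h r hr g hg
  obtain ⟨v, hv, h2⟩ := linDensity_lower k g hg
  refine ⟨min κ (κ * v), C', by positivity, hC, ?_⟩
  filter_upwards [h1, h2] with K hK hV
  intro α β N f hα hβ hN hadm hf hpos A hA
  have hcs : (0 : ℝ) ≤ choices K A := Nat.cast_nonneg _
  obtain ⟨h3, h4⟩ := hK α β N f hα hβ hN hadm hf hpos A hA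
  have h5 := hV α β hadm
  have h6 : 0 ≤ linDensity α β (g ^ K) := le_trans (by positivity) h5
  refine ⟨fun hd => ⟨?_, ?_⟩, h4⟩
  · refine le_trans ?_ (h3 hd)
    exact mul_le_mul_of_nonneg_right (mul_le_mul_of_nonneg_right (min_le_left _ _) h6) hcs
  · refine le_trans ?_ (h3 hd)
    calc min κ (κ * v) * choices K A / (K : ℝ) ^ k ≤ κ * v * choices K A / (K : ℝ) ^ k :=
          div_le_div_of_nonneg_right (mul_le_mul_of_nonneg_right (min_le_right _ _) hcs) (by positivity)
      _ = κ * (v / (K : ℝ) ^ k) * choices K A := by ring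
      _ ≤ _ := mul_le_mul_of_nonneg_right (mul_le_mul_of_nonneg_left h5 hκ.le) hcs

end Pool.Agent.Q48.RD
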