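import Pool.Agent.Q48.RD.Fam

/-!
# Values of systems of polynomials at integers with restricted digits: upper bounds for values without small prime factors

Variants of `Pool.Agent.Q48.RD.fam` in which the upper bound concerns all integers at which the values have no small prime factors, and
a version for a fixed system with an explicit order of magnitude.
-/

set_option autoImplicit false

namespace Pool.Agent.Q48.RD

open Filter Finset Polynomial
open Pool.Agent.Q315.RD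

/-- the value `m` at the integer `t` has no prime factor `p ≤ t ^ (1 / r)` -/
def RoughAt (r t m : ℕ) : Prop := ∀ p : ℕ, p.Prime → p ∣ m → t < p ^ r

lemma roughAt_prime {r t m : ℕ} (hr : 2 ≤ r) (hm : m.Prime) (ht : t ≤ m) : RoughAt r t m := by
  intro p hp hpm
  have h5 : p = m := (Nat.prime_dvd_prime_iff_eq hp hm).1 hpm
  exact lt_of_le_of_lt (h5 ▸ ht) (lt_self_pow₀ hp.one_lt (by omega))

lemma roughAt_of {r y t m : ℕ} (h : AlmostPrime y r m) (ht : t ≤ y) : RoughAt r t m :=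
  fun p hp hpm => lt_of_le_of_lt ht (h.1 p hp hpm)

/-- **Families of systems of polynomials at integers with restricted digits, rough values.** -/
theorem famR (k δ D : ℕ) :
    ∃ c : ℝ, 0 < c ∧ ∃ r₀ : ℕ, 2 ≤ r₀ ∧ ∀ r : ℕ, r₀ ≤ r → ∀ g : ℕ, 2 ≤ g → ∃ κ C : ℝ, 0 < κ ∧ 0 < C ∧
      ∀ᶠ K : ℕ in atTop, ∀ P : Fin k → ℤ[X], (∀ j, (P j).natDegree ≤ δ) →
        (∀ p : ℕ, p.Prime → ∃ t : ℤ, ∀ j, ¬ (p : ℤ) ∣ (P j).eval t) → ∀ N : ℕ,
        (∀ t < g ^ K, ∀ j, ((P j).eval ((N : ℤ) + t)).natAbs ≤ g ^ (D * K)) →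
        ∀ A : ℕ → Finset ℕ, Rich c g K A →
          ((∃ d ∈ A 0, ∀ j, ((P j).eval ((N : ℤ) + d)).natAbs.Coprime g) →
            κ * rootDensity (fun n => ∏ j, (P j).eval (n : ℤ)) (g ^ K) * choices K A ≤
              count g K A fun t => ∀ j, AlmostPrime (g ^ K) r ((P j).eval ((N : ℤ) + t)).natAbs) ∧
          (count g K A (fun t => ∀ j, RoughAt r t ((P j).eval ((N : ℤ) + t)).natAbs) : ℝ) ≤
            C * rootDensity (fun n => ∏ j, (P j).eval (n : ℤ)) (g ^ K) * choices K A := by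
  classical
  obtain ⟨c, hc, r0, hr0, h⟩ := Pool.Agent.Y816.PD.uni_fun (k * δ + 1) (k * D) (by omega)
  refine ⟨c, hc, r0, hr0, fun r hr g hg => ?_⟩
  obtain ⟨κ, C, hκ, hC, h1⟩ := h r hr g hg
  refine ⟨κ, C, hκ, hC, ?_⟩
  filter_upwards [h1, eventually_ge_atTop (r + 1)] with K hK hK1
  intro P hdeg hadm N hsz A ⟨hA, hprod⟩
  have h2r : 2 ^ r < g ^ K :=
    (Nat.pow_le_pow_left hg r).trans_lt (Nat.pow_lt_pow_right (by omega) (by omega))
  have hden : rootDensity (fun t => ∏ j, (P j).eval ((N : ℤ) + t)) (g ^ K) =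
      rootDensity (fun n => ∏ j, (P j).eval (n : ℤ)) (g ^ K) := by
    have h2 := rootDensity_shift (∏ j, P j) N (g ^ K)
    simpa only [eval_prod] using h2
  obtain ⟨F, hF⟩ : ∃ F : Fin k → ℕ → ℤ, F = fun j (t : ℕ) => (P j).eval ((N : ℤ) + t) := ⟨_, rfl⟩
  have hFe : ∀ j t, (P j).eval ((N : ℤ) + (t : ℕ)) = F j t := fun j t => by rw [hF]
  simp only [hFe] at hsz hden ⊢
  have hnat : ∀ t : ℕ, (∏ i, F i t).natAbs = ∏ i, (F i t).natAbs := fun t => map_prod Int.natAbsHom _ _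
  obtain ⟨hlow, hup⟩ := hK (fun t => ∏ i, F i t)
    ⟨(∏ j, P j).comp (X + Polynomial.C (N : ℤ)), by
      rw [natDegree_comp, natDegree_X_add_C, mul_one]
      refine (natDegree_prod_le _ _).trans ?_
      have h4 : ∑ j : Fin k, (P j).natDegree ≤ ∑ _j : Fin k, δ := sum_le_sum fun j _ => hdeg j
      rw [sum_const, card_univ, Fintype.card_fin, smul_eq_mul] at h4
      omega, fun t => by
      rw [eval_comp, eval_add, eval_X, eval_C, add_comm, eval_prod]
      exact prod_congr rfl fun j _ => hFe j t⟩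
    (fun p hp => by
      obtain ⟨t, ht⟩ := hadm p hp
      have hp0 : (0 : ℤ) < p := by exact_mod_cast hp.pos
      refine ⟨((t - N) % p).toNat, fun hd => ?_⟩
      obtain ⟨j, hj⟩ := (dvd_prodZ F hp _).1 hd
      apply ht j
      have e : ((((t - N) % p).toNat : ℕ) : ℤ) = (t - N) % p := Int.toNat_of_nonneg (Int.emod_nonneg _ hp0.ne')
      rw [← hFe, e] at hj
      refine (dvd_eval_iff (P j) ?_).1 hj
      have h5 : (p : ℤ) ∣ (t - N) % p - (t - N) := by
        have := Int.emod_add_mul_ediv (t - N) p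
        exact ⟨-((t - N) / p), by linarith⟩
      have h6 : (N : ℤ) + (t - N) % p - t = (t - N) % p - (t - N) := by ring
      rw [h6]
      exact h5)
    (fun t ht => by
      rw [hnat]
      calc ∏ j, (F j t).natAbs ≤ ∏ _j : Fin k, g ^ (D * K) :=
            prod_le_prod (fun _ _ => Nat.zero_le _) (fun j _ => hsz t ht j)
        _ = g ^ (k * D * K) := by
            rw [prod_const, card_univ, Fintype.card_fin, ← pow_mul]
            congr 1
            ring)
    A hA (by rw [← choices_eq]; exact hprod)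
  rw [rootDensity_eq, ← choices_eq, hden] at hlow hup
  constructor
  · rintro ⟨d, hd, hd1⟩
    have h3 := hlow ⟨d, hd, by
      rw [hnat]
      exact Nat.Coprime.prod_left fun i _ => hd1 i⟩
    rw [mul_right_comm]
    refine h3.trans (Nat.cast_le.2 ?_)
    refine ND_le_count fun t hn1 hn i => ?_
    obtain ⟨hn3, hn4⟩ := hn
    simp only at hn3 hn4
    rw [hnat] at hn4
    have hne : ∀ i, (F i t).natAbs ≠ 0 := by
      intro j hj
      have h4 := hn3 2 Nat.prime_two ((dvd_prodZ F Nat.prime_two t).2 ⟨j, by rw [Int.natAbs_eq_zero.1 hj]; exact dvd_zero _⟩)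
      omega
    exact ⟨fun p hp hpd => hn3 p hp ((dvd_prodZ F hp t).2 ⟨i, Int.natCast_dvd.2 hpd⟩),
      (length_prod (fun i => (F i t).natAbs) hne i).trans hn4⟩
  · rw [mul_right_comm]
    refine le_trans (Nat.cast_le.2 ?_) hup
    refine count_le_ND fun t hn1 hn => ?_
    intro p hp hpn
    obtain ⟨i, hi⟩ := (dvd_prodZ F hp t).1 hpn
    exact hn i p hp (Int.natCast_dvd.1 hi)

open Pool.Agent.W123.RU.Poly in
/-- **A fixed system of polynomials at integers with restricted digits, with the order of magnitude.** -/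
theorem fixN {k : ℕ} (P : Fin k → ℤ[X]) (hP : Sys P) (f : Fin k → ℕ → ℕ)
    (n₀ : ℕ) (hf : ∀ (j : Fin k) (n : ℕ), n₀ ≤ n → (P j).eval (n : ℤ) = f j n) (E : ℕ) :
    ∃ c : ℝ, 0 < c ∧ ∃ r₀ : ℕ, 2 ≤ r₀ ∧ ∀ r : ℕ, r₀ ≤ r → ∀ g : ℕ, 2 ≤ g → ∃ κ C : ℝ, 0 < κ ∧ 0 < C ∧
      ∀ᶠ K : ℕ in atTop, ∀ N : ℕ, n₀ ≤ N → N ≤ g ^ (E * K) → ∀ A : ℕ → Finset ℕ, Rich c g K A →
        ((∃ d ∈ A 0, ∀ j, (f j (N + d)).Coprime g) →
          κ * choices K A / (K : ℝ) ^ k ≤ count g K A fun t => ∀ j, AlmostPrime (g ^ K) r (f j (N + t))) ∧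
        (count g K A (fun t => ∀ j, RoughAt r t (f j (N + t))) : ℝ) ≤ C * choices K A / (K : ℝ) ^ k := by
  classical
  choose B hB using fun j => Pool.Agent.Q315.RD.eval_bound (P j)
  obtain ⟨δ, hδ⟩ : ∃ δ, ∀ j, (P j).natDegree ≤ δ :=
    ⟨∑ j, (P j).natDegree, fun j => single_le_sum (f := fun j => (P j).natDegree) (fun _ _ => Nat.zero_le _) (mem_univ j)⟩
  obtain ⟨B0, hB0⟩ : ∃ B0, ∀ j, B j ≤ B0 :=
    ⟨∑ j, B j, fun j => single_le_sum (f := B) (fun _ _ => Nat.zero_le _) (mem_univ j)⟩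
  obtain ⟨c, hc, r0, hr0, h⟩ := famR k δ (1 + (E + 2) * δ)
  refine ⟨c, hc, r0, hr0, fun r hr g hg => ?_⟩
  obtain ⟨κ, C, hκ, hC, h1⟩ := h r hr g hg
  obtain ⟨w, W, hw, hW, h2⟩ := order P hP g hg
  refine ⟨κ * w, C * W, by positivity, by positivity, ?_⟩
  filter_upwards [h1, h2, eventually_ge_atTop (B0 + 1)] with K hK hV hKB
  intro N hN0 hN A hA
  have hg1 : 1 ≤ g := by omega
  have e : ∀ (j : Fin k) (t : ℕ), (P j).eval ((N : ℤ) + t) = (f j (N + t) : ℤ) := by
    intro j t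
    rw [← hf j (N + t) (by omega)]
    push_cast
    rfl
  have h3 := hK P hδ (fun p hp => by
      obtain ⟨n, hn⟩ := hP.adm p hp
      exact ⟨n, hn⟩) N
    (fun t ht j => by
      rw [e, Int.natAbs_natCast]
      have h4 := hB j (N + t)
      rw [hf j _ (by omega), Int.natAbs_natCast] at h4
      have h5 : N + t + 1 ≤ g ^ ((E + 2) * K) := by
        calc N + t + 1 ≤ g ^ (E * K) + g ^ K := by omega
          _ ≤ g ^ ((E + 1) * K) + g ^ ((E + 1) * K) := by
              apply Nat.add_le_add <;> exact Nat.pow_le_pow_right hg1 (by nlinarith)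
          _ = 2 * g ^ ((E + 1) * K) := by ring
          _ ≤ g ^ K * g ^ ((E + 1) * K) := by
              apply Nat.mul_le_mul_right
              calc 2 ≤ g := hg
                _ ≤ g ^ K := Nat.le_self_pow (by omega) g
          _ = g ^ ((E + 2) * K) := by rw [← pow_add]; congr 1; ring
      have hBK : B j ≤ g ^ K := by
        calc B j ≤ K := by have := hB0 j; omega
          _ ≤ 2 ^ K := (Nat.lt_two_pow_self).le
          _ ≤ g ^ K := Nat.pow_le_pow_left hg K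
      calc f j (N + t) ≤ B j * (N + t + 1) ^ (P j).natDegree := h4
        _ ≤ g ^ K * (g ^ ((E + 2) * K)) ^ δ :=
            Nat.mul_le_mul hBK ((Nat.pow_le_pow_left h5 _).trans (Nat.pow_le_pow_right (Nat.one_le_pow _ _ hg1) (hδ j)))
        _ = g ^ ((1 + (E + 2) * δ) * K) := by
            rw [← pow_mul, ← pow_add]; congr 1; ring) A hA
  simp only [e, Int.natAbs_natCast] at h3
  have hcs : (0 : ℝ) ≤ choices K A := Nat.cast_nonneg _
  obtain ⟨h4, h5⟩ := h3
  constructor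
  · intro hd
    refine le_trans ?_ (h4 hd)
    calc κ * w * choices K A / (K : ℝ) ^ k = κ * (w / (K : ℝ) ^ k) * choices K A := by ring
      _ ≤ _ := mul_le_mul_of_nonneg_right (mul_le_mul_of_nonneg_left hV.1 hκ.le) hcs
  · refine h5.trans ?_
    calc _ ≤ C * (W / (K : ℝ) ^ k) * choices K A :=
          mul_le_mul_of_nonneg_right (mul_le_mul_of_nonneg_left hV.2 hC.le) hcs
      _ = C * W * choices K A / (K : ℝ) ^ k := by ring

/-- Removing exceptions of a smaller order of magnitude. -/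
lemma remove {κ C : ℝ} (hκ : 0 < κ) (k : ℕ) : ∀ᶠ K : ℕ in atTop, ∀ (g : ℕ) (A : ℕ → Finset ℕ) (P Q R : ℕ → Prop),
    (∀ t < g ^ K, P t → Q t ∨ R t) → κ * choices K A / (K : ℝ) ^ k ≤ count g K A P →
    (count g K A R : ℝ) ≤ C * choices K A / (K : ℝ) ^ (k + 1) → κ / 2 * choices K A / (K : ℝ) ^ k ≤ count g K A Q := by
  classical
  filter_upwards [eventually_ge_atTop 1, (tendsto_natCast_atTop_atTop (R := ℝ)).eventually_ge_atTop (2 * C / κ)] with K hK1 hK2
  intro g A P Q R h h1 h2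
  have hK0 : (0 : ℝ) < K := by exact_mod_cast hK1
  have hcs : (0 : ℝ) ≤ choices K A := Nat.cast_nonneg _
  have h3 : count g K A P ≤ count g K A Q + count g K A R := by
    unfold count
    refine le_trans (card_le_card ?_) (card_union_le _ _)
    intro t ht
    have h4 := mem_filter.1 ht
    rcases h t (mem_range.1 h4.1) h4.2.2 with h5 | h5
    · exact mem_union_left _ (mem_filter.2 ⟨h4.1, h4.2.1, h5⟩)
    · exact mem_union_right _ (mem_filter.2 ⟨h4.1, h4.2.1, h5⟩)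
  have h4 : (count g K A P : ℝ) ≤ count g K A Q + count g K A R := by exact_mod_cast h3
  have h5 : C * choices K A / (K : ℝ) ^ (k + 1) ≤ κ / 2 * choices K A / (K : ℝ) ^ k := by
    rw [pow_succ, div_le_div_iff₀ (by positivity) (by positivity)]
    have h6 : C ≤ κ / 2 * K := by
      rw [div_le_iff₀ hκ] at hK2
      linarith
    calc C * choices K A * (K : ℝ) ^ k = C * (choices K A * (K : ℝ) ^ k) := by ring
      _ ≤ κ / 2 * K * (choices K A * (K : ℝ) ^ k) := mul_le_mul_of_nonneg_right h6 (by positivity)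
      _ = κ / 2 * choices K A * ((K : ℝ) ^ k * K) := by ring
  have h7 : κ * choices K A / (K : ℝ) ^ k = κ / 2 * choices K A / (K : ℝ) ^ k + κ / 2 * choices K A / (K : ℝ) ^ k := by ring
  linarith

lemma rich_mono {c c' : ℝ} {g K : ℕ} {A : ℕ → Finset ℕ} (h : Rich c g K A) (hc : c ≤ c') : Rich c' g K A := by
  refine ⟨h.1, h.2.trans ?_⟩
  apply mul_le_mul_of_nonneg_right _ (Nat.cast_nonneg _)
  apply Real.exp_le_exp.2
  exact mul_le_mul_of_nonneg_right hc (Nat.cast_nonneg _)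

lemma count_exists_le {ι : Type} (S : Finset ι) (g K : ℕ) (A : ℕ → Finset ℕ) (R : ι → ℕ → Prop) :
    count g K A (fun t => ∃ i ∈ S, R i t) ≤ ∑ i ∈ S, count g K A (R i) := by
  classical
  unfold count
  refine le_trans (card_le_card ?_) card_biUnion_le
  intro t ht
  simp only [mem_filter, mem_biUnion] at ht ⊢
  obtain ⟨h1, h2, i, hi, h3⟩ := ht
  exact ⟨i, hi, h1, h2, h3⟩

/-- Removing exceptions of a smaller order of magnitude, finitely many kinds. -/
lemma removes {ι : Type} (S : Finset ι) {κ C : ℝ} (hκ : 0 < κ) (k : ℕ) :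
    ∀ᶠ K : ℕ in atTop, ∀ (g : ℕ) (A : ℕ → Finset ℕ) (P Q : ℕ → Prop) (R : ι → ℕ → Prop),
    (∀ t < g ^ K, P t → Q t ∨ ∃ i ∈ S, R i t) → κ * choices K A / (K : ℝ) ^ k ≤ count g K A P →
    (∀ i ∈ S, (count g K A (R i) : ℝ) ≤ C * choices K A / (K : ℝ) ^ (k + 1)) →
    κ / 2 * choices K A / (K : ℝ) ^ k ≤ count g K A Q := by
  filter_upwards [remove (C := S.card * C) hκ k] with K hK
  intro g A P Q R h h1 h2
  refine hK g A P Q (fun t => ∃ i ∈ S, R i t) h h1 ?_
  calc (count g K A (fun t => ∃ i ∈ S, R i t) : ℝ) ≤ ((∑ i ∈ S, count g K A (R i) : ℕ) : ℝ) :=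
        Nat.cast_le.2 (count_exists_le S g K A R)
    _ = ∑ i ∈ S, (count g K A (R i) : ℝ) := by push_cast; rfl
    _ ≤ ∑ _i ∈ S, C * choices K A / (K : ℝ) ^ (k + 1) := sum_le_sum h2
    _ = S.card * C * choices K A / (K : ℝ) ^ (k + 1) := by rw [sum_const, nsmul_eq_mul]; ring

open Pool.Agent.W123.RU.Poly in
/-- **Upper bounds for finitely many systems.** -/
theorem fixNs {ι : Type} (S : Finset ι) {k : ℕ} (P : ι → Fin k → ℤ[X]) (hP : ∀ i ∈ S, Sys (P i)) (f : ι → Fin k → ℕ → ℕ)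
    (n₀ : ℕ) (hf : ∀ i ∈ S, ∀ (j : Fin k) (n : ℕ), n₀ ≤ n → (P i j).eval (n : ℤ) = f i j n) (E : ℕ) :
    ∃ c : ℝ, 0 < c ∧ ∃ r₀ : ℕ, 2 ≤ r₀ ∧ ∀ r : ℕ, r₀ ≤ r → ∀ g : ℕ, 2 ≤ g → ∃ C : ℝ, 0 < C ∧
      ∀ᶠ K : ℕ in atTop, ∀ i ∈ S, ∀ N : ℕ, n₀ ≤ N → N ≤ g ^ (E * K) → ∀ A : ℕ → Finset ℕ, Rich c g K A →
        (count g K A (fun t => ∀ j, RoughAt r t (f i j (N + t))) : ℝ) ≤ C * choices K A / (K : ℝ) ^ k := by
  classical
  induction S using Finset.induction_on with
  | empty =>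
    refine ⟨1, one_pos, 2, le_refl 2, fun r _ g _ => ⟨1, one_pos, ?_⟩⟩
    filter_upwards with K i hi
    exact absurd hi (notMem_empty i)
  | insert a S ha ih =>
    obtain ⟨c1, hc1, r1, hr1, h1⟩ := ih (fun i hi => hP i (mem_insert_of_mem hi)) (fun i hi => hf i (mem_insert_of_mem hi))
    obtain ⟨c2, hc2, r2, hr2, h2⟩ := fixN (P a) (hP a (mem_insert_self a S)) (f a) n₀ (hf a (mem_insert_self a S)) E
    refine ⟨min c1 c2, lt_min hc1 hc2, max r1 r2, hr1.trans (le_max_left _ _), fun r hr g hg => ?_⟩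
    obtain ⟨C1, hC1, h3⟩ := h1 r ((le_max_left _ _).trans hr) g hg
    obtain ⟨κ, C2, -, hC2, h4⟩ := h2 r ((le_max_right _ _).trans hr) g hg
    refine ⟨max C1 C2, lt_max_of_lt_left hC1, ?_⟩
    filter_upwards [h3, h4] with K hK3 hK4 i hi N hN0 hN A hA
    have hcs : (0 : ℝ) ≤ choices K A := Nat.cast_nonneg _
    have hmono : ∀ C : ℝ, C ≤ max C1 C2 → C * choices K A / (K : ℝ) ^ k ≤ max C1 C2 * choices K A / (K : ℝ) ^ k :=
      fun C hC => div_le_div_of_nonneg_right (mul_le_mul_of_nonneg_right hC hcs) (by positivity)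
    rcases mem_insert.1 hi with rfl | hi
    · exact (hK4 N hN0 hN A (rich_mono hA (min_le_right _ _))).2.trans (hmono _ (le_max_right _ _))
    · exact (hK3 i hi N hN0 hN A (rich_mono hA (min_le_left _ _))).trans (hmono _ (le_max_left _ _))

end Pool.Agent.Q48.RD
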