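import Pool.Agent.Q48.RD.Gen
import Pool.Agent.Q48.RD.Rough
import Pool.Agent.Y440.LC.Lcm

/-!
# Almost primes in short intervals starting at integers with restricted digits (second moment)
-/

set_option autoImplicit false

namespace Pool.Agent.Q48.RD

open Filter Finset Polynomial
open Pool.Agent.Q315.RD
open Pool.Agent.Erdos456 (GG)

/-- **Families of linear forms at integers with restricted digits**, upper bounds for rough values. -/
theorem famLinR (k E : ℕ) :
    ∃ c : ℝ, 0 < c ∧ ∃ r₀ : ℕ, 2 ≤ r₀ ∧ ∀ r : ℕ, r₀ ≤ r → ∀ g : ℕ, 2 ≤ g → ∃ κ C : ℝ, 0 < κ ∧ 0 < C ∧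
      ∀ᶠ K : ℕ in atTop, ∀ (α β : Fin k → ℤ) (N : ℕ) (f : Fin k → ℕ → ℕ), (∀ j, |α j| ≤ (g : ℤ) ^ (E * K)) →
        (∀ j, |β j| ≤ (g : ℤ) ^ (E * K)) → N ≤ g ^ (E * K) → AdmZ α β →
        (∀ t < g ^ K, ∀ j, (f j t : ℤ) = α j * ((N : ℤ) + t) + β j) →
        ∀ A : ℕ → Finset ℕ, Rich c g K A →
          ((∃ d ∈ A 0, ∀ j, (f j d).Coprime g) →
            κ * linDensity α β (g ^ K) * choices K A ≤ count g K A (fun t => ∀ j, AlmostPrime (g ^ K) r (f j t)) ∧
            κ * choices K A / (K : ℝ) ^ k ≤ count g K A (fun t => ∀ j, AlmostPrime (g ^ K) r (f j t))) ∧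
          (count g K A (fun t => ∀ j, RoughAt r t (f j t)) : ℝ) ≤ C * linDensity α β (g ^ K) * choices K A := by
  obtain ⟨c, hc, r0, hr0, h⟩ := famR k 1 (2 * E + 4)
  refine ⟨c, hc, r0, hr0, fun r hr g hg => ?_⟩
  obtain ⟨κ, C', hκ, hC, h1⟩ := h r hr g hg
  obtain ⟨v, hv, hv2⟩ := linDensity_lower k g hg
  refine ⟨min κ (κ * v), C', by positivity, hC, ?_⟩
  filter_upwards [h1, hv2, eventually_ge_atTop 1] with K hK hV hK1
  intro α β N f hα hβ hN hadm hf A hA
  have hg1 : 1 ≤ g := by omega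
  have hcs : (0 : ℝ) ≤ choices K A := Nat.cast_nonneg _
  have e : ∀ t < g ^ K, ∀ j, (C (α j) * X + C (β j)).eval ((N : ℤ) + t) = (f j t : ℤ) := by
    intro t ht j
    rw [hf t ht j]
    simp
  have hden : rootDensity (fun n => ∏ j, (C (α j) * X + C (β j)).eval (n : ℤ)) (g ^ K) = linDensity α β (g ^ K) := by
    unfold linDensity
    simp
  have hdK : ∀ d ∈ A 0, d < g ^ K := fun d hd =>
    lt_of_lt_of_le (mem_range.1 (hA.1 0 (by omega) hd)) (Nat.le_self_pow (by omega) g)
  have h2 := hK (fun j => C (α j) * X + C (β j)) (fun j => natDegree_linear_le)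
    (fun p hp => by
      obtain ⟨n, hn⟩ := hadm p hp
      exact ⟨n, fun j => by simpa using hn j⟩) N
    (fun t ht j => by
      rw [e t ht j, Int.natAbs_natCast]
      have h3 : (f j t : ℤ) ≤ (g : ℤ) ^ (E * K) * ((g : ℤ) ^ (E * K) + (g : ℤ) ^ K) + (g : ℤ) ^ (E * K) := by
        rw [hf t ht j]
        have h4 : α j * ((N : ℤ) + t) ≤ (g : ℤ) ^ (E * K) * ((g : ℤ) ^ (E * K) + (g : ℤ) ^ K) := by
          have h5 : ((N : ℤ) + t) ≤ (g : ℤ) ^ (E * K) + (g : ℤ) ^ K := by
            have := ht.le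
            exact_mod_cast Nat.add_le_add hN this
          have h6 : (0 : ℤ) ≤ (N : ℤ) + t := by positivity
          calc α j * ((N : ℤ) + t) ≤ |α j| * ((N : ℤ) + t) := mul_le_mul_of_nonneg_right (le_abs_self _) h6
            _ ≤ (g : ℤ) ^ (E * K) * ((g : ℤ) ^ (E * K) + (g : ℤ) ^ K) :=
                mul_le_mul (hα j) h5 h6 (by positivity)
        have h7 := (le_abs_self (β j)).trans (hβ j)
        linarith
      have h3' : f j t ≤ g ^ (E * K) * (g ^ (E * K) + g ^ K) + g ^ (E * K) := by exact_mod_cast h3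
      have e1 : g ^ (E * K) ≤ g ^ ((E + 1) * K) := Nat.pow_le_pow_right hg1 (by nlinarith)
      have e2 : g ^ K ≤ g ^ ((E + 1) * K) := Nat.pow_le_pow_right hg1 (by nlinarith)
      have e0 : 1 ≤ g ^ ((E + 1) * K) := Nat.one_le_pow _ _ hg1
      have e3 : 3 ≤ g ^ (2 * K) := by
        calc 3 ≤ 2 ^ 2 := by norm_num
          _ ≤ 2 ^ (2 * K) := Nat.pow_le_pow_right (by norm_num) (by omega)
          _ ≤ g ^ (2 * K) := Nat.pow_le_pow_left hg _
      calc f j t ≤ g ^ (E * K) * (g ^ (E * K) + g ^ K) + g ^ (E * K) := h3'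
        _ ≤ g ^ ((E + 1) * K) * (g ^ ((E + 1) * K) + g ^ ((E + 1) * K)) + g ^ ((E + 1) * K) * g ^ ((E + 1) * K) :=
            Nat.add_le_add (Nat.mul_le_mul e1 (Nat.add_le_add e1 e2)) (e1.trans (Nat.le_mul_of_pos_left _ e0))
        _ = 3 * (g ^ ((E + 1) * K)) ^ 2 := by ring
        _ ≤ g ^ (2 * K) * (g ^ ((E + 1) * K)) ^ 2 := Nat.mul_le_mul_right _ e3
        _ = g ^ ((2 * E + 4) * K) := by rw [← pow_mul, ← pow_add]; congr 1; ring) A hA
  rw [hden] at h2
  obtain ⟨h3, h4⟩ := h2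
  have h5 := hV α β hadm
  have h6 : 0 ≤ linDensity α β (g ^ K) := le_trans (by positivity) h5
  constructor
  · rintro ⟨d, hd, h7⟩
    have h8 := (h3 ⟨d, hd, fun j => by rw [e d (hdK d hd) j, Int.natAbs_natCast]; exact h7 j⟩).trans
      (Nat.cast_le.2 (count_mono (P := fun t => ∀ j, AlmostPrime (g ^ K) r ((C (α j) * X + C (β j)).eval ((N : ℤ) + t)).natAbs)
        (Q := fun t => ∀ j, AlmostPrime (g ^ K) r (f j t)) fun t ht hP j => by
          have := hP j
          rwa [e t ht j, Int.natAbs_natCast] at this))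
    constructor
    · refine le_trans ?_ h8
      exact mul_le_mul_of_nonneg_right (mul_le_mul_of_nonneg_right (min_le_left _ _) h6) hcs
    · refine le_trans ?_ h8
      calc min κ (κ * v) * choices K A / (K : ℝ) ^ k ≤ κ * v * choices K A / (K : ℝ) ^ k :=
            div_le_div_of_nonneg_right (mul_le_mul_of_nonneg_right (min_le_right _ _) hcs) (by positivity)
        _ = κ * (v / (K : ℝ) ^ k) * choices K A := by ring
        _ ≤ _ := mul_le_mul_of_nonneg_right (mul_le_mul_of_nonneg_left h5 hκ.le) hcs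
  · refine le_trans (Nat.cast_le.2 (count_mono fun t ht hP j => ?_)) h4
    rw [e t ht j, Int.natAbs_natCast]
    exact hP j

lemma GG_ge_one {h : ℕ} (hh : 1 ≤ h) : 1 ≤ GG h := by
  unfold GG
  rw [le_div_iff₀ (by exact_mod_cast Nat.totient_pos.2 hh), one_mul]
  exact_mod_cast Nat.totient_le h

/-- the function `h / φ (h)` as a product -/
lemma GG_prod {h : ℕ} (hh : 1 ≤ h) : GG h * ∏ p ∈ h.primeFactors, (1 - 1 / (p : ℝ)) = 1 := by
  have h1 := Nat.totient_eq_mul_prod_factors h
  have h2 : ((Nat.totient h : ℕ) : ℝ) = h * ∏ p ∈ h.primeFactors, (1 - 1 / (p : ℝ)) := by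
    have h3 := congrArg (Rat.cast : ℚ → ℝ) h1
    push_cast at h3
    simpa only [one_div] using h3
  have h0 : (0 : ℝ) < Nat.totient h := by exact_mod_cast Nat.totient_pos.2 hh
  unfold GG
  rw [div_mul_eq_mul_div, ← h2, div_self h0.ne']

lemma count_zero {g K : ℕ} {A : ℕ → Finset ℕ} {P : ℕ → Prop} (h : ∀ t < g ^ K, ¬ P t) : count g K A P = 0 := by
  classical
  unfold count
  exact card_eq_zero.2 (filter_eq_empty_iff.2 fun t ht h1 => h t (mem_range.1 ht) h1.2)

open Classical in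
lemma count_sum {g K : ℕ} {A : ℕ → Finset ℕ} {ι : Type*} (s : Finset ι) (P : ι → ℕ → Prop) :
    ∑ i ∈ s, count g K A (P i) = ∑ t ∈ (range (g ^ K)).filter (HasDigits g K A), (s.filter fun i => P i t).card := by
  have h1 : ∀ i, count g K A (P i) = ∑ t ∈ (range (g ^ K)).filter (HasDigits g K A), if P i t then 1 else 0 := by
    intro i
    unfold count
    rw [← card_filter, filter_filter]
  simp only [h1]
  rw [sum_comm]
  apply sum_congr rfl
  intro t _
  rw [card_filter]

open Classical in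
lemma card_digits {g K : ℕ} (hg : 1 ≤ g) {A : ℕ → Finset ℕ} (hA : ∀ i < K, A i ⊆ range g) :
    ((range (g ^ K)).filter (HasDigits g K A)).card = choices K A := by
  have h := Pool.Agent.Y816.PD.card_dset K (by omega : 0 < g) hA
  unfold Pool.Agent.Y816.PD.cd at h
  simp only [Nat.zero_add] at h
  unfold choices
  rw [← h]
  unfold Pool.Agent.Y816.PD.dset HasDigits
  congr!


/-- the zeros of two values of one form -/
lemma classes_pair {q : ℕ} {b : ℤ} (h k : ℕ) {p : ℕ} (hp : p.Prime) :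
    (if p ∣ q then 0 else if p ∣ k then 1 else 2) ≤
      (classes p fun n => (p : ℤ) ∣ ∏ j : Fin 2, ((q : ℤ) * n + ![b + q * h, b + q * (h + k : ℕ)] j)) := by
  classical
  have := Fact.mk hp
  have hpz := Nat.prime_iff_prime_int.1 hp
  rw [classes_eq]
  by_cases hpq : p ∣ q
  · rw [if_pos hpq]
    exact Nat.zero_le _
  rw [if_neg hpq]
  have ha : ((q : ℕ) : ZMod p) ≠ 0 := fun h0 => hpq ((ZMod.natCast_eq_zero_iff q p).1 h0)
  have key : ∀ n : ℕ, (p : ℤ) ∣ ∏ j : Fin 2, ((q : ℤ) * n + ![b + q * h, b + q * (h + k : ℕ)] j) ↔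
      ((n : ℕ) : ZMod p) = -(b : ZMod p) / q - h ∨ ((n : ℕ) : ZMod p) = -(b : ZMod p) / q - h - k := by
    intro n
    rw [Fin.prod_univ_two, ← ZMod.intCast_zmod_eq_zero_iff_dvd]
    simp only [Matrix.cons_val_zero, Matrix.cons_val_one, Matrix.cons_val_fin_one]
    push_cast
    rw [mul_eq_zero]
    constructor
    · rintro (h1 | h1)
      · left; field_simp; linear_combination h1
      · right; field_simp; linear_combination h1
    · rintro (h1 | h1)
      · left; rw [h1]; field_simp; ring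
      · right; rw [h1]; field_simp; ring
  have hset : ({(-(b : ZMod p) / q - h).val, (-(b : ZMod p) / q - h - k).val} : Finset ℕ) ⊆
      (range p).filter fun n : ℕ => (p : ℤ) ∣ ∏ j : Fin 2, ((q : ℤ) * n + ![b + q * h, b + q * (h + k : ℕ)] j) := by
    intro n hn
    simp only [mem_insert, mem_singleton] at hn
    simp only [mem_filter, mem_range, key]
    rcases hn with h1 | h1
    · rw [h1]; exact ⟨ZMod.val_lt _, Or.inl (by rw [ZMod.natCast_val, ZMod.cast_id])⟩
    · rw [h1]; exact ⟨ZMod.val_lt _, Or.inr (by rw [ZMod.natCast_val, ZMod.cast_id])⟩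
  refine le_trans ?_ (card_le_card hset)
  split_ifs with hd
  · exact card_pos.2 ⟨_, mem_insert_self _ _⟩
  · rw [card_pair]
    intro h3
    have h4 := ZMod.val_injective p h3
    apply hd
    rw [← ZMod.natCast_eq_zero_iff]
    linear_combination h4

lemma oneV_nonneg (α : ℤ) (y : ℕ) : 0 ≤ oneV α y := by
  apply prod_nonneg
  intro p hp
  have h2 : (2 : ℝ) ≤ p := by exact_mod_cast (mem_filter.1 hp).2.1.two_le
  rw [sub_nonneg, div_le_one (by linarith)]
  linarith

/-- the density of the pairs -/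
lemma pair_density (q : ℕ) (b : ℤ) (h k : ℕ) (hk : 1 ≤ k) (y : ℕ) :
    linDensity (fun _ : Fin 2 => (q : ℤ)) ![b + q * h, b + q * (h + k : ℕ)] y ≤ oneV q y ^ 2 * GG k ^ 2 := by
  classical
  have hG := GG_ge_one hk
  obtain ⟨w, hw⟩ : ∃ w : ℕ → ℝ, w = fun p => if p ∣ k then (1 - 1 / (p : ℝ)) else 1 := ⟨_, rfl⟩
  have hw0 : ∀ p : ℕ, p.Prime → 0 < w p ∧ w p ≤ 1 := by
    intro p hp
    have h2 : (2 : ℝ) ≤ p := by exact_mod_cast hp.two_le
    have h3 : 1 / (p : ℝ) ≤ 1 / 2 := one_div_le_one_div_of_le (by norm_num) h2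
    have h4 : 0 ≤ 1 / (p : ℝ) := by positivity
    rw [hw]
    by_cases hd : p ∣ k
    · simp only [hd, if_true]
      exact ⟨by linarith, by linarith⟩
    · simp only [hd, if_false]
      exact ⟨one_pos, le_rfl⟩
  have hV : oneV q y ^ 2 = ∏ p ∈ (Icc 1 y).filter Nat.Prime, (if p ∣ q then 1 else (1 - 1 / (p : ℝ)) ^ 2) := by
    unfold oneV
    rw [← prod_pow]
    conv_lhs => rw [← filter_filter, prod_filter]
    apply prod_congr rfl
    intro p _
    by_cases hd : p ∣ q
    · rw [if_neg (by simpa [Int.natCast_dvd_natCast] using hd), if_pos hd]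
    · rw [if_pos (by simpa [Int.natCast_dvd_natCast] using hd), if_neg hd]
  have h1 : linDensity (fun _ : Fin 2 => (q : ℤ)) ![b + q * h, b + q * (h + k : ℕ)] y *
      ∏ p ∈ (Icc 1 y).filter Nat.Prime, w p ≤ oneV q y ^ 2 := by
    unfold linDensity rootDensity
    rw [hV, ← prod_mul_distrib]
    apply Finset.prod_le_prod
    · intro p hp
      have hp2 := (mem_filter.1 hp).2
      have hp0 : (0 : ℝ) < p := by exact_mod_cast hp2.pos
      refine mul_nonneg ?_ (hw0 p hp2).1.le
      rw [sub_nonneg, div_le_one hp0]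
      apply Nat.cast_le.2
      rw [classes_eq]
      exact (card_filter_le _ _).trans (card_range p).le
    · intro p hp
      have hp2 := (mem_filter.1 hp).2
      have h2 : (2 : ℝ) ≤ p := by exact_mod_cast hp2.two_le
      have hp0 : (0 : ℝ) < p := by linarith
      have h3 := classes_pair (q := q) (b := b) h k hp2
      have h4 : ((if p ∣ q then 0 else if p ∣ k then 1 else 2 : ℕ) : ℝ) ≤
          (classes p fun n => (p : ℤ) ∣ ∏ j : Fin 2, ((q : ℤ) * n + ![b + q * h, b + q * (h + k : ℕ)] j)) := Nat.cast_le.2 h3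
      have h5 : 0 ≤ 1 - ((if p ∣ q then 0 else if p ∣ k then 1 else 2 : ℕ) : ℝ) / p := by
        rw [sub_nonneg, div_le_one hp0]
        split_ifs <;> push_cast <;> linarith
      calc (1 - ((classes p fun n => (p : ℤ) ∣ ∏ j : Fin 2, ((q : ℤ) * n + ![b + q * h, b + q * (h + k : ℕ)] j) : ℕ) : ℝ) / p) * w p ≤
          (1 - ((if p ∣ q then 0 else if p ∣ k then 1 else 2 : ℕ) : ℝ) / p) * w p := by
            apply mul_le_mul_of_nonneg_right _ (hw0 p hp2).1.le
            apply sub_le_sub_left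
            exact div_le_div_of_nonneg_right h4 hp0.le
        _ ≤ _ := by
            have h6 := hw0 p hp2
            rw [hw] at h6 ⊢
            by_cases hd : p ∣ q
            · rw [if_pos hd, if_pos hd, Nat.cast_zero, zero_div, sub_zero, one_mul]
              exact h6.2
            · rw [if_neg hd, if_neg hd]
              by_cases hd2 : p ∣ k
              · simp only [hd2, if_true]
                push_cast
                exact le_of_eq (by ring)
              · simp only [hd2, if_false, mul_one]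
                push_cast
                have : (1 - 1 / (p : ℝ)) ^ 2 = 1 - 2 / p + (1 / p) ^ 2 := by ring
                rw [this]
                have : (0 : ℝ) ≤ (1 / p) ^ 2 := by positivity
                linarith
  have h2 : 1 ≤ (∏ p ∈ (Icc 1 y).filter Nat.Prime, w p) * GG k := by
    have h3 : ∏ p ∈ (Icc 1 y).filter Nat.Prime, w p = ∏ p ∈ ((Icc 1 y).filter Nat.Prime).filter (fun p => p ∣ k), (1 - 1 / (p : ℝ)) := by
      rw [hw]
      exact (prod_filter _ _).symm
    have h4 : ∏ p ∈ k.primeFactors, (1 - 1 / (p : ℝ)) ≤ ∏ p ∈ (Icc 1 y).filter Nat.Prime, w p := by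
      rw [h3]
      apply Finset.prod_le_prod_of_subset_of_le_one
      · intro p hp
        simp only [mem_filter, mem_Icc] at hp
        exact Nat.mem_primeFactors.2 ⟨hp.1.2, hp.2, by omega⟩
      · intro p hp
        have h2 : (2 : ℝ) ≤ p := by exact_mod_cast (Nat.prime_of_mem_primeFactors hp).two_le
        rw [sub_nonneg, div_le_one (by linarith)]
        linarith
      · intro p hp _
        have h4 : 0 ≤ 1 / (p : ℝ) := by positivity
        linarith
    have h5 := GG_prod hk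
    calc (1 : ℝ) = (∏ p ∈ k.primeFactors, (1 - 1 / (p : ℝ))) * GG k := by rw [mul_comm, h5]
      _ ≤ _ := mul_le_mul_of_nonneg_right h4 (by linarith)
  have h7 : 0 ≤ linDensity (fun _ : Fin 2 => (q : ℤ)) ![b + q * h, b + q * (h + k : ℕ)] y := by
    unfold linDensity rootDensity
    apply prod_nonneg
    intro p hp
    have hp2 := (mem_filter.1 hp).2
    have hp0 : (0 : ℝ) < p := by exact_mod_cast hp2.pos
    rw [sub_nonneg, div_le_one hp0]
    apply Nat.cast_le.2
    rw [classes_eq]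
    exact (card_filter_le _ _).trans (card_range p).le
  calc linDensity (fun _ : Fin 2 => (q : ℤ)) ![b + q * h, b + q * (h + k : ℕ)] y
      ≤ linDensity (fun _ : Fin 2 => (q : ℤ)) ![b + q * h, b + q * (h + k : ℕ)] y *
        ((∏ p ∈ (Icc 1 y).filter Nat.Prime, w p) * GG k) := le_mul_of_one_le_right h7 h2
    _ = (linDensity (fun _ : Fin 2 => (q : ℤ)) ![b + q * h, b + q * (h + k : ℕ)] y *
        ∏ p ∈ (Icc 1 y).filter Nat.Prime, w p) * GG k := by ring
    _ ≤ oneV q y ^ 2 * GG k := mul_le_mul_of_nonneg_right h1 (by linarith)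
    _ ≤ _ := by
        apply mul_le_mul_of_nonneg_left _ (sq_nonneg _)
        nlinarith

lemma adm_pair {q : ℕ} {b : ℤ} (hq : IsCoprime (q : ℤ) b) (h k : ℕ) (hev : Even q ∨ Even k) :
    AdmZ (fun _ : Fin 2 => (q : ℤ)) ![b + q * h, b + q * (h + k : ℕ)] := by
  intro p hp
  have hpz := Nat.prime_iff_prime_int.1 hp
  by_cases hpq : p ∣ q
  · have hpb : ¬ (p : ℤ) ∣ b := fun h1 => hpz.not_isUnit (hq.isUnit_of_dvd' (Int.natCast_dvd_natCast.2 hpq) h1)
    have hpq' : (p : ℤ) ∣ q := Int.natCast_dvd_natCast.2 hpq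
    refine ⟨0, fun j hj => hpb ?_⟩
    fin_cases j
    · have h5 : (p : ℤ) ∣ q * 0 + (b + q * h) := hj
      have h6 : (q : ℤ) * 0 + (b + q * h) = b + q * h := by ring
      rw [h6] at h5
      exact (dvd_add_left (hpq'.mul_right _)).1 h5
    · have h5 : (p : ℤ) ∣ q * 0 + (b + q * (h + k : ℕ)) := hj
      have h6 : (q : ℤ) * 0 + (b + q * (h + k : ℕ)) = b + q * (h + k : ℕ) := by ring
      rw [h6] at h5
      exact (dvd_add_left (hpq'.mul_right _)).1 h5
  rcases Nat.lt_or_ge 2 p with h3 | h3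
  · exact adm_bigZ _ _ hp h3 fun j h1 => hpq (Int.natCast_dvd_natCast.1 h1)
  · have h4 : p = 2 := by have := hp.two_le; omega
    subst h4
    have hk : Even k := by
      rcases hev with h5 | h5
      · exact absurd (even_iff_two_dvd.1 h5) hpq
      · exact h5
    obtain ⟨w, hw⟩ := hk
    have hqo : (q : ℤ) % 2 = 1 := by omega
    refine ⟨b + h + 1, fun j hj => ?_⟩
    have hkey : ((q : ℤ) * (b + h + 1) + (b + q * h)) % 2 = 1 := by
      have h7 : ((q : ℤ) * (b + h + 1) + (b + q * h)) = (q + 1) * b + 2 * (q * h) + q := by ring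
      rw [h7]
      obtain ⟨z, hz⟩ : ∃ z : ℤ, (q : ℤ) + 1 = 2 * z := ⟨(q + 1) / 2, by omega⟩
      rw [hz]
      have h8 : 2 * z * b + 2 * (q * h) + q = 2 * (z * b + q * h) + q := by ring
      rw [h8]
      omega
    fin_cases j
    · have h5 : ((2 : ℕ) : ℤ) ∣ q * (b + h + 1) + (b + q * h) := hj
      push_cast at h5
      omega
    · have h5 : ((2 : ℕ) : ℤ) ∣ q * (b + h + 1) + (b + q * (h + k : ℕ)) := hj
      have h6 : (q : ℤ) * (b + h + 1) + (b + q * (h + k : ℕ)) = (q * (b + h + 1) + (b + q * h)) + 2 * (q * w) := by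
        rw [hw]; push_cast; ring
      rw [h6] at h5
      push_cast at h5
      omega

/-- **The first and the second moment.** -/
theorem moments (E : ℕ) :
    ∃ c : ℝ, 0 < c ∧ ∃ r₀ : ℕ, 2 ≤ r₀ ∧ ∀ r : ℕ, r₀ ≤ r → ∀ g : ℕ, 2 ≤ g → ∃ κ C : ℝ, 0 < κ ∧ 0 < C ∧
      ∀ᶠ K : ℕ in atTop, ∀ q b N : ℕ, q ≤ g ^ (E * K) → b ≤ g ^ (E * K) → N ≤ g ^ (E * K) → q.Coprime b →
        ∀ A : ℕ → Finset ℕ, Rich c g K A →
        (∀ h : ℕ, h ≤ g ^ (E * K) → (∃ d ∈ A 0, (q * (N + d + h) + b).Coprime g) →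
          κ * oneV q (g ^ K) * choices K A ≤ count g K A fun t => AlmostPrime (g ^ K) r (q * (N + t + h) + b)) ∧
        (∀ h : ℕ, h ≤ g ^ (E * K) →
          (count g K A (fun t => AlmostPrime (g ^ K) r (q * (N + t + h) + b)) : ℝ) ≤ C * oneV q (g ^ K) * choices K A) ∧
        ∀ h h' : ℕ, h < h' → h' ≤ g ^ (E * K) →
          (count g K A (fun t => AlmostPrime (g ^ K) r (q * (N + t + h) + b) ∧ AlmostPrime (g ^ K) r (q * (N + t + h') + b)) : ℝ) ≤
            C * oneV q (g ^ K) ^ 2 * GG (h' - h) ^ 2 * choices K A := by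
  classical
  obtain ⟨c1, hc1, r1, hr1, H1⟩ := famLinR 1 (2 * E + 1)
  obtain ⟨c2, hc2, r2, hr2, H2⟩ := famLinR 2 (2 * E + 1)
  refine ⟨min c1 c2, lt_min hc1 hc2, max r1 r2, by omega, fun r hr g hg => ?_⟩
  obtain ⟨κ1, C1, hκ1, hC1, H1⟩ := H1 r (by omega) g hg
  obtain ⟨κ2, C2, hκ2, hC2, H2⟩ := H2 r (by omega) g hg
  refine ⟨κ1, C1 + C2, hκ1, by positivity, ?_⟩
  filter_upwards [H1, H2, eventually_ge_atTop (r + 1)] with K K1 K2 hKr
  intro q b N hq hb hN hqb A hA
  have hqb' : IsCoprime (q : ℤ) (b : ℤ) := Nat.isCoprime_iff_coprime.2 hqb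
  have hcs : (0 : ℝ) ≤ choices K A := Nat.cast_nonneg _
  have hV0 := oneV_nonneg q (g ^ K)
  have hg1 : 1 ≤ g := by omega
  have hrich : ∀ c' : ℝ, min c1 c2 ≤ c' → Rich c' g K A := fun c' hc' => ⟨hA.1, hA.2.trans (by gcongr)⟩
  have h2r : 2 ^ r < g ^ K :=
    (Nat.pow_le_pow_left hg r).trans_lt (Nat.pow_lt_pow_right (by omega) (by omega))
  have hEE : g ^ (E * K) ≤ g ^ ((2 * E + 1) * K) := Nat.pow_le_pow_right hg1 (by nlinarith)
  have hqZ : |(q : ℤ)| ≤ (g : ℤ) ^ ((2 * E + 1) * K) := by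
    rw [abs_of_nonneg (by positivity)]
    exact_mod_cast hq.trans hEE
  have hbZ : ∀ h : ℕ, h ≤ g ^ (E * K) → |(b : ℤ) + q * h| ≤ (g : ℤ) ^ ((2 * E + 1) * K) := by
    intro h hh
    rw [abs_of_nonneg (by positivity)]
    have e0 : 1 ≤ g ^ (E * K) := Nat.one_le_pow _ _ hg1
    have h1 : b + q * h ≤ g ^ (E * K) + g ^ (E * K) * g ^ (E * K) := Nat.add_le_add hb (Nat.mul_le_mul hq hh)
    have h2 : g ^ (E * K) + g ^ (E * K) * g ^ (E * K) ≤ 2 * (g ^ (E * K) * g ^ (E * K)) := by nlinarith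
    have h3 : 2 * (g ^ (E * K) * g ^ (E * K)) ≤ g ^ ((2 * E + 1) * K) := by
      have h4 : g ^ ((2 * E + 1) * K) = g ^ K * (g ^ (E * K) * g ^ (E * K)) := by
        rw [← pow_add, ← pow_add]; congr 1; ring
      rw [h4]
      exact Nat.mul_le_mul_right _ (hg.trans (Nat.le_self_pow (by omega) g))
    exact_mod_cast h1.trans (h2.trans h3)
  have hco : ∀ h : ℕ, IsCoprime (q : ℤ) ((b : ℤ) + q * h) := fun h => by
    have := hqb'.add_mul_left_right (h : ℤ)
    exact this
  have A1 : ∀ h : ℕ, h ≤ g ^ (E * K) →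
      ((∃ d ∈ A 0, (q * (N + d + h) + b).Coprime g) → κ1 * oneV q (g ^ K) * choices K A ≤
        count g K A fun t => AlmostPrime (g ^ K) r (q * (N + t + h) + b)) ∧
      (count g K A (fun t => AlmostPrime (g ^ K) r (q * (N + t + h) + b)) : ℝ) ≤ C1 * oneV q (g ^ K) * choices K A := by
    intro h hh
    have h1 := K1 (fun _ => (q : ℤ)) (fun _ => (b : ℤ) + q * h) N (fun _ t => q * (N + t + h) + b) (fun _ => hqZ) (fun _ => hbZ h hh)
      (hN.trans hEE)
      (admZ_one (hco h)) (fun t _ _ => by push_cast; ring) A (hrich c1 (min_le_left _ _))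
    rw [linDensity_one (hco h)] at h1
    simp only [forall_const] at h1
    refine ⟨fun hd => (h1.1 hd).1, ?_⟩
    have h2 : count g K A (fun t => AlmostPrime (g ^ K) r (q * (N + t + h) + b)) ≤ count g K A (fun t => RoughAt r t (q * (N + t + h) + b)) :=
      count_mono fun t ht hP => roughAt_of hP ht.le
    exact (Nat.cast_le.2 h2).trans h1.2
  refine ⟨fun h hh hd => (A1 h hh).1 hd, fun h hh => (A1 h hh).2.trans ?_, fun h h' hlt hh' => ?_⟩
  · gcongr
    linarith
  · by_cases hev : Even q ∨ Even (h' - h)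
    · have e1 : h + (h' - h) = h' := by omega
      have h1 := K2 (fun _ => (q : ℤ)) ![(b : ℤ) + q * h, (b : ℤ) + q * (h + (h' - h) : ℕ)] N
        (fun j t => ![q * (N + t + h) + b, q * (N + t + h') + b] j) (fun _ => hqZ)
        (fun j => by
          fin_cases j
          · exact hbZ h (hlt.le.trans hh')
          · change |(b : ℤ) + q * ((h + (h' - h) : ℕ) : ℤ)| ≤ _
            rw [e1]
            exact hbZ h' hh') (hN.trans hEE) (adm_pair hqb' h (h' - h) hev)
        (fun t _ j => by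
          fin_cases j
          · change ((q * (N + t + h) + b : ℕ) : ℤ) = q * ((N : ℤ) + t) + ((b : ℤ) + q * h)
            push_cast; ring
          · change ((q * (N + t + h') + b : ℕ) : ℤ) = q * ((N : ℤ) + t) + ((b : ℤ) + q * ((h + (h' - h) : ℕ) : ℤ))
            rw [e1]
            push_cast; ring) A (hrich c2 (min_le_right _ _))
      simp only [Fin.forall_fin_two, Matrix.cons_val_zero, Matrix.cons_val_one, Matrix.cons_val_fin_one] at h1
      have h2 : count g K A (fun t => AlmostPrime (g ^ K) r (q * (N + t + h) + b) ∧ AlmostPrime (g ^ K) r (q * (N + t + h') + b)) ≤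
          count g K A (fun t => RoughAt r t (q * (N + t + h) + b) ∧ RoughAt r t (q * (N + t + h') + b)) :=
        count_mono fun t ht hP => ⟨roughAt_of hP.1 ht.le, roughAt_of hP.2 ht.le⟩
      refine (Nat.cast_le.2 h2).trans (h1.2.trans ?_)
      calc C2 * linDensity (fun _ : Fin 2 => (q : ℤ)) ![(b : ℤ) + q * h, (b : ℤ) + q * (h + (h' - h) : ℕ)] (g ^ K) * choices K A ≤
          C2 * (oneV q (g ^ K) ^ 2 * GG (h' - h) ^ 2) * choices K A := by
            gcongr
            exact pair_density q b h (h' - h) (by omega) (g ^ K)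
        _ ≤ (C1 + C2) * (oneV q (g ^ K) ^ 2 * GG (h' - h) ^ 2) * choices K A := by
            gcongr
            linarith
        _ = _ := by ring
    · have h0 : count g K A (fun t => AlmostPrime (g ^ K) r (q * (N + t + h) + b) ∧ AlmostPrime (g ^ K) r (q * (N + t + h') + b)) = 0 := by
        apply count_zero
        rintro t - ⟨h1, h2⟩
        have h3 : 2 ∣ q * (N + t + h) + b ∨ 2 ∣ q * (N + t + h') + b := by
          rw [not_or, Nat.not_even_iff_odd, Nat.not_even_iff_odd] at hev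
          obtain ⟨⟨w, hw⟩, ⟨v, hv⟩⟩ := hev
          have e1 : q * (N + t + h') + b = (q * (N + t + h) + b) + q * (h' - h) := by
            have : N + t + h' = (N + t + h) + (h' - h) := by omega
            rw [this]; ring
          have e2 : q * (h' - h) = 2 * (w * (2 * v + 1) + v) + 1 := by
            rw [hv, hw]; ring
          rw [e1, e2]
          omega
        rcases h3 with h3 | h3
        · have := h1.1 2 Nat.prime_two h3
          omega
        · have := h2.1 2 Nat.prime_two h3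
          omega
      rw [h0, Nat.cast_zero]
      positivity

end Pool.Agent.Q48.RD
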