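import Pool.Agent.Q48.RD.TupW

/-!
# All moments of the number of almost primes in short intervals starting at integers with restricted digits
-/

set_option autoImplicit false

namespace Pool.Agent.Q48.RD

open Filter Finset
open Pool.Agent.Q315.RD
open Pool.Agent.Erdos456 (GG)

/-- powers and falling factorials -/
lemma pow_le_desc (X k : ℕ) (hk : 1 ≤ k) : X ^ k ≤ k ^ k * (X + X.descFactorial k) := by
  rcases Nat.lt_or_ge X k with h | h
  · rcases Nat.eq_zero_or_pos X with h0 | h0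
    · rw [h0, zero_pow (by omega)]
      exact Nat.zero_le _
    · calc X ^ k ≤ k ^ k := Nat.pow_le_pow_left h.le k
        _ = k ^ k * 1 := (mul_one _).symm
        _ ≤ k ^ k * (X + X.descFactorial k) := Nat.mul_le_mul_left _ (by omega)
  · have h1 : X ≤ k * (X - k + 1) := by
      obtain ⟨d, rfl⟩ := Nat.exists_eq_add_of_le h
      rw [Nat.add_sub_cancel_left]
      nlinarith
    have h2 : (X - k + 1) ^ k ≤ X.descFactorial k := by
      have := Nat.pow_sub_le_descFactorial X k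
      have e : X + 1 - k = X - k + 1 := by omega
      rwa [e] at this
    calc X ^ k ≤ (k * (X - k + 1)) ^ k := Nat.pow_le_pow_left h1 k
      _ = k ^ k * (X - k + 1) ^ k := mul_pow _ _ _
      _ ≤ k ^ k * (X + X.descFactorial k) := Nat.mul_le_mul_left _ (by omega)

/-- injective tuples in a finite set of integers -/
lemma desc_le_inj (S U : Finset ℕ) (hSU : S ⊆ U) (l : ℕ) (Q : (Fin l → ℕ) → Prop) [DecidablePred Q]
    (hQ : ∀ h : Fin l → ℕ, (∀ j, h j ∈ S) → Q h) :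
    S.card.descFactorial l ≤ (((Fintype.piFinset fun _ : Fin l => U).filter Function.Injective).filter Q).card := by
  classical
  have h1 : Fintype.card (Fin l ↪ S) = S.card.descFactorial l := by
    rw [Fintype.card_embedding_eq, Fintype.card_coe, Fintype.card_fin]
  rw [← h1, ← Fintype.card_coe]
  refine Fintype.card_le_of_injective (fun e : Fin l ↪ S => (⟨fun j => (e j : ℕ), ?_⟩ :
    {x // x ∈ ((Fintype.piFinset fun _ : Fin l => U).filter Function.Injective).filter Q})) ?_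
  · rw [mem_filter, mem_filter, Fintype.mem_piFinset]
    exact ⟨⟨fun j => hSU (e j).2, fun i j hij => e.injective (Subtype.ext hij)⟩, hQ _ fun j => (e j).2⟩
  · intro e e' hee
    ext j
    have := congrArg Subtype.val hee
    exact congrFun this j

/-- a sum over tuples of a function of two coordinates -/
lemma sum_two_coord {l : ℕ} (T : ℕ) (i j : Fin l) (hij : i ≠ j) (F : ℕ → ℕ → ℝ) (M : ℝ)
    (hF : ∀ a ∈ Icc 1 T, ∑ b ∈ Icc 1 T, F a b ≤ M) :
    (T : ℝ) * ∑ h ∈ Fintype.piFinset (fun _ : Fin l => Icc 1 T), F (h i) (h j) ≤ (T : ℝ) ^ l * M := by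
  classical
  obtain ⟨P, hP⟩ : ∃ P : Finset (Fin l → ℕ), P = Fintype.piFinset (fun _ : Fin l => Icc 1 T) := ⟨_, rfl⟩
  rw [← hP]
  have hmem : ∀ h : Fin l → ℕ, h ∈ P ↔ ∀ a, h a ∈ Icc 1 T := by
    intro h
    rw [hP, Fintype.mem_piFinset]
  have h1 : (T : ℝ) * ∑ h ∈ P, F (h i) (h j) = ∑ x ∈ P ×ˢ Icc 1 T, F (x.1 i) (x.1 j) := by
    rw [sum_product, mul_sum]
    apply sum_congr rfl
    intro h _
    dsimp only
    rw [sum_const, Nat.card_Icc, Nat.add_sub_cancel, nsmul_eq_mul]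
  have h2 : ∑ x ∈ P ×ˢ Icc 1 T, F (x.1 i) (x.1 j) = ∑ x ∈ P ×ˢ Icc 1 T, F (x.1 i) x.2 := by
    refine sum_nbij' (fun x => (Function.update x.1 j x.2, x.1 j)) (fun x => (Function.update x.1 j x.2, x.1 j)) ?_ ?_ ?_ ?_ ?_
    · intro x hx
      rw [mem_product, hmem] at hx
      rw [mem_product, hmem]
      refine ⟨fun a => ?_, hx.1 j⟩
      dsimp only
      by_cases ha : a = j
      · rw [ha, Function.update_self]; exact hx.2
      · rw [Function.update_of_ne ha]; exact hx.1 a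
    · intro x hx
      rw [mem_product, hmem] at hx
      rw [mem_product, hmem]
      refine ⟨fun a => ?_, hx.1 j⟩
      dsimp only
      by_cases ha : a = j
      · rw [ha, Function.update_self]; exact hx.2
      · rw [Function.update_of_ne ha]; exact hx.1 a
    · intro x _
      simp
    · intro x _
      simp
    · intro x _
      dsimp only
      rw [Function.update_of_ne hij]
  rw [h1, h2, sum_product]
  have h3 : ∀ h ∈ P, ∑ b ∈ Icc 1 T, F (h i) b ≤ M := fun h hh => hF _ ((hmem h).1 hh i)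
  refine (sum_le_sum h3).trans (le_of_eq ?_)
  rw [sum_const, hP, Fintype.card_piFinset, prod_const, card_univ, Fintype.card_fin, Nat.card_Icc, Nat.add_sub_cancel, nsmul_eq_mul]
  push_cast
  ring

/-- **Upper bound on average over all tuples of different shifts.** -/
theorem tuplesMean (l E : ℕ) :
    ∃ c : ℝ, 0 < c ∧ ∃ r₀ : ℕ, 2 ≤ r₀ ∧ ∀ r : ℕ, r₀ ≤ r → ∀ g : ℕ, 2 ≤ g → ∃ C : ℝ, 0 < C ∧
      ∀ᶠ K : ℕ in atTop, ∀ N T : ℕ, N ≤ g ^ (E * K) → 1 ≤ T → T ≤ g ^ (E * K) → ∀ A : ℕ → Finset ℕ, Rich c g K A →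
        ∑ h ∈ (Fintype.piFinset fun _ : Fin l => Icc 1 T).filter Function.Injective,
          (count g K A (fun t => ∀ j, AlmostPrime (g ^ K) r (N + t + h j)) : ℝ) ≤ C * (T / (K : ℝ)) ^ l * choices K A := by
  classical
  obtain ⟨c2, hc2, r2, hr2, H2⟩ := upForms l (E + 1)
  obtain ⟨R, hR⟩ : ∃ R : Finset (Fin l × Fin l), R = univ.filter (fun x => x.1 < x.2) := ⟨_, rfl⟩
  obtain ⟨B, hB, HB⟩ := GG_moment R.card
  have hG : ∀ n : ℕ, 0 ≤ GG n := fun n => by unfold GG; positivity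
  refine ⟨c2, hc2, r2, hr2, fun r hr g hg => ?_⟩
  obtain ⟨C2, hC2, H2⟩ := H2 r hr g hg
  obtain ⟨w, W, hw, hW, HG⟩ := oneV_GG (E + 1) g hg
  refine ⟨C2 * W ^ l * (1 + R.card * (4 * B)) + 1, by positivity, ?_⟩
  filter_upwards [H2, HG, eventually_ge_atTop 1] with K K2 KG hK1
  intro N T hN hT1 hT A hA
  have hKr : (0 : ℝ) < K := by exact_mod_cast (by omega : 0 < K)
  have hg1 : 1 ≤ g := by omega
  have hcs : (0 : ℝ) ≤ choices K A := Nat.cast_nonneg _
  have hTr : (1 : ℝ) ≤ T := by exact_mod_cast hT1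
  have hle : g ^ (E * K) ≤ g ^ ((E + 1) * K) := Nat.pow_le_pow_right hg1 (by nlinarith)
  have hN' : N ≤ g ^ ((E + 1) * K) := hN.trans hle
  have hone : 1 ≤ g ^ ((E + 1) * K) := Nat.one_le_pow _ _ hg1
  have honeZ : |(1 : ℤ)| ≤ (g : ℤ) ^ ((E + 1) * K) := by
    rw [abs_one]
    exact_mod_cast hone
  have hV1 : oneV (1 : ℤ) (g ^ K) ≤ W / K := by
    have hGG1 : GG 1 = 1 := by unfold GG; simp
    have := (KG 1 le_rfl hone).2
    rw [hGG1, mul_one] at this
    exact_mod_cast this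
  have hV10 := oneV_nonneg 1 (g ^ K)
  obtain ⟨P, hP⟩ : ∃ P : Finset (Fin l → ℕ), P = Fintype.piFinset (fun _ : Fin l => Icc 1 T) := ⟨_, rfl⟩
  rw [← hP]
  have hmem : ∀ h : Fin l → ℕ, h ∈ P ↔ ∀ a, h a ∈ Icc 1 T := by
    intro h
    rw [hP, Fintype.mem_piFinset]
  obtain ⟨F, hF⟩ : ∃ F : ℕ → ℕ → ℝ, F = fun (a b : ℕ) => if ((b : ℤ) + (-(a : ℤ))) = 0 then (0 : ℝ) else GG ((b : ℤ) + (-(a : ℤ))).natAbs ^ R.card := ⟨_, rfl⟩
  have hF0 : ∀ a b, 0 ≤ F a b := by
    intro a b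
    rw [hF]
    dsimp only
    split_ifs
    · exact le_rfl
    · exact pow_nonneg (hG _) _
  have hone_h : ∀ h ∈ P.filter Function.Injective, (count g K A (fun t => ∀ j, AlmostPrime (g ^ K) r (N + t + h j)) : ℝ) ≤
      C2 * W ^ l / (K : ℝ) ^ l * choices K A * (1 + ∑ x ∈ R, F (h x.1) (h x.2)) := by
    intro h hh
    rw [mem_filter, hmem] at hh
    obtain ⟨hh, hinj⟩ := hh
    have hne : ∀ i j : Fin l, i < j → (h j : ℤ) - h i ≠ 0 := by
      intro i j hij h0
      exact hij.ne (hinj (by omega))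
    have h4 := K2 (fun _ => (1 : ℤ)) (fun j => (h j : ℤ)) N (fun j t => N + t + h j) (fun _ => honeZ)
      (fun j => by
        rw [abs_of_nonneg (by positivity)]
        have := (mem_Icc.1 (hh j)).2
        exact_mod_cast (this.trans hT).trans hle) hN' (fun _ => isCoprime_one_left)
      (fun i j hij => by rw [one_mul, one_mul]; exact hne i j hij)
      (fun t _ j => by push_cast; ring) A hA
    rw [← hR] at h4
    simp only [prod_const, card_univ, Fintype.card_fin, one_mul] at h4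
    refine h4.trans ?_
    have h6 := prod_le_sum_pow R (fun x => GG ((h x.2 : ℤ) - h x.1).natAbs) (fun _ _ => hG _)
    have h7 : ∑ x ∈ R, GG ((h x.2 : ℤ) - h x.1).natAbs ^ R.card = ∑ x ∈ R, F (h x.1) (h x.2) := by
      apply sum_congr rfl
      intro x hx
      rw [hR, mem_filter] at hx
      have h8 := hne x.1 x.2 hx.2
      rw [hF]
      dsimp only
      rw [← sub_eq_add_neg, if_neg h8]
    rw [h7] at h6
    calc C2 * (oneV 1 (g ^ K) ^ l * ∏ x ∈ R, GG ((h x.2 : ℤ) - h x.1).natAbs) * choices K A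
        ≤ C2 * ((W / K) ^ l * (1 + ∑ x ∈ R, F (h x.1) (h x.2))) * choices K A := by
          apply mul_le_mul_of_nonneg_right _ hcs
          apply mul_le_mul_of_nonneg_left _ hC2.le
          apply mul_le_mul (pow_le_pow_left₀ hV10 hV1 _) h6 (prod_nonneg fun _ _ => hG _) (by positivity)
      _ = _ := by rw [div_pow]; ring
  have hrow : ∀ a ∈ Icc 1 T, ∑ b ∈ Icc 1 T, F a b ≤ 4 * B * T := by
    intro a ha
    rw [mem_Icc] at ha
    have h3 := sum_diff HB T T (-(a : ℤ)) (by rw [Int.natAbs_neg]; exact ha.2)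
    rw [hF]
    refine h3.trans (le_of_eq ?_)
    ring
  have hcardP : (P.card : ℝ) = (T : ℝ) ^ l := by
    rw [hP, Fintype.card_piFinset, prod_const, card_univ, Fintype.card_fin, Nat.card_Icc, Nat.add_sub_cancel]
    push_cast
    rfl
  have hpairs : ∀ x ∈ R, ∑ h ∈ P, F (h x.1) (h x.2) ≤ (T : ℝ) ^ l * (4 * B) := by
    intro x hx
    rw [hR, mem_filter] at hx
    have h5 := sum_two_coord T x.1 x.2 hx.2.ne F (4 * B * T) hrow
    rw [← hP] at h5
    have h6 : (T : ℝ) * ∑ h ∈ P, F (h x.1) (h x.2) ≤ (T : ℝ) * ((T : ℝ) ^ l * (4 * B)) := by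
      refine h5.trans (le_of_eq ?_)
      ring
    exact le_of_mul_le_mul_left h6 (by linarith)
  have hc0 : 0 ≤ C2 * W ^ l / (K : ℝ) ^ l * choices K A := by positivity
  calc ∑ h ∈ P.filter Function.Injective, (count g K A (fun t => ∀ j, AlmostPrime (g ^ K) r (N + t + h j)) : ℝ)
      ≤ ∑ h ∈ P.filter Function.Injective, C2 * W ^ l / (K : ℝ) ^ l * choices K A * (1 + ∑ x ∈ R, F (h x.1) (h x.2)) := sum_le_sum hone_h
    _ ≤ ∑ h ∈ P, C2 * W ^ l / (K : ℝ) ^ l * choices K A * (1 + ∑ x ∈ R, F (h x.1) (h x.2)) := by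
        apply sum_le_sum_of_subset_of_nonneg (filter_subset _ _)
        intro h _ _
        have : 0 ≤ ∑ x ∈ R, F (h x.1) (h x.2) := sum_nonneg fun _ _ => hF0 _ _
        positivity
    _ = C2 * W ^ l / (K : ℝ) ^ l * choices K A * ((T : ℝ) ^ l + ∑ x ∈ R, ∑ h ∈ P, F (h x.1) (h x.2)) := by
        rw [← mul_sum, sum_add_distrib, sum_const, nsmul_eq_mul, mul_one, hcardP, sum_comm]
    _ ≤ C2 * W ^ l / (K : ℝ) ^ l * choices K A * ((T : ℝ) ^ l + R.card * ((T : ℝ) ^ l * (4 * B))) := by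
        apply mul_le_mul_of_nonneg_left _ hc0
        apply add_le_add_right
        refine (sum_le_sum hpairs).trans (le_of_eq ?_)
        rw [sum_const, nsmul_eq_mul]
    _ = (C2 * W ^ l * (1 + R.card * (4 * B))) * (T / (K : ℝ)) ^ l * choices K A := by
        rw [div_pow]
        ring
    _ ≤ _ := by
        gcongr
        linarith

open Classical in
/-- The number of the `h` with `1 ≤ h ≤ T` such that `x + h` has at most `r` prime factors, all larger than `y ^ (1 / r)`. -/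
noncomputable def roughIn (y r x T : ℕ) : ℕ := ((Icc 1 T).filter fun h => AlmostPrime y r (x + h)).card

open Classical in
/-- The integers `t < g ^ K` with the digits `A i`. -/
noncomputable def digitSet (g K : ℕ) (A : ℕ → Finset ℕ) : Finset ℕ := (range (g ^ K)).filter (HasDigits g K A)

lemma desc_sum (g K : ℕ) (A : ℕ → Finset ℕ) (y r N T l : ℕ) :
    ∑ t ∈ digitSet g K A, (roughIn y r (N + t) T).descFactorial l ≤
      ∑ h ∈ (Fintype.piFinset fun _ : Fin l => Icc 1 T).filter Function.Injective,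
        count g K A (fun t => ∀ j, AlmostPrime y r (N + t + h j)) := by
  classical
  rw [count_sum]
  unfold digitSet
  have e : ∀ t : ℕ, (roughIn y r (N + t) T).descFactorial l ≤
      (((Fintype.piFinset fun _ : Fin l => Icc 1 T).filter Function.Injective).filter
        (fun h => ∀ j, AlmostPrime y r (N + t + h j))).card := by
    intro t
    unfold roughIn
    refine desc_le_inj _ (Icc 1 T) (filter_subset _ _) l (fun h => ∀ j, AlmostPrime y r (N + t + h j)) ?_
    intro h hh j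
    exact (mem_filter.1 (hh j)).2
  refine (sum_le_sum fun t _ => e t).trans (le_of_eq ?_)
  apply sum_congr
  · congr!
  · intro t _
    congr!

lemma min_max_one {x : ℝ} (hx : 0 < x) (k : ℕ) (hk : 1 ≤ k) : x ≤ min 1 x * max 1 x ^ k ∧ x ^ k ≤ min 1 x * max 1 x ^ k := by
  rcases le_total 1 x with h | h
  · rw [min_eq_left h, max_eq_right h, one_mul]
    exact ⟨le_self_pow₀ h (by omega), le_rfl⟩
  · rw [min_eq_right h, max_eq_left h, one_pow, mul_one]
    exact ⟨le_rfl, pow_le_of_le_one hx.le h (by omega)⟩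

/-- **All moments of the number of almost primes in short intervals**, upper bounds. -/
theorem roughMomentUpper (k : ℕ) (hk : 1 ≤ k) (E : ℕ) :
    ∃ c : ℝ, 0 < c ∧ ∃ r₀ : ℕ, 2 ≤ r₀ ∧ ∀ r : ℕ, r₀ ≤ r → ∀ g : ℕ, 2 ≤ g → ∃ C : ℝ, 0 < C ∧
      ∀ᶠ K : ℕ in atTop, ∀ N T : ℕ, N ≤ g ^ (E * K) → 1 ≤ T → T ≤ g ^ (E * K) → ∀ A : ℕ → Finset ℕ, Rich c g K A →
        ∑ t ∈ digitSet g K A, (roughIn (g ^ K) r (N + t) T : ℝ) ^ k ≤
          C * (min 1 ((T : ℝ) / K) * max 1 ((T : ℝ) / K) ^ k) * choices K A := by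
  classical
  obtain ⟨c1, hc1, r1, hr1, H1⟩ := tuplesMean 1 E
  obtain ⟨c2, hc2, r2, hr2, H2⟩ := tuplesMean k E
  refine ⟨min c1 c2, lt_min hc1 hc2, max r1 r2, by omega, fun r hr g hg => ?_⟩
  obtain ⟨C1, hC1, H1⟩ := H1 r (by omega) g hg
  obtain ⟨C2, hC2, H2⟩ := H2 r (by omega) g hg
  refine ⟨(k : ℝ) ^ k * (C1 + C2), by
    have : (0 : ℝ) < k := by exact_mod_cast (by omega : 0 < k)
    positivity, ?_⟩
  filter_upwards [H1, H2, eventually_ge_atTop 1] with K K1 K2 hK1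
  intro N T hN hT1 hT A hA
  have hKr : (0 : ℝ) < K := by exact_mod_cast (by omega : 0 < K)
  have hTr : (0 : ℝ) < T := by exact_mod_cast (by omega : 0 < T)
  have hrich : ∀ c' : ℝ, min c1 c2 ≤ c' → Rich c' g K A := fun c' hc' => ⟨hA.1, hA.2.trans (by gcongr)⟩
  have hcs : (0 : ℝ) ≤ choices K A := Nat.cast_nonneg _
  have h1 := K1 N T hN hT1 hT A (hrich c1 (min_le_left _ _))
  have h2 := K2 N T hN hT1 hT A (hrich c2 (min_le_right _ _))
  have h3 : (∑ t ∈ digitSet g K A, ((roughIn (g ^ K) r (N + t) T).descFactorial 1 : ℝ)) ≤ C1 * (T / (K : ℝ)) ^ 1 * choices K A := by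
    refine le_trans ?_ h1
    exact_mod_cast desc_sum g K A (g ^ K) r N T 1
  have h4 : (∑ t ∈ digitSet g K A, ((roughIn (g ^ K) r (N + t) T).descFactorial k : ℝ)) ≤ C2 * (T / (K : ℝ)) ^ k * choices K A := by
    refine le_trans ?_ h2
    exact_mod_cast desc_sum g K A (g ^ K) r N T k
  obtain ⟨hm1, hm2⟩ := min_max_one (x := (T : ℝ) / K) (by positivity) k hk
  obtain ⟨M, hM⟩ : ∃ M : ℝ, M = min 1 ((T : ℝ) / K) * max 1 ((T : ℝ) / K) ^ k := ⟨_, rfl⟩
  rw [← hM] at hm1 hm2 ⊢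
  calc ∑ t ∈ digitSet g K A, (roughIn (g ^ K) r (N + t) T : ℝ) ^ k
      ≤ ∑ t ∈ digitSet g K A, (k : ℝ) ^ k * (((roughIn (g ^ K) r (N + t) T).descFactorial 1 : ℝ) +
          ((roughIn (g ^ K) r (N + t) T).descFactorial k : ℝ)) := by
        apply sum_le_sum
        intro t _
        rw [Nat.descFactorial_one]
        exact_mod_cast pow_le_desc (roughIn (g ^ K) r (N + t) T) k hk
    _ = (k : ℝ) ^ k * (∑ t ∈ digitSet g K A, ((roughIn (g ^ K) r (N + t) T).descFactorial 1 : ℝ) +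
          ∑ t ∈ digitSet g K A, ((roughIn (g ^ K) r (N + t) T).descFactorial k : ℝ)) := by
        rw [← mul_sum, sum_add_distrib]
    _ ≤ (k : ℝ) ^ k * (C1 * (T / (K : ℝ)) ^ 1 * choices K A + C2 * (T / (K : ℝ)) ^ k * choices K A) := by
        gcongr
    _ ≤ (k : ℝ) ^ k * (C1 * M * choices K A + C2 * M * choices K A) := by
        rw [pow_one]
        gcongr
    _ = _ := by ring

/-- **All moments of the number of almost primes in short intervals**, lower bounds. -/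
theorem roughMomentLower (k E : ℕ) :
    ∃ c : ℝ, 0 < c ∧ ∃ r₀ : ℕ, 2 ≤ r₀ ∧ ∀ r : ℕ, r₀ ≤ r → ∀ g : ℕ, 2 ≤ g → ∃ κ : ℝ, 0 < κ ∧
      ∀ᶠ K : ℕ in atTop, ∀ N T : ℕ, N ≤ g ^ (E * K) → g ≤ T → T ≤ g ^ (E * K) → ∀ A : ℕ → Finset ℕ, Rich c g K A →
        κ * (min 1 ((T : ℝ) / K) * max 1 ((T : ℝ) / K) ^ k) * choices K A ≤
          ∑ t ∈ digitSet g K A, (roughIn (g ^ K) r (N + t) T : ℝ) ^ k := by
  classical
  obtain ⟨c, hc, r0, hr0, H⟩ := windowOne E
  refine ⟨c, hc, r0, hr0, fun r hr g hg => ?_⟩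
  obtain ⟨κ, hκ, H⟩ := H r hr g hg
  refine ⟨κ * κ ^ k, by positivity, ?_⟩
  filter_upwards [H] with K HK
  intro N T hN hgT hT A hA
  have h1 := HK N T hN hgT hT A hA
  obtain ⟨m, hm⟩ : ∃ m : ℝ, m = max 1 ((T : ℝ) / K) := ⟨_, rfl⟩
  have hm0 : 0 < m := by rw [hm]; exact lt_of_lt_of_le one_pos (le_max_left _ _)
  rw [← hm] at h1 ⊢
  have e : ∀ t : ℕ, inClass (g ^ K) r 1 0 (N + t) T = roughIn (g ^ K) r (N + t) T := by
    intro t
    unfold inClass roughIn
    simp only [one_mul, add_zero]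
  simp only [e] at h1
  have h2 : (count g K A (fun t => κ * m ≤ roughIn (g ^ K) r (N + t) T) : ℝ) * (κ * m) ^ k ≤
      ∑ t ∈ digitSet g K A, (roughIn (g ^ K) r (N + t) T : ℝ) ^ k := by
    unfold count digitSet
    rw [← nsmul_eq_mul, ← sum_const]
    refine le_trans (sum_le_sum (g := fun t => (roughIn (g ^ K) r (N + t) T : ℝ) ^ k) fun t ht => ?_) ?_
    · exact pow_le_pow_left₀ (by positivity) (mem_filter.1 ht).2.2 k
    · apply sum_le_sum_of_subset_of_nonneg
      · intro t ht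
        have h3 := mem_filter.1 ht
        exact mem_filter.2 ⟨h3.1, h3.2.1⟩
      · intro _ _ _
        positivity
  refine le_trans ?_ h2
  calc κ * κ ^ k * (min 1 ((T : ℝ) / K) * m ^ k) * choices K A = (κ * min 1 ((T : ℝ) / K) * choices K A) * (κ * m) ^ k := by
        rw [mul_pow]; ring
    _ ≤ _ := by gcongr

end Pool.Agent.Q48.RD
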