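import Pool.Agent.Q48.RD.MomK

/-!
# All moments of the number of almost prime values of a system of linear forms in short intervals
-/

set_option autoImplicit false

namespace Pool.Agent.Q48.RD

open Filter Finset
open Pool.Agent.Q315.RD
open Pool.Agent.Erdos456 (GG)

/-- sums of powers of `n / φ (n)` over the values of a linear function of a difference -/
lemma sum_lin {m : ℕ} {B : ℝ} (HB : ∀ X : ℕ, ∑ n ∈ Icc 1 X, GG n ^ m ≤ B * X) (q : ℕ) (hq : 1 ≤ q) (e : ℤ) (T a : ℕ) (ha : a ≤ T) :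
    ∑ b ∈ Icc 1 T, (if (q : ℤ) * ((b : ℤ) - a) + e = 0 then (0 : ℝ) else GG ((q : ℤ) * ((b : ℤ) - a) + e).natAbs ^ m) ≤
      2 * (B * (q * T + e.natAbs)) := by
  classical
  have hG : ∀ n : ℕ, 0 ≤ GG n := fun n => by unfold GG; positivity
  obtain ⟨v, hv⟩ : ∃ v : ℕ → ℤ, v = fun b : ℕ => (q : ℤ) * ((b : ℤ) - a) + e := ⟨_, rfl⟩
  have hq0 : (0 : ℤ) < q := by exact_mod_cast (by omega : 0 < q)
  have hvinj : ∀ b b' : ℕ, v b = v b' → b = b' := by
    intro b b' h
    rw [hv] at h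
    dsimp only at h
    have h1 : (q : ℤ) * ((b : ℤ) - a) = (q : ℤ) * ((b' : ℤ) - a) := by linarith
    have h2 := mul_left_cancel₀ hq0.ne' h1
    omega
  have hvb : ∀ b ∈ Icc 1 T, (v b).natAbs ≤ q * T + e.natAbs := by
    intro b hb
    rw [mem_Icc] at hb
    rw [hv]
    dsimp only
    refine (Int.natAbs_add_le _ _).trans ?_
    apply Nat.add_le_add_right
    rw [Int.natAbs_mul, Int.natAbs_natCast]
    apply Nat.mul_le_mul_left
    omega
  have h0 : ∀ b : ℕ, (if (q : ℤ) * ((b : ℤ) - a) + e = 0 then (0 : ℝ) else GG ((q : ℤ) * ((b : ℤ) - a) + e).natAbs ^ m) =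
      if v b = 0 then 0 else GG (v b).natAbs ^ m := by
    intro b
    rw [hv]
  simp only [h0]
  have h1 : ∀ b ∈ Icc 1 T, (if v b = 0 then (0 : ℝ) else GG (v b).natAbs ^ m) ≤
      (if 0 < v b then GG (v b).natAbs ^ m else 0) + (if v b < 0 then GG (v b).natAbs ^ m else 0) := by
    intro b _
    rcases lt_trichotomy (v b) 0 with h2 | h2 | h2
    · rw [if_neg h2.ne, if_neg (by omega), if_pos h2, zero_add]
    · rw [if_pos h2, if_neg (by omega), if_neg (by omega), add_zero]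
    · rw [if_neg h2.ne', if_pos h2, if_neg (by omega), add_zero]
  refine (sum_le_sum h1).trans ?_
  rw [sum_add_distrib, two_mul]
  have hGs : ∀ s : Finset ℕ, s ⊆ Icc 1 T → Set.InjOn (fun y : ℕ => (v y).natAbs) s → (∀ y ∈ s, v y ≠ 0) →
      ∑ y ∈ s, GG (v y).natAbs ^ m ≤ B * (q * T + e.natAbs) := by
    intro s hs hinj hne
    calc ∑ y ∈ s, GG (v y).natAbs ^ m = ∑ z ∈ s.image (fun y : ℕ => (v y).natAbs), GG z ^ m := by rw [sum_image hinj]
      _ ≤ ∑ z ∈ Icc 1 (q * T + e.natAbs), GG z ^ m := by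
          apply sum_le_sum_of_subset_of_nonneg
          · intro z hz
            obtain ⟨y, hy, rfl⟩ := mem_image.1 hz
            exact mem_Icc.2 ⟨Nat.one_le_iff_ne_zero.2 (Int.natAbs_ne_zero.2 (hne y hy)), hvb y (hs hy)⟩
          · intro _ _ _
            exact pow_nonneg (hG _) _
      _ ≤ B * (q * T + e.natAbs) := by
          have := HB (q * T + e.natAbs)
          push_cast at this ⊢
          exact this
  apply add_le_add
  · rw [← sum_filter]
    apply hGs _ (filter_subset _ _)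
    · intro y hy y' hy' h3
      have h6 := (mem_filter.1 (mem_coe.1 hy)).2
      have h7 := (mem_filter.1 (mem_coe.1 hy')).2
      simp only at h3
      exact hvinj _ _ (by omega)
    · intro y hy
      have := (mem_filter.1 hy).2
      omega
  · rw [← sum_filter]
    apply hGs _ (filter_subset _ _)
    · intro y hy y' hy' h3
      have h6 := (mem_filter.1 (mem_coe.1 hy)).2
      have h7 := (mem_filter.1 (mem_coe.1 hy')).2
      simp only at h3
      exact hvinj _ _ (by omega)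
    · intro y hy
      have := (mem_filter.1 hy).2
      omega

/-- **Upper bound on average over all tuples of different shifts, for a system of linear forms.** -/
theorem sysMean {l : ℕ} (a : Fin l → ℕ) (b : Fin l → ℤ) (ha : ∀ j, 1 ≤ a j) (hco : ∀ j, IsCoprime ((a j : ℕ) : ℤ) (b j))
    (hnc : ∀ j j', j ≠ j' → ∀ d : ℤ, ((a j * a j' : ℕ) : ℤ) * d + (a j * b j' - a j' * b j) ≠ 0)
    (f : Fin l → ℕ → ℕ) (hf : ∀ j, ∀ n : ℕ, 1 ≤ n → (f j n : ℤ) = a j * n + b j) (k E : ℕ) :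
    ∃ c : ℝ, 0 < c ∧ ∃ r₀ : ℕ, 2 ≤ r₀ ∧ ∀ r : ℕ, r₀ ≤ r → ∀ g : ℕ, 2 ≤ g → ∃ C : ℝ, 0 < C ∧
      ∀ᶠ K : ℕ in atTop, ∀ N T : ℕ, N ≤ g ^ (E * K) → 1 ≤ T → T ≤ g ^ (E * K) → ∀ A : ℕ → Finset ℕ, Rich c g K A →
        ∑ h ∈ (Fintype.piFinset fun _ : Fin k => Icc 1 T).filter Function.Injective,
          (count g K A (fun t => ∀ i j, AlmostPrime (g ^ K) r (f j (N + t + h i))) : ℝ) ≤ C * (T / (K : ℝ) ^ l) ^ k * choices K A := by
  classical
  obtain ⟨c2, hc2, r2, hr2, H2⟩ := upForms (l * k) (E + 1)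
  obtain ⟨R, hR⟩ : ∃ R : Finset (Fin (l * k) × Fin (l * k)), R = univ.filter (fun x => x.1 < x.2) := ⟨_, rfl⟩
  obtain ⟨B, hB, HB⟩ := GG_moment R.card
  obtain ⟨J, hJ⟩ : ∃ J : Fin (l * k) → Fin l, J = fun u => (finProdFinEquiv.symm u).1 := ⟨_, rfl⟩
  obtain ⟨I, hI⟩ : ∃ I : Fin (l * k) → Fin k, I = fun u => (finProdFinEquiv.symm u).2 := ⟨_, rfl⟩
  have hIJ : ∀ u v : Fin (l * k), I u = I v → J u = J v → u = v := by
    intro u v h1 h2
    rw [hI] at h1
    rw [hJ] at h2
    exact finProdFinEquiv.symm.injective (Prod.ext h2 h1)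
  have hsurj : ∀ (j : Fin l) (i : Fin k), ∃ u : Fin (l * k), J u = j ∧ I u = i := by
    intro j i
    refine ⟨finProdFinEquiv (j, i), ?_, ?_⟩
    · rw [hJ]; simp
    · rw [hI]; simp
  have hG : ∀ n : ℕ, 0 ≤ GG n := fun n => by unfold GG; positivity
  -- a bound for all the coefficients
  obtain ⟨D, hD1, hDa, hDb⟩ : ∃ D : ℕ, 1 ≤ D ∧ (∀ j, a j ≤ D) ∧ ∀ j, (b j).natAbs ≤ D := by
    refine ⟨∑ j, a j + ∑ j, (b j).natAbs + 1, by omega, fun j => ?_, fun j => ?_⟩
    · have := single_le_sum (f := a) (fun _ _ => Nat.zero_le _) (mem_univ j)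
      omega
    · have := single_le_sum (f := fun j => (b j).natAbs) (fun _ _ => Nat.zero_le _) (mem_univ j)
      omega
  have hΔ : ∀ j j', (((a j : ℕ) : ℤ) * b j' - a j' * b j).natAbs ≤ 2 * D ^ 2 := by
    intro j j'
    have h1 := Int.natAbs_sub_le (((a j : ℕ) : ℤ) * b j') (a j' * b j)
    rw [Int.natAbs_mul, Int.natAbs_mul, Int.natAbs_natCast, Int.natAbs_natCast] at h1
    have h2 := Nat.mul_le_mul (hDa j) (hDb j')
    have h3 := Nat.mul_le_mul (hDa j') (hDb j)
    nlinarith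
  refine ⟨c2, hc2, r2, hr2, fun r hr g hg => ?_⟩
  obtain ⟨C2, hC2, H2⟩ := H2 r hr g hg
  obtain ⟨w, W, hw, hW, HG⟩ := oneV_GG (E + 1) g hg
  obtain ⟨Z, hZ⟩ : ∃ Z : ℝ, Z = 2 * (B * (D ^ 2 + 2 * D ^ 2)) + (2 * (D : ℝ) ^ 2) ^ R.card := ⟨_, rfl⟩
  have hZ0 : 0 ≤ Z := by rw [hZ]; positivity
  refine ⟨C2 * (W * D) ^ (l * k) * (1 + R.card * Z) + 1, by positivity, ?_⟩
  filter_upwards [H2, HG, eventually_ge_atTop (2 * D + 1)] with K K2 KG hK1
  intro N T hN hT1 hT A hA
  have hKr : (0 : ℝ) < K := by exact_mod_cast (by omega : 0 < K)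
  have hg1 : 1 ≤ g := by omega
  have hcs : (0 : ℝ) ≤ choices K A := Nat.cast_nonneg _
  have hTr : (1 : ℝ) ≤ T := by exact_mod_cast hT1
  have hDr : (1 : ℝ) ≤ D := by exact_mod_cast hD1
  have hle : g ^ (E * K) ≤ g ^ ((E + 1) * K) := Nat.pow_le_pow_right hg1 (by nlinarith)
  have hN' : N ≤ g ^ ((E + 1) * K) := hN.trans hle
  have hDK : 2 * D ≤ g ^ K := by
    calc 2 * D ≤ K := by omega
      _ ≤ g ^ K := (Nat.lt_pow_self (by omega)).le
  have hDg : 2 * D ≤ g ^ ((E + 1) * K) := hDK.trans (Nat.pow_le_pow_right hg1 (by nlinarith))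
  have hV1 : ∀ j, oneV ((a j : ℕ) : ℤ) (g ^ K) ≤ W * D / K := by
    intro j
    refine (KG (a j) (ha j) (by have := hDa j; omega)).2.trans ?_
    have h1 := (GG_le_self (ha j)).trans (by exact_mod_cast hDa j : ((a j : ℕ) : ℝ) ≤ D)
    gcongr
  obtain ⟨P, hP⟩ : ∃ P : Finset (Fin k → ℕ), P = Fintype.piFinset (fun _ : Fin k => Icc 1 T) := ⟨_, rfl⟩
  rw [← hP]
  have hmem : ∀ h : Fin k → ℕ, h ∈ P ↔ ∀ a, h a ∈ Icc 1 T := by
    intro h
    rw [hP, Fintype.mem_piFinset]
  -- the resultants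
  obtain ⟨F, hF⟩ : ∃ F : Fin (l * k) × Fin (l * k) → ℕ → ℕ → ℝ, F = fun x (u v : ℕ) =>
    if ((a (J x.1) * a (J x.2) : ℕ) : ℤ) * ((v : ℤ) - u) + (a (J x.1) * b (J x.2) - a (J x.2) * b (J x.1)) = 0 then (0 : ℝ) else
      GG (((a (J x.1) * a (J x.2) : ℕ) : ℤ) * ((v : ℤ) - u) + (a (J x.1) * b (J x.2) - a (J x.2) * b (J x.1))).natAbs ^ R.card := ⟨_, rfl⟩
  have hF0 : ∀ x u v, 0 ≤ F x u v := by
    intro x u v
    rw [hF]
    dsimp only
    split_ifs
    · exact le_rfl
    · exact pow_nonneg (hG _) _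
  have hone_h : ∀ h ∈ P.filter Function.Injective, (count g K A (fun t => ∀ i j, AlmostPrime (g ^ K) r (f j (N + t + h i))) : ℝ) ≤
      C2 * (W * D) ^ (l * k) / (K : ℝ) ^ (l * k) * choices K A * (1 + ∑ x ∈ R, F x (h (I x.1)) (h (I x.2))) := by
    intro h hh
    rw [mem_filter, hmem] at hh
    obtain ⟨hh, hinj⟩ := hh
    have hres : ∀ x : Fin (l * k) × Fin (l * k), ((a (J x.1) : ℕ) : ℤ) * (a (J x.2) * h (I x.2) + b (J x.2)) -
        a (J x.2) * (a (J x.1) * h (I x.1) + b (J x.1)) =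
        ((a (J x.1) * a (J x.2) : ℕ) : ℤ) * ((h (I x.2) : ℤ) - h (I x.1)) + (a (J x.1) * b (J x.2) - a (J x.2) * b (J x.1)) := by
      intro x
      push_cast
      ring
    have hne : ∀ u v : Fin (l * k), u < v → ((a (J u) * a (J v) : ℕ) : ℤ) * ((h (I v) : ℤ) - h (I u)) +
        (a (J u) * b (J v) - a (J v) * b (J u)) ≠ 0 := by
      intro u v huv
      by_cases hJuv : J u = J v
      · have hI' : I u ≠ I v := fun h1 => huv.ne (hIJ u v h1 hJuv)
        rw [hJuv, sub_self, add_zero]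
        apply mul_ne_zero
        · have := ha (J v)
          exact_mod_cast (Nat.mul_ne_zero (by omega) (by omega) : a (J v) * a (J v) ≠ 0)
        · intro h0
          exact hI' (hinj (by omega))
      · exact hnc _ _ hJuv _
    have h4 := K2 (fun u => ((a (J u) : ℕ) : ℤ)) (fun u => (a (J u) : ℤ) * h (I u) + b (J u)) N
      (fun u t => f (J u) (N + t + h (I u)))
      (fun u => by
        rw [abs_of_nonneg (by positivity)]
        have h1 := hDa (J u)
        have h2 : a (J u) ≤ g ^ ((E + 1) * K) := by omega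
        exact_mod_cast h2)
      (fun u => by
        have h1 := (mem_Icc.1 (hh (I u))).2
        have h2 : |(a (J u) : ℤ) * h (I u) + b (J u)| ≤ ((D * (g ^ (E * K)) + D : ℕ) : ℤ) := by
          refine (abs_add_le _ _).trans ?_
          push_cast
          apply add_le_add
          · rw [abs_of_nonneg (by positivity)]
            have h3 := Nat.mul_le_mul (hDa (J u)) (h1.trans hT)
            exact_mod_cast h3
          · have h3 := hDb (J u)
            rw [← Int.natCast_natAbs]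
            exact_mod_cast h3
        refine h2.trans ?_
        have h3 : D * (g ^ (E * K)) + D ≤ g ^ ((E + 1) * K) := by
          have e : g ^ ((E + 1) * K) = g ^ K * g ^ (E * K) := by rw [← pow_add]; congr 1; ring
          have e0 : 1 ≤ g ^ (E * K) := Nat.one_le_pow _ _ hg1
          calc D * (g ^ (E * K)) + D ≤ 2 * D * g ^ (E * K) := by nlinarith
            _ ≤ g ^ K * g ^ (E * K) := Nat.mul_le_mul_right _ hDK
            _ = _ := e.symm
        exact_mod_cast h3) hN'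
      (fun u => by
        have h1 := hco (J u)
        have e : ((a (J u) : ℕ) : ℤ) * h (I u) + b (J u) = b (J u) + (a (J u) : ℤ) * h (I u) := by ring
        rw [e]
        exact IsCoprime.add_mul_left_right h1 _)
      (fun u v huv => by
        rw [hres (u, v)]
        exact hne u v huv)
      (fun t _ u => by
        have h1 := (mem_Icc.1 (hh (I u))).1
        rw [hf (J u) _ (by omega)]
        push_cast
        ring) A hA
    rw [← hR] at h4
    have hcm : count g K A (fun t => ∀ i j, AlmostPrime (g ^ K) r (f j (N + t + h i))) ≤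
        count g K A (fun t => ∀ u : Fin (l * k), AlmostPrime (g ^ K) r (f (J u) (N + t + h (I u)))) :=
      count_mono fun t _ hP u => hP _ _
    refine (Nat.cast_le.2 hcm).trans (h4.trans ?_)
    have h6 := prod_le_sum_pow R (fun x => GG (((a (J x.1) * a (J x.2) : ℕ) : ℤ) * ((h (I x.2) : ℤ) - h (I x.1)) +
      (a (J x.1) * b (J x.2) - a (J x.2) * b (J x.1))).natAbs) (fun _ _ => hG _)
    have h7 : ∑ x ∈ R, GG (((a (J x.1) * a (J x.2) : ℕ) : ℤ) * ((h (I x.2) : ℤ) - h (I x.1)) +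
      (a (J x.1) * b (J x.2) - a (J x.2) * b (J x.1))).natAbs ^ R.card = ∑ x ∈ R, F x (h (I x.1)) (h (I x.2)) := by
      apply sum_congr rfl
      intro x hx
      rw [hR, mem_filter] at hx
      rw [hF]
      dsimp only
      rw [if_neg (hne x.1 x.2 hx.2)]
    rw [h7] at h6
    have h8 : ∏ u : Fin (l * k), oneV ((a (J u) : ℕ) : ℤ) (g ^ K) ≤ (W * D / K) ^ (l * k) := by
      calc ∏ u : Fin (l * k), oneV ((a (J u) : ℕ) : ℤ) (g ^ K) ≤ ∏ _u : Fin (l * k), (W * D / K) :=
            Finset.prod_le_prod (fun u _ => oneV_nonneg _ _) fun u _ => hV1 _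
        _ = _ := by rw [prod_const, card_univ, Fintype.card_fin]
    have h9 : ∏ x ∈ R, GG (((a (J x.1) : ℕ) : ℤ) * (a (J x.2) * h (I x.2) + b (J x.2)) -
        a (J x.2) * (a (J x.1) * h (I x.1) + b (J x.1))).natAbs ≤ 1 + ∑ x ∈ R, F x (h (I x.1)) (h (I x.2)) := by
      refine le_trans (le_of_eq ?_) h6
      apply prod_congr rfl
      intro x _
      rw [hres x]
    calc C2 * ((∏ u : Fin (l * k), oneV ((a (J u) : ℕ) : ℤ) (g ^ K)) * ∏ x ∈ R, GG (((a (J x.1) : ℕ) : ℤ) * (a (J x.2) * h (I x.2) + b (J x.2)) -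
        a (J x.2) * (a (J x.1) * h (I x.1) + b (J x.1))).natAbs) * choices K A
        ≤ C2 * ((W * D / K) ^ (l * k) * (1 + ∑ x ∈ R, F x (h (I x.1)) (h (I x.2)))) * choices K A := by
          apply mul_le_mul_of_nonneg_right _ hcs
          apply mul_le_mul_of_nonneg_left _ hC2.le
          apply mul_le_mul h8 h9 (prod_nonneg fun _ _ => hG _) (by positivity)
      _ = _ := by rw [div_pow]; ring
  have hcardP : (P.card : ℝ) = (T : ℝ) ^ k := by
    rw [hP, Fintype.card_piFinset, prod_const, card_univ, Fintype.card_fin, Nat.card_Icc, Nat.add_sub_cancel]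
    push_cast
    rfl
  have hqD : ∀ j j', ((a j * a j' : ℕ) : ℝ) ≤ (D : ℝ) ^ 2 := by
    intro j j'
    have := Nat.mul_le_mul (hDa j) (hDa j')
    rw [pow_two]
    exact_mod_cast this
  have hΔr : ∀ j j', ((((a j : ℕ) : ℤ) * b j' - a j' * b j).natAbs : ℝ) ≤ 2 * (D : ℝ) ^ 2 := by
    intro j j'
    exact_mod_cast hΔ j j'
  have hpairs : ∀ x ∈ R, ∑ h ∈ P, F x (h (I x.1)) (h (I x.2)) ≤ (T : ℝ) ^ k * Z := by
    intro x hx
    rw [hR, mem_filter] at hx
    by_cases hIx : I x.1 = I x.2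
    · -- the same shift
      have hJx : J x.1 ≠ J x.2 := fun h1 => hx.2.ne (hIJ _ _ hIx h1)
      have h1 : ∀ h ∈ P, F x (h (I x.1)) (h (I x.2)) ≤ Z := by
        intro h _
        rw [hF]
        dsimp only
        rw [hIx, sub_self, mul_zero, zero_add]
        split_ifs with h0
        · exact hZ0
        · have h2 : 1 ≤ (((a (J x.1) : ℕ) : ℤ) * b (J x.2) - a (J x.2) * b (J x.1)).natAbs :=
            Nat.one_le_iff_ne_zero.2 (Int.natAbs_ne_zero.2 h0)
          have h3 := pow_le_pow_left₀ (hG _) ((GG_le_self h2).trans (hΔr _ _)) R.card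
          rw [hZ]
          have : 0 ≤ 2 * (B * ((D : ℝ) ^ 2 + 2 * D ^ 2)) := by positivity
          linarith
      refine (sum_le_sum h1).trans (le_of_eq ?_)
      rw [sum_const, nsmul_eq_mul, hcardP]
    · have hrow : ∀ u ∈ Icc 1 T, ∑ v ∈ Icc 1 T, F x u v ≤ Z * T := by
        intro u hu
        rw [mem_Icc] at hu
        have h3 := sum_lin HB (a (J x.1) * a (J x.2)) (Nat.mul_pos (by have := ha (J x.1); omega) (by have := ha (J x.2); omega))
          (a (J x.1) * b (J x.2) - a (J x.2) * b (J x.1)) T u hu.2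
        rw [hF]
        refine h3.trans ?_
        calc 2 * (B * ((a (J x.1) * a (J x.2) : ℕ) * T + (((a (J x.1) : ℕ) : ℤ) * b (J x.2) - a (J x.2) * b (J x.1)).natAbs))
            ≤ 2 * (B * ((D : ℝ) ^ 2 * T + 2 * (D : ℝ) ^ 2 * T)) := by
              have h4 := hqD (J x.1) (J x.2)
              have h5 : ((((a (J x.1) : ℕ) : ℤ) * b (J x.2) - a (J x.2) * b (J x.1)).natAbs : ℝ) ≤ 2 * (D : ℝ) ^ 2 * T :=
                (hΔr _ _).trans (le_mul_of_one_le_right (by positivity) hTr)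
              gcongr
          _ = 2 * (B * ((D : ℝ) ^ 2 + 2 * D ^ 2)) * T := by ring
          _ ≤ Z * T := by
              apply mul_le_mul_of_nonneg_right _ (by linarith)
              rw [hZ]
              have : 0 ≤ (2 * (D : ℝ) ^ 2) ^ R.card := by positivity
              linarith
      have h5 := sum_two_coord T (I x.1) (I x.2) hIx (F x) (Z * T) hrow
      rw [← hP] at h5
      have h6 : (T : ℝ) * ∑ h ∈ P, F x (h (I x.1)) (h (I x.2)) ≤ (T : ℝ) * ((T : ℝ) ^ k * Z) := by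
        refine h5.trans (le_of_eq ?_)
        ring
      exact le_of_mul_le_mul_left h6 (by linarith)
  have hc0 : 0 ≤ C2 * (W * D) ^ (l * k) / (K : ℝ) ^ (l * k) * choices K A := by positivity
  calc ∑ h ∈ P.filter Function.Injective, (count g K A (fun t => ∀ i j, AlmostPrime (g ^ K) r (f j (N + t + h i))) : ℝ)
      ≤ ∑ h ∈ P.filter Function.Injective, C2 * (W * D) ^ (l * k) / (K : ℝ) ^ (l * k) * choices K A * (1 + ∑ x ∈ R, F x (h (I x.1)) (h (I x.2))) :=
        sum_le_sum hone_h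
    _ ≤ ∑ h ∈ P, C2 * (W * D) ^ (l * k) / (K : ℝ) ^ (l * k) * choices K A * (1 + ∑ x ∈ R, F x (h (I x.1)) (h (I x.2))) := by
        apply sum_le_sum_of_subset_of_nonneg (filter_subset _ _)
        intro h _ _
        have : 0 ≤ ∑ x ∈ R, F x (h (I x.1)) (h (I x.2)) := sum_nonneg fun _ _ => hF0 _ _ _
        positivity
    _ = C2 * (W * D) ^ (l * k) / (K : ℝ) ^ (l * k) * choices K A * ((T : ℝ) ^ k + ∑ x ∈ R, ∑ h ∈ P, F x (h (I x.1)) (h (I x.2))) := by
        rw [← mul_sum, sum_add_distrib, sum_const, nsmul_eq_mul, mul_one, hcardP, sum_comm]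
    _ ≤ C2 * (W * D) ^ (l * k) / (K : ℝ) ^ (l * k) * choices K A * ((T : ℝ) ^ k + R.card * ((T : ℝ) ^ k * Z)) := by
        apply mul_le_mul_of_nonneg_left _ hc0
        apply add_le_add_right
        refine (sum_le_sum hpairs).trans (le_of_eq ?_)
        rw [sum_const, nsmul_eq_mul]
    _ = (C2 * (W * D) ^ (l * k) * (1 + R.card * Z)) * (T / (K : ℝ) ^ l) ^ k * choices K A := by
        rw [div_pow, ← pow_mul]
        ring
    _ ≤ _ := by
        gcongr
        linarith

end Pool.Agent.Q48.RD
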