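import Pool.Agent.Q48.RD.MomS

/-!
# All moments of the number of almost prime and prime values of a system of linear forms in short intervals
-/

set_option autoImplicit false

namespace Pool.Agent.Q48.RD

open Filter Finset
open Pool.Agent.Q315.RD
open Pool.Agent.Erdos456 (GG)

open Classical in
/-- The number of the integers `n` with `x < n ≤ x + T` and `P n`. -/
noncomputable def numIn (P : ℕ → Prop) (x T : ℕ) : ℕ := ((Ioc x (x + T)).filter P).card

open Classical in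
lemma numIn_eq (P : ℕ → Prop) (x T : ℕ) : numIn P x T = ((Icc 1 T).filter fun h => P (x + h)).card := by
  unfold numIn
  symm
  apply card_bij (fun h _ => x + h)
  · intro h hh
    have h1 := mem_filter.1 hh
    have h2 := mem_Icc.1 h1.1
    exact mem_filter.2 ⟨mem_Ioc.2 ⟨by omega, by omega⟩, h1.2⟩
  · intro h _ h' _ h1
    omega
  · intro n hn
    have h1 := mem_filter.1 hn
    have h2 := mem_Ioc.1 h1.1
    have e : x + (n - x) = n := by omega
    refine ⟨n - x, mem_filter.2 ⟨mem_Icc.2 ⟨by omega, by omega⟩, ?_⟩, e⟩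
    rw [e]
    exact h1.2

lemma numIn_le (P : ℕ → Prop) (x T : ℕ) : numIn P x T ≤ T := by
  classical
  unfold numIn
  refine (card_filter_le _ _).trans ?_
  rw [Nat.card_Ioc]
  omega

lemma numIn_mono {P Q : ℕ → Prop} {x T : ℕ} (h : ∀ n, x < n → P n → Q n) : numIn P x T ≤ numIn Q x T := by
  classical
  unfold numIn
  apply card_le_card
  intro n hn
  have h4 := mem_filter.1 hn
  exact mem_filter.2 ⟨h4.1, h n (mem_Ioc.1 h4.1).1 h4.2⟩

lemma desc_sum_num (g K : ℕ) (A : ℕ → Finset ℕ) (N T k : ℕ) (P : ℕ → Prop) :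
    ∑ t ∈ digitSet g K A, (numIn P (N + t) T).descFactorial k ≤
      ∑ h ∈ (Fintype.piFinset fun _ : Fin k => Icc 1 T).filter Function.Injective,
        count g K A (fun t => ∀ i, P (N + t + h i)) := by
  classical
  rw [count_sum]
  unfold digitSet
  have e : ∀ t : ℕ, (numIn P (N + t) T).descFactorial k ≤
      (((Fintype.piFinset fun _ : Fin k => Icc 1 T).filter Function.Injective).filter
        (fun h => ∀ i, P (N + t + h i))).card := by
    intro t
    rw [numIn_eq]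
    refine le_trans (le_of_eq ?_) (desc_le_inj ((Icc 1 T).filter fun h => P (N + t + h)) (Icc 1 T) (filter_subset _ _) k
      (fun h => ∀ i, P (N + t + h i)) ?_)
    · congr!
    · intro h hh j
      exact (mem_filter.1 (hh j)).2
  refine (sum_le_sum fun t _ => e t).trans (le_of_eq ?_)
  apply sum_congr
  · congr!
  · intro t _
    congr!

lemma sum_num (g K : ℕ) (A : ℕ → Finset ℕ) (N T : ℕ) (P : ℕ → Prop) :
    ∑ h ∈ Icc 1 T, count g K A (fun t => P (N + t + h)) = ∑ t ∈ digitSet g K A, numIn P (N + t) T := by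
  classical
  rw [count_sum]
  unfold digitSet
  apply sum_congr
  · congr!
  · intro t _
    rw [numIn_eq]

/-- from the first two moments to many large values -/
lemma large_values (S : Finset ℕ) (X : ℕ → ℕ) (u κ C n : ℝ) (hu : 0 < u) (hκ : 0 < κ) (hC : 0 < C) (hn : 0 ≤ n)
    (hS : (S.card : ℝ) ≤ n) (h1 : κ * u * n ≤ ∑ t ∈ S, (X t : ℝ)) (h2 : ∑ t ∈ S, (X t : ℝ) ^ 2 ≤ C * (min 1 u * max 1 u ^ 2) * n) :
    min (min 1 (κ / 2)) (κ ^ 2 / (4 * C)) * min 1 u * n ≤
      ((S.filter fun t => min (min 1 (κ / 2)) (κ ^ 2 / (4 * C)) * max 1 u ≤ (X t : ℝ)).card : ℝ) := by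
  classical
  obtain ⟨B, hB⟩ : ∃ B : Finset ℕ, B = S.filter fun t => κ / 2 * u ≤ (X t : ℝ) := ⟨_, rfl⟩
  obtain ⟨m, hm⟩ : ∃ m : ℝ, m = min 1 u := ⟨_, rfl⟩
  obtain ⟨M, hM⟩ : ∃ M : ℝ, M = max 1 u := ⟨_, rfl⟩
  have hm0 : 0 < m := by rw [hm]; exact lt_min one_pos hu
  have hM0 : 0 < M := by rw [hM]; exact lt_of_lt_of_le one_pos (le_max_left _ _)
  have hmM : m * M = u := by rw [hm, hM, min_mul_max, one_mul]
  have hsub : B ⊆ S.filter fun t => min (min 1 (κ / 2)) (κ ^ 2 / (4 * C)) * max 1 u ≤ (X t : ℝ) := by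
    intro t ht
    rw [hB, mem_filter] at ht
    rw [mem_filter]
    refine ⟨ht.1, ?_⟩
    have h3 : (0 : ℝ) < X t := lt_of_lt_of_le (by positivity) ht.2
    have h4 : (1 : ℝ) ≤ X t := by exact_mod_cast (by exact_mod_cast h3 : 0 < X t)
    have h5 : 0 < max 1 u := lt_of_lt_of_le one_pos (le_max_left _ _)
    refine (mul_le_mul_of_nonneg_right (min_le_left _ _) h5.le).trans ?_
    rcases le_total 1 u with h | h
    · rw [max_eq_right h]
      exact (mul_le_mul_of_nonneg_right (min_le_right _ _) hu.le).trans ht.2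
    · rw [max_eq_left h, mul_one]
      exact (min_le_left _ _).trans h4
  have h3 : κ / 2 * u * n ≤ ∑ t ∈ B, (X t : ℝ) := by
    have h4 : ∑ t ∈ S, (X t : ℝ) ≤ ∑ t ∈ B, (X t : ℝ) + κ / 2 * u * n := by
      rw [← sum_filter_add_sum_filter_not S (fun t => κ / 2 * u ≤ (X t : ℝ)), ← hB]
      apply add_le_add_right
      calc ∑ t ∈ S.filter (fun t => ¬ κ / 2 * u ≤ (X t : ℝ)), (X t : ℝ) ≤ ∑ t ∈ S.filter (fun t => ¬ κ / 2 * u ≤ (X t : ℝ)), κ / 2 * u :=
            sum_le_sum fun t ht => (not_le.1 (mem_filter.1 ht).2).le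
        _ = ((S.filter (fun t => ¬ κ / 2 * u ≤ (X t : ℝ))).card : ℝ) * (κ / 2 * u) := by rw [sum_const, nsmul_eq_mul]
        _ ≤ n * (κ / 2 * u) := by
            apply mul_le_mul_of_nonneg_right _ (by positivity)
            refine le_trans ?_ hS
            exact_mod_cast card_filter_le _ _
        _ = _ := by ring
    linarith
  have h4 : (∑ t ∈ B, (X t : ℝ)) ^ 2 ≤ B.card * ∑ t ∈ B, (X t : ℝ) ^ 2 := sq_sum_le_card_mul_sum_sq
  have h5 : ∑ t ∈ B, (X t : ℝ) ^ 2 ≤ C * (m * M ^ 2) * n := by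
    rw [hm, hM]
    refine le_trans ?_ h2
    rw [hB]
    exact sum_le_sum_of_subset_of_nonneg (filter_subset _ _) fun _ _ _ => by positivity
  have h6 : (κ / 2 * u * n) ^ 2 ≤ B.card * (C * (m * M ^ 2) * n) := by
    refine le_trans (pow_le_pow_left₀ (by positivity) h3 2) (h4.trans ?_)
    gcongr
  refine le_trans ?_ (Nat.cast_le.2 (card_le_card hsub))
  rw [← hm]
  rcases hn.eq_or_lt with h0 | hn0
  · rw [← h0, mul_zero]
    exact Nat.cast_nonneg _
  have h7 : κ ^ 2 / (4 * C) * m * n ≤ B.card := by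
    have h8 : (κ ^ 2 / (4 * C) * m * n) * (C * (m * M ^ 2) * n) ≤ B.card * (C * (m * M ^ 2) * n) := by
      refine le_trans (le_of_eq ?_) h6
      rw [← hmM]
      field_simp
      norm_num
    exact le_of_mul_le_mul_right h8 (by positivity)
  refine le_trans ?_ h7
  gcongr
  exact min_le_right _ _

/-- one class modulo `g` in which all the forms are prime to `g` -/
lemma exists_class_sys {l : ℕ} (a : Fin l → ℕ) (b : Fin l → ℤ) (hadm : AdmZ (fun j => (a j : ℤ)) b) (g : ℕ) (hg : 2 ≤ g) :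
    ∃ x0 : ℕ, ∀ n : ℕ, n ≡ x0 [MOD g] → ∀ j, ∀ m : ℕ, (m : ℤ) = a j * n + b j → m.Coprime g := by
  classical
  have h1 : ∀ p : ℕ, ∃ n : ℕ, p.Prime → ∀ j, ¬ (p : ℤ) ∣ a j * n + b j := by
    intro p
    by_cases hp : p.Prime
    · obtain ⟨z, hz⟩ := hadm p hp
      have hp0 : (0 : ℤ) < p := by exact_mod_cast hp.pos
      refine ⟨(z % p).toNat, fun _ j hj => hz j ?_⟩
      have e : (((z % p).toNat : ℕ) : ℤ) = z % p := Int.toNat_of_nonneg (Int.emod_nonneg _ hp0.ne')
      rw [e] at hj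
      have h3 : (p : ℤ) ∣ z - z % p := Int.dvd_self_sub_emod
      have := dvd_add hj (h3.mul_left (a j : ℤ))
      have e2 : (a j : ℤ) * (z % p) + b j + a j * (z - z % p) = a j * z + b j := by ring
      rwa [e2] at this
    · exact ⟨0, fun h => absurd h hp⟩
  choose n hn using h1
  obtain ⟨x0, hx0⟩ := Nat.chineseRemainderOfFinset n (fun p => p) g.primeFactors
    (fun p hp => (Nat.prime_of_mem_primeFactors hp).ne_zero)
    (fun p hp q hq hpq => (Nat.coprime_primes (Nat.prime_of_mem_primeFactors (mem_coe.1 hp)) (Nat.prime_of_mem_primeFactors (mem_coe.1 hq))).2 hpq)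
  refine ⟨x0, fun x hx j m hm => ?_⟩
  apply Nat.coprime_of_dvd
  intro p hp h2 h3
  have hpm : p ∈ g.primeFactors := Nat.mem_primeFactors.2 ⟨hp, h3, by omega⟩
  have h4 : x ≡ n p [MOD p] := (hx.of_dvd h3).trans (hx0 p hpm)
  apply hn p hp j
  have h5 : (p : ℤ) ∣ a j * x + b j := by
    rw [← hm]; exact_mod_cast h2
  have h6 : (p : ℤ) ∣ (n p : ℤ) - x := (Nat.modEq_iff_dvd.1 h4)
  have := dvd_add h5 (h6.mul_left (a j : ℤ))
  have e2 : (a j : ℤ) * x + b j + a j * ((n p : ℤ) - x) = a j * n p + b j := by ring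
  rwa [e2] at this

lemma pow_small' (k : ℕ) : ∀ᶠ K : ℕ in atTop, (K : ℝ) ^ k ≤ 2 ^ (K / 8) := by
  have h1 := tendsto_pow_const_div_const_pow_of_one_lt k (r := (2 : ℝ)) (by norm_num)
  have h2 : Tendsto (fun K : ℕ => K / 8) atTop atTop := Nat.tendsto_div_const_atTop (by norm_num)
  have h3 := (h1.comp h2).eventually (gt_mem_nhds (show (0 : ℝ) < 1 / 16 ^ k by positivity))
  filter_upwards [h3, eventually_ge_atTop 8] with K hK hK8
  simp only [Function.comp] at hK
  have hm : K ≤ 16 * (K / 8) := by omega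
  have hK' : (K : ℝ) ≤ 16 * ((K / 8 : ℕ) : ℝ) := by exact_mod_cast hm
  rw [div_lt_div_iff₀ (by positivity) (by positivity), one_mul] at hK
  calc (K : ℝ) ^ k ≤ (16 * ((K / 8 : ℕ) : ℝ)) ^ k := by gcongr
    _ = ((K / 8 : ℕ) : ℝ) ^ k * 16 ^ k := by rw [mul_pow]; ring
    _ ≤ _ := hK.le

lemma prime_almost' {g K r x p : ℕ} (hg : 2 ≤ g) (hr : 5 ≤ r) (hK : 16 ≤ K) (hx : g ^ (K / 4) ≤ x) (hp : p.Prime) (hxp : x < p) :
    AlmostPrime (g ^ K) r p := by
  refine ⟨fun q hq hqp => ?_, ?_⟩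
  · have e : q = p := (Nat.prime_dvd_prime_iff_eq hq hp).1 hqp
    rw [e]
    calc g ^ K ≤ g ^ (K / 4 * 5) := Nat.pow_le_pow_right (by omega) (by omega)
      _ = (g ^ (K / 4)) ^ 5 := pow_mul _ _ _
      _ ≤ x ^ 5 := Nat.pow_le_pow_left hx 5
      _ < p ^ 5 := Nat.pow_lt_pow_left hxp (by norm_num)
      _ ≤ p ^ r := Nat.pow_le_pow_right hp.pos hr
  · rw [Nat.primeFactorsList_prime hp]
    simp only [List.length_cons, List.length_nil]
    omega

/-- the upper bounds for the moments of the number of almost prime values -/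
theorem sysUpper {l : ℕ} (a : Fin l → ℕ) (b : Fin l → ℤ) (ha : ∀ j, 1 ≤ a j) (hco : ∀ j, IsCoprime ((a j : ℕ) : ℤ) (b j))
    (hnc : ∀ j j', j ≠ j' → ∀ d : ℤ, ((a j * a j' : ℕ) : ℤ) * d + (a j * b j' - a j' * b j) ≠ 0)
    (f : Fin l → ℕ → ℕ) (hf : ∀ j, ∀ n : ℕ, 1 ≤ n → (f j n : ℤ) = a j * n + b j) (k : ℕ) (hk : 1 ≤ k) (E : ℕ) :
    ∃ c : ℝ, 0 < c ∧ ∃ r₀ : ℕ, 2 ≤ r₀ ∧ ∀ r : ℕ, r₀ ≤ r → ∀ g : ℕ, 2 ≤ g → ∃ C : ℝ, 0 < C ∧
      ∀ᶠ K : ℕ in atTop, ∀ N T : ℕ, N ≤ g ^ (E * K) → 1 ≤ T → T ≤ g ^ (E * K) → ∀ A : ℕ → Finset ℕ, Rich c g K A →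
        ∑ t ∈ digitSet g K A, (numIn (fun n => ∀ j, AlmostPrime (g ^ K) r (f j n)) (N + t) T : ℝ) ^ k ≤
          C * (min 1 ((T : ℝ) / (K : ℝ) ^ l) * max 1 ((T : ℝ) / (K : ℝ) ^ l) ^ k) * choices K A := by
  classical
  obtain ⟨c1, hc1, r1, hr1, H1⟩ := sysMean a b ha hco hnc f hf 1 E
  obtain ⟨c2, hc2, r2, hr2, H2⟩ := sysMean a b ha hco hnc f hf k E
  refine ⟨min c1 c2, lt_min hc1 hc2, max r1 r2, by omega, fun r hr g hg => ?_⟩
  obtain ⟨C1, hC1, H1⟩ := H1 r (by omega) g hg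
  obtain ⟨C2, hC2, H2⟩ := H2 r (by omega) g hg
  refine ⟨(k : ℝ) ^ k * (C1 + C2), by
    have : (0 : ℝ) < k := by exact_mod_cast (by omega : 0 < k)
    positivity, ?_⟩
  filter_upwards [H1, H2, eventually_ge_atTop 1] with K K1 K2 hK1
  intro N T hN hT1 hT A hA
  have hKr : (0 : ℝ) < K := by exact_mod_cast (by omega : 0 < K)
  have hTr : (0 : ℝ) < T := by exact_mod_cast (by omega : 0 < T)
  have hrich : ∀ c' : ℝ, min c1 c2 ≤ c' → Rich c' g K A := fun c' hc' => ⟨hA.1, hA.2.trans (by gcongr)⟩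
  have hcs : (0 : ℝ) ≤ choices K A := Nat.cast_nonneg _
  have h1 := K1 N T hN hT1 hT A (hrich c1 (min_le_left _ _))
  have h2 := K2 N T hN hT1 hT A (hrich c2 (min_le_right _ _))
  obtain ⟨X, hX⟩ : ∃ X : ℕ → ℕ, X = fun t => numIn (fun n => ∀ j, AlmostPrime (g ^ K) r (f j n)) (N + t) T := ⟨_, rfl⟩
  have h3 : (∑ t ∈ digitSet g K A, ((X t).descFactorial 1 : ℝ)) ≤ C1 * (T / (K : ℝ) ^ l) ^ 1 * choices K A := by
    refine le_trans ?_ h1
    rw [hX]
    exact_mod_cast desc_sum_num g K A N T 1 (fun n => ∀ j, AlmostPrime (g ^ K) r (f j n))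
  have h4 : (∑ t ∈ digitSet g K A, ((X t).descFactorial k : ℝ)) ≤ C2 * (T / (K : ℝ) ^ l) ^ k * choices K A := by
    refine le_trans ?_ h2
    rw [hX]
    exact_mod_cast desc_sum_num g K A N T k (fun n => ∀ j, AlmostPrime (g ^ K) r (f j n))
  obtain ⟨u, hu⟩ : ∃ u : ℝ, u = (T : ℝ) / (K : ℝ) ^ l := ⟨_, rfl⟩
  have hu0 : 0 < u := by rw [hu]; positivity
  rw [← hu] at h3 h4 ⊢
  obtain ⟨hm1, hm2⟩ := min_max_one hu0 k hk
  obtain ⟨M, hM⟩ : ∃ M : ℝ, M = min 1 u * max 1 u ^ k := ⟨_, rfl⟩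
  rw [← hM] at hm1 hm2 ⊢
  have e : ∀ t, (numIn (fun n => ∀ j, AlmostPrime (g ^ K) r (f j n)) (N + t) T : ℝ) = (X t : ℝ) := by
    intro t
    rw [hX]
  simp only [e]
  calc ∑ t ∈ digitSet g K A, (X t : ℝ) ^ k
      ≤ ∑ t ∈ digitSet g K A, (k : ℝ) ^ k * (((X t).descFactorial 1 : ℝ) + ((X t).descFactorial k : ℝ)) := by
        apply sum_le_sum
        intro t _
        rw [Nat.descFactorial_one]
        exact_mod_cast pow_le_desc (X t) k hk
    _ = (k : ℝ) ^ k * (∑ t ∈ digitSet g K A, ((X t).descFactorial 1 : ℝ) + ∑ t ∈ digitSet g K A, ((X t).descFactorial k : ℝ)) := by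
        rw [← mul_sum, sum_add_distrib]
    _ ≤ (k : ℝ) ^ k * (C1 * u ^ 1 * choices K A + C2 * u ^ k * choices K A) := by
        gcongr
    _ ≤ (k : ℝ) ^ k * (C1 * M * choices K A + C2 * M * choices K A) := by
        rw [pow_one]
        gcongr
    _ = _ := by ring

/-- the lower bound for the first moment -/
theorem sysFirst {l : ℕ} (a : Fin l → ℕ) (b : Fin l → ℤ) (hadm : AdmZ (fun j => (a j : ℤ)) b)
    (f : Fin l → ℕ → ℕ) (hf : ∀ j, ∀ n : ℕ, 1 ≤ n → (f j n : ℤ) = a j * n + b j) (E : ℕ) :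
    ∃ c : ℝ, 0 < c ∧ ∃ r₀ : ℕ, 2 ≤ r₀ ∧ ∀ r : ℕ, r₀ ≤ r → ∀ g : ℕ, 2 ≤ g → ∃ κ : ℝ, 0 < κ ∧
      ∀ᶠ K : ℕ in atTop, ∀ N T : ℕ, N ≤ g ^ (E * K) → g ≤ T → T ≤ g ^ (E * K) → ∀ A : ℕ → Finset ℕ, Rich c g K A →
        κ * (T / (K : ℝ) ^ l) * choices K A ≤
          ∑ t ∈ digitSet g K A, (numIn (fun n => ∀ j, AlmostPrime (g ^ K) r (f j n)) (N + t) T : ℝ) := by
  classical
  obtain ⟨c1, hc1, r1, hr1, H1⟩ := famLinR l (E + 1)
  obtain ⟨D, hD1, hDa, hDb⟩ : ∃ D : ℕ, 1 ≤ D ∧ (∀ j, a j ≤ D) ∧ ∀ j, (b j).natAbs ≤ D := by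
    refine ⟨∑ j, a j + ∑ j, (b j).natAbs + 1, by omega, fun j => ?_, fun j => ?_⟩
    · have := single_le_sum (f := a) (fun _ _ => Nat.zero_le _) (mem_univ j)
      omega
    · have := single_le_sum (f := fun j => (b j).natAbs) (fun _ _ => Nat.zero_le _) (mem_univ j)
      omega
  refine ⟨c1, hc1, r1, hr1, fun r hr g hg => ?_⟩
  obtain ⟨κ1, C1, hκ1, hC1, H1⟩ := H1 r hr g hg
  obtain ⟨x0, hx0⟩ := exists_class_sys a b hadm g hg
  have hg0 : (0 : ℝ) < g := by exact_mod_cast (by omega : 0 < g)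
  refine ⟨κ1 / (2 * g), by positivity, ?_⟩
  filter_upwards [H1, eventually_ge_atTop (2 * D + 1)] with K K1 hK1
  intro N T hN hgT hT A hA
  have hKr : (0 : ℝ) < K := by exact_mod_cast (by omega : 0 < K)
  have hg1 : 1 ≤ g := by omega
  have hcs : (0 : ℝ) ≤ choices K A := Nat.cast_nonneg _
  have hle : g ^ (E * K) ≤ g ^ ((E + 1) * K) := Nat.pow_le_pow_right hg1 (by nlinarith)
  have hDK : 2 * D ≤ g ^ K := by
    calc 2 * D ≤ K := by omega
      _ ≤ g ^ K := (Nat.lt_pow_self (by omega)).le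
  have hDg : 2 * D ≤ g ^ ((E + 1) * K) := hDK.trans (Nat.pow_le_pow_right hg1 (by nlinarith))
  have hA0 : (A 0).Nonempty := by
    rw [← card_pos, Nat.pos_iff_ne_zero]
    intro h0
    have h2 : choices K A = 0 := prod_eq_zero (mem_range.2 (by omega : 0 < K)) h0
    have h1 := hA.2
    rw [h2, Nat.cast_zero, mul_zero] at h1
    have : (0 : ℝ) < (g : ℝ) ^ K := by positivity
    linarith
  obtain ⟨d, hd⟩ := hA0
  have e0 : ∑ t ∈ digitSet g K A, (numIn (fun n => ∀ j, AlmostPrime (g ^ K) r (f j n)) (N + t) T : ℝ) =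
      ∑ h ∈ Icc 1 T, (count g K A (fun t => ∀ j, AlmostPrime (g ^ K) r (f j (N + t + h))) : ℝ) := by
    have := sum_num g K A N T (fun n => ∀ j, AlmostPrime (g ^ K) r (f j n))
    exact_mod_cast this.symm
  rw [e0]
  calc κ1 / (2 * g) * (T / (K : ℝ) ^ l) * choices K A = T / (2 * g) * (κ1 * choices K A / (K : ℝ) ^ l) := by field_simp
    _ ≤ (((Icc 1 T).filter fun h => (N + d) + h ≡ x0 [MOD g]).card : ℝ) * (κ1 * choices K A / (K : ℝ) ^ l) :=
        mul_le_mul_of_nonneg_right (class_many hg hgT) (by positivity)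
    _ = ∑ h ∈ (Icc 1 T).filter fun h => (N + d) + h ≡ x0 [MOD g], κ1 * choices K A / (K : ℝ) ^ l := by rw [sum_const, nsmul_eq_mul]
    _ ≤ ∑ h ∈ (Icc 1 T).filter fun h => (N + d) + h ≡ x0 [MOD g],
          (count g K A (fun t => ∀ j, AlmostPrime (g ^ K) r (f j (N + t + h))) : ℝ) := by
        apply sum_le_sum
        intro h hh
        rw [mem_filter, mem_Icc] at hh
        have hadm' : AdmZ (fun j => ((a j : ℕ) : ℤ)) (fun j => (a j : ℤ) * h + b j) := by
          intro p hp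
          obtain ⟨z, hz⟩ := hadm p hp
          refine ⟨z - h, fun j hj => hz j ?_⟩
          have e : ((a j : ℕ) : ℤ) * (z - (h : ℤ)) + ((a j : ℤ) * h + b j) = a j * z + b j := by ring
          rwa [e] at hj
        have h4 := K1 (fun j => ((a j : ℕ) : ℤ)) (fun j => (a j : ℤ) * h + b j) N (fun j t => f j (N + t + h))
          (fun j => by
            rw [abs_of_nonneg (by positivity)]
            have h1 := hDa j
            have h2 : a j ≤ g ^ ((E + 1) * K) := by omega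
            exact_mod_cast h2)
          (fun j => by
            have h1 := hh.1.2
            have h2 : |(a j : ℤ) * h + b j| ≤ ((D * (g ^ (E * K)) + D : ℕ) : ℤ) := by
              refine (abs_add_le _ _).trans ?_
              push_cast
              apply add_le_add
              · rw [abs_of_nonneg (by positivity)]
                have h3 := Nat.mul_le_mul (hDa j) (h1.trans hT)
                exact_mod_cast h3
              · have h3 := hDb j
                rw [← Int.natCast_natAbs]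
                exact_mod_cast h3
            refine h2.trans ?_
            have h3 : D * (g ^ (E * K)) + D ≤ g ^ ((E + 1) * K) := by
              have e : g ^ ((E + 1) * K) = g ^ K * g ^ (E * K) := by rw [← pow_add]; congr 1; ring
              have e0 : 1 ≤ g ^ (E * K) := Nat.one_le_pow _ _ hg1
              calc D * (g ^ (E * K)) + D ≤ 2 * D * g ^ (E * K) := by nlinarith
                _ ≤ g ^ K * g ^ (E * K) := Nat.mul_le_mul_right _ hDK
                _ = _ := e.symm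
            exact_mod_cast h3) (hN.trans hle) hadm'
          (fun t _ j => by
            rw [hf j _ (by omega)]
            push_cast
            ring) A hA
        exact (h4.1 ⟨d, hd, fun j => by
          refine hx0 _ hh.2 j _ ?_
          rw [hf j _ (by omega)]⟩).2
    _ ≤ _ := sum_le_sum_of_subset_of_nonneg (filter_subset _ _) fun _ _ _ => Nat.cast_nonneg _

/-- **All moments of the number of prime and almost prime values of a system of linear forms in short intervals.** -/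
theorem sysMoments {l : ℕ} (a : Fin l → ℕ) (b : Fin l → ℤ) (ha : ∀ j, 1 ≤ a j) (hco : ∀ j, IsCoprime ((a j : ℕ) : ℤ) (b j))
    (hnc : ∀ j j', j ≠ j' → ∀ d : ℤ, ((a j * a j' : ℕ) : ℤ) * d + (a j * b j' - a j' * b j) ≠ 0)
    (hadm : AdmZ (fun j => (a j : ℤ)) b)
    (f : Fin l → ℕ → ℕ) (hf : ∀ j, ∀ n : ℕ, 1 ≤ n → (f j n : ℤ) = a j * n + b j) (k : ℕ) (hk : 1 ≤ k) (E : ℕ) :
    ∃ c : ℝ, 0 < c ∧ ∃ r₀ : ℕ, 2 ≤ r₀ ∧ ∀ r : ℕ, r₀ ≤ r → ∀ g : ℕ, 2 ≤ g → ∃ κ C : ℝ, 0 < κ ∧ 0 < C ∧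
      ∀ᶠ K : ℕ in atTop, ∀ N T : ℕ, N ≤ g ^ (E * K) → 1 ≤ T → T ≤ g ^ (E * K) → ∀ A : ℕ → Finset ℕ, Rich c g K A →
        ∑ t ∈ digitSet g K A, (numIn (fun n => ∀ j, (f j n).Prime) (N + t) T : ℝ) ^ k ≤
          C * (min 1 ((T : ℝ) / (K : ℝ) ^ l) * max 1 ((T : ℝ) / (K : ℝ) ^ l) ^ k) * choices K A ∧
        ∑ t ∈ digitSet g K A, (numIn (fun n => ∀ j, AlmostPrime (g ^ K) r (f j n)) (N + t) T : ℝ) ^ k ≤
          C * (min 1 ((T : ℝ) / (K : ℝ) ^ l) * max 1 ((T : ℝ) / (K : ℝ) ^ l) ^ k) * choices K A ∧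
        (g ≤ T → κ * (min 1 ((T : ℝ) / (K : ℝ) ^ l) * max 1 ((T : ℝ) / (K : ℝ) ^ l) ^ k) * choices K A ≤
            ∑ t ∈ digitSet g K A, (numIn (fun n => ∀ j, AlmostPrime (g ^ K) r (f j n)) (N + t) T : ℝ) ^ k ∧
          κ * min 1 ((T : ℝ) / (K : ℝ) ^ l) * choices K A ≤
            count g K A (fun t => κ * max 1 ((T : ℝ) / (K : ℝ) ^ l) ≤ numIn (fun n => ∀ j, AlmostPrime (g ^ K) r (f j n)) (N + t) T)) := by
  classical
  obtain ⟨c1, hc1, r1, hr1, H1⟩ := sysUpper a b ha hco hnc f hf k hk E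
  obtain ⟨c2, hc2, r2, hr2, H2⟩ := sysUpper a b ha hco hnc f hf 2 (by norm_num) E
  obtain ⟨c3, hc3, r3, hr3, H3⟩ := sysFirst a b hadm f hf E
  obtain ⟨D, hDb⟩ : ∃ D : ℕ, ∀ j, (b j).natAbs ≤ D := by
    refine ⟨∑ j, (b j).natAbs, fun j => ?_⟩
    exact single_le_sum (f := fun j => (b j).natAbs) (fun _ _ => Nat.zero_le _) (mem_univ j)
  refine ⟨min (min c1 (min c2 c3)) (1 / 8), by positivity, max (max (max r1 r2) r3) 5, by omega, fun r hr g hg => ?_⟩
  obtain ⟨C1, hC1, H1⟩ := H1 r (by omega) g hg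
  obtain ⟨C2, hC2, H2⟩ := H2 r (by omega) g hg
  obtain ⟨κ3, hκ3, H3⟩ := H3 r (by omega) g hg
  obtain ⟨κ, hκd⟩ : ∃ κ : ℝ, κ = min (min 1 (κ3 / 2)) (κ3 ^ 2 / (4 * C2)) := ⟨_, rfl⟩
  have hκ : 0 < κ := by rw [hκd]; positivity
  refine ⟨min κ (κ * κ ^ k), C1 + 1, lt_min hκ (by positivity), by linarith, ?_⟩
  filter_upwards [H1, H2, H3, pow_small' (l * k), small_part 1 one_pos g hg, eventually_ge_atTop (4 * D + 24)] with K K1 K2 K3 KP KS hKD
  intro N T hN hT1 hT A hA
  have hrich : ∀ c' : ℝ, min (min c1 (min c2 c3)) (1 / 8) ≤ c' → Rich c' g K A := fun c' hc' => ⟨hA.1, hA.2.trans (by gcongr)⟩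
  have hcs : (0 : ℝ) ≤ choices K A := Nat.cast_nonneg _
  have hKr : (0 : ℝ) < K := by exact_mod_cast (by omega : 0 < K)
  have hTr : (0 : ℝ) < T := by exact_mod_cast (by omega : 0 < T)
  have hg1 : (1 : ℝ) ≤ g := by exact_mod_cast (by omega : 1 ≤ g)
  obtain ⟨u, hu⟩ : ∃ u : ℝ, u = (T : ℝ) / (K : ℝ) ^ l := ⟨_, rfl⟩
  have hu0 : 0 < u := by rw [hu]; positivity
  have h1 := K1 N T hN hT1 hT A (hrich c1 ((min_le_left _ _).trans (min_le_left _ _)))
  have h2 := K2 N T hN hT1 hT A (hrich c2 ((min_le_left _ _).trans ((min_le_right _ _).trans (min_le_left _ _))))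
  rw [← hu] at h1 h2 ⊢
  obtain ⟨M, hM⟩ : ∃ M : ℝ, M = min 1 u * max 1 u ^ k := ⟨_, rfl⟩
  have hM0 : 0 ≤ M := by rw [hM]; positivity
  rw [← hM] at h1 ⊢
  refine ⟨?_, ?_, fun hgT => ?_⟩
  · -- the small `t` contribute very little
    have hsmall : (g : ℝ) ^ (K / 3) * (T : ℝ) ^ k ≤ M * choices K A := by
      have hS := KS A (hrich (1 / 8) (min_le_right _ _))
      rw [one_mul] at hS
      have h3 : (K : ℝ) ^ (l * k) * (g : ℝ) ^ (K / 3) ≤ choices K A := by
        calc (K : ℝ) ^ (l * k) * (g : ℝ) ^ (K / 3) ≤ 2 ^ (K / 8) * (g : ℝ) ^ (K / 3) := by gcongr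
          _ ≤ (g : ℝ) ^ (K / 8) * (g : ℝ) ^ (K / 3) := by
              gcongr
              exact_mod_cast hg
          _ = (g : ℝ) ^ (K / 8 + K / 3) := (pow_add _ _ _).symm
          _ ≤ (g : ℝ) ^ (K / 2) := pow_le_pow_right₀ hg1 (by omega)
          _ ≤ _ := hS
      have h4 := (min_max_one hu0 k hk).2
      rw [← hM] at h4
      calc (g : ℝ) ^ (K / 3) * (T : ℝ) ^ k = u ^ k * ((K : ℝ) ^ (l * k) * (g : ℝ) ^ (K / 3)) := by
            rw [hu, div_pow, ← pow_mul]; field_simp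
        _ ≤ M * choices K A := by gcongr
    have hD4 : D + g ^ (K / 4) ≤ g ^ (K / 3) := by
      have h3 : D ≤ g ^ (K / 4) := by
        calc D ≤ K / 4 := by omega
          _ ≤ g ^ (K / 4) := (Nat.lt_pow_self (by omega)).le
      calc D + g ^ (K / 4) ≤ g ^ (K / 4) * 2 := by omega
        _ ≤ g ^ (K / 4) * g := Nat.mul_le_mul_left _ hg
        _ = g ^ (K / 4 + 1) := (pow_succ _ _).symm
        _ ≤ g ^ (K / 3) := Nat.pow_le_pow_right (by omega) (by omega)
    have hsplit : ∀ t ∈ digitSet g K A, (numIn (fun n => ∀ j, (f j n).Prime) (N + t) T : ℝ) ^ k ≤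
        (if t < g ^ (K / 3) then (T : ℝ) ^ k else 0) + (numIn (fun n => ∀ j, AlmostPrime (g ^ K) r (f j n)) (N + t) T : ℝ) ^ k := by
      intro t _
      split_ifs with ht
      · have h3 : (numIn (fun n => ∀ j, (f j n).Prime) (N + t) T : ℝ) ^ k ≤ (T : ℝ) ^ k := by
          have := numIn_le (fun n => ∀ j, (f j n).Prime) (N + t) T
          gcongr
        have h4 : (0 : ℝ) ≤ (numIn (fun n => ∀ j, AlmostPrime (g ^ K) r (f j n)) (N + t) T : ℝ) ^ k := by positivity
        linarith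
      · rw [zero_add]
        have h3 : numIn (fun n => ∀ j, (f j n).Prime) (N + t) T ≤ numIn (fun n => ∀ j, AlmostPrime (g ^ K) r (f j n)) (N + t) T := by
          apply numIn_mono
          intro n hn hP j
          have h6 : g ^ (K / 4) < f j n := by
            have h7 := hf j n (by omega)
            have h8 : (n : ℤ) - D ≤ f j n := by
              rw [h7]
              have h9 := hDb j
              have h10 : -((b j).natAbs : ℤ) ≤ b j := by omega
              have h11 : (n : ℤ) ≤ a j * n := by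
                have := Nat.mul_le_mul_right n (ha j)
                rw [one_mul] at this
                exact_mod_cast this
              omega
            omega
          exact prime_almost' hg (by omega) (by omega) le_rfl (hP j) h6
        gcongr
    refine (sum_le_sum hsplit).trans ?_
    rw [sum_add_distrib]
    have h5 : ∑ t ∈ digitSet g K A, (if t < g ^ (K / 3) then (T : ℝ) ^ k else 0) ≤ (g : ℝ) ^ (K / 3) * (T : ℝ) ^ k := by
      rw [← sum_filter, sum_const, nsmul_eq_mul]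
      apply mul_le_mul_of_nonneg_right _ (by positivity)
      have h6 : (filter (fun t => t < g ^ (K / 3)) (digitSet g K A)).card ≤ (range (g ^ (K / 3))).card := by
        apply card_le_card
        intro t ht
        exact mem_range.2 (mem_filter.1 ht).2
      rw [card_range] at h6
      exact_mod_cast h6
    calc _ ≤ M * choices K A + C1 * M * choices K A := add_le_add (h5.trans hsmall) h1
      _ = _ := by ring
  · refine h1.trans ?_
    gcongr
    linarith
  · have h3 := K3 N T hN hgT hT A (hrich c3 ((min_le_left _ _).trans ((min_le_right _ _).trans (min_le_right _ _))))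
    rw [← hu] at h3
    have h4 := large_values (digitSet g K A) (fun t => numIn (fun n => ∀ j, AlmostPrime (g ^ K) r (f j n)) (N + t) T) u κ3 C2 (choices K A)
      hu0 hκ3 hC2 hcs (by
        rw [← card_digits (by omega) hA.1]
        apply Nat.cast_le.2
        unfold digitSet
        exact card_le_card (by intro t ht; convert ht)) h3 h2
    rw [← hκd] at h4
    obtain ⟨m, hm⟩ : ∃ m : ℝ, m = max 1 u := ⟨_, rfl⟩
    have hm0 : 0 < m := by rw [hm]; exact lt_of_lt_of_le one_pos (le_max_left _ _)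
    have hmin0 : 0 ≤ min 1 u := by positivity
    rw [← hm] at h4 hM ⊢
    constructor
    · have h5 : ((((digitSet g K A).filter fun t => κ * m ≤ (numIn (fun n => ∀ j, AlmostPrime (g ^ K) r (f j n)) (N + t) T : ℝ)).card : ℝ)) * (κ * m) ^ k ≤
          ∑ t ∈ digitSet g K A, (numIn (fun n => ∀ j, AlmostPrime (g ^ K) r (f j n)) (N + t) T : ℝ) ^ k := by
        rw [← nsmul_eq_mul, ← sum_const]
        refine le_trans (sum_le_sum (g := fun t => (numIn (fun n => ∀ j, AlmostPrime (g ^ K) r (f j n)) (N + t) T : ℝ) ^ k) fun t ht => ?_) ?_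
        · exact pow_le_pow_left₀ (by positivity) (mem_filter.1 ht).2 k
        · exact sum_le_sum_of_subset_of_nonneg (filter_subset _ _) fun _ _ _ => by positivity
      refine le_trans ?_ h5
      calc min κ (κ * κ ^ k) * M * choices K A ≤ κ * κ ^ k * M * choices K A := by
            gcongr
            exact min_le_right _ _
        _ = (κ * min 1 u * choices K A) * (κ * m) ^ k := by
            rw [hM, mul_pow]; ring
        _ ≤ _ := mul_le_mul_of_nonneg_right h4 (by positivity)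
    · refine le_trans ?_ (h4.trans (Nat.cast_le.2 ?_))
      · gcongr
        exact min_le_left _ _
      · unfold count digitSet
        apply card_le_card
        intro t ht
        rw [mem_filter, mem_filter] at ht
        refine mem_filter.2 ⟨ht.1.1, ht.1.2, le_trans ?_ ht.2⟩
        gcongr
        exact min_le_left _ _

end Pool.Agent.Q48.RD
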