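import Pool.Agent.Q48.RD.Exact

/-!
# Patterns of almost primes at integers with restricted digits, without primes at the other places
-/

set_option autoImplicit false

namespace Pool.Agent.Q48.RD

open Filter Finset
open Pool.Agent.Q315.RD

/-- Removing a few elements. -/
lemma count_le_add (g K : ℕ) (A : ℕ → Finset ℕ) (P Q : ℕ → Prop) (S : Finset ℕ) (h : ∀ t < g ^ K, P t → Q t ∨ t ∈ S) :
    count g K A P ≤ count g K A Q + S.card := by
  classical
  unfold count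
  refine le_trans (card_le_card fun t ht => ?_) (card_union_le _ _)
  rw [mem_union]
  have h3 := mem_filter.1 ht
  rcases h t (mem_range.1 h3.1) h3.2.2 with h4 | h4
  · exact Or.inl (mem_filter.2 ⟨h3.1, h3.2.1, h4⟩)
  · exact Or.inr h4

/-- The numbers `m + h j` are almost primes, and no other integer between `m - L` and `m + L` is a prime. -/
def Exactly {k : ℕ} (h : Fin k → ℕ) (L y r m : ℕ) : Prop :=
  (∀ j, AlmostPrime y r (m + h j)) ∧ ∀ n : ℕ, m ≤ n + L → n ≤ m + L → (∀ j, n ≠ m + h j) → ¬ n.Prime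

/-- **Patterns of almost primes at integers with restricted digits, without primes at the other places.** -/
theorem pattern {k : ℕ} (h : Fin k → ℕ) (hinj : Function.Injective h) (hadm : ∀ p : ℕ, p.Prime → ∃ n : ℕ, ∀ j, ¬ p ∣ n + h j)
    (L E : ℕ) :
    ∃ c : ℝ, 0 < c ∧ ∃ r₀ : ℕ, 2 ≤ r₀ ∧ ∀ r : ℕ, r₀ ≤ r → ∀ g : ℕ, 2 ≤ g → ∃ κ C : ℝ, 0 < κ ∧ 0 < C ∧
      ∀ᶠ K : ℕ in atTop, ∀ N : ℕ, L ≤ N → N ≤ g ^ (E * K) → ∀ A : ℕ → Finset ℕ, Rich c g K A →
        ((∃ d ∈ A 0, ∀ j, (N + d + h j).Coprime g) →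
          κ * choices K A / (K : ℝ) ^ k ≤ count g K A fun t => Exactly h L (g ^ K) r (N + t)) ∧
        (count g K A (fun t => ∀ j, (N + t + h j).Prime) : ℝ) ≤ C * choices K A / (K : ℝ) ^ k := by
  classical
  have hadm' : AdmLin (fun _ : Fin k => 1) (fun j => L + h j) := by
    intro p hp
    obtain ⟨n, hn⟩ := hadm p hp
    have h2 := Nat.pos_of_ne_zero hp.ne_zero
    refine ⟨n + (p - 1) * L, fun j hj => hn j ?_⟩
    have e : 1 * (n + (p - 1) * L) + (L + h j) = p * L + (n + h j) := by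
      obtain ⟨q, rfl⟩ : ∃ q, p = q + 1 := ⟨p - 1, by omega⟩
      simp only [Nat.add_sub_cancel]
      ring
    rw [e] at hj
    exact (Nat.dvd_add_right (Dvd.intro L rfl)).1 hj
  obtain ⟨c, hc, r₀, hr₀, h1⟩ := exactLin (fun _ : Fin k => 1) (fun j => L + h j) (fun _ => le_rfl)
    (fun i j _ hij => hinj (by simpa using hij)) hadm'
    (((range (2 * L + 1)).filter fun i => ∀ j, i ≠ L + h j).image fun i => (1, i))
    (fun e he => by
      obtain ⟨i, hi, rfl⟩ := mem_image.1 he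
      obtain ⟨-, h3⟩ := mem_filter.1 hi
      exact ⟨le_rfl, fun j hj => h3 j hj.2.symm⟩) E
  refine ⟨c, hc, r₀, hr₀, fun r hr g hg => ?_⟩
  obtain ⟨κ, C, hκ, hC, h2⟩ := h1 r hr g hg
  refine ⟨κ, C, hκ, hC, ?_⟩
  filter_upwards [h2] with K hK
  intro N hLN hN A hA
  obtain ⟨e1, e2⟩ := hK (N - L) ((Nat.sub_le _ _).trans hN) A hA
  have e3 : ∀ t x : ℕ, 1 * (N - L + t) + (L + x) = N + t + x := fun t x => by omega
  simp only [e3] at e1 e2
  refine ⟨?_, e2⟩
  rintro ⟨d, hd, hcop⟩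
  refine (e1 ⟨d, hd, hcop⟩).trans (Nat.cast_le.2 (count_mono fun t ht hP => ?_))
  refine ⟨hP.1, fun n hn1 hn2 hn3 hn4 => ?_⟩
  refine hP.2 (1, n + L - (N + t)) (mem_image.2 ⟨n + L - (N + t), mem_filter.2 ⟨mem_range.2 (by omega), fun j hj => hn3 j (by omega)⟩, rfl⟩) ?_
  have e4 : 1 * (N - L + t) + (n + L - (N + t)) = n := by omega
  rw [e4]
  exact hn4

end Pool.Agent.Q48.RD
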