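import Pool.Agent.Q48.RD.Lin
import Pool.Agent.Q48.RD.Pat

/-!
# One linear form with integer coefficients at integers with restricted digits
-/

set_option autoImplicit false

namespace Pool.Agent.Q48.RD

open Filter Finset Polynomial
open Pool.Agent.Q315.RD
open Pool.Agent.W182.PW (lin lin_eval)

/-- The product of `1 - 1 / p` over the primes `p ≤ y` which do not divide `α`. -/
noncomputable def oneV (α : ℤ) (y : ℕ) : ℝ := ∏ p ∈ (Icc 1 y).filter (fun p : ℕ => p.Prime ∧ ¬ (p : ℤ) ∣ α), (1 - 1 / (p : ℝ))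

lemma classes_one {α β : ℤ} (h : IsCoprime α β) {p : ℕ} (hp : p.Prime) :
    (classes p fun n => (p : ℤ) ∣ ∏ _j : Fin 1, (α * n + β)) = if (p : ℤ) ∣ α then 0 else 1 := by
  classical
  have hpz := Nat.prime_iff_prime_int.1 hp
  rw [classes_eq]
  simp only [univ_unique, prod_const, card_singleton, pow_one]
  split_ifs with hd
  · refine card_eq_zero.2 (filter_eq_empty_iff.2 ?_)
    intro n _ hn
    have h1 : (p : ℤ) ∣ β := (dvd_add_right (hd.mul_right _)).1 hn
    exact hpz.not_isUnit (h.isUnit_of_dvd' hd h1)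
  · have := Fact.mk hp
    have ha : ((α : ℤ) : ZMod p) ≠ 0 := fun h0 => hd ((ZMod.intCast_zmod_eq_zero_iff_dvd α p).1 h0)
    have key : ∀ n : ℕ, (p : ℤ) ∣ α * n + β ↔ ((n : ℕ) : ZMod p) = -β / α := by
      intro n
      rw [← ZMod.intCast_zmod_eq_zero_iff_dvd]
      push_cast
      rw [eq_div_iff ha, eq_neg_iff_add_eq_zero, mul_comm]
    rw [card_eq_one]
    refine ⟨(-(β : ZMod p) / α).val, ?_⟩
    ext n
    simp only [mem_filter, mem_range, mem_singleton, key]
    constructor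
    · rintro ⟨h1, h2⟩
      rw [← h2, ZMod.val_natCast, Nat.mod_eq_of_lt h1]
    · intro h1
      rw [h1]
      exact ⟨ZMod.val_lt _, by rw [ZMod.natCast_val, ZMod.cast_id]⟩

lemma linDensity_one {α β : ℤ} (h : IsCoprime α β) (y : ℕ) :
    linDensity (fun _ : Fin 1 => α) (fun _ => β) y = oneV α y := by
  classical
  unfold linDensity rootDensity oneV
  conv_rhs => rw [← filter_filter, prod_filter]
  apply prod_congr rfl
  intro p hp
  rw [classes_one h (mem_filter.1 hp).2]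
  split_ifs <;> simp_all

lemma admZ_one {α β : ℤ} (h : IsCoprime α β) : AdmZ (fun _ : Fin 1 => α) (fun _ => β) := by
  intro p hp
  have hpz := Nat.prime_iff_prime_int.1 hp
  by_cases hb : (p : ℤ) ∣ β
  · refine ⟨1, fun _ h1 => ?_⟩
    have h2 : (p : ℤ) ∣ α := by simpa using (dvd_add_left hb).1 h1
    exact hpz.not_isUnit (h.isUnit_of_dvd' h2 hb)
  · refine ⟨0, fun _ h1 => hb ?_⟩
    simpa using h1

/-- The order of magnitude of the product over all primes. -/
lemma oneV_unit (g : ℕ) (hg : 2 ≤ g) : ∃ W : ℝ, 0 < W ∧ ∀ᶠ K : ℕ in atTop, ∀ α : ℤ, IsUnit α → oneV α (g ^ K) ≤ W / K := by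
  classical
  obtain ⟨v, W, hv, hW, h⟩ := order _ (sysLin (fun _ : Fin 1 => 1) (fun _ => 0) (fun _ => le_rfl)
    (fun i j _ _ => Subsingleton.elim i j) (fun p hp => ⟨1, fun _ => by
      simpa using hp.one_lt.ne'⟩)) g hg
  refine ⟨W, hW, ?_⟩
  filter_upwards [h] with K hK α hα
  have h1 := hK.2
  rw [pow_one] at h1
  refine le_trans (le_of_eq ?_) h1
  have h2 := linDensity_one (α := 1) (β := 0) isCoprime_one_left (g ^ K)
  have h3 : oneV α (g ^ K) = oneV 1 (g ^ K) := by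
    unfold oneV
    congr 1
    apply filter_congr
    intro p _
    rw [Int.isUnit_iff] at hα
    rcases hα with rfl | rfl <;> simp
  rw [h3, ← h2]
  unfold linDensity rootDensity
  apply prod_congr rfl
  intro p _
  have h4 : (fun n : ℕ => (p : ℤ) ∣ ∏ _j : Fin 1, ((1 : ℤ) * n + 0)) = fun n : ℕ => (p : ℤ) ∣ ∏ _j : Fin 1, (lin 1 ((0 : ℕ) : ℤ)).eval (n : ℤ) := by
    funext n
    simp [lin_eval]
  rw [h4]

/-- **One linear form with integer coefficients at integers with restricted digits.** -/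
theorem oneLin (E : ℕ) :
    ∃ c : ℝ, 0 < c ∧ ∃ r₀ : ℕ, 2 ≤ r₀ ∧ ∀ r : ℕ, r₀ ≤ r → ∀ g : ℕ, 2 ≤ g → ∃ κ C : ℝ, 0 < κ ∧ 0 < C ∧
      ∀ᶠ K : ℕ in atTop, ∀ (α β : ℤ) (f : ℕ → ℕ), |α| ≤ (g : ℤ) ^ (E * K) → |β| ≤ (g : ℤ) ^ (E * K) → IsCoprime α β →
        (∀ t < g ^ K, (f t : ℤ) = α * t + β) → (∀ t < g ^ K, t ≤ f t) → ∀ A : ℕ → Finset ℕ, Rich c g K A →
          ((∃ d ∈ A 0, (f d).Coprime g) →
            κ * oneV α (g ^ K) * choices K A ≤ count g K A (fun t => AlmostPrime (g ^ K) r (f t)) ∧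
            κ * choices K A / K ≤ count g K A (fun t => AlmostPrime (g ^ K) r (f t))) ∧
          (count g K A (fun t => (f t).Prime) : ℝ) ≤ C * oneV α (g ^ K) * choices K A := by
  obtain ⟨c, hc, r₀, hr₀, h⟩ := famLin' 1 E
  refine ⟨c, hc, r₀, hr₀, fun r hr g hg => ?_⟩
  obtain ⟨κ, C, hκ, hC, h1⟩ := h r hr g hg
  refine ⟨κ, C, hκ, hC, ?_⟩
  filter_upwards [h1] with K hK
  intro α β f hα hβ hco hf hle A hA
  have h2 := hK (fun _ => α) (fun _ => β) 0 (fun _ => f) (fun _ => hα) (fun _ => hβ) (Nat.zero_le _) (admZ_one hco)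
    (fun t ht _ => by rw [hf t ht]; push_cast; ring) (fun t ht _ => hle t ht) A hA
  rw [linDensity_one hco] at h2
  simpa only [forall_const, pow_one] using h2

end Pool.Agent.Q48.RD
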