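import Pool.Agent.Q48.RD.Uni

/-!
# Averages of products over the prime divisors of the values of a polynomial at differences
-/

set_option autoImplicit false

namespace Pool.Agent.Q48.RD

open Filter Finset Polynomial
open Pool.Agent.Q315.RD

/-- The product of `1 + c / p` over the primes `p ≤ y` dividing `m`. -/
noncomputable def wt (c : ℝ) (y : ℕ) (m : ℤ) : ℝ := ∏ p ∈ ((Icc 1 y).filter Nat.Prime).filter (fun p : ℕ => (p : ℤ) ∣ m), (1 + c / (p : ℝ))

lemma one_le_fac {c : ℝ} (hc : 0 ≤ c) (p : ℕ) : 1 ≤ 1 + c / (p : ℝ) := by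
  have : 0 ≤ c / (p : ℝ) := by positivity
  linarith

lemma wt_ge_one {c : ℝ} (hc : 0 ≤ c) (y : ℕ) (m : ℤ) : 1 ≤ wt c y m := by
  unfold wt
  exact Finset.one_le_prod fun p _ => one_le_fac hc p

lemma pow_one_add (c : ℝ) (hc : 0 ≤ c) (m : ℕ) : ∃ c' : ℝ, 0 ≤ c' ∧ ∀ x : ℝ, 0 ≤ x → x ≤ 1 → (1 + c * x) ^ m ≤ 1 + c' * x := by
  induction m with
  | zero => exact ⟨0, le_rfl, fun x _ _ => by simp⟩
  | succ m ih =>
    obtain ⟨c', hc', h⟩ := ih
    refine ⟨c' + c + c' * c, by positivity, fun x hx hx1 => ?_⟩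
    calc (1 + c * x) ^ (m + 1) = (1 + c * x) ^ m * (1 + c * x) := pow_succ _ _
      _ ≤ (1 + c' * x) * (1 + c * x) := mul_le_mul_of_nonneg_right (h x hx hx1) (by positivity)
      _ = 1 + (c' + c) * x + c' * c * (x * x) := by ring
      _ ≤ 1 + (c' + c) * x + c' * c * (x * 1) := by
          have := mul_le_mul_of_nonneg_left hx1 hx
          have h2 : 0 ≤ c' * c := by positivity
          have := mul_le_mul_of_nonneg_left this h2
          linarith
      _ = _ := by ring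

lemma wt_pow (c : ℝ) (hc : 0 ≤ c) (m : ℕ) : ∃ c' : ℝ, 0 ≤ c' ∧ ∀ (y : ℕ) (v : ℤ), wt c y v ^ m ≤ wt c' y v := by
  obtain ⟨c', hc', h⟩ := pow_one_add c hc m
  refine ⟨c', hc', fun y v => ?_⟩
  unfold wt
  rw [← prod_pow]
  apply Finset.prod_le_prod
  · intro p _
    positivity
  · intro p hp
    have h2 := (prime_inv (mem_filter.1 (mem_filter.1 hp).1).2).2.2
    have h3 := h (1 / p) (by positivity) (by linarith)
    rwa [mul_one_div, mul_one_div] at h3

/-- the roots of a polynomial modulo `p` -/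
lemma roots_types (R : ℤ[X]) : ∃ r : ℕ → Fin R.natDegree → ℕ, ∀ p : ℕ, p.Prime → ¬ (p : ℤ) ∣ R.leadingCoeff →
    ∀ x : ℤ, (p : ℤ) ∣ R.eval x → ∃ j, (p : ℤ) ∣ x - r p j := by
  classical
  have h : ∀ p : ℕ, ∃ r : Fin R.natDegree → ℕ, p.Prime → ¬ (p : ℤ) ∣ R.leadingCoeff →
      ∀ x : ℤ, (p : ℤ) ∣ R.eval x → ∃ j, (p : ℤ) ∣ x - r j := by
    intro p
    by_cases hp : p.Prime
    swap
    · exact ⟨fun _ => 0, fun h => absurd h hp⟩
    have := Fact.mk hp
    obtain ⟨Q, hQ⟩ : ∃ Q : (ZMod p)[X], Q = R.map (Int.castRingHom (ZMod p)) := ⟨_, rfl⟩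
    obtain ⟨L, hL⟩ : ∃ L : List (ZMod p), L = Q.roots.toList := ⟨_, rfl⟩
    refine ⟨fun j => (L.getD j 0).val, fun _ hlead x hx => ?_⟩
    have hQ0 : Q ≠ 0 := by
      intro h0
      apply hlead
      have h1 : Q.coeff R.natDegree = 0 := by rw [h0, coeff_zero]
      rw [hQ, coeff_map, coeff_natDegree] at h1
      exact (ZMod.intCast_zmod_eq_zero_iff_dvd _ p).1 h1
    have hroot : ((x : ℤ) : ZMod p) ∈ Q.roots := by
      rw [mem_roots hQ0, IsRoot, hQ]
      have h1 := (ZMod.intCast_zmod_eq_zero_iff_dvd (R.eval x) p).2 hx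
      have h2 : ((R.eval x : ℤ) : ZMod p) = (R.map (Int.castRingHom (ZMod p))).eval ((x : ℤ) : ZMod p) := by
        rw [eval_intCast_map]
        simp
      rw [← h2, h1]
    have hmem : ((x : ℤ) : ZMod p) ∈ L := by
      rw [hL, Multiset.mem_toList]
      exact hroot
    obtain ⟨i, hi, hix⟩ := List.getElem_of_mem hmem
    have hlen : L.length ≤ R.natDegree := by
      rw [hL, Multiset.length_toList]
      exact (card_roots' Q).trans (by rw [hQ]; exact natDegree_map_le)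
    refine ⟨⟨i, by omega⟩, ?_⟩
    rw [← ZMod.intCast_zmod_eq_zero_iff_dvd]
    have h3 : L.getD i 0 = ((x : ℤ) : ZMod p) := by
      rw [List.getD_eq_getElem _ _ hi, hix]
    simp only [h3]
    push_cast
    rw [ZMod.natCast_val, ZMod.cast_id, sub_self]
  choose r hr using h
  exact ⟨r, hr⟩

/-- the number of the `b` for which the value of a polynomial is divisible by several primes -/
lemma count_roots (R : ℤ[X]) (T : ℕ) (e : ℤ) (U : Finset ℕ) (hU : ∀ p ∈ U, p.Prime) (hU2 : ∀ p ∈ U, ¬ (p : ℤ) ∣ R.leadingCoeff) :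
    (((Icc 1 T).filter fun b : ℕ => ∀ p ∈ U, (p : ℤ) ∣ R.eval (e + b)).card : ℝ) ≤ (R.natDegree : ℝ) ^ U.card * (T / ∏ p ∈ U, (p : ℝ) + 1) := by
  classical
  obtain ⟨r, hr⟩ := roots_types R
  have h1 : ((Icc 1 T).filter fun b : ℕ => ∀ p ∈ U, (p : ℤ) ∣ R.eval (e + b)) ⊆
      (univ : Finset (U → Fin R.natDegree)).biUnion fun J =>
        (Icc 1 T).filter fun b : ℕ => ∀ p : U, ((p : ℕ) : ℤ) ∣ (e + b) - r p (J p) := by
    intro b hb
    rw [mem_filter] at hb
    have h2 : ∀ p : U, ∃ j, ((p : ℕ) : ℤ) ∣ (e + b) - r p j := fun p => hr p (hU p p.2) (hU2 p p.2) _ (hb.2 p p.2)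
    choose J hJ using h2
    rw [mem_biUnion]
    exact ⟨J, mem_univ _, mem_filter.2 ⟨hb.1, hJ⟩⟩
  have h2 : ∀ J : U → Fin R.natDegree, ((((Icc 1 T).filter fun b : ℕ => ∀ p : U, ((p : ℕ) : ℤ) ∣ (e + b) - r p (J p)).card : ℕ) : ℝ) ≤
      T / ∏ p ∈ U, (p : ℝ) + 1 := by
    intro J
    obtain ⟨x0, hx0⟩ := Nat.chineseRemainderOfFinset (fun p => if hp : p ∈ U then r p (J ⟨p, hp⟩) else 0) (fun p => p) U
      (fun p hp => (hU p hp).ne_zero)
      (fun p hp q hq hpq => (Nat.coprime_primes (hU p (mem_coe.1 hp)) (hU q (mem_coe.1 hq))).2 hpq)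
    have h3 := count_mult T (e - x0) U hU
    rw [one_pow, one_mul] at h3
    refine le_trans (Nat.cast_le.2 (card_le_card ?_)) h3
    intro b hb
    rw [mem_filter] at hb ⊢
    refine ⟨hb.1, fun p hp => ?_⟩
    have h4 := hb.2 ⟨p, hp⟩
    have h5 := hx0 p hp
    simp only [hp, dif_pos] at h5
    have h6 : (p : ℤ) ∣ (r p (J ⟨p, hp⟩) : ℤ) - x0 := Nat.modEq_iff_dvd.1 h5
    have h7 := dvd_add h4 h6
    have e1 : e + (b : ℤ) - r p (J ⟨p, hp⟩) + ((r p (J ⟨p, hp⟩) : ℤ) - x0) = e - x0 + b := by ring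
    rwa [e1] at h7
  calc (((Icc 1 T).filter fun b : ℕ => ∀ p ∈ U, (p : ℤ) ∣ R.eval (e + b)).card : ℝ)
      ≤ ((∑ J : U → Fin R.natDegree, ((Icc 1 T).filter fun b : ℕ => ∀ p : U, ((p : ℕ) : ℤ) ∣ (e + b) - r p (J p)).card : ℕ) : ℝ) :=
        Nat.cast_le.2 ((card_le_card h1).trans card_biUnion_le)
    _ = ∑ J : U → Fin R.natDegree, (((Icc 1 T).filter fun b : ℕ => ∀ p : U, ((p : ℕ) : ℤ) ∣ (e + b) - r p (J p)).card : ℝ) := by
        push_cast
        rfl
    _ ≤ ∑ _J : U → Fin R.natDegree, (T / ∏ p ∈ U, (p : ℝ) + 1) := sum_le_sum fun J _ => h2 J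
    _ = _ := by
        rw [sum_const, nsmul_eq_mul, card_univ, Fintype.card_fun, Fintype.card_fin, Fintype.card_coe]
        push_cast
        rfl

/-- **Averages over differences.** -/
theorem avgPoly (R : ℤ[X]) (hR : R ≠ 0) (c : ℝ) (hc : 0 ≤ c) : ∃ Z : ℝ, 0 < Z ∧ ∀ T a y : ℕ, 1 ≤ T → a ≤ T →
    ∑ b ∈ Icc 1 T, (if R.eval ((b : ℤ) - a) = 0 then (0 : ℝ) else wt c y (R.eval ((b : ℤ) - a))) ≤ Z * T := by
  classical
  obtain ⟨B, D', hB⟩ := Pool.Agent.W123.RU.Poly.eval_bound R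
  obtain ⟨L, hL⟩ : ∃ L : ℕ, B * 2 ^ D' * 2 ^ D' ≤ 2 ^ L := ⟨B * 2 ^ D' * 2 ^ D', (Nat.lt_two_pow_self).le⟩
  obtain ⟨K0, hK0⟩ := eventually_atTop.1 (mertens_small (R.natDegree * c) (by positivity))
  obtain ⟨a0, ha0⟩ : ∃ a0 : ℕ, a0 = R.leadingCoeff.natAbs := ⟨_, rfl⟩
  have ha1 : 1 ≤ a0 := by
    rw [ha0]
    exact Int.natAbs_pos.2 (leadingCoeff_ne_zero.2 hR)
  refine ⟨(1 + c) ^ (L + D') * (1 + c) ^ a0 * (Real.exp (2 * (R.natDegree * c)) + 2 + (1 + R.natDegree * c) ^ K0), by positivity, ?_⟩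
  intro T a y hT ha
  obtain ⟨z, hz⟩ : ∃ z : ℕ, z = max T 2 := ⟨_, rfl⟩
  have hz2 : 2 ≤ z := by rw [hz]; exact le_max_right _ _
  have hzT : T ≤ z := by rw [hz]; exact le_max_left _ _
  have hz2T : z ≤ 2 * T := by omega
  obtain ⟨S, hS⟩ : ∃ S : Finset ℕ, S = ((Icc 1 z).filter Nat.Prime).filter (fun p : ℕ => ¬ (p : ℤ) ∣ R.leadingCoeff) := ⟨_, rfl⟩
  have hSp : ∀ p ∈ S, p.Prime := fun p hp => by rw [hS, mem_filter, mem_filter] at hp; exact hp.1.2
  have hSl : ∀ p ∈ S, ¬ (p : ℤ) ∣ R.leadingCoeff := fun p hp => by rw [hS, mem_filter] at hp; exact hp.2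
  have h1 : ∀ b ∈ Icc 1 T, (if R.eval ((b : ℤ) - a) = 0 then (0 : ℝ) else wt c y (R.eval ((b : ℤ) - a))) ≤
      (1 + c) ^ (L + D') * (1 + c) ^ a0 * ∏ p ∈ S.filter (fun p : ℕ => (p : ℤ) ∣ R.eval (-(a : ℤ) + b)), (1 + c / (p : ℝ)) := by
    intro b hb
    rw [mem_Icc] at hb
    have e1 : (b : ℤ) - a = -(a : ℤ) + b := by ring
    rw [e1]
    obtain ⟨v, hv⟩ : ∃ v : ℤ, v = R.eval (-(a : ℤ) + b) := ⟨_, rfl⟩
    rw [← hv]
    have hpr : 0 ≤ ∏ p ∈ S.filter (fun p : ℕ => (p : ℤ) ∣ v), (1 + c / (p : ℝ)) := prod_nonneg fun p _ => by positivity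
    split_ifs with h0
    · positivity
    -- the prime factors
    obtain ⟨P, hP⟩ : ∃ P : Finset ℕ, P = ((Icc 1 y).filter Nat.Prime).filter (fun p : ℕ => (p : ℤ) ∣ v) := ⟨_, rfl⟩
    have hPp : ∀ p ∈ P, p.Prime := fun p hp => by rw [hP, mem_filter, mem_filter] at hp; exact hp.1.2
    have hPv : ∀ p ∈ P, (p : ℤ) ∣ v := fun p hp => by rw [hP, mem_filter] at hp; exact hp.2
    obtain ⟨P1, hP1⟩ : ∃ P1 : Finset ℕ, P1 = P.filter (fun p => ¬ p ≤ z) := ⟨_, rfl⟩
    obtain ⟨P2, hP2⟩ : ∃ P2 : Finset ℕ, P2 = (P.filter (fun p => p ≤ z)).filter (fun p : ℕ => (p : ℤ) ∣ R.leadingCoeff) := ⟨_, rfl⟩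
    obtain ⟨P3, hP3⟩ : ∃ P3 : Finset ℕ, P3 = (P.filter (fun p => p ≤ z)).filter (fun p : ℕ => ¬ (p : ℤ) ∣ R.leadingCoeff) := ⟨_, rfl⟩
    have hsplit : wt c y v = (∏ p ∈ P2, (1 + c / (p : ℝ))) * (∏ p ∈ P3, (1 + c / (p : ℝ))) * ∏ p ∈ P1, (1 + c / (p : ℝ)) := by
      unfold wt
      rw [← hP, ← prod_filter_mul_prod_filter_not P (fun p => p ≤ z), hP1, hP2, hP3,
        prod_filter_mul_prod_filter_not (P.filter (fun p => p ≤ z)) (fun p : ℕ => (p : ℤ) ∣ R.leadingCoeff)]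
    have hfac : ∀ p ∈ P, 1 + c / (p : ℝ) ≤ 1 + c := by
      intro p hp
      have : (1 : ℝ) ≤ p := by exact_mod_cast (hPp p hp).one_lt.le
      have h3 : c / (p : ℝ) ≤ c := div_le_self hc this
      linarith
    have hbnd : ∀ Q : Finset ℕ, Q ⊆ P → ∀ m : ℕ, Q.card ≤ m → ∏ p ∈ Q, (1 + c / (p : ℝ)) ≤ (1 + c) ^ m := by
      intro Q hQ m hm
      calc ∏ p ∈ Q, (1 + c / (p : ℝ)) ≤ ∏ _p ∈ Q, (1 + c) := prod_le_prod (fun p _ => by positivity) fun p hp => hfac p (hQ hp)
        _ = (1 + c) ^ Q.card := by rw [prod_const]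
        _ ≤ _ := pow_le_pow_right₀ (by linarith) hm
    have hc1 : P1.card ≤ L + D' := by
      have h4 : z ^ P1.card ≤ v.natAbs := by
        calc z ^ P1.card = ∏ _p ∈ P1, z := by rw [prod_const]
          _ ≤ ∏ p ∈ P1, p := prod_le_prod (fun _ _ => Nat.zero_le _) fun p hp => by
              rw [hP1, mem_filter] at hp
              omega
          _ ≤ v.natAbs := by
              apply Nat.le_of_dvd (Int.natAbs_pos.2 h0)
              apply Finset.prod_primes_dvd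
              · intro p hp
                rw [hP1, mem_filter] at hp
                exact (hPp p hp.1).prime
              · intro p hp
                rw [hP1, mem_filter] at hp
                rw [← Int.natCast_dvd_natCast, Int.dvd_natAbs]
                exact hPv p hp.1
      have h5 : (v.natAbs : ℝ) ≤ (B * 2 ^ D' * 2 ^ D' : ℕ) * (z : ℝ) ^ D' := by
        have h6 := hB (-(a : ℤ) + b)
        rw [← hv] at h6
        have e2 : (v.natAbs : ℝ) = |(v : ℝ)| := by rw [Nat.cast_natAbs]; push_cast; rfl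
        rw [e2]
        refine h6.trans ?_
        have h7 : |((-(a : ℤ) + b : ℤ) : ℝ)| ≤ z := by
          push_cast
          rw [abs_le]
          have h8 : (a : ℝ) ≤ z := by exact_mod_cast ha.trans hzT
          have h9 : (b : ℝ) ≤ z := by exact_mod_cast hb.2.trans hzT
          have h10 : (0 : ℝ) ≤ a := Nat.cast_nonneg _
          have h11 : (0 : ℝ) ≤ b := Nat.cast_nonneg _
          constructor <;> linarith
        have h12 : 1 + |((-(a : ℤ) + b : ℤ) : ℝ)| ≤ 2 * z := by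
          have : (2 : ℝ) ≤ z := by exact_mod_cast hz2
          linarith
        calc (B : ℝ) * (1 + |((-(a : ℤ) + b : ℤ) : ℝ)|) ^ D' ≤ B * (2 * z) ^ D' := by gcongr
          _ = B * 2 ^ D' * 1 * (z : ℝ) ^ D' := by rw [mul_pow]; ring
          _ ≤ B * 2 ^ D' * 2 ^ D' * (z : ℝ) ^ D' := by
              gcongr
              exact one_le_pow₀ (by norm_num)
          _ = _ := by push_cast; ring
      have h6 : v.natAbs ≤ z ^ (L + D') := by
        have h7 : v.natAbs ≤ B * 2 ^ D' * 2 ^ D' * z ^ D' := by exact_mod_cast h5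
        calc v.natAbs ≤ B * 2 ^ D' * 2 ^ D' * z ^ D' := h7
          _ ≤ 2 ^ L * z ^ D' := Nat.mul_le_mul_right _ hL
          _ ≤ z ^ L * z ^ D' := Nat.mul_le_mul_right _ (Nat.pow_le_pow_left hz2 L)
          _ = _ := (pow_add _ _ _).symm
      exact (Nat.pow_le_pow_iff_right (by omega : 1 < z)).1 (h4.trans h6)
    have hc2 : P2.card ≤ a0 := by
      calc P2.card ≤ (Icc 1 a0).card := by
            apply card_le_card
            intro p hp
            rw [hP2, mem_filter, mem_filter] at hp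
            rw [mem_Icc]
            refine ⟨(hPp p hp.1.1).one_lt.le, Nat.le_of_dvd (by omega) ?_⟩
            rw [ha0, ← Int.natCast_dvd_natCast, Int.dvd_natAbs]
            exact hp.2
        _ = a0 := by rw [Nat.card_Icc]; omega
    have hb1 := hbnd P1 (by rw [hP1]; exact filter_subset _ _) _ hc1
    have hb2 := hbnd P2 (by rw [hP2]; exact (filter_subset _ _).trans (filter_subset _ _)) _ hc2
    have hb3 : ∏ p ∈ P3, (1 + c / (p : ℝ)) ≤ ∏ p ∈ S.filter (fun p : ℕ => (p : ℤ) ∣ v), (1 + c / (p : ℝ)) := by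
      apply prod_le_prod_of_subset_of_one_le
      · intro p hp
        rw [hP3, mem_filter, mem_filter] at hp
        have hpp := hPp p hp.1.1
        rw [mem_filter, hS, mem_filter, mem_filter, mem_Icc]
        exact ⟨⟨⟨⟨hpp.one_lt.le, hp.1.2⟩, hpp⟩, hp.2⟩, hPv p hp.1.1⟩
      · intro p _
        positivity
      · intro p _ _
        exact one_le_fac hc p
    have h30 : 0 ≤ ∏ p ∈ P3, (1 + c / (p : ℝ)) := prod_nonneg fun p _ => by positivity
    have h10 : 0 ≤ ∏ p ∈ P1, (1 + c / (p : ℝ)) := prod_nonneg fun p _ => by positivity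
    rw [hsplit]
    calc (∏ p ∈ P2, (1 + c / (p : ℝ))) * (∏ p ∈ P3, (1 + c / (p : ℝ))) * ∏ p ∈ P1, (1 + c / (p : ℝ))
        ≤ ((1 + c) ^ a0 * ∏ p ∈ S.filter (fun p : ℕ => (p : ℤ) ∣ v), (1 + c / (p : ℝ))) * (1 + c) ^ (L + D') := by
          apply mul_le_mul _ hb1 h10 (by positivity)
          exact mul_le_mul hb2 hb3 h30 (by positivity)
      _ = _ := by ring
  refine (sum_le_sum h1).trans ?_
  rw [← mul_sum]
  have h2 := avg_values S hSp c hc (Icc 1 T) (fun b => R.eval (-(a : ℤ) + (b : ℕ))) R.natDegree T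
    (fun U hU => count_roots R T (-(a : ℤ)) U (fun p hp => hSp p (hU hp)) (fun p hp => hSl p (hU hp)))
  have hSsub : S ⊆ (Icc 1 z).filter Nat.Prime := by rw [hS]; exact filter_subset _ _
  have h3 : ∏ p ∈ S, (1 + R.natDegree * c / (p : ℝ) ^ 2) ≤ Real.exp (2 * (R.natDegree * c)) := by
    refine le_trans ?_ (prod_sq (R.natDegree * c) (by positivity) z)
    apply prod_le_prod_of_subset_of_one_le hSsub
    · intro p _
      positivity
    · intro p _ _
      have : 0 ≤ R.natDegree * c / (p : ℝ) ^ 2 := by positivity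
      linarith
  have h4 : ∏ p ∈ S, (1 + R.natDegree * c / (p : ℝ)) ≤ 2 * T + (1 + R.natDegree * c) ^ K0 * T := by
    have h5 : ∏ p ∈ S, (1 + R.natDegree * c / (p : ℝ)) ≤ ∏ p ∈ (Icc 1 z).filter Nat.Prime, (1 + R.natDegree * c / (p : ℝ)) := by
      apply prod_le_prod_of_subset_of_one_le hSsub
      · intro p _
        positivity
      · intro p _ _
        exact one_le_fac (by positivity) p
    refine h5.trans ?_
    have hTr : (1 : ℝ) ≤ T := by exact_mod_cast hT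
    rcases le_total K0 z with h6 | h6
    · have h7 := hK0 z h6
      have h8 : (z : ℝ) ≤ 2 * T := by exact_mod_cast hz2T
      have h9 : 0 ≤ (1 + R.natDegree * c) ^ K0 * (T : ℝ) := by positivity
      linarith
    · have h7 : ∏ p ∈ (Icc 1 z).filter Nat.Prime, (1 + R.natDegree * c / (p : ℝ)) ≤ (1 + R.natDegree * c) ^ K0 := by
        calc ∏ p ∈ (Icc 1 z).filter Nat.Prime, (1 + R.natDegree * c / (p : ℝ)) ≤ ∏ _p ∈ (Icc 1 z).filter Nat.Prime, (1 + R.natDegree * c) := by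
              apply Finset.prod_le_prod
              · intro p _
                positivity
              · intro p hp
                have h8 : (1 : ℝ) ≤ p := by exact_mod_cast (mem_filter.1 hp).2.one_lt.le
                have h9 : R.natDegree * c / (p : ℝ) ≤ R.natDegree * c := div_le_self (by positivity) h8
                linarith
          _ = (1 + R.natDegree * c) ^ ((Icc 1 z).filter Nat.Prime).card := by rw [prod_const]
          _ ≤ _ := by
              apply pow_le_pow_right₀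
              · have : 0 ≤ R.natDegree * c := by positivity
                linarith
              · refine (card_filter_le _ _).trans ?_
                rw [Nat.card_Icc]
                omega
      have h8 : (1 + R.natDegree * c) ^ K0 * 1 ≤ (1 + R.natDegree * c) ^ K0 * (T : ℝ) := by gcongr
      linarith
  have hT0 : (0 : ℝ) ≤ T := Nat.cast_nonneg T
  have h5 := mul_le_mul_of_nonneg_left h3 hT0
  calc (1 + c) ^ (L + D') * (1 + c) ^ a0 * ∑ b ∈ Icc 1 T, ∏ p ∈ S.filter (fun p : ℕ => (p : ℤ) ∣ R.eval (-(a : ℤ) + (b : ℕ))), (1 + c / (p : ℝ))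
      ≤ (1 + c) ^ (L + D') * (1 + c) ^ a0 * (T * Real.exp (2 * (R.natDegree * c)) + (2 * T + (1 + R.natDegree * c) ^ K0 * T)) := by
        apply mul_le_mul_of_nonneg_left _ (by positivity)
        linarith
    _ = _ := by ring

/-- an inequality of Bonferroni -/
lemma bonf {m : ℕ} {α : Type*} [DecidableEq α] (A : Fin m → Finset α) (J : Finset (Fin m)) :
    ∑ u ∈ J, (A u).card ≤ (J.biUnion A).card + ∑ x ∈ (J ×ˢ J).filter (fun x => x.1 < x.2), (A x.1 ∩ A x.2).card := by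
  classical
  refine Finset.induction_on_max J (by simp) ?_
  intro a s ha ih
  have has : a ∉ s := fun h => (lt_irrefl _ (ha a h))
  rw [sum_insert has, biUnion_insert]
  have h1 : ((insert a s ×ˢ insert a s).filter fun x => x.1 < x.2) = (s ×ˢ s).filter (fun x => x.1 < x.2) ∪ s.image (fun u => (u, a)) := by
    ext ⟨u, v⟩
    simp only [mem_filter, mem_product, mem_insert, mem_union, mem_image, Prod.mk.injEq]
    constructor
    · rintro ⟨⟨h1 | h1, h2 | h2⟩, h3⟩
      · rw [h1, h2] at h3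
        exact absurd h3 (lt_irrefl _)
      · rw [h1] at h3
        exact absurd h3 (ha v h2).asymm
      · exact Or.inr ⟨u, h1, rfl, h2.symm⟩
      · exact Or.inl ⟨⟨h1, h2⟩, h3⟩
    · rintro (⟨⟨h1, h2⟩, h3⟩ | ⟨w, h1, h2, h3⟩)
      · exact ⟨⟨Or.inr h1, Or.inr h2⟩, h3⟩
      · rw [← h2, ← h3]
        exact ⟨⟨Or.inr h1, Or.inl rfl⟩, ha w h1⟩
  have h2 : Disjoint ((s ×ˢ s).filter (fun x => x.1 < x.2)) (s.image (fun u => (u, a))) := by
    rw [disjoint_left]
    intro x hx hx2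
    obtain ⟨w, _, hw⟩ := mem_image.1 hx2
    have h3 := (mem_product.1 (mem_filter.1 hx).1).2
    rw [← hw] at h3
    exact has h3
  rw [h1, sum_union h2, sum_image (by intro u _ v _ h; exact (Prod.mk.inj h).1)]
  dsimp only
  have h3 := card_union_add_card_inter (A a) (s.biUnion A)
  have h4 : (A a ∩ s.biUnion A).card ≤ ∑ u ∈ s, (A u ∩ A a).card := by
    rw [inter_biUnion]
    refine card_biUnion_le.trans (le_of_eq ?_)
    apply sum_congr rfl
    intro u _
    rw [inter_comm]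
  omega

end Pool.Agent.Q48.RD
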