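import Pool.Agent.Q48.RD.PAvg
import Pool.Agent.Q48.RD.Gen

/-!
# Averages over all tuples of shifts for systems of polynomials
-/

set_option autoImplicit false

namespace Pool.Agent.Q48.RD

open Filter Finset Polynomial
open Pool.Agent.Q315.RD
open Pool.Agent.W123.RU.Poly

/-- the factors of one prime -/
lemma one_prime {p k c1 ν ν' b : ℕ} (hp2 : 2 ≤ p) (hν : ν < p) (hν1 : ν ≤ c1) (hc1 : 1 ≤ c1) (hk : k * ν ≤ ν' + c1 * b) :
    1 - (ν' : ℝ) / p ≤ (if p < 2 * c1 then (2 * c1 : ℝ) ^ k else 1) * ((1 - (ν : ℝ) / p) ^ k * (1 + 2 ^ k * c1 / p) ^ b) := by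
  have hp0 : (0 : ℝ) < p := by exact_mod_cast (by omega : 0 < p)
  have hc0 : (1 : ℝ) ≤ c1 := by exact_mod_cast hc1
  have hνp : (ν : ℝ) + 1 ≤ p := by exact_mod_cast hν
  have h1 : 1 / (p : ℝ) ≤ 1 - (ν : ℝ) / p := by
    rw [le_sub_iff_add_le, ← add_div, div_le_one hp0]
    linarith
  have h0 : 0 < 1 - (ν : ℝ) / p := lt_of_lt_of_le (by positivity) h1
  have hb : (1 : ℝ) ≤ (1 + 2 ^ k * c1 / p) ^ b := one_le_pow₀ (by
    have : (0 : ℝ) ≤ 2 ^ k * c1 / p := by positivity
    linarith)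
  have hν0 : 0 ≤ (ν' : ℝ) / p := by positivity
  split_ifs with hp
  · have h2 : (p : ℝ) ≤ 2 * c1 := by exact_mod_cast hp.le
    have h3 : 1 ≤ (2 * c1 : ℝ) ^ k * (1 - (ν : ℝ) / p) ^ k := by
      rw [← mul_pow]
      apply one_le_pow₀
      calc (1 : ℝ) = p * (1 / p) := by field_simp
        _ ≤ 2 * c1 * (1 - (ν : ℝ) / p) := by gcongr
    calc 1 - (ν' : ℝ) / p ≤ 1 * 1 := by linarith
      _ ≤ ((2 * c1 : ℝ) ^ k * (1 - (ν : ℝ) / p) ^ k) * (1 + 2 ^ k * c1 / p) ^ b := by gcongr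
      _ = _ := by ring
  · rw [one_mul]
    have h2 : (2 * c1 : ℝ) ≤ p := by exact_mod_cast (not_lt.1 hp)
    have hν2 : (ν : ℝ) ≤ c1 := by exact_mod_cast hν1
    have h3 : (1 / 2 : ℝ) ≤ 1 - (ν : ℝ) / p := by
      have : (ν : ℝ) / p ≤ 1 / 2 := by
        rw [div_le_iff₀ hp0]
        linarith
      linarith
    have h4 : (1 / 2 : ℝ) ^ k ≤ (1 - (ν : ℝ) / p) ^ k := by gcongr
    have h5 : 1 - (k : ℝ) * ((ν : ℝ) / p) ≤ (1 - (ν : ℝ) / p) ^ k := by
      have := one_add_mul_le_pow (a := -((ν : ℝ) / p)) (by linarith) k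
      calc 1 - (k : ℝ) * ((ν : ℝ) / p) = 1 + k * -((ν : ℝ) / p) := by ring
        _ ≤ (1 + -((ν : ℝ) / p)) ^ k := this
        _ = _ := by ring
    have h6 : (k : ℝ) * ν ≤ ν' + c1 * b := by exact_mod_cast hk
    have h7 : 1 - (ν' : ℝ) / p ≤ (1 - (ν : ℝ) / p) ^ k + c1 * b / p := by
      have h8 : (k : ℝ) * ν / p ≤ (ν' + c1 * b) / p := by gcongr
      rw [add_div] at h8
      have e : (k : ℝ) * ((ν : ℝ) / p) = k * ν / p := by ring
      rw [e] at h5
      linarith
    have h8 : (1 : ℝ) ≤ 2 ^ k * (1 - (ν : ℝ) / p) ^ k := by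
      calc (1 : ℝ) = 2 ^ k * (1 / 2) ^ k := by rw [← mul_pow]; norm_num
        _ ≤ _ := by gcongr
    have h9 := one_add_mul_le_pow (a := 2 ^ k * (c1 : ℝ) / p) (by
      have : (0 : ℝ) ≤ 2 ^ k * c1 / p := by positivity
      linarith) b
    have h10 : 0 ≤ (c1 : ℝ) * b / p := by positivity
    calc 1 - (ν' : ℝ) / p ≤ (1 - (ν : ℝ) / p) ^ k + c1 * b / p := h7
      _ ≤ (1 - (ν : ℝ) / p) ^ k + (2 ^ k * (1 - (ν : ℝ) / p) ^ k) * (c1 * b / p) := by
          have := mul_le_mul_of_nonneg_right h8 h10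
          linarith
      _ = (1 - (ν : ℝ) / p) ^ k * (1 + b * (2 ^ k * c1 / p)) := by ring
      _ ≤ _ := by gcongr

/-- the sieve product of a system of shifts -/
lemma density_shifts {l k : ℕ} (f : Fin l → ℤ[X]) (hf : Sys f) (c1 : ℕ) (hc1 : (∏ j, f j).natDegree + 1 ≤ c1)
    (J : Fin (l * k) → Fin l) (I : Fin (l * k) → Fin k) (hIJ : ∀ j : Fin l, (univ.filter fun u => J u = j).card = k)
    (h : Fin k → ℕ) (Δ : Fin (l * k) × Fin (l * k) → ℤ)
    (hΔ : ∀ x : Fin (l * k) × Fin (l * k), x.1 < x.2 → ∀ (p n : ℤ), p ∣ (f (J x.1)).eval (n + h (I x.1)) → p ∣ (f (J x.2)).eval (n + h (I x.2)) → p ∣ Δ x)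
    (y : ℕ) :
    rootDensity (fun n => ∏ u, ((f (J u)).comp (X + C ((h (I u) : ℕ) : ℤ))).eval (n : ℤ)) y ≤
      (2 * c1 : ℝ) ^ (k * (2 * c1)) * rootDensity (fun n => ∏ j, (f j).eval (n : ℤ)) y ^ k *
        ∏ x ∈ (univ : Finset (Fin (l * k) × Fin (l * k))).filter (fun x => x.1 < x.2), wt (2 ^ k * c1) y (Δ x) := by
  classical
  obtain ⟨R, hR⟩ : ∃ R : Finset (Fin (l * k) × Fin (l * k)), R = univ.filter (fun x => x.1 < x.2) := ⟨_, rfl⟩
  obtain ⟨b, hb⟩ : ∃ b : ℕ → ℕ, b = fun (p : ℕ) => (R.filter fun x => (p : ℤ) ∣ Δ x).card := ⟨_, rfl⟩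
  obtain ⟨ν, hν⟩ : ∃ ν : ℕ → ℕ, ν = fun p => classes p fun n => (p : ℤ) ∣ ∏ j, (f j).eval (n : ℤ) := ⟨_, rfl⟩
  obtain ⟨ν', hν'⟩ : ∃ ν' : ℕ → ℕ, ν' = fun p => classes p fun n => (p : ℤ) ∣ ∏ u, ((f (J u)).comp (X + C ((h (I u) : ℕ) : ℤ))).eval (n : ℤ) := ⟨_, rfl⟩
  have hc0 : (1 : ℝ) ≤ c1 := by exact_mod_cast (by omega : 1 ≤ c1)
  have heval : ∀ u (n : ℕ), ((f (J u)).comp (X + C ((h (I u) : ℕ) : ℤ))).eval (n : ℤ) = (f (J u)).eval ((n : ℤ) + h (I u)) := by
    intro u n
    rw [eval_comp, eval_add, eval_X, eval_C]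
  -- one prime
  have key : ∀ p : ℕ, p.Prime → ν p < p ∧ ν p ≤ c1 ∧ k * ν p ≤ ν' p + c1 * b p := by
    intro p hp
    have hpz := Nat.prime_iff_prime_int.1 hp
    have hne : ∃ t : ℤ, ¬ (p : ℤ) ∣ (∏ j, f j).eval t := by
      obtain ⟨m, hm⟩ := hf.adm p hp
      refine ⟨m, fun hd => ?_⟩
      rw [eval_prod] at hd
      obtain ⟨j, _, hj⟩ := (hpz.dvd_finsetProd_iff _).1 hd
      exact hm j hj
    have h1 := classes_poly (m := c1) (∏ j, f j) hp hne (by omega)
    simp only [eval_prod] at h1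
    have hνp : ν p = classes p fun n => (p : ℤ) ∣ ∏ j, (f j).eval (n : ℤ) := by rw [hν]
    rw [← hνp] at h1
    refine ⟨h1.2, h1.1, ?_⟩
    obtain ⟨Z, hZ⟩ : ∃ Z : Fin (l * k) → Finset ℕ, Z = fun u => (range p).filter fun n : ℕ => (p : ℤ) ∣ (f (J u)).eval ((n : ℤ) + h (I u)) := ⟨_, rfl⟩
    obtain ⟨Y, hY⟩ : ∃ Y : Fin l → Finset ℕ, Y = fun j => (range p).filter fun n : ℕ => (p : ℤ) ∣ (f j).eval (n : ℤ) := ⟨_, rfl⟩
    have hZY : ∀ u, (Z u).card = (Y (J u)).card := by
      intro u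
      have h2 := classes_shift p (h (I u)) (fun n => (p : ℤ) ∣ (f (J u)).eval (n : ℤ)) (fun n => by
        refine dvd_eval_iff _ ⟨1, ?_⟩
        push_cast
        ring)
      rw [classes_eq, classes_eq] at h2
      rw [hZ, hY]
      refine Eq.trans ?_ h2
      dsimp only
      congr 1
      ext n
      simp only [mem_filter]
      push_cast
      rw [add_comm ((h (I u) : ℕ) : ℤ)]
    have hYν : ν p ≤ ∑ j, (Y j).card := by
      rw [hνp, classes_eq]
      refine le_trans (card_le_card ?_) (card_biUnion_le (s := univ) (t := Y))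
      intro n hn
      rw [mem_filter] at hn
      obtain ⟨j, _, hj⟩ := (hpz.dvd_finsetProd_iff _).1 hn.2
      rw [mem_biUnion]
      refine ⟨j, mem_univ _, ?_⟩
      rw [hY]
      exact mem_filter.2 ⟨hn.1, hj⟩
    have hYc : ∀ j, (Y j).card ≤ c1 := by
      intro j
      refine le_trans ?_ h1.1
      rw [hνp, classes_eq, hY]
      apply card_le_card
      intro n hn
      rw [mem_filter] at hn ⊢
      exact ⟨hn.1, hn.2.trans (dvd_prod_of_mem (fun j => (f j).eval (n : ℤ)) (mem_univ j))⟩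
    have hsum : ∑ u, (Z u).card = k * ∑ j, (Y j).card := by
      simp only [hZY]
      rw [mul_sum, ← sum_fiberwise_of_maps_to (s := (univ : Finset (Fin (l * k)))) (t := (univ : Finset (Fin l))) (g := J) (fun _ _ => mem_univ _)]
      apply sum_congr rfl
      intro j _
      rw [sum_congr rfl (g := fun _ => (Y j).card) (fun u hu => by rw [(mem_filter.1 hu).2]), sum_const, smul_eq_mul, hIJ j]
    have hbonf := bonf Z univ
    have hbi : (univ.biUnion Z).card ≤ ν' p := by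
      rw [hν']
      dsimp only
      rw [classes_eq]
      apply card_le_card
      intro n hn
      rw [mem_biUnion] at hn
      obtain ⟨u, _, hu⟩ := hn
      rw [hZ] at hu
      rw [mem_filter] at hu ⊢
      refine ⟨hu.1, ?_⟩
      refine dvd_trans ?_ (dvd_prod_of_mem (fun u => ((f (J u)).comp (X + C ((h (I u) : ℕ) : ℤ))).eval (n : ℤ)) (mem_univ u))
      rw [heval]
      exact hu.2
    have hpairs : ∑ x ∈ (univ ×ˢ univ : Finset (Fin (l * k) × Fin (l * k))).filter (fun x => x.1 < x.2), (Z x.1 ∩ Z x.2).card ≤ c1 * b p := by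
      have e : (univ ×ˢ univ : Finset (Fin (l * k) × Fin (l * k))).filter (fun x => x.1 < x.2) = R := by
        rw [hR, univ_product_univ]
      rw [e]
      have h2 : ∀ x ∈ R, (Z x.1 ∩ Z x.2).card ≤ if (p : ℤ) ∣ Δ x then c1 else 0 := by
        intro x hx
        rw [hR, mem_filter] at hx
        split_ifs with hd
        · exact (card_le_card inter_subset_left).trans ((hZY _).le.trans (hYc _))
        · rw [Nat.le_zero, card_eq_zero]
          apply eq_empty_of_forall_notMem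
          intro n hn
          rw [mem_inter, hZ] at hn
          exact hd (hΔ x hx.2 p n (mem_filter.1 hn.1).2 (mem_filter.1 hn.2).2)
      refine (sum_le_sum h2).trans (le_of_eq ?_)
      rw [← sum_filter, sum_const, smul_eq_mul, hb]
      ring
    calc k * ν p ≤ k * ∑ j, (Y j).card := Nat.mul_le_mul_left _ hYν
      _ = ∑ u, (Z u).card := hsum.symm
      _ ≤ (univ.biUnion Z).card + ∑ x ∈ (univ ×ˢ univ : Finset (Fin (l * k) × Fin (l * k))).filter (fun x => x.1 < x.2), (Z x.1 ∩ Z x.2).card := hbonf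
      _ ≤ _ := Nat.add_le_add hbi hpairs
  obtain ⟨PP, hPP⟩ : ∃ PP : Finset ℕ, PP = (Icc 1 y).filter Nat.Prime := ⟨_, rfl⟩
  have hPPp : ∀ p ∈ PP, p.Prime := fun p hp => by rw [hPP, mem_filter] at hp; exact hp.2
  have h1 : rootDensity (fun n => ∏ u, ((f (J u)).comp (X + C ((h (I u) : ℕ) : ℤ))).eval (n : ℤ)) y ≤
      ∏ p ∈ PP, ((if p < 2 * c1 then (2 * c1 : ℝ) ^ k else 1) * ((1 - (ν p : ℝ) / p) ^ k * (1 + 2 ^ k * c1 / p) ^ b p)) := by
    unfold rootDensity
    rw [← hPP]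
    apply Finset.prod_le_prod
    · intro p hp
      have hp0 : (0 : ℝ) < p := by exact_mod_cast (hPPp p hp).pos
      rw [sub_nonneg, div_le_one hp0]
      apply Nat.cast_le.2
      rw [classes_eq]
      exact (card_filter_le _ _).trans (card_range p).le
    · intro p hp
      obtain ⟨k1, k2, k3⟩ := key p (hPPp p hp)
      have h2 := one_prime (hPPp p hp).two_le k1 k2 (by omega) k3
      have e : (ν' p : ℝ) = ((classes p fun n => (p : ℤ) ∣ ∏ u, ((f (J u)).comp (X + C ((h (I u) : ℕ) : ℤ))).eval (n : ℤ) : ℕ) : ℝ) := by rw [hν']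
      rwa [e] at h2
  refine h1.trans ?_
  rw [prod_mul_distrib, prod_mul_distrib, prod_pow]
  have h2 : ∏ p ∈ PP, (if p < 2 * c1 then (2 * c1 : ℝ) ^ k else 1) ≤ (2 * c1 : ℝ) ^ (k * (2 * c1)) := by
    rw [← prod_filter, prod_const, ← pow_mul]
    apply pow_le_pow_right₀ (by linarith)
    apply Nat.mul_le_mul_left
    calc (PP.filter fun p => p < 2 * c1).card ≤ (range (2 * c1)).card := card_le_card fun p hp => mem_range.2 (mem_filter.1 hp).2
      _ = _ := card_range _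
  have h3 : ∏ p ∈ PP, (1 - (ν p : ℝ) / p) = rootDensity (fun n => ∏ j, (f j).eval (n : ℤ)) y := by
    unfold rootDensity
    rw [← hPP, hν]
  have h4 : ∏ p ∈ PP, (1 + 2 ^ k * (c1 : ℝ) / p) ^ b p = ∏ x ∈ R, wt (2 ^ k * c1) y (Δ x) := by
    have e : ∀ x, wt (2 ^ k * c1) y (Δ x) = ∏ p ∈ PP, if (p : ℤ) ∣ Δ x then (1 + 2 ^ k * (c1 : ℝ) / p) else 1 := by
      intro x
      unfold wt
      rw [← hPP, prod_filter]
    simp only [e]
    rw [Finset.prod_comm]
    apply prod_congr rfl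
    intro p _
    rw [← prod_filter, prod_const, hb]
  rw [h3, h4, ← hR, ← mul_assoc]
  have h5 : 0 ≤ rootDensity (fun n => ∏ j, (f j).eval (n : ℤ)) y := by
    rw [← h3]
    apply prod_nonneg
    intro p hp
    have hp0 : (0 : ℝ) < p := by exact_mod_cast (hPPp p hp).pos
    rw [sub_nonneg, div_le_one hp0]
    exact Nat.cast_le.2 (key p (hPPp p hp)).1.le
  have h6 : 0 ≤ ∏ x ∈ R, wt (2 ^ k * c1) y (Δ x) := prod_nonneg fun x _ => by
    have := wt_ge_one (c := 2 ^ k * (c1 : ℝ)) (by positivity) y (Δ x)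
    linarith
  gcongr

/-- the collision polynomials -/
lemma collisions {l : ℕ} (f : Fin l → ℤ[X]) (hf : Sys f) (hnt : ∀ i j, i ≠ j → ∀ t : ℤ, f i ≠ (f j).comp (X + C t)) :
    ∃ R : Fin l → Fin l → ℤ[X], (∀ i j, R i j ≠ 0) ∧ (∀ i j, ∀ t : ℤ, (i ≠ j ∨ t ≠ 0) → (R i j).eval t ≠ 0) ∧
      ∀ i j, ∀ (t x p : ℤ), p ∣ (f i).eval x → p ∣ (f j).eval (x + t) → p ∣ (R i j).eval t := by
  classical
  choose R hR1 hR2 using fun i j : Fin l => ncolR (f i) (f j) (hf.irr i) (hf.irr j) (hf.deg i) (hf.deg j)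
    (hf.lead i) (hf.lead j)
  have h1 : ∀ i j, ∀ t : ℤ, (i ≠ j ∨ t ≠ 0) → (R i j).eval t ≠ 0 := by
    intro i j t h
    apply hR1
    rcases eq_or_ne i j with hij | hij
    · have ht : t ≠ 0 := by
        rcases h with h | h
        · exact absurd hij h
        · exact h
      intro h2
      rw [hij] at h2
      apply Pool.Agent.H474R2.PG.ncol_not_periodic ((f j).map (Int.castRingHom ℚ)) _ (t : ℚ) (by exact_mod_cast ht)
      · have := congrArg (Polynomial.map (Int.castRingHom ℚ)) h2.symm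
        rw [Polynomial.map_comp] at this
        simpa using this
      · rw [natDegree_map_eq_of_injective (RingHom.injective_int _)]
        exact hf.deg j
    · exact hnt i j hij t
  refine ⟨R, fun i j h0 => h1 i j 1 (Or.inr one_ne_zero) (by rw [h0, eval_zero]), h1, hR2⟩

/-- **Upper bound on average over all tuples of different shifts, for a system of polynomials.** -/
theorem polyMean {l : ℕ} (f : Fin l → ℤ[X]) (hf : Sys f) (hnt : ∀ i j, i ≠ j → ∀ t : ℤ, f i ≠ (f j).comp (X + C t))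
    (F : Fin l → ℕ → ℕ) (n₀ : ℕ) (hF : ∀ (j : Fin l) (n : ℕ), n₀ ≤ n → (f j).eval (n : ℤ) = F j n) (k E : ℕ) :
    ∃ c : ℝ, 0 < c ∧ ∃ r₀ : ℕ, 2 ≤ r₀ ∧ ∀ r : ℕ, r₀ ≤ r → ∀ g : ℕ, 2 ≤ g → ∃ C : ℝ, 0 < C ∧
      ∀ᶠ K : ℕ in atTop, ∀ N T : ℕ, n₀ ≤ N → N ≤ g ^ (E * K) → 1 ≤ T → T ≤ g ^ (E * K) → ∀ A : ℕ → Finset ℕ, Rich c g K A →
        ∑ h ∈ (Fintype.piFinset fun _ : Fin k => Icc 1 T).filter Function.Injective,
          (count g K A (fun t => ∀ i j, AlmostPrime (g ^ K) r (F j (N + t + h i))) : ℝ) ≤ C * (T / (K : ℝ) ^ l) ^ k * choices K A := by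
  classical
  choose B hB using fun j => Pool.Agent.Q315.RD.eval_bound (f j)
  obtain ⟨δ, hδ⟩ : ∃ δ, ∀ j, (f j).natDegree ≤ δ :=
    ⟨∑ j, (f j).natDegree, fun j => single_le_sum (f := fun j => (f j).natDegree) (fun _ _ => Nat.zero_le _) (mem_univ j)⟩
  obtain ⟨B0, hB0⟩ : ∃ B0, ∀ j, B j ≤ B0 :=
    ⟨∑ j, B j, fun j => single_le_sum (f := B) (fun _ _ => Nat.zero_le _) (mem_univ j)⟩
  obtain ⟨c1, hc1⟩ : ∃ c1 : ℕ, c1 = (∏ j, f j).natDegree + 1 := ⟨_, rfl⟩
  obtain ⟨Rc, hRc0, hRc1, hRc2⟩ := collisions f hf hnt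
  obtain ⟨J, hJ⟩ : ∃ J : Fin (l * k) → Fin l, J = fun u => (finProdFinEquiv.symm u).1 := ⟨_, rfl⟩
  obtain ⟨I, hI⟩ : ∃ I : Fin (l * k) → Fin k, I = fun u => (finProdFinEquiv.symm u).2 := ⟨_, rfl⟩
  have hIJu : ∀ u v : Fin (l * k), I u = I v → J u = J v → u = v := by
    intro u v h1 h2
    rw [hI] at h1
    rw [hJ] at h2
    exact finProdFinEquiv.symm.injective (Prod.ext h2 h1)
  have hIJ : ∀ j : Fin l, (univ.filter fun u => J u = j).card = k := by
    intro j
    have h1 : (univ.filter fun u => J u = j) = univ.image fun i : Fin k => finProdFinEquiv (j, i) := by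
      ext u
      simp only [mem_filter, mem_univ, true_and, mem_image]
      constructor
      · intro h
        refine ⟨I u, ?_⟩
        rw [← h, hI, hJ]
        exact finProdFinEquiv.apply_symm_apply u
      · rintro ⟨i, hi⟩
        rw [← hi, hJ]
        simp
    rw [h1, card_image_of_injective _ (fun i i' h => by simpa using h), card_univ, Fintype.card_fin]
  obtain ⟨R, hR⟩ : ∃ R : Finset (Fin (l * k) × Fin (l * k)), R = univ.filter (fun x => x.1 < x.2) := ⟨_, rfl⟩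
  obtain ⟨c', hc', hwt⟩ := wt_pow (2 ^ k * c1) (by positivity) R.card
  choose Zf hZf0 hZf using fun x : Fin (l * k) × Fin (l * k) => avgPoly (Rc (J x.1) (J x.2)) (hRc0 _ _) c' hc'
  obtain ⟨Z, hZ⟩ : ∃ Z : ℝ, Z = ∑ x, Zf x := ⟨_, rfl⟩
  have hZx : ∀ x, Zf x ≤ Z := by
    intro x
    rw [hZ]
    exact single_le_sum (f := Zf) (fun y _ => (hZf0 y).le) (mem_univ x)
  have hZ0 : 0 ≤ Z := by
    rw [hZ]
    exact sum_nonneg fun y _ => (hZf0 y).le
  obtain ⟨c2, hc2, r2, hr2, H2⟩ := famR (l * k) δ (1 + (E + 3) * δ)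
  refine ⟨c2, hc2, r2, hr2, fun r hr g hg => ?_⟩
  obtain ⟨κ2, C2, hκ2, hC2, H2⟩ := H2 r hr g hg
  obtain ⟨w, W, hw, hW, HO⟩ := order f hf g hg
  obtain ⟨Q, hQ⟩ : ∃ Q : ℝ, Q = (2 * c1 : ℝ) ^ (k * (2 * c1)) := ⟨_, rfl⟩
  have hQ0 : 0 < Q := by
    rw [hQ, hc1]
    positivity
  refine ⟨C2 * (Q * W ^ k) * (1 + R.card * Z), by positivity, ?_⟩
  filter_upwards [H2, HO, eventually_ge_atTop (B0 + 3), eventually_ge_atTop ((l * k * c1) * r + 1)] with K K2 KO hK1 hK2
  intro N T hn0 hN hT1 hT A hA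
  have hKr : (0 : ℝ) < K := by exact_mod_cast (by omega : 0 < K)
  have hg1 : 1 ≤ g := by omega
  have hcs : (0 : ℝ) ≤ choices K A := Nat.cast_nonneg _
  have hTr : (1 : ℝ) ≤ T := by exact_mod_cast hT1
  obtain ⟨P, hP⟩ : ∃ P : Finset (Fin k → ℕ), P = Fintype.piFinset (fun _ : Fin k => Icc 1 T) := ⟨_, rfl⟩
  rw [← hP]
  have hmem : ∀ h : Fin k → ℕ, h ∈ P ↔ ∀ a, h a ∈ Icc 1 T := by
    intro h
    rw [hP, Fintype.mem_piFinset]
  -- the averaged quantities
  obtain ⟨G, hG⟩ : ∃ G : Fin (l * k) × Fin (l * k) → ℕ → ℕ → ℝ, G = fun x (u v : ℕ) =>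
    if (Rc (J x.1) (J x.2)).eval ((v : ℤ) - u) = 0 then (0 : ℝ) else wt c' (g ^ K) ((Rc (J x.1) (J x.2)).eval ((v : ℤ) - u)) := ⟨_, rfl⟩
  have hG0 : ∀ x u v, 0 ≤ G x u v := by
    intro x u v
    rw [hG]
    dsimp only
    split_ifs
    · exact le_rfl
    · have := wt_ge_one hc' (g ^ K) ((Rc (J x.1) (J x.2)).eval ((v : ℤ) - u))
      linarith
  have hone_h : ∀ h ∈ P.filter Function.Injective, (count g K A (fun t => ∀ i j, AlmostPrime (g ^ K) r (F j (N + t + h i))) : ℝ) ≤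
      C2 * (Q * (W / (K : ℝ) ^ l) ^ k) * choices K A * (1 + ∑ x ∈ R, G x (h (I x.1)) (h (I x.2))) := by
    intro h hh
    rw [mem_filter, hmem] at hh
    obtain ⟨hh, hinj⟩ := hh
    have hrhs : 0 ≤ C2 * (Q * (W / (K : ℝ) ^ l) ^ k) * choices K A * (1 + ∑ x ∈ R, G x (h (I x.1)) (h (I x.2))) := by
      have : 0 ≤ ∑ x ∈ R, G x (h (I x.1)) (h (I x.2)) := sum_nonneg fun _ _ => hG0 _ _ _
      positivity
    obtain ⟨Pu, hPu⟩ : ∃ Pu : Fin (l * k) → ℤ[X], Pu = fun u => (f (J u)).comp (X + Polynomial.C ((h (I u) : ℕ) : ℤ)) := ⟨_, rfl⟩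
    have hPev : ∀ u (n : ℤ), (Pu u).eval n = (f (J u)).eval (n + h (I u)) := by
      intro u n
      rw [hPu]
      simp only [eval_comp, eval_add, eval_X, eval_C]
    have hev : ∀ u (t : ℕ), (Pu u).eval ((N : ℤ) + t) = (F (J u) (N + t + h (I u)) : ℤ) := by
      intro u t
      rw [hPev, ← hF (J u) _ (by omega)]
      push_cast
      rfl
    have hcm : count g K A (fun t => ∀ i j, AlmostPrime (g ^ K) r (F j (N + t + h i))) ≤
        count g K A (fun t => ∀ u : Fin (l * k), AlmostPrime (g ^ K) r (F (J u) (N + t + h (I u)))) :=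
      count_mono fun t _ hP u => hP _ _
    refine (Nat.cast_le.2 hcm).trans ?_
    by_cases hadm : ∀ p : ℕ, p.Prime → ∃ t : ℤ, ∀ u, ¬ (p : ℤ) ∣ (Pu u).eval t
    · have h4 := (K2 Pu (fun u => by
          rw [hPu]
          dsimp only
          rw [natDegree_comp, natDegree_X_add_C, mul_one]
          exact hδ _) hadm N (fun t ht u => by
          rw [hev, Int.natAbs_natCast]
          have h5 := hB (J u) (N + t + h (I u))
          rw [hF (J u) _ (by omega), Int.natAbs_natCast] at h5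
          have h6 := (mem_Icc.1 (hh (I u))).2.trans hT
          have h7 : N + t + h (I u) + 1 ≤ g ^ ((E + 3) * K) := by
            calc N + t + h (I u) + 1 ≤ g ^ (E * K) + g ^ K + g ^ (E * K) := by omega
              _ ≤ g ^ ((E + 1) * K) + g ^ ((E + 1) * K) + g ^ ((E + 1) * K) := by
                  apply Nat.add_le_add (Nat.add_le_add _ _) <;> exact Nat.pow_le_pow_right hg1 (by nlinarith)
              _ = 3 * g ^ ((E + 1) * K) := by ring
              _ ≤ g ^ (2 * K) * g ^ ((E + 1) * K) := by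
                  apply Nat.mul_le_mul_right
                  calc 3 ≤ 2 ^ 2 := by norm_num
                    _ ≤ 2 ^ (2 * K) := Nat.pow_le_pow_right (by norm_num) (by omega)
                    _ ≤ g ^ (2 * K) := Nat.pow_le_pow_left hg _
              _ = g ^ ((E + 3) * K) := by rw [← pow_add]; congr 1; ring
          have hBK : B (J u) ≤ g ^ K := by
            calc B (J u) ≤ K := by have := hB0 (J u); omega
              _ ≤ 2 ^ K := (Nat.lt_two_pow_self).le
              _ ≤ g ^ K := Nat.pow_le_pow_left hg K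
          calc F (J u) (N + t + h (I u)) ≤ B (J u) * (N + t + h (I u) + 1) ^ (f (J u)).natDegree := h5
            _ ≤ g ^ K * (g ^ ((E + 3) * K)) ^ δ :=
                Nat.mul_le_mul hBK ((Nat.pow_le_pow_left h7 _).trans (Nat.pow_le_pow_right (Nat.one_le_pow _ _ hg1) (hδ _)))
            _ = g ^ ((1 + (E + 3) * δ) * K) := by
                rw [← pow_mul, ← pow_add]; congr 1; ring) A hA).2
      have h5 : count g K A (fun t => ∀ u : Fin (l * k), AlmostPrime (g ^ K) r (F (J u) (N + t + h (I u)))) ≤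
          count g K A (fun t => ∀ u, RoughAt r t ((Pu u).eval ((N : ℤ) + t)).natAbs) :=
        count_mono fun t ht hP u => by
          rw [hev, Int.natAbs_natCast]
          exact roughAt_of (hP u) ht.le
      refine (Nat.cast_le.2 h5).trans (h4.trans ?_)
      have h6 := density_shifts f hf c1 (by omega) J I hIJ h
        (fun x => (Rc (J x.1) (J x.2)).eval ((h (I x.2) : ℤ) - h (I x.1))) (fun x _ p n h7 h8 => by
          refine hRc2 (J x.1) (J x.2) ((h (I x.2) : ℤ) - h (I x.1)) (n + h (I x.1)) p h7 ?_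
          have e : n + (h (I x.1) : ℤ) + ((h (I x.2) : ℤ) - h (I x.1)) = n + h (I x.2) := by ring
          rwa [e]) (g ^ K)
      rw [← hQ, ← hR] at h6
      have h7 : ∏ x ∈ R, wt (2 ^ k * c1) (g ^ K) ((Rc (J x.1) (J x.2)).eval ((h (I x.2) : ℤ) - h (I x.1))) ≤
          1 + ∑ x ∈ R, G x (h (I x.1)) (h (I x.2)) := by
        have h8 := prod_le_sum_pow R (fun x => wt (2 ^ k * c1) (g ^ K) ((Rc (J x.1) (J x.2)).eval ((h (I x.2) : ℤ) - h (I x.1))))
          (fun x _ => by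
            have := wt_ge_one (c := 2 ^ k * (c1 : ℝ)) (by positivity) (g ^ K) ((Rc (J x.1) (J x.2)).eval ((h (I x.2) : ℤ) - h (I x.1)))
            linarith)
        refine h8.trans ?_
        apply add_le_add_right
        apply sum_le_sum
        intro x hx
        rw [hR, mem_filter] at hx
        rw [hG]
        dsimp only
        rw [if_neg]
        · exact hwt _ _
        · apply hRc1
          by_cases hJx : J x.1 = J x.2
          · right
            have hIx : I x.1 ≠ I x.2 := fun h9 => hx.2.ne (hIJu _ _ h9 hJx)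
            have h9 : h (I x.1) ≠ h (I x.2) := fun h10 => hIx (hinj h10)
            omega
          · exact Or.inl hJx
      have h8 : 0 ≤ rootDensity (fun n => ∏ j, (f j).eval (n : ℤ)) (g ^ K) := le_trans (by positivity) KO.1
      have hP' : rootDensity (fun n => ∏ u, (Pu u).eval (n : ℤ)) (g ^ K) ≤ Q * (W / (K : ℝ) ^ l) ^ k * (1 + ∑ x ∈ R, G x (h (I x.1)) (h (I x.2))) := by
        rw [hPu]
        refine h6.trans ?_
        have h9 : 0 ≤ ∏ x ∈ R, wt (2 ^ k * c1) (g ^ K) ((Rc (J x.1) (J x.2)).eval ((h (I x.2) : ℤ) - h (I x.1))) :=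
          prod_nonneg fun x _ => by
            have := wt_ge_one (c := 2 ^ k * (c1 : ℝ)) (by positivity) (g ^ K) ((Rc (J x.1) (J x.2)).eval ((h (I x.2) : ℤ) - h (I x.1)))
            linarith
        apply mul_le_mul _ h7 h9 (by positivity)
        apply mul_le_mul_of_nonneg_left _ hQ0.le
        exact pow_le_pow_left₀ h8 KO.2 k
      calc C2 * rootDensity (fun n => ∏ u, (Pu u).eval (n : ℤ)) (g ^ K) * choices K A
          ≤ C2 * (Q * (W / (K : ℝ) ^ l) ^ k * (1 + ∑ x ∈ R, G x (h (I x.1)) (h (I x.2)))) * choices K A := by gcongr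
        _ = _ := by ring
    · -- a fixed prime divisor
      push Not at hadm
      obtain ⟨p, hp, hdiv⟩ := hadm
      have hpz := Nat.prime_iff_prime_int.1 hp
      have hpk : p ≤ l * k * c1 := by
        by_contra hlt
        push Not at hlt
        have h1 : ∀ u, (classes p fun n => (p : ℤ) ∣ (Pu u).eval (n : ℤ)) ≤ c1 := by
          intro u
          have hne : ∃ t : ℤ, ¬ (p : ℤ) ∣ (Pu u).eval t := by
            obtain ⟨m, hm⟩ := hf.adm p hp
            refine ⟨(m : ℤ) - h (I u), ?_⟩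
            rw [hPev, sub_add_cancel]
            exact hm (J u)
          refine (classes_poly (m := c1) (Pu u) hp hne ?_).1
          rw [hPu]
          dsimp only
          rw [natDegree_comp, natDegree_X_add_C, mul_one, hc1]
          have h2 : (f (J u)).natDegree ≤ (∏ j, f j).natDegree := by
            rw [natDegree_prod _ _ (fun j _ => (hf.irr j).ne_zero)]
            exact single_le_sum (f := fun j => (f j).natDegree) (fun _ _ => Nat.zero_le _) (mem_univ (J u))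
          omega
        have h2 : (range p).card ≤ ∑ u : Fin (l * k), c1 := by
          calc (range p).card ≤ (univ.biUnion fun u : Fin (l * k) => (range p).filter fun n : ℕ => (p : ℤ) ∣ (Pu u).eval (n : ℤ)).card := by
                apply card_le_card
                intro n hn
                obtain ⟨u, hu⟩ := hdiv n
                exact mem_biUnion.2 ⟨u, mem_univ _, mem_filter.2 ⟨hn, hu⟩⟩
            _ ≤ ∑ u : Fin (l * k), ((range p).filter fun n : ℕ => (p : ℤ) ∣ (Pu u).eval (n : ℤ)).card := card_biUnion_le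
            _ ≤ _ := sum_le_sum fun u _ => by
                have := h1 u
                rwa [classes_eq] at this
        rw [card_range, sum_const, card_univ, Fintype.card_fin, smul_eq_mul] at h2
        omega
      have h0 : count g K A (fun t => ∀ u : Fin (l * k), AlmostPrime (g ^ K) r (F (J u) (N + t + h (I u)))) = 0 := by
        apply count_zero
        intro t ht hP
        obtain ⟨u, hu⟩ := hdiv ((N : ℤ) + t)
        rw [hev] at hu
        have h2 := (hP u).1 p hp (Int.natCast_dvd_natCast.1 hu)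
        have h3 : p ^ r ≤ g ^ K := by
          calc p ^ r ≤ (2 ^ (l * k * c1)) ^ r := Nat.pow_le_pow_left (hpk.trans (Nat.lt_two_pow_self).le) r
            _ = 2 ^ ((l * k * c1) * r) := by rw [← pow_mul]
            _ ≤ 2 ^ K := Nat.pow_le_pow_right (by norm_num) (by omega)
            _ ≤ g ^ K := Nat.pow_le_pow_left hg K
        omega
      rw [h0, Nat.cast_zero]
      exact hrhs
  have hcardP : (P.card : ℝ) = (T : ℝ) ^ k := by
    rw [hP, Fintype.card_piFinset, prod_const, card_univ, Fintype.card_fin, Nat.card_Icc, Nat.add_sub_cancel]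
    push_cast
    rfl
  have hpairs : ∀ x ∈ R, ∑ h ∈ P, G x (h (I x.1)) (h (I x.2)) ≤ (T : ℝ) ^ k * Z := by
    intro x hx
    rw [hR, mem_filter] at hx
    by_cases hIx : I x.1 = I x.2
    · -- the same shift
      have h1 : ∀ h ∈ P, G x (h (I x.1)) (h (I x.2)) ≤ Z := by
        intro h _
        refine le_trans ?_ (hZx x)
        have h2 := hZf x 1 1 (g ^ K) le_rfl le_rfl
        simp only [Icc_self, sum_singleton, Nat.cast_one, mul_one, sub_self] at h2
        refine le_trans (le_of_eq ?_) h2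
        rw [hG]
        dsimp only
        rw [hIx, sub_self]
      refine (sum_le_sum h1).trans (le_of_eq ?_)
      rw [sum_const, nsmul_eq_mul, hcardP]
    · have hrow : ∀ u ∈ Icc 1 T, ∑ v ∈ Icc 1 T, G x u v ≤ Z * T := by
        intro u hu
        rw [mem_Icc] at hu
        have h3 := hZf x T u (g ^ K) hT1 hu.2
        rw [hG]
        refine h3.trans ?_
        have := hZx x
        gcongr
      have h5 := sum_two_coord T (I x.1) (I x.2) hIx (G x) (Z * T) hrow
      rw [← hP] at h5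
      have h6 : (T : ℝ) * ∑ h ∈ P, G x (h (I x.1)) (h (I x.2)) ≤ (T : ℝ) * ((T : ℝ) ^ k * Z) := by
        refine h5.trans (le_of_eq ?_)
        ring
      exact le_of_mul_le_mul_left h6 (by linarith)
  have hc0 : 0 ≤ C2 * (Q * (W / (K : ℝ) ^ l) ^ k) * choices K A := by positivity
  calc ∑ h ∈ P.filter Function.Injective, (count g K A (fun t => ∀ i j, AlmostPrime (g ^ K) r (F j (N + t + h i))) : ℝ)
      ≤ ∑ h ∈ P.filter Function.Injective, C2 * (Q * (W / (K : ℝ) ^ l) ^ k) * choices K A * (1 + ∑ x ∈ R, G x (h (I x.1)) (h (I x.2))) :=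
        sum_le_sum hone_h
    _ ≤ ∑ h ∈ P, C2 * (Q * (W / (K : ℝ) ^ l) ^ k) * choices K A * (1 + ∑ x ∈ R, G x (h (I x.1)) (h (I x.2))) := by
        apply sum_le_sum_of_subset_of_nonneg (filter_subset _ _)
        intro h _ _
        have : 0 ≤ ∑ x ∈ R, G x (h (I x.1)) (h (I x.2)) := sum_nonneg fun _ _ => hG0 _ _ _
        positivity
    _ = C2 * (Q * (W / (K : ℝ) ^ l) ^ k) * choices K A * ((T : ℝ) ^ k + ∑ x ∈ R, ∑ h ∈ P, G x (h (I x.1)) (h (I x.2))) := by
        rw [← mul_sum, sum_add_distrib, sum_const, nsmul_eq_mul, mul_one, hcardP, sum_comm]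
    _ ≤ C2 * (Q * (W / (K : ℝ) ^ l) ^ k) * choices K A * ((T : ℝ) ^ k + R.card * ((T : ℝ) ^ k * Z)) := by
        apply mul_le_mul_of_nonneg_left _ hc0
        apply add_le_add_right
        refine (sum_le_sum hpairs).trans (le_of_eq ?_)
        rw [sum_const, nsmul_eq_mul]
    _ = _ := by
        rw [div_pow, div_pow]
        ring

end Pool.Agent.Q48.RD
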