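import Pool.Agent.Q48.RD.PMean

/-!
# All moments of the number of prime and almost prime values of systems of polynomials in short intervals
-/

set_option autoImplicit false

namespace Pool.Agent.Q48.RD

open Filter Finset Polynomial
open Pool.Agent.Q315.RD
open Pool.Agent.W123.RU.Poly

/-- the hypothesis on averages over tuples of shifts -/
def MeanHyp (l n₀ E : ℕ) (PA : ℕ → ℕ → ℕ → ℕ → Prop) (k : ℕ) : Prop :=
    ∃ c : ℝ, 0 < c ∧ ∃ r₀ : ℕ, 2 ≤ r₀ ∧ ∀ r : ℕ, r₀ ≤ r → ∀ g : ℕ, 2 ≤ g → ∃ C : ℝ, 0 < C ∧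
      ∀ᶠ K : ℕ in atTop, ∀ N T : ℕ, n₀ ≤ N → N ≤ g ^ (E * K) → 1 ≤ T → T ≤ g ^ (E * K) → ∀ A : ℕ → Finset ℕ, Rich c g K A →
        ∑ h ∈ (Fintype.piFinset fun _ : Fin k => Icc 1 T).filter Function.Injective,
          (count g K A (fun t => ∀ i, PA g K r (N + t + h i)) : ℝ) ≤ C * (T / (K : ℝ) ^ l) ^ k * choices K A

/-- the hypothesis on the first moment -/
def FirstHyp (l n₀ E : ℕ) (PA : ℕ → ℕ → ℕ → ℕ → Prop) : Prop :=
    ∃ c : ℝ, 0 < c ∧ ∃ r₀ : ℕ, 2 ≤ r₀ ∧ ∀ r : ℕ, r₀ ≤ r → ∀ g : ℕ, 2 ≤ g → ∃ κ : ℝ, 0 < κ ∧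
      ∀ᶠ K : ℕ in atTop, ∀ N T : ℕ, n₀ ≤ N → N ≤ g ^ (E * K) → g ≤ T → T ≤ g ^ (E * K) → ∀ A : ℕ → Finset ℕ, Rich c g K A →
        κ * (T / (K : ℝ) ^ l) * choices K A ≤ ∑ t ∈ digitSet g K A, (numIn (PA g K r) (N + t) T : ℝ)

/-- the upper bounds for the moments -/
theorem genUpper {l n₀ E : ℕ} {PA : ℕ → ℕ → ℕ → ℕ → Prop} (H : ∀ k, MeanHyp l n₀ E PA k) (k : ℕ) (hk : 1 ≤ k) :
    ∃ c : ℝ, 0 < c ∧ ∃ r₀ : ℕ, 2 ≤ r₀ ∧ ∀ r : ℕ, r₀ ≤ r → ∀ g : ℕ, 2 ≤ g → ∃ C : ℝ, 0 < C ∧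
      ∀ᶠ K : ℕ in atTop, ∀ N T : ℕ, n₀ ≤ N → N ≤ g ^ (E * K) → 1 ≤ T → T ≤ g ^ (E * K) → ∀ A : ℕ → Finset ℕ, Rich c g K A →
        ∑ t ∈ digitSet g K A, (numIn (PA g K r) (N + t) T : ℝ) ^ k ≤
          C * (min 1 ((T : ℝ) / (K : ℝ) ^ l) * max 1 ((T : ℝ) / (K : ℝ) ^ l) ^ k) * choices K A := by
  classical
  obtain ⟨c1, hc1, r1, hr1, H1⟩ := H 1
  obtain ⟨c2, hc2, r2, hr2, H2⟩ := H k
  refine ⟨min c1 c2, lt_min hc1 hc2, max r1 r2, by omega, fun r hr g hg => ?_⟩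
  obtain ⟨C1, hC1, H1⟩ := H1 r (by omega) g hg
  obtain ⟨C2, hC2, H2⟩ := H2 r (by omega) g hg
  refine ⟨(k : ℝ) ^ k * (C1 + C2), by
    have : (0 : ℝ) < k := by exact_mod_cast (by omega : 0 < k)
    positivity, ?_⟩
  filter_upwards [H1, H2, eventually_ge_atTop 1] with K K1 K2 hK1
  intro N T hn0 hN hT1 hT A hA
  have hKr : (0 : ℝ) < K := by exact_mod_cast (by omega : 0 < K)
  have hTr : (0 : ℝ) < T := by exact_mod_cast (by omega : 0 < T)
  have hrich : ∀ c' : ℝ, min c1 c2 ≤ c' → Rich c' g K A := fun c' hc' => ⟨hA.1, hA.2.trans (by gcongr)⟩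
  have hcs : (0 : ℝ) ≤ choices K A := Nat.cast_nonneg _
  have h1 := K1 N T hn0 hN hT1 hT A (hrich c1 (min_le_left _ _))
  have h2 := K2 N T hn0 hN hT1 hT A (hrich c2 (min_le_right _ _))
  obtain ⟨X, hX⟩ : ∃ X : ℕ → ℕ, X = fun t => numIn (PA g K r) (N + t) T := ⟨_, rfl⟩
  have h3 : (∑ t ∈ digitSet g K A, ((X t).descFactorial 1 : ℝ)) ≤ C1 * (T / (K : ℝ) ^ l) ^ 1 * choices K A := by
    refine le_trans ?_ h1
    rw [hX]
    exact_mod_cast desc_sum_num g K A N T 1 (PA g K r)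
  have h4 : (∑ t ∈ digitSet g K A, ((X t).descFactorial k : ℝ)) ≤ C2 * (T / (K : ℝ) ^ l) ^ k * choices K A := by
    refine le_trans ?_ h2
    rw [hX]
    exact_mod_cast desc_sum_num g K A N T k (PA g K r)
  obtain ⟨u, hu⟩ : ∃ u : ℝ, u = (T : ℝ) / (K : ℝ) ^ l := ⟨_, rfl⟩
  have hu0 : 0 < u := by rw [hu]; positivity
  rw [← hu] at h3 h4 ⊢
  obtain ⟨hm1, hm2⟩ := min_max_one hu0 k hk
  obtain ⟨M, hM⟩ : ∃ M : ℝ, M = min 1 u * max 1 u ^ k := ⟨_, rfl⟩
  rw [← hM] at hm1 hm2 ⊢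
  have e : ∀ t, (numIn (PA g K r) (N + t) T : ℝ) = (X t : ℝ) := by
    intro t
    rw [hX]
  simp only [e]
  calc ∑ t ∈ digitSet g K A, (X t : ℝ) ^ k
      ≤ ∑ t ∈ digitSet g K A, (k : ℝ) ^ k * (((X t).descFactorial 1 : ℝ) + ((X t).descFactorial k : ℝ)) := by
        apply sum_le_sum
        intro t _
        rw [Nat.descFactorial_one]
        exact_mod_cast pow_le_desc (X t) k hk
    _ = (k : ℝ) ^ k * (∑ t ∈ digitSet g K A, ((X t).descFactorial 1 : ℝ) + ∑ t ∈ digitSet g K A, ((X t).descFactorial k : ℝ)) := by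
        rw [← mul_sum, sum_add_distrib]
    _ ≤ (k : ℝ) ^ k * (C1 * u ^ 1 * choices K A + C2 * u ^ k * choices K A) := by
        gcongr
    _ ≤ (k : ℝ) ^ k * (C1 * M * choices K A + C2 * M * choices K A) := by
        rw [pow_one]
        gcongr
    _ = _ := by ring

/-- **All moments.** -/
theorem genMoments {l n₀ E : ℕ} {PA : ℕ → ℕ → ℕ → ℕ → Prop} {PP : ℕ → Prop} (H : ∀ k, MeanHyp l n₀ E PA k) (HF : FirstHyp l n₀ E PA)
    (HP : ∃ r₀ : ℕ, ∀ r : ℕ, r₀ ≤ r → ∀ g : ℕ, 2 ≤ g → ∀ᶠ K : ℕ in atTop, ∀ n : ℕ, n₀ ≤ n → g ^ (K / 3) < n → PP n → PA g K r n) (k : ℕ) (hk : 1 ≤ k) :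
    ∃ c : ℝ, 0 < c ∧ ∃ r₀ : ℕ, 2 ≤ r₀ ∧ ∀ r : ℕ, r₀ ≤ r → ∀ g : ℕ, 2 ≤ g → ∃ κ C : ℝ, 0 < κ ∧ 0 < C ∧
      ∀ᶠ K : ℕ in atTop, ∀ N T : ℕ, n₀ ≤ N → N ≤ g ^ (E * K) → 1 ≤ T → T ≤ g ^ (E * K) → ∀ A : ℕ → Finset ℕ, Rich c g K A →
        ∑ t ∈ digitSet g K A, (numIn PP (N + t) T : ℝ) ^ k ≤
          C * (min 1 ((T : ℝ) / (K : ℝ) ^ l) * max 1 ((T : ℝ) / (K : ℝ) ^ l) ^ k) * choices K A ∧
        ∑ t ∈ digitSet g K A, (numIn (PA g K r) (N + t) T : ℝ) ^ k ≤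
          C * (min 1 ((T : ℝ) / (K : ℝ) ^ l) * max 1 ((T : ℝ) / (K : ℝ) ^ l) ^ k) * choices K A ∧
        (g ≤ T → κ * (min 1 ((T : ℝ) / (K : ℝ) ^ l) * max 1 ((T : ℝ) / (K : ℝ) ^ l) ^ k) * choices K A ≤
            ∑ t ∈ digitSet g K A, (numIn (PA g K r) (N + t) T : ℝ) ^ k ∧
          κ * min 1 ((T : ℝ) / (K : ℝ) ^ l) * choices K A ≤
            count g K A (fun t => κ * max 1 ((T : ℝ) / (K : ℝ) ^ l) ≤ numIn (PA g K r) (N + t) T)) := by
  classical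
  obtain ⟨c1, hc1, r1, hr1, H1⟩ := genUpper H k hk
  obtain ⟨c2, hc2, r2, hr2, H2⟩ := genUpper H 2 (by norm_num)
  obtain ⟨c3, hc3, r3, hr3, H3⟩ := HF
  obtain ⟨r4, H4⟩ := HP
  refine ⟨min (min c1 (min c2 c3)) (1 / 8), by positivity, max (max (max r1 r2) r3) r4, by omega, fun r hr g hg => ?_⟩
  obtain ⟨C1, hC1, H1⟩ := H1 r (by omega) g hg
  obtain ⟨C2, hC2, H2⟩ := H2 r (by omega) g hg
  obtain ⟨κ3, hκ3, H3⟩ := H3 r (by omega) g hg
  obtain ⟨κ, hκd⟩ : ∃ κ : ℝ, κ = min (min 1 (κ3 / 2)) (κ3 ^ 2 / (4 * C2)) := ⟨_, rfl⟩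
  have hκ : 0 < κ := by rw [hκd]; positivity
  refine ⟨min κ (κ * κ ^ k), C1 + 1, lt_min hκ (by positivity), by linarith, ?_⟩
  filter_upwards [H1, H2, H3, H4 r (by omega) g hg, pow_small' (l * k), small_part 1 one_pos g hg, eventually_ge_atTop 24] with K K1 K2 K3 K4 KP KS hKD
  intro N T hn0 hN hT1 hT A hA
  have hrich : ∀ c' : ℝ, min (min c1 (min c2 c3)) (1 / 8) ≤ c' → Rich c' g K A := fun c' hc' => ⟨hA.1, hA.2.trans (by gcongr)⟩
  have hcs : (0 : ℝ) ≤ choices K A := Nat.cast_nonneg _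
  have hKr : (0 : ℝ) < K := by exact_mod_cast (by omega : 0 < K)
  have hTr : (0 : ℝ) < T := by exact_mod_cast (by omega : 0 < T)
  have hg1 : (1 : ℝ) ≤ g := by exact_mod_cast (by omega : 1 ≤ g)
  obtain ⟨u, hu⟩ : ∃ u : ℝ, u = (T : ℝ) / (K : ℝ) ^ l := ⟨_, rfl⟩
  have hu0 : 0 < u := by rw [hu]; positivity
  have h1 := K1 N T hn0 hN hT1 hT A (hrich c1 ((min_le_left _ _).trans (min_le_left _ _)))
  have h2 := K2 N T hn0 hN hT1 hT A (hrich c2 ((min_le_left _ _).trans ((min_le_right _ _).trans (min_le_left _ _))))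
  rw [← hu] at h1 h2 ⊢
  obtain ⟨M, hM⟩ : ∃ M : ℝ, M = min 1 u * max 1 u ^ k := ⟨_, rfl⟩
  have hM0 : 0 ≤ M := by rw [hM]; positivity
  rw [← hM] at h1 ⊢
  refine ⟨?_, ?_, fun hgT => ?_⟩
  · -- the small `t` contribute very little
    have hsmall : (g : ℝ) ^ (K / 3) * (T : ℝ) ^ k ≤ M * choices K A := by
      have hS := KS A (hrich (1 / 8) (min_le_right _ _))
      rw [one_mul] at hS
      have h3 : (K : ℝ) ^ (l * k) * (g : ℝ) ^ (K / 3) ≤ choices K A := by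
        calc (K : ℝ) ^ (l * k) * (g : ℝ) ^ (K / 3) ≤ 2 ^ (K / 8) * (g : ℝ) ^ (K / 3) := by gcongr
          _ ≤ (g : ℝ) ^ (K / 8) * (g : ℝ) ^ (K / 3) := by
              gcongr
              exact_mod_cast hg
          _ = (g : ℝ) ^ (K / 8 + K / 3) := (pow_add _ _ _).symm
          _ ≤ (g : ℝ) ^ (K / 2) := pow_le_pow_right₀ hg1 (by omega)
          _ ≤ _ := hS
      have h4 := (min_max_one hu0 k hk).2
      rw [← hM] at h4
      calc (g : ℝ) ^ (K / 3) * (T : ℝ) ^ k = u ^ k * ((K : ℝ) ^ (l * k) * (g : ℝ) ^ (K / 3)) := by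
            rw [hu, div_pow, ← pow_mul]; field_simp
        _ ≤ M * choices K A := by gcongr
    have hsplit : ∀ t ∈ digitSet g K A, (numIn PP (N + t) T : ℝ) ^ k ≤
        (if t < g ^ (K / 3) then (T : ℝ) ^ k else 0) + (numIn (PA g K r) (N + t) T : ℝ) ^ k := by
      intro t _
      split_ifs with ht
      · have h3 : (numIn PP (N + t) T : ℝ) ^ k ≤ (T : ℝ) ^ k := by
          have := numIn_le PP (N + t) T
          gcongr
        have h4 : (0 : ℝ) ≤ (numIn (PA g K r) (N + t) T : ℝ) ^ k := by positivity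
        linarith
      · rw [zero_add]
        have h3 : numIn PP (N + t) T ≤ numIn (PA g K r) (N + t) T := by
          apply numIn_mono
          intro n hn hP
          exact K4 n (by omega) (by omega) hP
        gcongr
    refine (sum_le_sum hsplit).trans ?_
    rw [sum_add_distrib]
    have h5 : ∑ t ∈ digitSet g K A, (if t < g ^ (K / 3) then (T : ℝ) ^ k else 0) ≤ (g : ℝ) ^ (K / 3) * (T : ℝ) ^ k := by
      rw [← sum_filter, sum_const, nsmul_eq_mul]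
      apply mul_le_mul_of_nonneg_right _ (by positivity)
      have h6 : (filter (fun t => t < g ^ (K / 3)) (digitSet g K A)).card ≤ (range (g ^ (K / 3))).card := by
        apply card_le_card
        intro t ht
        exact mem_range.2 (mem_filter.1 ht).2
      rw [card_range] at h6
      exact_mod_cast h6
    calc _ ≤ M * choices K A + C1 * M * choices K A := add_le_add (h5.trans hsmall) h1
      _ = _ := by ring
  · refine h1.trans ?_
    gcongr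
    linarith
  · have h3 := K3 N T hn0 hN hgT hT A (hrich c3 ((min_le_left _ _).trans ((min_le_right _ _).trans (min_le_right _ _))))
    rw [← hu] at h3
    have h4 := large_values (digitSet g K A) (fun t => numIn (PA g K r) (N + t) T) u κ3 C2 (choices K A)
      hu0 hκ3 hC2 hcs (by
        rw [← card_digits (by omega) hA.1]
        apply Nat.cast_le.2
        unfold digitSet
        exact card_le_card (by intro t ht; convert ht)) h3 h2
    rw [← hκd] at h4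
    obtain ⟨m, hm⟩ : ∃ m : ℝ, m = max 1 u := ⟨_, rfl⟩
    have hm0 : 0 < m := by rw [hm]; exact lt_of_lt_of_le one_pos (le_max_left _ _)
    have hmin0 : 0 ≤ min 1 u := by positivity
    rw [← hm] at h4 hM ⊢
    constructor
    · have h5 : ((((digitSet g K A).filter fun t => κ * m ≤ (numIn (PA g K r) (N + t) T : ℝ)).card : ℝ)) * (κ * m) ^ k ≤
          ∑ t ∈ digitSet g K A, (numIn (PA g K r) (N + t) T : ℝ) ^ k := by
        rw [← nsmul_eq_mul, ← sum_const]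
        refine le_trans (sum_le_sum (g := fun t => (numIn (PA g K r) (N + t) T : ℝ) ^ k) fun t ht => ?_) ?_
        · exact pow_le_pow_left₀ (by positivity) (mem_filter.1 ht).2 k
        · exact sum_le_sum_of_subset_of_nonneg (filter_subset _ _) fun _ _ _ => by positivity
      refine le_trans ?_ h5
      calc min κ (κ * κ ^ k) * M * choices K A ≤ κ * κ ^ k * M * choices K A := by
            gcongr
            exact min_le_right _ _
        _ = (κ * min 1 u * choices K A) * (κ * m) ^ k := by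
            rw [hM, mul_pow]; ring
        _ ≤ _ := mul_le_mul_of_nonneg_right h4 (by positivity)
    · refine le_trans ?_ (h4.trans (Nat.cast_le.2 ?_))
      · gcongr
        exact min_le_left _ _
      · unfold count digitSet
        apply card_le_card
        intro t ht
        rw [mem_filter, mem_filter] at ht
        refine mem_filter.2 ⟨ht.1.1, ht.1.2, le_trans ?_ ht.2⟩
        gcongr
        exact min_le_left _ _

/-- one class modulo `g` in which all the values are prime to `g` -/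
lemma exists_class_poly {l : ℕ} (f : Fin l → ℤ[X]) (hf : Sys f) (g : ℕ) (hg : 2 ≤ g) :
    ∃ x0 : ℕ, ∀ n : ℕ, n ≡ x0 [MOD g] → ∀ j, ∀ m : ℕ, (f j).eval (n : ℤ) = m → m.Coprime g := by
  classical
  have h1 : ∀ p : ℕ, ∃ n : ℕ, p.Prime → ∀ j, ¬ (p : ℤ) ∣ (f j).eval (n : ℤ) := by
    intro p
    by_cases hp : p.Prime
    · obtain ⟨z, hz⟩ := hf.adm p hp
      exact ⟨z, fun _ => hz⟩
    · exact ⟨0, fun h => absurd h hp⟩
  choose n hn using h1
  obtain ⟨x0, hx0⟩ := Nat.chineseRemainderOfFinset n (fun p => p) g.primeFactors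
    (fun p hp => (Nat.prime_of_mem_primeFactors hp).ne_zero)
    (fun p hp q hq hpq => (Nat.coprime_primes (Nat.prime_of_mem_primeFactors (mem_coe.1 hp)) (Nat.prime_of_mem_primeFactors (mem_coe.1 hq))).2 hpq)
  refine ⟨x0, fun x hx j m hm => ?_⟩
  apply Nat.coprime_of_dvd
  intro p hp h2 h3
  have hpm : p ∈ g.primeFactors := Nat.mem_primeFactors.2 ⟨hp, h3, by omega⟩
  have h4 : x ≡ n p [MOD p] := (hx.of_dvd h3).trans (hx0 p hpm)
  apply hn p hp j
  have h5 : (p : ℤ) ∣ (f j).eval (x : ℤ) := by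
    rw [hm]; exact_mod_cast h2
  have h6 : (p : ℤ) ∣ (n p : ℤ) - x := (Nat.modEq_iff_dvd.1 h4)
  exact (dvd_eval_iff (f j) h6).2 h5

/-- the lower bound for the first moment, polynomials -/
theorem polyFirst {l : ℕ} (f : Fin l → ℤ[X]) (hf : Sys f)
    (F : Fin l → ℕ → ℕ) (n₀ : ℕ) (hF : ∀ (j : Fin l) (n : ℕ), n₀ ≤ n → (f j).eval (n : ℤ) = F j n) (E : ℕ) :
    FirstHyp l n₀ E (fun g K r n => ∀ j, AlmostPrime (g ^ K) r (F j n)) := by
  classical
  obtain ⟨c1, hc1, r1, hr1, H1⟩ := fixN f hf F n₀ hF (E + 1)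
  refine ⟨c1, hc1, r1, hr1, fun r hr g hg => ?_⟩
  obtain ⟨κ1, C1, hκ1, hC1, H1⟩ := H1 r hr g hg
  obtain ⟨x0, hx0⟩ := exists_class_poly f hf g hg
  have hg0 : (0 : ℝ) < g := by exact_mod_cast (by omega : 0 < g)
  refine ⟨κ1 / (2 * g), by positivity, ?_⟩
  filter_upwards [H1, eventually_ge_atTop 1] with K K1 hK1
  intro N T hn0 hN hgT hT A hA
  have hKr : (0 : ℝ) < K := by exact_mod_cast (by omega : 0 < K)
  have hg1 : 1 ≤ g := by omega
  have hcs : (0 : ℝ) ≤ choices K A := Nat.cast_nonneg _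
  have hA0 : (A 0).Nonempty := by
    rw [← card_pos, Nat.pos_iff_ne_zero]
    intro h0
    have h2 : choices K A = 0 := prod_eq_zero (mem_range.2 (by omega : 0 < K)) h0
    have h1 := hA.2
    rw [h2, Nat.cast_zero, mul_zero] at h1
    have : (0 : ℝ) < (g : ℝ) ^ K := by positivity
    linarith
  obtain ⟨d, hd⟩ := hA0
  have e0 : ∑ t ∈ digitSet g K A, (numIn (fun n => ∀ j, AlmostPrime (g ^ K) r (F j n)) (N + t) T : ℝ) =
      ∑ h ∈ Icc 1 T, (count g K A (fun t => ∀ j, AlmostPrime (g ^ K) r (F j (N + t + h))) : ℝ) := by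
    have := sum_num g K A N T (fun n => ∀ j, AlmostPrime (g ^ K) r (F j n))
    exact_mod_cast this.symm
  rw [e0]
  calc κ1 / (2 * g) * (T / (K : ℝ) ^ l) * choices K A = T / (2 * g) * (κ1 * choices K A / (K : ℝ) ^ l) := by field_simp
    _ ≤ (((Icc 1 T).filter fun h => (N + d) + h ≡ x0 [MOD g]).card : ℝ) * (κ1 * choices K A / (K : ℝ) ^ l) :=
        mul_le_mul_of_nonneg_right (class_many hg hgT) (by positivity)
    _ = ∑ h ∈ (Icc 1 T).filter fun h => (N + d) + h ≡ x0 [MOD g], κ1 * choices K A / (K : ℝ) ^ l := by rw [sum_const, nsmul_eq_mul]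
    _ ≤ ∑ h ∈ (Icc 1 T).filter fun h => (N + d) + h ≡ x0 [MOD g],
          (count g K A (fun t => ∀ j, AlmostPrime (g ^ K) r (F j (N + t + h))) : ℝ) := by
        apply sum_le_sum
        intro h hh
        rw [mem_filter, mem_Icc] at hh
        have h4 := (K1 (N + h) (by omega) (by
          have h1 := hh.1.2
          have e : g ^ ((E + 1) * K) = g ^ K * g ^ (E * K) := by rw [← pow_add]; congr 1; ring
          have h2 : 2 ≤ g ^ K := hg.trans (Nat.le_self_pow (by omega) g)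
          calc N + h ≤ 2 * g ^ (E * K) := by omega
            _ ≤ g ^ K * g ^ (E * K) := Nat.mul_le_mul_right _ h2
            _ = _ := e.symm) A hA).1 ⟨d, hd, fun j => by
          refine hx0 _ ?_ j _ (hF j (N + h + d) (by omega))
          have e : N + h + d = N + d + h := by ring
          rw [e]
          exact hh.2⟩
        refine h4.trans (Nat.cast_le.2 (count_mono fun t _ hP j => ?_))
        have e : N + t + h = N + h + t := by ring
        rw [e]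
        exact hP j
    _ ≤ _ := sum_le_sum_of_subset_of_nonneg (filter_subset _ _) fun _ _ _ => Nat.cast_nonneg _

/-- **All moments of the number of prime and almost prime values of a system of polynomials in short intervals.** -/
theorem polyMoments {l : ℕ} (f : Fin l → ℤ[X]) (hf : Sys f) (hnt : ∀ i j, i ≠ j → ∀ t : ℤ, f i ≠ (f j).comp (X + C t))
    (F : Fin l → ℕ → ℕ) (n₀ : ℕ) (hF : ∀ (j : Fin l) (n : ℕ), n₀ ≤ n → (f j).eval (n : ℤ) = F j n)
    (hlarge : ∀ (j : Fin l) (n : ℕ), n₀ ≤ n → n ≤ 2 * F j n) (k : ℕ) (hk : 1 ≤ k) (E : ℕ) :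
    ∃ c : ℝ, 0 < c ∧ ∃ r₀ : ℕ, 2 ≤ r₀ ∧ ∀ r : ℕ, r₀ ≤ r → ∀ g : ℕ, 2 ≤ g → ∃ κ C : ℝ, 0 < κ ∧ 0 < C ∧
      ∀ᶠ K : ℕ in atTop, ∀ N T : ℕ, n₀ ≤ N → N ≤ g ^ (E * K) → 1 ≤ T → T ≤ g ^ (E * K) → ∀ A : ℕ → Finset ℕ, Rich c g K A →
        ∑ t ∈ digitSet g K A, (numIn (fun n => ∀ j, (F j n).Prime) (N + t) T : ℝ) ^ k ≤
          C * (min 1 ((T : ℝ) / (K : ℝ) ^ l) * max 1 ((T : ℝ) / (K : ℝ) ^ l) ^ k) * choices K A ∧
        ∑ t ∈ digitSet g K A, (numIn (fun n => ∀ j, AlmostPrime (g ^ K) r (F j n)) (N + t) T : ℝ) ^ k ≤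
          C * (min 1 ((T : ℝ) / (K : ℝ) ^ l) * max 1 ((T : ℝ) / (K : ℝ) ^ l) ^ k) * choices K A ∧
        (g ≤ T → κ * (min 1 ((T : ℝ) / (K : ℝ) ^ l) * max 1 ((T : ℝ) / (K : ℝ) ^ l) ^ k) * choices K A ≤
            ∑ t ∈ digitSet g K A, (numIn (fun n => ∀ j, AlmostPrime (g ^ K) r (F j n)) (N + t) T : ℝ) ^ k ∧
          κ * min 1 ((T : ℝ) / (K : ℝ) ^ l) * choices K A ≤
            count g K A (fun t => κ * max 1 ((T : ℝ) / (K : ℝ) ^ l) ≤ numIn (fun n => ∀ j, AlmostPrime (g ^ K) r (F j n)) (N + t) T)) :=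
  genMoments (PA := fun g K r n => ∀ j, AlmostPrime (g ^ K) r (F j n)) (PP := fun n => ∀ j, (F j n).Prime)
    (fun k => polyMean f hf hnt F n₀ hF k E) (polyFirst f hf F n₀ hF E)
    ⟨5, fun r hr g hg => by
      filter_upwards [eventually_ge_atTop 24] with K hK
      intro n hn0 hn hP j
      have h1 : g ^ (K / 4) < F j n := by
        have h2 := hlarge j n hn0
        have h3 : 2 * g ^ (K / 4) ≤ g ^ (K / 3) := by
          calc 2 * g ^ (K / 4) ≤ g * g ^ (K / 4) := Nat.mul_le_mul_right _ hg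
            _ = g ^ (K / 4 + 1) := by rw [pow_succ]; ring
            _ ≤ g ^ (K / 3) := Nat.pow_le_pow_right (by omega) (by omega)
        omega
      exact prime_almost' hg hr (by omega) le_rfl (hP j) h1⟩ k hk

end Pool.Agent.Q48.RD
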