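import Pool.Agent.Q48.RD.Joint4
import Pool.Agent.Q48.RD.PMom

/-!
# Joint moments: the deductions for finite sets, and sieve products of shifts
-/

set_option autoImplicit false

namespace Pool.Agent.Q48.RD

open Filter Finset Polynomial
open Pool.Agent.Q315.RD
open Pool.Agent.W123.RU.Poly

/-- from the mixed factorial moments to the product of the `k`-th powers -/
lemma prod_pow_le {l : ℕ} (S : Finset ℕ) (X : Fin l → ℕ → ℕ) (k : ℕ) (hk : 1 ≤ k) (u n : ℝ) (hu : 0 < u) (hn : 0 ≤ n)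
    (Cp : (Fin l → Bool) → ℝ) (hC : ∀ p, 0 ≤ Cp p)
    (H : ∀ p : Fin l → Bool, ∑ t ∈ S, ∏ i, ((X i t).descFactorial (if p i then 1 else k) : ℝ) ≤ Cp p * u ^ (∑ i, if p i then 1 else k) * n) :
    ∑ t ∈ S, ∏ i, (X i t : ℝ) ^ k ≤ (((k : ℝ) ^ k) ^ l * ∑ p, Cp p) * (min 1 u * max 1 u ^ k) ^ l * n := by
  classical
  obtain ⟨hm1, hm2⟩ := min_max_one hu k hk
  obtain ⟨M, hM⟩ : ∃ M : ℝ, M = min 1 u * max 1 u ^ k := ⟨_, rfl⟩
  rw [← hM] at hm1 hm2 ⊢
  have hpat : ∀ p : Fin l → Bool, ∑ t ∈ S, ∏ i, ((X i t).descFactorial (if p i then 1 else k) : ℝ) ≤ Cp p * M ^ l * n := by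
    intro p
    refine (H p).trans ?_
    apply mul_le_mul_of_nonneg_right _ hn
    apply mul_le_mul_of_nonneg_left _ (hC p)
    rw [← prod_pow_eq_pow_sum]
    calc ∏ i, u ^ (if p i then 1 else k) ≤ ∏ _i : Fin l, M := by
          apply Finset.prod_le_prod (fun i _ => by positivity)
          intro i _
          split_ifs
          · rw [pow_one]; exact hm1
          · exact hm2
      _ = M ^ l := by rw [prod_const, card_univ, Fintype.card_fin]
  have hpt : ∀ t, ∏ i, (X i t : ℝ) ^ k ≤ ((k : ℝ) ^ k) ^ l * ∑ p : Fin l → Bool, ∏ i, ((X i t).descFactorial (if p i then 1 else k) : ℝ) := by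
    intro t
    have h1 : ∀ i, (X i t : ℝ) ^ k ≤ (k : ℝ) ^ k * ∑ s : Bool, ((X i t).descFactorial (if s then 1 else k) : ℝ) := by
      intro i
      rw [Fintype.sum_bool]
      simp only [if_true, Bool.false_eq_true, if_false, Nat.descFactorial_one]
      exact_mod_cast pow_le_desc (X i t) k hk
    calc ∏ i, (X i t : ℝ) ^ k ≤ ∏ i, ((k : ℝ) ^ k * ∑ s : Bool, ((X i t).descFactorial (if s then 1 else k) : ℝ)) :=
          Finset.prod_le_prod (fun i _ => by positivity) fun i _ => h1 i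
      _ = ((k : ℝ) ^ k) ^ l * ∏ i, ∑ s : Bool, ((X i t).descFactorial (if s then 1 else k) : ℝ) := by
          rw [prod_mul_distrib, prod_const, card_univ, Fintype.card_fin]
      _ = _ := by
          congr 1
          rw [Finset.prod_univ_sum]
          rw [Fintype.piFinset_univ]
  calc ∑ t ∈ S, ∏ i, (X i t : ℝ) ^ k
      ≤ ∑ t ∈ S, ((k : ℝ) ^ k) ^ l * ∑ p : Fin l → Bool, ∏ i, ((X i t).descFactorial (if p i then 1 else k) : ℝ) :=
        sum_le_sum fun t _ => hpt t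
    _ = ((k : ℝ) ^ k) ^ l * ∑ p : Fin l → Bool, ∑ t ∈ S, ∏ i, ((X i t).descFactorial (if p i then 1 else k) : ℝ) := by
        rw [← mul_sum, sum_comm]
    _ ≤ ((k : ℝ) ^ k) ^ l * ∑ p : Fin l → Bool, Cp p * M ^ l * n := by
        apply mul_le_mul_of_nonneg_left _ (by positivity)
        exact sum_le_sum fun p _ => hpat p
    _ = _ := by
        rw [← sum_mul, ← sum_mul]; ring

/-- from the joint first and second moments to many `t` for which all the numbers are large -/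
lemma joint_large {l : ℕ} (κ3 C2 : ℝ) (Cs : Fin l → ℝ) (hκ3 : 0 < κ3) (hC2 : 0 < C2) (hCs : ∀ j, 0 < Cs j) :
    ∃ κ : ℝ, 0 < κ ∧ κ ≤ 1 ∧ ∀ (S : Finset ℕ) (X : Fin l → ℕ → ℕ) (u n : ℝ), 0 < u → 0 ≤ n → (S.card : ℝ) ≤ n →
      κ3 * u ^ l * n ≤ ∑ t ∈ S, ∏ i, (X i t : ℝ) →
      ∑ t ∈ S, ∏ i, (X i t : ℝ) ^ 2 ≤ C2 * (min 1 u * max 1 u ^ 2) ^ l * n →
      (∀ j, ∑ t ∈ S, (X j t : ℝ) ^ 2 ≤ Cs j * (min 1 u * max 1 u ^ 2) * n) →
      κ * min 1 u ^ l * n ≤ ((S.filter fun t => ∀ i, κ * max 1 u ≤ (X i t : ℝ)).card : ℝ) := by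
  classical
  obtain ⟨κ', hκ'd⟩ : ∃ κ' : ℝ, κ' = min (min 1 (κ3 / 2)) (κ3 ^ 2 / (4 * C2)) := ⟨_, rfl⟩
  have hκ' : 0 < κ' := by rw [hκ'd]; positivity
  have hκ'1 : κ' ≤ 1 := by rw [hκ'd]; exact (min_le_left _ _).trans (min_le_left _ _)
  obtain ⟨Ct, hCt⟩ : ∃ Ct : ℝ, Ct = ∑ j, Cs j := ⟨_, rfl⟩
  have hCt0 : 0 ≤ Ct := by rw [hCt]; exact sum_nonneg fun j _ => (hCs j).le
  obtain ⟨lam, hlam⟩ : ∃ lam : ℝ, lam = 1 + 2 * Ct / κ' := ⟨_, rfl⟩
  have hlam1 : 1 ≤ lam := by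
    rw [hlam]
    have : 0 ≤ 2 * Ct / κ' := by positivity
    linarith
  have hlam2 : Ct / lam ^ 2 ≤ κ' / 2 := by
    have h1 : 2 * Ct / κ' ≤ lam ^ 2 := by
      have h2 : 2 * Ct / κ' ≤ lam := by rw [hlam]; linarith
      have h3 : lam ≤ lam ^ 2 := by nlinarith
      linarith
    rw [div_le_iff₀ (by positivity)]
    rw [div_le_iff₀ hκ'] at h1
    linarith
  obtain ⟨κ, hκd⟩ : ∃ κ : ℝ, κ = min (κ' / 2) (κ' / lam ^ l) := ⟨_, rfl⟩
  have hκ : 0 < κ := by rw [hκd]; positivity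
  have hκκ' : κ ≤ κ' / 2 := by rw [hκd]; exact min_le_left _ _
  have hκlam : κ ≤ κ' / lam ^ l := by rw [hκd]; exact min_le_right _ _
  refine ⟨κ, hκ, by linarith, ?_⟩
  intro S X u n hu0 hn hcard h3 h2 hsing
  obtain ⟨Y, hY⟩ : ∃ Y : ℕ → ℕ, Y = fun t => ∏ i, X i t := ⟨_, rfl⟩
  have hYr : ∀ t, (Y t : ℝ) = ∏ i, (X i t : ℝ) := by
    intro t
    rw [hY]
    push_cast
    rfl
  have h4 := large_values S Y (u ^ l) κ3 C2 n (by positivity) hκ3 hC2 hn hcard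
    (by simp only [hYr]; exact h3)
    (by
      have e1 : ∀ t, (Y t : ℝ) ^ 2 = ∏ i, (X i t : ℝ) ^ 2 := by
        intro t
        rw [hYr, prod_pow]
      simp only [e1]
      refine h2.trans (le_of_eq ?_)
      rw [min_pow_one hu0, max_pow_one hu0, mul_pow]
      ring)
  rw [← hκ'd, min_pow_one hu0, max_pow_one hu0] at h4
  rcases le_total 1 u with hu1 | hu1
  · rw [min_eq_left hu1, max_eq_right hu1, one_pow, mul_one] at h4 ⊢
    obtain ⟨G, hGd⟩ : ∃ G : Finset ℕ, G = S.filter fun t => κ' * u ^ l ≤ (Y t : ℝ) := ⟨_, rfl⟩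
    rw [← hGd] at h4
    obtain ⟨Bd, hBd⟩ : ∃ Bd : Fin l → Finset ℕ, Bd = fun j => S.filter fun t => lam * u < (X j t : ℝ) := ⟨_, rfl⟩
    have hBcard : ∀ j, ((Bd j).card : ℝ) ≤ Cs j / lam ^ 2 * n := by
      intro j
      have h5 := hsing j
      rw [min_eq_left hu1, max_eq_right hu1, one_mul] at h5
      have h6 : ((Bd j).card : ℝ) * (lam * u) ^ 2 ≤ ∑ t ∈ S, (X j t : ℝ) ^ 2 := by
        rw [← nsmul_eq_mul, ← sum_const]
        refine le_trans (sum_le_sum (g := fun t => (X j t : ℝ) ^ 2) fun t ht => ?_) ?_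
        · rw [hBd] at ht
          exact pow_le_pow_left₀ (by positivity) (mem_filter.1 ht).2.le 2
        · apply sum_le_sum_of_subset_of_nonneg
          · rw [hBd]
            exact filter_subset _ _
          · intro _ _ _
            positivity
      have h7 : ((Bd j).card : ℝ) * lam ^ 2 * u ^ 2 ≤ Cs j * n * u ^ 2 := by
        calc ((Bd j).card : ℝ) * lam ^ 2 * u ^ 2 = ((Bd j).card : ℝ) * (lam * u) ^ 2 := by ring
          _ ≤ _ := h6
          _ ≤ _ := h5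
          _ = _ := by ring
      have h8 := le_of_mul_le_mul_right h7 (by positivity)
      rw [div_mul_eq_mul_div, le_div_iff₀ (by positivity)]
      exact h8
    have hBsum : ((univ.biUnion Bd).card : ℝ) ≤ κ' / 2 * n := by
      calc ((univ.biUnion Bd).card : ℝ) ≤ ∑ j, ((Bd j).card : ℝ) := by exact_mod_cast card_biUnion_le
        _ ≤ ∑ j, Cs j / lam ^ 2 * n := sum_le_sum fun j _ => hBcard j
        _ = Ct / lam ^ 2 * n := by rw [← sum_mul, ← sum_div, hCt]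
        _ ≤ _ := mul_le_mul_of_nonneg_right hlam2 hn
    have hsub : G \ univ.biUnion Bd ⊆ S.filter fun t => ∀ i, κ * u ≤ (X i t : ℝ) := by
      intro t ht
      rw [Finset.mem_sdiff, hGd, mem_filter] at ht
      refine mem_filter.2 ⟨ht.1.1, fun i => ?_⟩
      have h5 : ∀ j, (X j t : ℝ) ≤ lam * u := by
        intro j
        by_contra hcon
        push Not at hcon
        apply ht.2
        rw [mem_biUnion]
        refine ⟨j, mem_univ j, ?_⟩
        rw [hBd]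
        exact mem_filter.2 ⟨ht.1.1, hcon⟩
      have h6 := factor_large (fun i => (X i t : ℝ)) (fun i => Nat.cast_nonneg _) κ' lam u hlam1 hu0 h5
        (by rw [← hYr]; exact ht.1.2) i
      refine le_trans ?_ h6
      gcongr
    have h5 : (G.card : ℝ) ≤ ((G \ univ.biUnion Bd).card : ℝ) + ((univ.biUnion Bd).card : ℝ) := by
      have := card_le_card_sdiff_add_card (s := G) (t := univ.biUnion Bd)
      exact_mod_cast this
    have h6 : ((G \ univ.biUnion Bd).card : ℝ) ≤ ((S.filter fun t => ∀ i, κ * u ≤ (X i t : ℝ)).card : ℝ) :=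
      Nat.cast_le.2 (card_le_card hsub)
    have h7 : κ * n ≤ κ' / 2 * n := mul_le_mul_of_nonneg_right hκκ' hn
    linarith
  · rw [min_eq_right hu1, max_eq_left hu1, one_pow, mul_one] at h4
    rw [min_eq_right hu1, max_eq_left hu1, mul_one]
    refine le_trans ?_ (h4.trans (Nat.cast_le.2 (card_le_card ?_)))
    · have : κ ≤ κ' := hκκ'.trans (by linarith)
      gcongr
    · intro t ht
      rw [mem_filter] at ht
      refine mem_filter.2 ⟨ht.1, fun i => ?_⟩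
      have h5 : 0 < (Y t : ℝ) := lt_of_lt_of_le hκ' ht.2
      have h6 : Y t ≠ 0 := by
        intro h0
        rw [h0, Nat.cast_zero] at h5
        exact lt_irrefl _ h5
      rw [hY] at h6
      have h7 : X i t ≠ 0 := fun h0 => h6 (prod_eq_zero (mem_univ i) h0)
      have h8 : (1 : ℝ) ≤ X i t := by exact_mod_cast Nat.one_le_iff_ne_zero.2 h7
      linarith

lemma pow_upper (l : ℕ) (x : ℝ) (hx : 0 ≤ x) (hx1 : x ≤ 1) : (1 - x) ^ l ≤ 1 - l * x + (l : ℝ) ^ 2 * x ^ 2 / 2 := by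
  induction l with
  | zero => simp
  | succ l ih =>
    have h1 : (1 - x) ^ (l + 1) ≤ (1 - l * x + (l : ℝ) ^ 2 * x ^ 2 / 2) * (1 - x) := by
      rw [pow_succ]
      exact mul_le_mul_of_nonneg_right ih (by linarith)
    refine h1.trans ?_
    push_cast
    have h2 : (0 : ℝ) ≤ (l : ℝ) ^ 2 * x ^ 3 / 2 := by positivity
    have h3 : (0 : ℝ) ≤ x ^ 2 := sq_nonneg x
    nlinarith

lemma one_shift {p l d ν ν' : ℕ} (hp2 : 2 ≤ p) (hν1 : ν ≤ d) (hν' : ν' < p) (hk : ν' ≤ l * ν) (hνp : ν ≤ p) :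
    (1 - (ν : ℝ) / p) ^ l ≤ (if p < 2 * (l * d) + 1 then ((2 * (l * d) + 1 : ℕ) : ℝ) else 1) *
      ((1 - (ν' : ℝ) / p) * (1 + ((l * d : ℕ) : ℝ) ^ 2 / (p : ℝ) ^ 2)) := by
  have hp0 : (0 : ℝ) < p := by exact_mod_cast (by omega : 0 < p)
  have hx0 : (0 : ℝ) ≤ (ν : ℝ) / p := by positivity
  have hx1 : (ν : ℝ) / p ≤ 1 := by
    rw [div_le_one hp0]
    exact_mod_cast hνp
  have h1 : 1 / (p : ℝ) ≤ 1 - (ν' : ℝ) / p := by
    rw [le_sub_iff_add_le, ← add_div, div_le_one hp0]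
    have : ν' + 1 ≤ p := hν'
    have h2 : (ν' : ℝ) + 1 ≤ p := by exact_mod_cast this
    linarith
  have hb : (1 : ℝ) ≤ 1 + ((l * d : ℕ) : ℝ) ^ 2 / (p : ℝ) ^ 2 := by
    have : (0 : ℝ) ≤ ((l * d : ℕ) : ℝ) ^ 2 / (p : ℝ) ^ 2 := by positivity
    linarith
  have h10 : (0 : ℝ) < 1 / p := by positivity
  split_ifs with hp
  · have h2 : (p : ℝ) ≤ ((2 * (l * d) + 1 : ℕ) : ℝ) := by exact_mod_cast hp.le
    calc (1 - (ν : ℝ) / p) ^ l ≤ 1 := pow_le_one₀ (by linarith) (by linarith)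
      _ = p * ((1 / p) * 1) := by field_simp
      _ ≤ ((2 * (l * d) + 1 : ℕ) : ℝ) * ((1 - (ν' : ℝ) / p) * (1 + ((l * d : ℕ) : ℝ) ^ 2 / (p : ℝ) ^ 2)) :=
          mul_le_mul h2 (mul_le_mul h1 hb (by norm_num) (by linarith)) (by positivity) (by positivity)
  · rw [one_mul]
    have h2 : ((2 * (l * d) : ℕ) : ℝ) ≤ p := by exact_mod_cast (by omega : 2 * (l * d) ≤ p)
    have h3 : (ν : ℝ) ≤ d := by exact_mod_cast hν1
    have h4 : (l : ℝ) * ((ν : ℝ) / p) ≤ 1 / 2 := by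
      rw [← mul_div_assoc, div_le_iff₀ hp0]
      push_cast at h2
      have : (l : ℝ) * ν ≤ l * d := by gcongr
      linarith
    have h5 : (ν' : ℝ) / p ≤ (l : ℝ) * ((ν : ℝ) / p) := by
      rw [← mul_div_assoc]
      apply div_le_div_of_nonneg_right _ hp0.le
      exact_mod_cast hk
    have h6 : ((l : ℝ) * ((ν : ℝ) / p)) ^ 2 ≤ ((l * d : ℕ) : ℝ) ^ 2 / (p : ℝ) ^ 2 := by
      rw [← mul_div_assoc, div_pow]
      apply div_le_div_of_nonneg_right _ (by positivity)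
      push_cast
      gcongr
    have h7 := pow_upper l ((ν : ℝ) / p) hx0 hx1
    calc (1 - (ν : ℝ) / p) ^ l ≤ 1 - l * ((ν : ℝ) / p) + (l : ℝ) ^ 2 * ((ν : ℝ) / p) ^ 2 / 2 := h7
      _ ≤ (1 - l * ((ν : ℝ) / p)) * (1 + ((l : ℝ) * ((ν : ℝ) / p)) ^ 2) := by
          nlinarith [sq_nonneg ((l : ℝ) * ((ν : ℝ) / p))]
      _ ≤ (1 - (ν' : ℝ) / p) * (1 + ((l * d : ℕ) : ℝ) ^ 2 / (p : ℝ) ^ 2) := by
          apply mul_le_mul
          · linarith
          · linarith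
          · positivity
          · linarith

/-- **The sieve products of several shifts of one polynomial** -/
lemma shifts_lower (f : ℤ[X]) (hf : Sys (fun _ : Fin 1 => f)) (l g : ℕ) (hg : 2 ≤ g) : ∃ v : ℝ, 0 < v ∧ ∀ᶠ K : ℕ in atTop,
    ∀ c : Fin l → ℕ, (∀ p : ℕ, p.Prime → ∃ t : ℤ, ∀ i, ¬ (p : ℤ) ∣ (f.comp (X + C ((c i : ℕ) : ℤ))).eval t) →
      v / (K : ℝ) ^ l ≤ rootDensity (fun n => ∏ i, (f.comp (X + C ((c i : ℕ) : ℤ))).eval (n : ℤ)) (g ^ K) := by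
  classical
  obtain ⟨w, W, hw, hW, HO⟩ := order _ hf g hg
  obtain ⟨d, hd⟩ : ∃ d : ℕ, d = f.natDegree := ⟨_, rfl⟩
  obtain ⟨Q, hQ⟩ : ∃ Q : ℝ, Q = ((2 * (l * d) + 1 : ℕ) : ℝ) ^ (2 * (l * d) + 1) * Real.exp (2 * ((l * d : ℕ) : ℝ) ^ 2) := ⟨_, rfl⟩
  have hQ0 : 0 < Q := by
    rw [hQ]
    have : (0 : ℝ) < ((2 * (l * d) + 1 : ℕ) : ℝ) := by exact_mod_cast (by omega : 0 < 2 * (l * d) + 1)
    positivity
  refine ⟨w ^ l / Q, by positivity, ?_⟩
  filter_upwards [HO, eventually_ge_atTop 1] with K KO hK1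
  intro c hadm
  have hKr : (0 : ℝ) < K := by exact_mod_cast (by omega : 0 < K)
  obtain ⟨ν, hν⟩ : ∃ ν : ℕ → ℕ, ν = fun p => classes p fun n => (p : ℤ) ∣ f.eval (n : ℤ) := ⟨_, rfl⟩
  obtain ⟨ν', hν'⟩ : ∃ ν' : ℕ → ℕ, ν' = fun p => classes p fun n => (p : ℤ) ∣ ∏ i, (f.comp (X + C ((c i : ℕ) : ℤ))).eval (n : ℤ) := ⟨_, rfl⟩
  have heval : ∀ i (n : ℕ), (f.comp (X + C ((c i : ℕ) : ℤ))).eval (n : ℤ) = f.eval ((n : ℤ) + c i) := by
    intro i n
    rw [eval_comp, eval_add, eval_X, eval_C]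
  have key : ∀ p : ℕ, p.Prime → ν p ≤ d ∧ ν' p < p ∧ ν' p ≤ l * ν p ∧ ν p ≤ p := by
    intro p hp
    have hpz := Nat.prime_iff_prime_int.1 hp
    have h1 := classes_poly (m := d) f hp (by
      obtain ⟨m, hm⟩ := hf.adm p hp
      exact ⟨m, hm 0⟩) hd.ge
    have h2 := classes_poly (m := (∏ i, f.comp (X + C ((c i : ℕ) : ℤ))).natDegree) (∏ i, f.comp (X + C ((c i : ℕ) : ℤ))) hp (by
      obtain ⟨t, ht⟩ := hadm p hp
      refine ⟨t, fun hdv => ?_⟩
      rw [eval_prod] at hdv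
      obtain ⟨j, _, hj⟩ := (hpz.dvd_finsetProd_iff _).1 hdv
      exact ht j hj) le_rfl
    simp only [eval_prod] at h2
    have e1 : ν p = classes p fun n => (p : ℤ) ∣ f.eval (n : ℤ) := by rw [hν]
    have e2 : ν' p = classes p fun n => (p : ℤ) ∣ ∏ i, (f.comp (X + C ((c i : ℕ) : ℤ))).eval (n : ℤ) := by rw [hν']
    refine ⟨by rw [e1]; exact h1.1, by rw [e2]; exact h2.2, ?_, by rw [e1]; exact h1.2.le⟩
    obtain ⟨Z, hZ⟩ : ∃ Z : Fin l → Finset ℕ, Z = fun i => (range p).filter fun n : ℕ => (p : ℤ) ∣ f.eval ((n : ℤ) + c i) := ⟨_, rfl⟩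
    have hZc : ∀ i, (Z i).card = ν p := by
      intro i
      have h3 := classes_shift p (c i) (fun n => (p : ℤ) ∣ f.eval (n : ℤ)) (fun n => by
        refine dvd_eval_iff _ ⟨1, ?_⟩
        push_cast
        ring)
      rw [classes_eq] at h3
      rw [e1, ← h3, hZ]
      dsimp only
      congr 1
      ext n
      simp only [mem_filter]
      push_cast
      rw [add_comm ((c i : ℕ) : ℤ)]
    rw [e2, classes_eq]
    calc ((range p).filter fun n : ℕ => (p : ℤ) ∣ ∏ i, (f.comp (X + C ((c i : ℕ) : ℤ))).eval (n : ℤ)).card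
        ≤ (univ.biUnion Z).card := by
          apply card_le_card
          intro n hn
          rw [mem_filter] at hn
          obtain ⟨i, _, hi⟩ := (hpz.dvd_finsetProd_iff _).1 hn.2
          rw [mem_biUnion]
          refine ⟨i, mem_univ _, ?_⟩
          rw [hZ]
          rw [heval] at hi
          exact mem_filter.2 ⟨hn.1, hi⟩
      _ ≤ ∑ i, (Z i).card := card_biUnion_le
      _ = l * ν p := by
          simp only [hZc]
          rw [sum_const, card_univ, Fintype.card_fin, smul_eq_mul]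
  obtain ⟨PP, hPP⟩ : ∃ PP : Finset ℕ, PP = (Icc 1 (g ^ K)).filter Nat.Prime := ⟨_, rfl⟩
  have hPPp : ∀ p ∈ PP, p.Prime := fun p hp => by rw [hPP, mem_filter] at hp; exact hp.2
  have h1 : (rootDensity (fun n => ∏ _j : Fin 1, f.eval (n : ℤ)) (g ^ K)) ^ l ≤
      Q * rootDensity (fun n => ∏ i, (f.comp (X + C ((c i : ℕ) : ℤ))).eval (n : ℤ)) (g ^ K) := by
    have e1 : rootDensity (fun n => ∏ _j : Fin 1, f.eval (n : ℤ)) (g ^ K) = ∏ p ∈ PP, (1 - (ν p : ℝ) / p) := by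
      unfold rootDensity
      rw [← hPP, hν]
      simp only [univ_unique, prod_singleton]
    have e2 : rootDensity (fun n => ∏ i, (f.comp (X + C ((c i : ℕ) : ℤ))).eval (n : ℤ)) (g ^ K) = ∏ p ∈ PP, (1 - (ν' p : ℝ) / p) := by
      unfold rootDensity
      rw [← hPP, hν']
    rw [e1, e2, ← prod_pow]
    have h2 : ∏ p ∈ PP, (1 - (ν p : ℝ) / p) ^ l ≤ ∏ p ∈ PP, ((if p < 2 * (l * d) + 1 then ((2 * (l * d) + 1 : ℕ) : ℝ) else 1) *
        ((1 - (ν' p : ℝ) / p) * (1 + ((l * d : ℕ) : ℝ) ^ 2 / (p : ℝ) ^ 2))) := by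
      apply Finset.prod_le_prod
      · intro p hp
        obtain ⟨k1, k2, k3, k4⟩ := key p (hPPp p hp)
        have hp0 : (0 : ℝ) < p := by exact_mod_cast (hPPp p hp).pos
        apply pow_nonneg
        rw [sub_nonneg, div_le_one hp0]
        exact_mod_cast k4
      · intro p hp
        obtain ⟨k1, k2, k3, k4⟩ := key p (hPPp p hp)
        exact one_shift (hPPp p hp).two_le k1 k2 k3 k4
    refine h2.trans ?_
    rw [prod_mul_distrib, prod_mul_distrib]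
    have h3 : ∏ p ∈ PP, (if p < 2 * (l * d) + 1 then ((2 * (l * d) + 1 : ℕ) : ℝ) else 1) ≤ ((2 * (l * d) + 1 : ℕ) : ℝ) ^ (2 * (l * d) + 1) := by
      rw [← prod_filter, prod_const]
      apply pow_le_pow_right₀
      · exact_mod_cast (by omega : 1 ≤ 2 * (l * d) + 1)
      · calc (PP.filter fun p => p < 2 * (l * d) + 1).card ≤ (range (2 * (l * d) + 1)).card :=
              card_le_card fun p hp => mem_range.2 (mem_filter.1 hp).2
          _ = _ := card_range _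
    have h4 : ∏ p ∈ PP, (1 + ((l * d : ℕ) : ℝ) ^ 2 / (p : ℝ) ^ 2) ≤ Real.exp (2 * ((l * d : ℕ) : ℝ) ^ 2) := by
      rw [hPP]
      exact prod_sq _ (by positivity) _
    have h5 : 0 ≤ ∏ p ∈ PP, (1 - (ν' p : ℝ) / p) := by
      apply prod_nonneg
      intro p hp
      obtain ⟨k1, k2, k3, k4⟩ := key p (hPPp p hp)
      have hp0 : (0 : ℝ) < p := by exact_mod_cast (hPPp p hp).pos
      rw [sub_nonneg, div_le_one hp0]
      exact_mod_cast k2.le
    have h6 : 0 ≤ ∏ p ∈ PP, (1 + ((l * d : ℕ) : ℝ) ^ 2 / (p : ℝ) ^ 2) := prod_nonneg fun p _ => by positivity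
    calc _ ≤ ((2 * (l * d) + 1 : ℕ) : ℝ) ^ (2 * (l * d) + 1) * ((∏ p ∈ PP, (1 - (ν' p : ℝ) / p)) * Real.exp (2 * ((l * d : ℕ) : ℝ) ^ 2)) := by
          gcongr
      _ = _ := by rw [hQ]; ring
  have h2 : (w / (K : ℝ)) ^ l ≤ (rootDensity (fun n => ∏ _j : Fin 1, f.eval (n : ℤ)) (g ^ K)) ^ l := by
    have := KO.1
    rw [pow_one] at this
    apply pow_le_pow_left₀ (by positivity) this
  have h3 := h2.trans h1
  rw [div_pow] at h3
  rw [div_div, mul_comm Q, ← div_div, div_le_iff₀ hQ0]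
  linarith

end Pool.Agent.Q48.RD
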