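import Pool.Agent.Q48.RD.PWin1

/-!
# Joint moments of the numbers of prime and almost prime values of a polynomial in several disjoint short intervals
-/

set_option autoImplicit false

namespace Pool.Agent.Q48.RD

open Filter Finset Polynomial
open Pool.Agent.Q315.RD
open Pool.Agent.W123.RU.Poly

/-- **The joint first moment**, one polynomial. -/
theorem winFirst {l : ℕ} (f : ℤ[X]) (hf : Sys (fun _ : Fin 1 => f)) (F : ℕ → ℕ) (hF : ∀ n : ℕ, f.eval (n : ℤ) = F n)
    (hFn : ∀ n, n ≤ F n) (s : Fin l → ℕ) (E : ℕ) :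
    ∃ c : ℝ, 0 < c ∧ ∃ r₀ : ℕ, 2 ≤ r₀ ∧ ∀ r : ℕ, r₀ ≤ r → ∀ g : ℕ, 2 ≤ g → ∃ κ : ℝ, 0 < κ ∧ ∃ T₀ : ℕ,
      ∀ᶠ K : ℕ in atTop, ∀ N T : ℕ, N ≤ g ^ (E * K) → T₀ ≤ T → T ≤ g ^ (E * K) → ∀ A : ℕ → Finset ℕ, Rich c g K A →
        κ * (T / (K : ℝ)) ^ l * choices K A ≤
          ∑ t ∈ digitSet g K A, ∏ i, (numIn (fun n => AlmostPrime (g ^ K) r (F n)) (N + t + s i * T) T : ℝ) := by
  classical
  obtain ⟨B, hB⟩ := Pool.Agent.Q315.RD.eval_bound f
  obtain ⟨δ, hδ⟩ : ∃ δ : ℕ, δ = f.natDegree := ⟨_, rfl⟩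
  obtain ⟨c1, hc1, r1, hr1, H1⟩ := famP l δ (l * δ) (1 + (E + 3) * δ)
  obtain ⟨S0, hS0⟩ : ∃ S0 : ℕ, ∀ i, s i ≤ S0 :=
    ⟨∑ i, s i, fun i => single_le_sum (f := s) (fun _ _ => Nat.zero_le _) (mem_univ i)⟩
  refine ⟨c1, hc1, r1, hr1, fun r hr g hg => ?_⟩
  obtain ⟨κ1, C1, hκ1, hC1, H1⟩ := H1 r hr g hg
  obtain ⟨v, hv, HV⟩ := shifts_lower f hf l g hg
  obtain ⟨M, hM⟩ : ∃ M : ℕ, M = g * (l * δ + 1).factorial := ⟨_, rfl⟩
  have hM2 : 2 ≤ M := by
    rw [hM]
    calc 2 ≤ g := hg
      _ ≤ _ := Nat.le_mul_of_pos_right g (Nat.factorial_pos _)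
  have hgM : g ∣ M := by rw [hM]; exact Dvd.intro _ rfl
  have hfM : (l * δ + 1).factorial ∣ M := by
    rw [hM]
    exact Dvd.intro_left _ rfl
  obtain ⟨x0, hx0⟩ := exists_class_poly (fun _ : Fin 1 => f) hf M hM2
  have hM0 : (0 : ℝ) < M := by exact_mod_cast (by omega : 0 < M)
  refine ⟨κ1 * v / (2 * M) ^ l, by positivity, M, ?_⟩
  filter_upwards [H1, HV, eventually_ge_atTop (B + S0 + 3)] with K K1 KV hK1
  intro N T hN hMT hT A hA
  have hKr : (0 : ℝ) < K := by exact_mod_cast (by omega : 0 < K)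
  have hg1 : 1 ≤ g := by omega
  have hcs : (0 : ℝ) ≤ choices K A := Nat.cast_nonneg _
  have hKg : K < g ^ K := Nat.lt_pow_self (by omega)
  have hA0 : (A 0).Nonempty := by
    rw [← card_pos, Nat.pos_iff_ne_zero]
    intro h0
    have h2 : choices K A = 0 := prod_eq_zero (mem_range.2 (by omega : 0 < K)) h0
    have h1 := hA.2
    rw [h2, Nat.cast_zero, mul_zero] at h1
    have : (0 : ℝ) < (g : ℝ) ^ K := by positivity
    linarith
  obtain ⟨d, hd⟩ := hA0
  obtain ⟨S, hS⟩ : ∃ S : Fin l → Finset ℕ, S = fun i => (Icc 1 T).filter fun h => (N + d + s i * T) + h ≡ x0 [MOD M] := ⟨_, rfl⟩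
  have hScard : ∀ i, (T : ℝ) / (2 * M) ≤ ((S i).card : ℝ) := by
    intro i
    rw [hS]
    exact class_many hM2 hMT
  have hpi : ((T : ℝ) / (2 * M)) ^ l ≤ ((Fintype.piFinset S).card : ℝ) := by
    rw [Fintype.card_piFinset, Nat.cast_prod]
    calc ((T : ℝ) / (2 * M)) ^ l = ∏ _i : Fin l, ((T : ℝ) / (2 * M)) := by rw [prod_const, card_univ, Fintype.card_fin]
      _ ≤ ∏ i, ((S i).card : ℝ) := Finset.prod_le_prod (fun i _ => by positivity) fun i _ => hScard i
  -- each tuple
  have htup : ∀ h ∈ Fintype.piFinset S, κ1 * (v / (K : ℝ) ^ l) * choices K A ≤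
      (count g K A (fun t => ∀ i, AlmostPrime (g ^ K) r (F (N + t + s i * T + h i))) : ℝ) := by
    intro h hh
    rw [Fintype.mem_piFinset] at hh
    have hh' : ∀ i, (1 ≤ h i ∧ h i ≤ T) ∧ (N + d + s i * T) + h i ≡ x0 [MOD M] := by
      intro i
      have h1 := hh i
      rw [hS] at h1
      dsimp only at h1
      rw [mem_filter, mem_Icc] at h1
      exact h1
    obtain ⟨c, hc⟩ : ∃ c : Fin l → ℕ, c = fun i => s i * T + h i := ⟨_, rfl⟩
    have hci : ∀ i, c i = s i * T + h i := fun i => by rw [hc]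
    have hcop : ∀ i, (F (N + d + s i * T + h i)).Coprime M := fun i => hx0 _ (hh' i).2 0 _ (hF _)
    have hPev : ∀ i (n : ℤ), (f.comp (X + C ((c i : ℕ) : ℤ))).eval n = f.eval (n + c i) := by
      intro i n
      rw [eval_comp, eval_add, eval_X, eval_C]
    have hev : ∀ i (t : ℕ), (f.comp (X + C ((c i : ℕ) : ℤ))).eval ((N : ℤ) + t) = (F (N + t + s i * T + h i) : ℤ) := by
      intro i t
      rw [hPev, ← hF, hci]
      push_cast
      congr 1
      ring
    have hadm : ∀ p : ℕ, p.Prime → ∃ t : ℤ, ∀ i, ¬ (p : ℤ) ∣ (f.comp (X + C ((c i : ℕ) : ℤ))).eval t := by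
      intro p hp
      by_cases hpM : p ∣ M
      · refine ⟨(N : ℤ) + d, fun i hi => ?_⟩
        rw [hev] at hi
        have h1 : p ∣ F (N + d + s i * T + h i) := by exact_mod_cast hi
        exact hp.one_lt.ne' (Nat.dvd_one.1 ((hcop i) ▸ Nat.dvd_gcd h1 hpM))
      · -- a large prime
        have hpl : l * δ < p := by
          by_contra hcon
          exact hpM ((Nat.dvd_factorial hp.pos (by omega)).trans hfM)
        have hpz := Nat.prime_iff_prime_int.1 hp
        obtain ⟨Z, hZ⟩ : ∃ Z : Fin l → Finset ℕ, Z = fun i => (range p).filter fun n : ℕ => (p : ℤ) ∣ (f.comp (X + C ((c i : ℕ) : ℤ))).eval (n : ℤ) := ⟨_, rfl⟩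
        have hZc : ∀ i, (Z i).card ≤ δ := by
          intro i
          have h3 := classes_poly (m := δ) (f.comp (X + C ((c i : ℕ) : ℤ))) hp (by
            obtain ⟨m, hm⟩ := hf.adm p hp
            refine ⟨(m : ℤ) - c i, ?_⟩
            rw [hPev, sub_add_cancel]
            exact hm 0) (by rw [natDegree_comp, natDegree_X_add_C, mul_one]; exact hδ.ge)
          rw [classes_eq] at h3
          rw [hZ]
          exact h3.1
        have h4 : (univ.biUnion Z).card < (range p).card := by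
          rw [card_range]
          calc (univ.biUnion Z).card ≤ ∑ i, (Z i).card := card_biUnion_le
            _ ≤ ∑ _i : Fin l, δ := sum_le_sum fun i _ => hZc i
            _ = l * δ := by rw [sum_const, card_univ, Fintype.card_fin, smul_eq_mul]
            _ < p := hpl
        obtain ⟨n, hn1, hn2⟩ := exists_mem_notMem_of_card_lt_card h4
        refine ⟨(n : ℤ), fun i hi => hn2 ?_⟩
        rw [mem_biUnion]
        refine ⟨i, mem_univ i, ?_⟩
        rw [hZ]
        exact mem_filter.2 ⟨hn1, hi⟩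
    have h4 := K1 (fun i => f.comp (X + C ((c i : ℕ) : ℤ)))
      (fun i => by rw [natDegree_comp, natDegree_X_add_C, mul_one]; exact hδ.ge)
      (by
        refine (sum_le_sum (g := fun _ => δ) fun i _ => ?_).trans (le_of_eq ?_)
        · rw [natDegree_comp, natDegree_X_add_C, mul_one]; exact hδ.ge
        · rw [sum_const, card_univ, Fintype.card_fin, smul_eq_mul])
      hadm N (fun i t => F (N + t + s i * T + h i)) (fun t _ i => hev i t)
      (fun t _ i => by
        have := hFn (N + t + s i * T + h i)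
        omega)
      (fun t ht i => by
        have h5 := hB (N + t + s i * T + h i)
        rw [hF, Int.natAbs_natCast] at h5
        have h6 := (hh' i).1.2
        have h7 : N + t + s i * T + h i + 1 ≤ g ^ ((E + 3) * K) := by
          have e0 : s i * T + h i ≤ (S0 + 1) * g ^ (E * K) := by
            calc s i * T + h i ≤ S0 * T + T := Nat.add_le_add (Nat.mul_le_mul_right T (hS0 i)) h6
              _ = (S0 + 1) * T := by ring
              _ ≤ _ := Nat.mul_le_mul_left _ hT
          have e1 : 1 ≤ g ^ (E * K) := Nat.one_le_pow _ _ hg1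
          have e2 : (S0 + 3) * g ^ (E * K) ≤ g ^ K * g ^ (E * K) := Nat.mul_le_mul_right _ (by omega)
          have e3 : g ^ K ≤ g ^ K * g ^ (E * K) := Nat.le_mul_of_pos_right _ e1
          calc N + t + s i * T + h i + 1 ≤ g ^ (E * K) + g ^ K + (S0 + 1) * g ^ (E * K) := by omega
            _ ≤ g ^ K * g ^ (E * K) + g ^ K * g ^ (E * K) := by nlinarith
            _ = 2 * (g ^ K * g ^ (E * K)) := by ring
            _ ≤ g ^ (2 * K) * (g ^ K * g ^ (E * K)) := by
                apply Nat.mul_le_mul_right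
                calc 2 ≤ g ^ 1 := by rw [pow_one]; exact hg
                  _ ≤ g ^ (2 * K) := Nat.pow_le_pow_right hg1 (by omega)
            _ = g ^ ((E + 3) * K) := by rw [← pow_add, ← pow_add]; congr 1; ring
        have hBK : B ≤ g ^ K := by omega
        calc F (N + t + s i * T + h i) ≤ B * (N + t + s i * T + h i + 1) ^ f.natDegree := h5
          _ ≤ g ^ K * (g ^ ((E + 3) * K)) ^ δ := by
              rw [← hδ]
              exact Nat.mul_le_mul hBK (Nat.pow_le_pow_left h7 _)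
          _ = g ^ ((1 + (E + 3) * δ) * K) := by
              rw [← pow_mul, ← pow_add]; congr 1; ring) A hA
    have h5 := (h4.1 ⟨d, hd, fun i => (hcop i).coprime_dvd_right hgM⟩).1
    have h6 := KV c hadm
    refine le_trans ?_ h5
    gcongr
  have hsum : ∑ h ∈ Fintype.piFinset S, (count g K A (fun t => ∀ i, AlmostPrime (g ^ K) r (F (N + t + s i * T + h i))) : ℝ) ≤
      ∑ t ∈ digitSet g K A, ∏ i, (numIn (fun n => AlmostPrime (g ^ K) r (F n)) (N + t + s i * T) T : ℝ) := by
    have h1 := count_sum (g := g) (K := K) (A := A) (Fintype.piFinset S)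
      (fun h t => ∀ i, AlmostPrime (g ^ K) r (F (N + t + s i * T + h i)))
    have h2 : ∀ t : ℕ, ((Fintype.piFinset S).filter fun h => ∀ i, AlmostPrime (g ^ K) r (F (N + t + s i * T + h i))).card ≤
        ∏ i, numIn (fun n => AlmostPrime (g ^ K) r (F n)) (N + t + s i * T) T := by
      intro t
      have h3 : ∏ i, numIn (fun n => AlmostPrime (g ^ K) r (F n)) (N + t + s i * T) T =
          (Fintype.piFinset fun i => (Icc 1 T).filter fun h => AlmostPrime (g ^ K) r (F (N + t + s i * T + h))).card := by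
        rw [Fintype.card_piFinset]
        apply prod_congr rfl
        intro i _
        rw [numIn_eq]
      rw [h3]
      apply card_le_card
      intro h hh
      rw [mem_filter, Fintype.mem_piFinset] at hh
      rw [Fintype.mem_piFinset]
      intro i
      refine mem_filter.2 ⟨?_, hh.2 i⟩
      have h4 := hh.1 i
      rw [hS] at h4
      exact (mem_filter.1 h4).1
    have h5 : ∑ h ∈ Fintype.piFinset S, count g K A (fun t => ∀ i, AlmostPrime (g ^ K) r (F (N + t + s i * T + h i))) ≤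
        ∑ t ∈ digitSet g K A, ∏ i, numIn (fun n => AlmostPrime (g ^ K) r (F n)) (N + t + s i * T) T := by
      rw [h1]
      unfold digitSet
      refine le_trans (sum_le_sum (g := fun t => ∏ i, numIn (fun n => AlmostPrime (g ^ K) r (F n)) (N + t + s i * T) T) fun t _ => ?_)
        (le_of_eq ?_)
      · refine le_trans (le_of_eq ?_) (h2 t)
        congr!
      · apply sum_congr _ (fun _ _ => rfl)
        congr!
    exact_mod_cast h5
  refine le_trans ?_ hsum
  calc κ1 * v / (2 * (M : ℝ)) ^ l * (T / (K : ℝ)) ^ l * choices K A = ((T : ℝ) / (2 * M)) ^ l * (κ1 * (v / (K : ℝ) ^ l) * choices K A) := by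
        rw [div_pow, div_pow]; field_simp
    _ ≤ ((Fintype.piFinset S).card : ℝ) * (κ1 * (v / (K : ℝ) ^ l) * choices K A) := mul_le_mul_of_nonneg_right hpi (by positivity)
    _ = ∑ h ∈ Fintype.piFinset S, κ1 * (v / (K : ℝ) ^ l) * choices K A := by rw [sum_const, nsmul_eq_mul]
    _ ≤ _ := sum_le_sum htup

/-- **The joint upper bounds**, one polynomial. -/
theorem winUpper {l : ℕ} (f : ℤ[X]) (hf : Sys (fun _ : Fin 1 => f)) (F : ℕ → ℕ) (hF : ∀ n : ℕ, f.eval (n : ℤ) = F n)
    (s : Fin l → ℕ) (hs : Function.Injective s) (k : ℕ) (hk : 1 ≤ k) (E : ℕ) :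
    ∃ c : ℝ, 0 < c ∧ ∃ r₀ : ℕ, 2 ≤ r₀ ∧ ∀ r : ℕ, r₀ ≤ r → ∀ g : ℕ, 2 ≤ g → ∃ C : ℝ, 0 < C ∧
      ∀ᶠ K : ℕ in atTop, ∀ N T : ℕ, N ≤ g ^ (E * K) → 1 ≤ T → T ≤ g ^ (E * K) → ∀ A : ℕ → Finset ℕ, Rich c g K A →
        ∑ t ∈ digitSet g K A, ∏ i, (numIn (fun n => AlmostPrime (g ^ K) r (F n)) (N + t + s i * T) T : ℝ) ^ k ≤
          C * (min 1 ((T : ℝ) / K) * max 1 ((T : ℝ) / K) ^ k) ^ l * choices K A := by
  classical
  obtain ⟨S0, hS0⟩ : ∃ S0 : ℕ, ∀ i, s i ≤ S0 :=
    ⟨∑ i, s i, fun i => single_le_sum (f := s) (fun _ _ => Nat.zero_le _) (mem_univ i)⟩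
  obtain ⟨mm, hmm⟩ : ∃ mm : (Fin l → Bool) → Fin l → ℕ, mm = fun p i => if p i then 1 else k := ⟨_, rfl⟩
  have H := fun p : Fin l → Bool => polyMean (fun _ : Fin 1 => f) hf (fun i j hij => absurd (Subsingleton.elim i j) hij)
    (fun _ n => F n) 0 (fun _ n _ => hF n) (∑ i, mm p i) (E + 1)
  choose c hc r0 hr0 H using H
  have hne : (univ : Finset (Fin l → Bool)).Nonempty := univ_nonempty
  obtain ⟨c1, hc1⟩ : ∃ c1 : ℝ, c1 = univ.inf' hne c := ⟨_, rfl⟩
  have hc1pos : 0 < c1 := by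
    rw [hc1, Finset.lt_inf'_iff]
    exact fun p _ => hc p
  have hc1le : ∀ p, c1 ≤ c p := fun p => by rw [hc1]; exact Finset.inf'_le _ (mem_univ p)
  obtain ⟨r1, hr1⟩ : ∃ r1 : ℕ, r1 = univ.sup r0 := ⟨_, rfl⟩
  have hr1le : ∀ p, r0 p ≤ r1 := fun p => by rw [hr1]; exact Finset.le_sup (mem_univ p)
  refine ⟨c1, hc1pos, r1, (hr0 (fun _ => true)).trans (hr1le _), fun r hr g hg => ?_⟩
  have H' := fun p => H p r ((hr1le p).trans hr) g hg
  choose C hC H' using H'
  obtain ⟨Cp, hCp⟩ : ∃ Cp : (Fin l → Bool) → ℝ, Cp = fun p => C p * ((S0 + 1 : ℕ) : ℝ) ^ (∑ i, mm p i) := ⟨_, rfl⟩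
  have hCp0 : ∀ p, 0 < Cp p := fun p => by
    rw [hCp]
    have := hC p
    positivity
  refine ⟨((k : ℝ) ^ k) ^ l * ∑ p, Cp p, by
    have : (0 : ℝ) < k := by exact_mod_cast (by omega : 0 < k)
    have h2 : 0 < ∑ p, Cp p := sum_pos (fun p _ => hCp0 p) hne
    positivity, ?_⟩
  filter_upwards [eventually_all.2 H', eventually_ge_atTop (S0 + 1)] with K HK hK1
  intro N T hN hT1 hT A hA
  have hKr : (0 : ℝ) < K := by exact_mod_cast (by omega : 0 < K)
  have hTr : (0 : ℝ) < T := by exact_mod_cast (by omega : 0 < T)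
  have hcs : (0 : ℝ) ≤ choices K A := Nat.cast_nonneg _
  have hg1 : 1 ≤ g := by omega
  have hKg : K < g ^ K := Nat.lt_pow_self (by omega)
  refine prod_pow_le (digitSet g K A) (fun i t => numIn (fun n => AlmostPrime (g ^ K) r (F n)) (N + t + s i * T) T) k hk
    ((T : ℝ) / K) (choices K A) (by positivity) hcs Cp (fun p => (hCp0 p).le) ?_
  intro p
  have eS : g ^ (E * K) ≤ g ^ ((E + 1) * K) := Nat.pow_le_pow_right hg1 (by nlinarith)
  have h1 := HK p N ((S0 + 1) * T) (Nat.zero_le _) (hN.trans eS) (Nat.mul_pos (by omega) hT1)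
    (by
      have e : g ^ ((E + 1) * K) = g ^ K * g ^ (E * K) := by rw [← pow_add]; congr 1; ring
      rw [e]
      exact Nat.mul_le_mul (by omega) hT) A ⟨hA.1, hA.2.trans (by gcongr; exact hc1le p)⟩
  have h2 := prod_desc g K A N T (mm p) (fun _ => 1) (fun i => s i * T) (fun n => AlmostPrime (g ^ K) r (F n))
  simp only [one_mul] at h2
  -- the tuples of shifts
  have h3 : ∑ h ∈ (Fintype.piFinset fun _ : Fin (∑ i, mm p i) => Icc 1 T).filter
        (fun h => ∀ u v, wI (mm p) u = wI (mm p) v → h u = h v → u = v),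
        count g K A (fun t => ∀ u, AlmostPrime (g ^ K) r (F (N + t + s (wI (mm p) u) * T + h u))) ≤
      ∑ h ∈ (Fintype.piFinset fun _ : Fin (∑ i, mm p i) => Icc 1 ((S0 + 1) * T)).filter Function.Injective,
        count g K A (fun t => ∀ u, AlmostPrime (g ^ K) r (F (N + t + h u))) := by
    obtain ⟨ψ, hψ⟩ : ∃ ψ : (Fin (∑ i, mm p i) → ℕ) → (Fin (∑ i, mm p i) → ℕ), ψ = fun h u => s (wI (mm p) u) * T + h u := ⟨_, rfl⟩
    have hψi : Function.Injective ψ := by
      intro h h' hh
      funext u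
      have := congrFun hh u
      rw [hψ] at this
      dsimp only at this
      omega
    have e : ∀ h : Fin (∑ i, mm p i) → ℕ, count g K A (fun t => ∀ u, AlmostPrime (g ^ K) r (F (N + t + s (wI (mm p) u) * T + h u))) =
        count g K A (fun t => ∀ u, AlmostPrime (g ^ K) r (F (N + t + (ψ h) u))) := by
      intro h
      rw [hψ]
      simp only [add_assoc]
    simp only [e]
    rw [← sum_image (f := fun h' => count g K A (fun t => ∀ u, AlmostPrime (g ^ K) r (F (N + t + h' u)))) (g := ψ)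
      (fun h _ h' _ hh => hψi hh)]
    apply sum_le_sum_of_subset_of_nonneg
    · intro h' hh'
      obtain ⟨h, hh, rfl⟩ := mem_image.1 hh'
      rw [mem_filter, Fintype.mem_piFinset] at hh
      rw [mem_filter, Fintype.mem_piFinset]
      have hr : ∀ u, 1 ≤ h u ∧ h u ≤ T := fun u => mem_Icc.1 (hh.1 u)
      refine ⟨fun u => ?_, ?_⟩
      · rw [hψ, mem_Icc]
        dsimp only
        refine ⟨by have := (hr u).1; omega, ?_⟩
        calc s (wI (mm p) u) * T + h u ≤ S0 * T + T := Nat.add_le_add (Nat.mul_le_mul_right T (hS0 _)) (hr u).2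
          _ = (S0 + 1) * T := by ring
      · intro u w huw
        rw [hψ] at huw
        dsimp only at huw
        have hss : s (wI (mm p) u) = s (wI (mm p) w) := by
          rcases lt_trichotomy (s (wI (mm p) u)) (s (wI (mm p) w)) with h5 | h5 | h5
          · have h6 : (s (wI (mm p) u) + 1) * T ≤ s (wI (mm p) w) * T := Nat.mul_le_mul_right T h5
            have h7 := (hr u).2
            have h8 := (hr w).1
            rw [add_mul, one_mul] at h6
            omega
          · exact h5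
          · have h6 : (s (wI (mm p) w) + 1) * T ≤ s (wI (mm p) u) * T := Nat.mul_le_mul_right T h5
            have h7 := (hr w).2
            have h8 := (hr u).1
            rw [add_mul, one_mul] at h6
            omega
        have hww := hs hss
        rw [hww] at huw
        exact hh.2 u w hww (by omega)
    · intro _ _ _
      exact Nat.zero_le _
  have h4 : (∑ t ∈ digitSet g K A, ∏ i, ((numIn (fun n => AlmostPrime (g ^ K) r (F n)) (N + t + s i * T) T).descFactorial (mm p i) : ℝ)) ≤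
      ∑ h ∈ (Fintype.piFinset fun _ : Fin (∑ i, mm p i) => Icc 1 ((S0 + 1) * T)).filter Function.Injective,
        (count g K A (fun t => ∀ u, AlmostPrime (g ^ K) r (F (N + t + h u))) : ℝ) := by
    exact_mod_cast h2.trans h3
  have h5 : ∀ h : Fin (∑ i, mm p i) → ℕ, (count g K A (fun t => ∀ u, ∀ _j : Fin 1, AlmostPrime (g ^ K) r (F (N + t + h u)))) =
      count g K A (fun t => ∀ u, AlmostPrime (g ^ K) r (F (N + t + h u))) := by
    intro h
    simp only [forall_const]
  simp only [h5, pow_one] at h1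
  have h6 := h4.trans h1
  rw [hmm] at h6
  dsimp only at h6
  refine h6.trans (le_of_eq ?_)
  rw [hCp, hmm]
  dsimp only
  push_cast
  rw [mul_div_assoc, mul_pow]
  ring

end Pool.Agent.Q48.RD
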