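import Pool.Agent.Q48.RD.PWin2

/-!
# Joint moments of the numbers of prime and almost prime values of a polynomial in several disjoint short intervals: the theorem
-/

set_option autoImplicit false

namespace Pool.Agent.Q48.RD

open Filter Finset Polynomial
open Pool.Agent.Q315.RD
open Pool.Agent.W123.RU.Poly

/-- **Joint moments in disjoint short intervals**, one polynomial. -/
theorem winMoments {l : ℕ} (hl : 0 < l) (f : ℤ[X]) (hf : Sys (fun _ : Fin 1 => f)) (F : ℕ → ℕ) (hF : ∀ n : ℕ, f.eval (n : ℤ) = F n)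
    (hFn : ∀ n, n ≤ F n) (s : Fin l → ℕ) (hs : Function.Injective s) (k : ℕ) (hk : 1 ≤ k) (E : ℕ) :
    ∃ c : ℝ, 0 < c ∧ ∃ r₀ : ℕ, 2 ≤ r₀ ∧ ∀ r : ℕ, r₀ ≤ r → ∀ g : ℕ, 2 ≤ g → ∃ κ C : ℝ, ∃ T₀ : ℕ, 0 < κ ∧ 0 < C ∧
      ∀ᶠ K : ℕ in atTop, ∀ N T : ℕ, N ≤ g ^ (E * K) → 1 ≤ T → T ≤ g ^ (E * K) → ∀ A : ℕ → Finset ℕ, Rich c g K A →
        ∑ t ∈ digitSet g K A, ∏ i, (numIn (fun n => (F n).Prime) (N + t + s i * T) T : ℝ) ^ k ≤
          C * (min 1 ((T : ℝ) / K) * max 1 ((T : ℝ) / K) ^ k) ^ l * choices K A ∧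
        ∑ t ∈ digitSet g K A, ∏ i, (numIn (fun n => AlmostPrime (g ^ K) r (F n)) (N + t + s i * T) T : ℝ) ^ k ≤
          C * (min 1 ((T : ℝ) / K) * max 1 ((T : ℝ) / K) ^ k) ^ l * choices K A ∧
        (T₀ ≤ T → κ * (min 1 ((T : ℝ) / K) * max 1 ((T : ℝ) / K) ^ k) ^ l * choices K A ≤
            ∑ t ∈ digitSet g K A, ∏ i, (numIn (fun n => AlmostPrime (g ^ K) r (F n)) (N + t + s i * T) T : ℝ) ^ k ∧
          κ * min 1 ((T : ℝ) / K) ^ l * choices K A ≤
            (((digitSet g K A).filter fun t => ∀ i, κ * max 1 ((T : ℝ) / K) ≤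
              numIn (fun n => AlmostPrime (g ^ K) r (F n)) (N + t + s i * T) T).card : ℝ)) := by
  classical
  obtain ⟨c1, hc1, r1, hr1, H1⟩ := winUpper f hf F hF s hs k hk E
  obtain ⟨c2, hc2, r2, hr2, H2⟩ := winUpper f hf F hF s hs 2 (by norm_num) E
  obtain ⟨c3, hc3, r3, hr3, H3⟩ := winFirst f hf F hF hFn s E
  have H4 := fun j : Fin l => winUpper (l := 1) f hf F hF (fun _ => s j) (fun i i' _ => Subsingleton.elim i i') 2 (by norm_num) E
  choose cs hcs0 rs hrs H4 using H4
  have : Nonempty (Fin l) := ⟨⟨0, hl⟩⟩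
  obtain ⟨c4, hc4⟩ : ∃ c4 : ℝ, c4 = univ.inf' univ_nonempty cs := ⟨_, rfl⟩
  have hc4pos : 0 < c4 := by
    rw [hc4, Finset.lt_inf'_iff]
    exact fun p _ => hcs0 p
  have hc4le : ∀ p, c4 ≤ cs p := fun p => by rw [hc4]; exact Finset.inf'_le _ (mem_univ p)
  obtain ⟨r4, hr4⟩ : ∃ r4 : ℕ, r4 = univ.sup rs := ⟨_, rfl⟩
  have hr4le : ∀ p, rs p ≤ r4 := fun p => by rw [hr4]; exact Finset.le_sup (mem_univ p)
  refine ⟨min (min (min c1 c2) (min c3 c4)) (1 / 8), by positivity, max (max (max r1 r2) (max r3 r4)) 5, by omega, fun r hr g hg => ?_⟩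
  obtain ⟨C1, hC1, H1⟩ := H1 r (by omega) g hg
  obtain ⟨C2, hC2, H2⟩ := H2 r (by omega) g hg
  obtain ⟨κ3, hκ3, T₀, H3⟩ := H3 r (by omega) g hg
  have H4 := fun j => H4 j r ((hr4le j).trans (by omega)) g hg
  choose Cs hCs H4 using H4
  obtain ⟨κ, hκ, hκ1, HL⟩ := joint_large (l := l) κ3 C2 Cs hκ3 hC2 hCs
  refine ⟨min κ (κ * (κ ^ k) ^ l), C1 + 1, T₀, lt_min hκ (by positivity), by linarith, ?_⟩
  filter_upwards [H1, H2, H3, eventually_all.2 H4, pow_small' (k * l), small_part 1 one_pos g hg, eventually_ge_atTop 24]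
    with K K1 K2 K3 K4 KP KS hKD
  intro N T hN hT1 hT A hA
  have hrich : ∀ c' : ℝ, min (min (min c1 c2) (min c3 c4)) (1 / 8) ≤ c' → Rich c' g K A := fun c' hc' => ⟨hA.1, hA.2.trans (by gcongr)⟩
  have hcs : (0 : ℝ) ≤ choices K A := Nat.cast_nonneg _
  have hKr : (0 : ℝ) < K := by exact_mod_cast (by omega : 0 < K)
  have hTr : (0 : ℝ) < T := by exact_mod_cast (by omega : 0 < T)
  have hg1 : (1 : ℝ) ≤ g := by exact_mod_cast (by omega : 1 ≤ g)
  obtain ⟨u, hu⟩ : ∃ u : ℝ, u = (T : ℝ) / K := ⟨_, rfl⟩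
  have hu0 : 0 < u := by rw [hu]; positivity
  have h1 := K1 N T hN hT1 hT A (hrich c1 (((min_le_left _ _).trans (min_le_left _ _)).trans (min_le_left _ _)))
  have h2 := K2 N T hN hT1 hT A (hrich c2 (((min_le_left _ _).trans (min_le_left _ _)).trans (min_le_right _ _)))
  rw [← hu] at h1 h2 ⊢
  obtain ⟨M, hM⟩ : ∃ M : ℝ, M = min 1 u * max 1 u ^ k := ⟨_, rfl⟩
  have hM0 : 0 ≤ M := by rw [hM]; positivity
  rw [← hM] at h1 ⊢
  obtain ⟨X, hX⟩ : ∃ X : Fin l → ℕ → ℕ, X = fun i t => numIn (fun n => AlmostPrime (g ^ K) r (F n)) (N + t + s i * T) T := ⟨_, rfl⟩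
  have eX : ∀ i t, numIn (fun n => AlmostPrime (g ^ K) r (F n)) (N + t + s i * T) T = X i t := by
    intro i t
    rw [hX]
  simp only [eX] at h1 h2 ⊢
  have hcard : ((digitSet g K A).card : ℝ) ≤ choices K A := by
    rw [← card_digits (by omega) hA.1]
    apply Nat.cast_le.2
    unfold digitSet
    exact card_le_card (by intro t ht; convert ht)
  refine ⟨?_, ?_, fun hgT => ?_⟩
  · -- the small `t` contribute very little
    have hsmall : (g : ℝ) ^ (K / 3) * ((T : ℝ) ^ k) ^ l ≤ M ^ l * choices K A := by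
      have hS := KS A (hrich (1 / 8) (min_le_right _ _))
      rw [one_mul] at hS
      have h3 : (K : ℝ) ^ (k * l) * (g : ℝ) ^ (K / 3) ≤ choices K A := by
        calc (K : ℝ) ^ (k * l) * (g : ℝ) ^ (K / 3) ≤ 2 ^ (K / 8) * (g : ℝ) ^ (K / 3) := by gcongr
          _ ≤ (g : ℝ) ^ (K / 8) * (g : ℝ) ^ (K / 3) := by
              gcongr
              exact_mod_cast hg
          _ = (g : ℝ) ^ (K / 8 + K / 3) := (pow_add _ _ _).symm
          _ ≤ (g : ℝ) ^ (K / 2) := pow_le_pow_right₀ hg1 (by omega)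
          _ ≤ _ := hS
      have h4 := (min_max_one hu0 k hk).2
      rw [← hM] at h4
      calc (g : ℝ) ^ (K / 3) * ((T : ℝ) ^ k) ^ l = (u ^ k) ^ l * ((K : ℝ) ^ (k * l) * (g : ℝ) ^ (K / 3)) := by
            rw [hu, div_pow, div_pow, ← pow_mul, ← pow_mul]; field_simp
        _ ≤ M ^ l * choices K A := by gcongr
    have hsplit : ∀ t ∈ digitSet g K A, ∏ i, (numIn (fun n => (F n).Prime) (N + t + s i * T) T : ℝ) ^ k ≤
        (if t < g ^ (K / 3) then ((T : ℝ) ^ k) ^ l else 0) + ∏ i, (X i t : ℝ) ^ k := by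
      intro t _
      have h4 : (0 : ℝ) ≤ ∏ i, (X i t : ℝ) ^ k := by positivity
      split_ifs with ht
      · have h3 : ∏ i, (numIn (fun n => (F n).Prime) (N + t + s i * T) T : ℝ) ^ k ≤ ∏ _i : Fin l, (T : ℝ) ^ k := by
          apply Finset.prod_le_prod (fun i _ => by positivity)
          intro i _
          have := numIn_le (fun n => (F n).Prime) (N + t + s i * T) T
          gcongr
        rw [prod_const, card_univ, Fintype.card_fin] at h3
        linarith
      · rw [zero_add]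
        apply Finset.prod_le_prod (fun i _ => by positivity)
        intro i _
        have h3 : numIn (fun n => (F n).Prime) (N + t + s i * T) T ≤ X i t := by
          rw [hX]
          apply numIn_mono
          intro n hn hP
          have h6 : g ^ (K / 4) ≤ g ^ (K / 3) := Nat.pow_le_pow_right (by omega) (by omega)
          have h7 := hFn n
          exact prime_almost' hg (by omega) (by omega) h6 hP (by omega)
        gcongr
    refine (sum_le_sum hsplit).trans ?_
    rw [sum_add_distrib]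
    have h5 : ∑ t ∈ digitSet g K A, (if t < g ^ (K / 3) then ((T : ℝ) ^ k) ^ l else 0) ≤ (g : ℝ) ^ (K / 3) * ((T : ℝ) ^ k) ^ l := by
      rw [← sum_filter, sum_const, nsmul_eq_mul]
      apply mul_le_mul_of_nonneg_right _ (by positivity)
      have h6 : (filter (fun t => t < g ^ (K / 3)) (digitSet g K A)).card ≤ (range (g ^ (K / 3))).card := by
        apply card_le_card
        intro t ht
        exact mem_range.2 (mem_filter.1 ht).2
      rw [card_range] at h6
      exact_mod_cast h6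
    calc _ ≤ M ^ l * choices K A + C1 * M ^ l * choices K A := add_le_add (h5.trans hsmall) h1
      _ = _ := by ring
  · refine h1.trans ?_
    gcongr
    linarith
  · have h3 := K3 N T hN hgT hT A (hrich c3 (((min_le_left _ _).trans (min_le_right _ _)).trans (min_le_left _ _)))
    rw [← hu] at h3
    simp only [eX] at h3
    have hlarge := HL (digitSet g K A) X u (choices K A) hu0 hcs hcard h3 h2 (fun j => by
      have h5 := K4 j N T hN hT1 hT A
        (hrich (cs j) ((((min_le_left _ _).trans (min_le_right _ _)).trans (min_le_right _ _)).trans (hc4le j)))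
      rw [← hu, pow_one] at h5
      simp only [Fin.prod_univ_one, eX] at h5
      exact h5)
    obtain ⟨m, hm⟩ : ∃ m : ℝ, m = max 1 u := ⟨_, rfl⟩
    have hm0 : 0 < m := by rw [hm]; exact lt_of_lt_of_le one_pos (le_max_left _ _)
    rw [← hm] at hlarge hM ⊢
    constructor
    · have h5 : ((((digitSet g K A).filter fun t => ∀ i, κ * m ≤ (X i t : ℝ)).card : ℝ)) * ((κ * m) ^ k) ^ l ≤
          ∑ t ∈ digitSet g K A, ∏ i, (X i t : ℝ) ^ k := by
        rw [← nsmul_eq_mul, ← sum_const]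
        refine le_trans (sum_le_sum (g := fun t => ∏ i, (X i t : ℝ) ^ k) fun t ht => ?_) ?_
        · calc ((κ * m) ^ k) ^ l = ∏ _i : Fin l, (κ * m) ^ k := by rw [prod_const, card_univ, Fintype.card_fin]
            _ ≤ ∏ i, (X i t : ℝ) ^ k := Finset.prod_le_prod (fun i _ => by positivity) fun i _ =>
                pow_le_pow_left₀ (by positivity) ((mem_filter.1 ht).2 i) k
        · exact sum_le_sum_of_subset_of_nonneg (filter_subset _ _) fun _ _ _ => by positivity
      refine le_trans ?_ h5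
      calc min κ (κ * (κ ^ k) ^ l) * M ^ l * choices K A ≤ κ * (κ ^ k) ^ l * M ^ l * choices K A := by
            gcongr
            exact min_le_right _ _
        _ = (κ * min 1 u ^ l * choices K A) * ((κ * m) ^ k) ^ l := by
            rw [hM, mul_pow, mul_pow, mul_pow]; ring
        _ ≤ _ := mul_le_mul_of_nonneg_right hlarge (by positivity)
    · refine le_trans ?_ (hlarge.trans (Nat.cast_le.2 (card_le_card ?_)))
      · gcongr
        exact min_le_left _ _
      · intro t ht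
        rw [mem_filter] at ht ⊢
        refine ⟨ht.1, fun i => le_trans ?_ (ht.2 i)⟩
        gcongr
        exact min_le_left _ _

end Pool.Agent.Q48.RD
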