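import Pool.Agent.Q48.RD.GGm

/-!
# Sums of `n / φ (n)` over pairs
-/

set_option autoImplicit false

namespace Pool.Agent.Q48.RD

open Filter Finset
open Pool.Agent.Q315.RD
open Pool.Agent.Erdos456 (GG)

lemma GG_mul_le {m n : ℕ} (hm : 1 ≤ m) (hn : 1 ≤ n) : GG (m * n) ≤ GG m * GG n := by
  classical
  have hmn : 1 ≤ m * n := Nat.mul_pos hm hn
  have h1 := GG_prod hm
  have h2 := GG_prod hn
  have h3 := GG_prod hmn
  have hfac : ∀ p : ℕ, p.Prime → 0 < 1 - 1 / (p : ℝ) ∧ 1 - 1 / (p : ℝ) ≤ 1 := by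
    intro p hp
    have h2 : (2 : ℝ) ≤ p := by exact_mod_cast hp.two_le
    have h3 : 1 / (p : ℝ) ≤ 1 / 2 := one_div_le_one_div_of_le (by norm_num) h2
    have h4 : 0 ≤ 1 / (p : ℝ) := by positivity
    constructor <;> linarith
  have h4 : (∏ p ∈ m.primeFactors, (1 - 1 / (p : ℝ))) * ∏ p ∈ n.primeFactors, (1 - 1 / (p : ℝ)) ≤
      ∏ p ∈ (m * n).primeFactors, (1 - 1 / (p : ℝ)) := by
    rw [Nat.primeFactors_mul (by omega) (by omega), ← prod_union_inter]
    apply mul_le_of_le_one_right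
    · exact prod_nonneg fun p hp => by
        rcases mem_union.1 hp with h | h
        · exact (hfac p (Nat.prime_of_mem_primeFactors h)).1.le
        · exact (hfac p (Nat.prime_of_mem_primeFactors h)).1.le
    · exact prod_le_one (fun p hp => (hfac p (Nat.prime_of_mem_primeFactors (mem_inter.1 hp).1)).1.le)
        fun p hp => (hfac p (Nat.prime_of_mem_primeFactors (mem_inter.1 hp).1)).2
  have hG0 : 0 < GG (m * n) := lt_of_lt_of_le one_pos (GG_ge_one hmn)
  have hGm : 0 < GG m := lt_of_lt_of_le one_pos (GG_ge_one hm)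
  have hGn : 0 < GG n := lt_of_lt_of_le one_pos (GG_ge_one hn)
  calc GG (m * n) = GG (m * n) * ((GG m * ∏ p ∈ m.primeFactors, (1 - 1 / (p : ℝ))) * (GG n * ∏ p ∈ n.primeFactors, (1 - 1 / (p : ℝ)))) := by
        rw [h1, h2]; ring
    _ = GG (m * n) * (GG m * GG n) * ((∏ p ∈ m.primeFactors, (1 - 1 / (p : ℝ))) * ∏ p ∈ n.primeFactors, (1 - 1 / (p : ℝ))) := by ring
    _ ≤ GG (m * n) * (GG m * GG n) * ∏ p ∈ (m * n).primeFactors, (1 - 1 / (p : ℝ)) :=
        mul_le_mul_of_nonneg_left h4 (by positivity)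
    _ = GG m * GG n * (GG (m * n) * ∏ p ∈ (m * n).primeFactors, (1 - 1 / (p : ℝ))) := by ring
    _ = _ := by rw [h3, mul_one]

/-- the sum over pairs -/
lemma sum_pairs {B : ℝ} (hB : 0 ≤ B) (HB : ∀ X : ℕ, ∑ n ∈ Icc 1 X, GG n ^ 2 ≤ B * X) (T : ℕ) :
    ∑ h ∈ Icc 1 T, ∑ h' ∈ Icc 1 T, (if h = h' then 0 else GG h * GG h' * GG ((h : ℤ) - h').natAbs) ≤ 2 * B ^ 2 * (T : ℝ) ^ 2 := by
  classical
  have hG : ∀ n : ℕ, 0 ≤ GG n := fun n => by unfold GG; positivity
  have hrow : ∀ h ∈ Icc 1 T, ∑ h' ∈ Icc 1 T, (if h = h' then 0 else GG ((h : ℤ) - h').natAbs) ≤ 2 * (B * T) := by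
    intro h hh
    rw [mem_Icc] at hh
    have h1 : ∀ h' ∈ Icc 1 T, (if h = h' then 0 else GG ((h : ℤ) - h').natAbs) ≤
        (if h' < h then GG (h - h') ^ 2 else 0) + (if h < h' then GG (h' - h) ^ 2 else 0) := by
      intro h' hh'
      rw [mem_Icc] at hh'
      rcases lt_trichotomy h h' with h2 | h2 | h2
      · rw [if_neg (by omega), if_neg (by omega), if_pos h2, zero_add, show ((h : ℤ) - h').natAbs = h' - h by omega]
        have := GG_ge_one (h := h' - h) (by omega)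
        nlinarith
      · subst h2
        simp
      · rw [if_neg (by omega), if_pos h2, if_neg (by omega), add_zero, show ((h : ℤ) - h').natAbs = h - h' by omega]
        have := GG_ge_one (h := h - h') (by omega)
        nlinarith
    refine (sum_le_sum h1).trans ?_
    rw [sum_add_distrib, two_mul]
    have hGs : ∀ s : Finset ℕ, ∀ φ : ℕ → ℕ, Set.InjOn φ s → (∀ y ∈ s, 1 ≤ φ y ∧ φ y ≤ T) →
        ∑ y ∈ s, GG (φ y) ^ 2 ≤ B * T := by
      intro s φ hinj hφ
      calc ∑ y ∈ s, GG (φ y) ^ 2 = ∑ z ∈ s.image φ, GG z ^ 2 := by rw [sum_image hinj]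
        _ ≤ ∑ z ∈ Icc 1 T, GG z ^ 2 := by
            apply sum_le_sum_of_subset_of_nonneg
            · intro z hz
              obtain ⟨y, hy, rfl⟩ := mem_image.1 hz
              exact mem_Icc.2 (hφ y hy)
            · intro _ _ _
              positivity
        _ ≤ B * T := HB T
    apply add_le_add
    · rw [← sum_filter]
      apply hGs _ (fun y => h - y)
      · intro y hy y' hy' h3
        have h6 := (mem_filter.1 (mem_coe.1 hy)).2
        have h7 := (mem_filter.1 (mem_coe.1 hy')).2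
        simp only at h3
        omega
      · intro y hy
        rw [mem_filter, mem_Icc] at hy
        omega
    · rw [← sum_filter]
      apply hGs _ (fun y => y - h)
      · intro y hy y' hy' h3
        have h6 := (mem_filter.1 (mem_coe.1 hy)).2
        have h7 := (mem_filter.1 (mem_coe.1 hy')).2
        simp only at h3
        omega
      · intro y hy
        rw [mem_filter, mem_Icc] at hy
        omega
  have hT0 : (0 : ℝ) ≤ T := Nat.cast_nonneg T
  have h1 : ∀ h ∈ Icc 1 T, ∀ h' ∈ Icc 1 T, (if h = h' then 0 else GG h * GG h' * GG ((h : ℤ) - h').natAbs) ≤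
      GG h ^ 2 / 2 * (if h = h' then 0 else GG ((h : ℤ) - h').natAbs) + GG h' ^ 2 / 2 * (if h' = h then 0 else GG ((h' : ℤ) - h).natAbs) := by
    intro h _ h' _
    by_cases he : h = h'
    · subst he
      simp
    · rw [if_neg he, if_neg he, if_neg (fun h2 => he h2.symm), show ((h' : ℤ) - h).natAbs = ((h : ℤ) - h').natAbs by omega]
      have h3 : GG h * GG h' ≤ GG h ^ 2 / 2 + GG h' ^ 2 / 2 := by nlinarith [sq_nonneg (GG h - GG h')]
      calc GG h * GG h' * GG ((h : ℤ) - h').natAbs ≤ (GG h ^ 2 / 2 + GG h' ^ 2 / 2) * GG ((h : ℤ) - h').natAbs :=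
            mul_le_mul_of_nonneg_right h3 (hG _)
        _ = _ := by ring
  calc ∑ h ∈ Icc 1 T, ∑ h' ∈ Icc 1 T, (if h = h' then 0 else GG h * GG h' * GG ((h : ℤ) - h').natAbs)
      ≤ ∑ h ∈ Icc 1 T, ∑ h' ∈ Icc 1 T, (GG h ^ 2 / 2 * (if h = h' then 0 else GG ((h : ℤ) - h').natAbs) +
          GG h' ^ 2 / 2 * (if h' = h then 0 else GG ((h' : ℤ) - h).natAbs)) :=
        sum_le_sum fun h hh => sum_le_sum fun h' hh' => h1 h hh h' hh'
    _ = (∑ h ∈ Icc 1 T, ∑ h' ∈ Icc 1 T, GG h ^ 2 / 2 * (if h = h' then 0 else GG ((h : ℤ) - h').natAbs)) +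
          ∑ h' ∈ Icc 1 T, ∑ h ∈ Icc 1 T, GG h' ^ 2 / 2 * (if h' = h then 0 else GG ((h' : ℤ) - h).natAbs) := by
        simp only [sum_add_distrib]
        congr 1
        rw [sum_comm]
    _ ≤ (∑ h ∈ Icc 1 T, GG h ^ 2 / 2 * (2 * (B * T))) + ∑ h' ∈ Icc 1 T, GG h' ^ 2 / 2 * (2 * (B * T)) := by
        apply add_le_add
        · apply sum_le_sum
          intro h hh
          rw [← mul_sum]
          exact mul_le_mul_of_nonneg_left (hrow h hh) (by positivity)
        · apply sum_le_sum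
          intro h hh
          rw [← mul_sum]
          exact mul_le_mul_of_nonneg_left (hrow h hh) (by positivity)
    _ = 2 * (B * T) * ∑ h ∈ Icc 1 T, GG h ^ 2 := by
        rw [← sum_mul, ← sum_div]; ring
    _ ≤ 2 * (B * T) * (B * T) := mul_le_mul_of_nonneg_left (HB T) (by positivity)
    _ = _ := by ring

end Pool.Agent.Q48.RD
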