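import Pool.Agent.Q48.RD.PMom
import Pool.Agent.TH464.PW.Quad

/-!
# All moments for the values of a quadratic polynomial at several linear arguments, in short intervals
-/

set_option autoImplicit false

namespace Pool.Agent.Q48.RD

open Filter Finset
open Pool.Agent.Q315.RD
open Pool.Agent.TH464.PW (quad quad_irr quad_deg quad_lead quad_eval)

lemma nonsq_mul_sq {D c : ℤ} (hc : c ≠ 0) (h : ¬ IsSquare D) : ¬ IsSquare (c ^ 2 * D) := by
  rintro ⟨z, hz⟩
  have h1 : c ^ 2 ∣ z ^ 2 := ⟨D, by rw [sq z]; exact hz.symm⟩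
  obtain ⟨w, rfl⟩ := (Int.pow_dvd_pow_iff two_ne_zero).1 h1
  refine h ⟨w, mul_left_cancel₀ (pow_ne_zero 2 hc) ?_⟩
  rw [hz]; ring

/-- **All moments for the values of a quadratic polynomial at several linear arguments.** -/
theorem quadArgMoments (a b e : ℤ) (ha : 0 < a) (hD : ¬ IsSquare (b ^ 2 - 4 * a * e)) (V : ℕ → ℕ) (n₀ : ℕ)
    (hV : ∀ m : ℕ, n₀ ≤ m → a * (m : ℤ) ^ 2 + b * m + e = V m) (hlarge : ∀ m : ℕ, n₀ ≤ m → m ≤ 2 * V m)
    {l : ℕ} (c d : Fin l → ℕ) (hpos : ∀ j, 1 ≤ c j) (hnt : ∀ i j, i ≠ j → c i = c j → ∀ t : ℤ, (d i : ℤ) ≠ d j + c j * t)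
    (hadm : ∀ p : ℕ, p.Prime → ∃ n : ℕ, ∀ j, ¬ (p : ℤ) ∣ a * ((c j * n + d j : ℕ) : ℤ) ^ 2 + b * ((c j * n + d j : ℕ) : ℤ) + e)
    (k : ℕ) (hk : 1 ≤ k) (E : ℕ) :
    ∃ δ : ℝ, 0 < δ ∧ ∃ r₀ : ℕ, 2 ≤ r₀ ∧ ∀ r : ℕ, r₀ ≤ r → ∀ g : ℕ, 2 ≤ g → ∃ κ C : ℝ, 0 < κ ∧ 0 < C ∧
      ∀ᶠ K : ℕ in atTop, ∀ N T : ℕ, n₀ ≤ N → N ≤ g ^ (E * K) → 1 ≤ T → T ≤ g ^ (E * K) → ∀ A : ℕ → Finset ℕ, Rich δ g K A →
        ∑ t ∈ digitSet g K A, (numIn (fun n => ∀ j, (V (c j * n + d j)).Prime) (N + t) T : ℝ) ^ k ≤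
          C * (min 1 ((T : ℝ) / (K : ℝ) ^ l) * max 1 ((T : ℝ) / (K : ℝ) ^ l) ^ k) * choices K A ∧
        ∑ t ∈ digitSet g K A, (numIn (fun n => ∀ j, AlmostPrime (g ^ K) r (V (c j * n + d j))) (N + t) T : ℝ) ^ k ≤
          C * (min 1 ((T : ℝ) / (K : ℝ) ^ l) * max 1 ((T : ℝ) / (K : ℝ) ^ l) ^ k) * choices K A ∧
        (g ≤ T → κ * (min 1 ((T : ℝ) / (K : ℝ) ^ l) * max 1 ((T : ℝ) / (K : ℝ) ^ l) ^ k) * choices K A ≤
            ∑ t ∈ digitSet g K A, (numIn (fun n => ∀ j, AlmostPrime (g ^ K) r (V (c j * n + d j))) (N + t) T : ℝ) ^ k ∧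
          κ * min 1 ((T : ℝ) / (K : ℝ) ^ l) * choices K A ≤
            count g K A (fun t => κ * max 1 ((T : ℝ) / (K : ℝ) ^ l) ≤
              numIn (fun n => ∀ j, AlmostPrime (g ^ K) r (V (c j * n + d j))) (N + t) T)) := by
  have hcz : ∀ j, (0 : ℤ) < c j := fun j => by exact_mod_cast hpos j
  have hA : ∀ j, (0 : ℤ) < a * (c j : ℤ) ^ 2 := fun j => by have := hcz j; positivity
  have heval : ∀ j (n : ℤ), (quad (a * (c j : ℤ) ^ 2) (2 * a * c j * d j + b * c j) (a * (d j : ℤ) ^ 2 + b * d j + e)).eval n =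
      a * (c j * n + d j) ^ 2 + b * (c j * n + d j) + e := by
    intro j n
    rw [quad_eval]; ring
  have hg : ∀ j, ∀ p : ℕ, p.Prime → ¬ ((p : ℤ) ∣ a * (c j : ℤ) ^ 2 ∧ (p : ℤ) ∣ 2 * a * c j * d j + b * c j ∧
      (p : ℤ) ∣ a * (d j : ℤ) ^ 2 + b * d j + e) := by
    intro j p hp hh
    obtain ⟨n, hn⟩ := hadm p hp
    refine hn j ?_
    have h1 : (p : ℤ) ∣ a * (c j : ℤ) ^ 2 * n ^ 2 + (2 * a * c j * d j + b * c j) * n + (a * (d j : ℤ) ^ 2 + b * d j + e) :=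
      ((hh.1.mul_right _).add (hh.2.1.mul_right _)).add hh.2.2
    have h2 : a * (c j : ℤ) ^ 2 * n ^ 2 + (2 * a * c j * d j + b * c j) * n + (a * (d j : ℤ) ^ 2 + b * d j + e) =
        a * ((c j * n + d j : ℕ) : ℤ) ^ 2 + b * ((c j * n + d j : ℕ) : ℤ) + e := by
      push_cast; ring
    rwa [h2] at h1
  have hlead : ∀ j, (quad (a * (c j : ℤ) ^ 2) (2 * a * c j * d j + b * c j) (a * (d j : ℤ) ^ 2 + b * d j + e)).leadingCoeff =
      a * (c j : ℤ) ^ 2 := fun j => quad_lead _ _ _ (hA j).ne'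
  -- two polynomials which agree up to an integer translation have arguments which agree up to this translation
  have hkey : ∀ i j (t : ℤ), (∀ n : ℤ, a * (c i * n + d i) ^ 2 + b * (c i * n + d i) + e =
      a * (c j * (n + t) + d j) ^ 2 + b * (c j * (n + t) + d j) + e) → c i = c j ∧ (d i : ℤ) = d j + c j * t := by
    intro i j t H
    have h1 := hcz i
    have h2 := hcz j
    have H0 := H 0
    have H1 := H 1
    have H2 := H (-1)
    have hc2 : a * ((c i : ℤ) ^ 2) = a * (c j : ℤ) ^ 2 := by linarith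
    have hc3 : (c i : ℤ) ^ 2 = (c j : ℤ) ^ 2 := mul_left_cancel₀ ha.ne' hc2
    have hcc : (c i : ℤ) = c j := by nlinarith
    have hcd : (a * c j) * d i = (a * c j) * (d j + c j * t) := by rw [hcc] at H0 H1 H2; linarith
    exact ⟨by exact_mod_cast hcc, mul_left_cancel₀ (mul_pos ha h2).ne' hcd⟩
  exact polyMoments (fun j => quad (a * (c j : ℤ) ^ 2) (2 * a * c j * d j + b * c j) (a * (d j : ℤ) ^ 2 + b * d j + e))
    { irr := fun j => quad_irr _ _ _ (hA j).ne' (hg j) (by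
        have h3 : (2 * a * (c j : ℤ) * d j + b * c j) ^ 2 - 4 * (a * (c j : ℤ) ^ 2) * (a * (d j : ℤ) ^ 2 + b * d j + e) =
            (c j : ℤ) ^ 2 * (b ^ 2 - 4 * a * e) := by ring
        rw [h3]
        exact nonsq_mul_sq (hcz j).ne' hD)
      deg := fun j => by rw [quad_deg _ _ _ (hA j).ne']; norm_num
      lead := fun j => by rw [hlead]; exact hA j
      inj := fun i j hij => by
        by_contra hne
        have hij' : quad (a * (c i : ℤ) ^ 2) (2 * a * c i * d i + b * c i) (a * (d i : ℤ) ^ 2 + b * d i + e) =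
          quad (a * (c j : ℤ) ^ 2) (2 * a * c j * d j + b * c j) (a * (d j : ℤ) ^ 2 + b * d j + e) := hij
        have h1 := hkey i j 0 fun n => by rw [add_zero, ← heval i n, ← heval j n, hij']
        exact hnt i j hne h1.1 0 h1.2
      adm := fun p hp => by
        obtain ⟨n, hn⟩ := hadm p hp
        refine ⟨n, fun j hh => hn j ?_⟩
        rw [heval] at hh
        push_cast
        exact hh }
    (fun i j hij t hh => by
      have h1 := hkey i j t fun n => by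
        have h2 := congrArg (Polynomial.eval n) hh
        rw [Polynomial.eval_comp, Polynomial.eval_add, Polynomial.eval_X, Polynomial.eval_C, heval, heval] at h2
        exact h2
      exact hnt i j hij h1.1 t h1.2)
    (fun j n => V (c j * n + d j)) n₀ (fun j n hn => by
      have h1 : n ≤ c j * n := Nat.le_mul_of_pos_left n (hpos j)
      rw [heval, ← hV (c j * n + d j) (by omega)]; push_cast; ring)
    (fun j n hn => by
      have h1 : n ≤ c j * n := Nat.le_mul_of_pos_left n (hpos j)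
      have h2 := hlarge (c j * n + d j) (by omega)
      omega) k hk E

end Pool.Agent.Q48.RD
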