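import Pool.Agent.Q48.RD.Pairs

/-!
# Almost prime tuples in short intervals starting at integers with restricted digits
-/

set_option autoImplicit false

namespace Pool.Agent.Q48.RD

open Filter Finset
open Pool.Agent.Q315.RD
open Pool.Agent.Erdos456 (GG)

/-- one class modulo `g` in which the tuple is prime to `g` -/
lemma exists_class_tuple {k : ℕ} (H : Fin k → ℕ) (hadm : AdmZ (fun _ => 1) (fun i => (H i : ℤ))) (g : ℕ) (hg : 2 ≤ g) :
    ∃ x0 : ℕ, ∀ n : ℕ, n ≡ x0 [MOD g] → ∀ j, (n + H j).Coprime g := by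
  classical
  have h1 : ∀ p : ℕ, ∃ n : ℕ, p.Prime → ∀ j, ¬ p ∣ n + H j := by
    intro p
    by_cases hp : p.Prime
    · obtain ⟨z, hz⟩ := hadm p hp
      have hp0 : (0 : ℤ) < p := by exact_mod_cast hp.pos
      refine ⟨(z % p).toNat, fun _ j hj => hz j ?_⟩
      have e : (((z % p).toNat : ℕ) : ℤ) = z % p := Int.toNat_of_nonneg (Int.emod_nonneg _ hp0.ne')
      have h2 : (p : ℤ) ∣ z % p + H j := by
        rw [← e]; exact_mod_cast hj
      have h3 : (p : ℤ) ∣ z - z % p := Int.dvd_self_sub_emod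
      have := dvd_add h2 h3
      have e2 : z % p + (H j : ℤ) + (z - z % p) = 1 * z + H j := by ring
      rwa [e2] at this
    · exact ⟨0, fun h => absurd h hp⟩
  choose n hn using h1
  obtain ⟨x0, hx0⟩ := Nat.chineseRemainderOfFinset n (fun p => p) g.primeFactors
    (fun p hp => (Nat.prime_of_mem_primeFactors hp).ne_zero)
    (fun p hp q hq hpq => (Nat.coprime_primes (Nat.prime_of_mem_primeFactors (mem_coe.1 hp)) (Nat.prime_of_mem_primeFactors (mem_coe.1 hq))).2 hpq)
  refine ⟨x0, fun m hm j => ?_⟩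
  apply Nat.coprime_of_dvd
  intro p hp h2 h3
  have hpm : p ∈ g.primeFactors := Nat.mem_primeFactors.2 ⟨hp, h3, by omega⟩
  have h4 : m ≡ n p [MOD p] := (hm.of_dvd h3).trans (hx0 p hpm)
  have h5 : m + H j ≡ n p + H j [MOD p] := h4.add_right _
  exact hn p hp j ((h5.dvd_iff dvd_rfl).1 h2)

/-- many `h` in `[1, T]` in a class -/
lemma class_many {g T m x0 : ℕ} (hg : 2 ≤ g) (hT : g ≤ T) :
    (T : ℝ) / (2 * g) ≤ (((Icc 1 T).filter fun h => m + h ≡ x0 [MOD g]).card : ℝ) := by
  classical
  obtain ⟨h0, hh0, hh1, hh2⟩ : ∃ h0, 1 ≤ h0 ∧ h0 ≤ g ∧ m + h0 ≡ x0 [MOD g] := by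
    obtain ⟨e, he⟩ : ∃ e, e = (m + (g - x0 % g)) % g := ⟨_, rfl⟩
    have he1 : e < g := by rw [he]; exact Nat.mod_lt _ (by omega)
    refine ⟨g - e, by omega, by omega, ?_⟩
    have hx := Nat.mod_lt x0 (by omega : 0 < g)
    have h1 : e ≡ m + (g - x0 % g) [MOD g] := by rw [he]; exact Nat.mod_modEq _ _
    have h2 : m + (g - e) + e ≡ x0 + e [MOD g] := by
      have e1 : m + (g - e) + e = m + g := by omega
      rw [e1]
      have h3 : x0 + e ≡ x0 % g + (m + (g - x0 % g)) [MOD g] := ((Nat.mod_modEq x0 g).symm).add h1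
      have e2 : x0 % g + (m + (g - x0 % g)) = m + g := by omega
      rw [e2] at h3
      exact h3.symm
    exact Nat.ModEq.add_right_cancel' e h2
  have h1 : T / g ≤ ((Icc 1 T).filter fun h => m + h ≡ x0 [MOD g]).card := by
    calc T / g = (range (T / g)).card := (card_range _).symm
      _ ≤ _ := by
        apply card_le_card_of_injOn (fun i => h0 + g * i)
        · intro i hi
          have hi' := mem_range.1 (mem_coe.1 hi)
          rw [mem_coe, mem_filter, mem_Icc]
          have h2 : g * (i + 1) ≤ g * (T / g) := Nat.mul_le_mul_left _ hi'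
          have h3 : g * (T / g) ≤ T := Nat.mul_div_le T g
          have h4 : g * (i + 1) = g * i + g := by ring
          change (1 ≤ h0 + g * i ∧ h0 + g * i ≤ T) ∧ m + (h0 + g * i) ≡ x0 [MOD g]
          refine ⟨⟨by omega, by omega⟩, ?_⟩
          rw [← add_assoc]
          have h5 : m + h0 + g * i ≡ m + h0 + 0 [MOD g] := Nat.ModEq.add_left _ ((Nat.modEq_zero_iff_dvd).2 (Dvd.intro _ rfl))
          rw [add_zero] at h5
          exact h5.trans hh2
        · intro i _ i' _ h2
          have h3 : g * i = g * i' := by simpa using h2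
          exact Nat.eq_of_mul_eq_mul_left (by omega) h3
  refine le_trans ?_ (Nat.cast_le.2 h1)
  have h2 : T < g * (T / g + 1) := by
    have := Nat.div_add_mod T g
    have := Nat.mod_lt T (by omega : 0 < g)
    rw [mul_add, mul_one]
    omega
  have h3 : 1 ≤ T / g := (Nat.one_le_div_iff (by omega)).2 hT
  have h4 : (T : ℝ) ≤ g * ((T / g : ℕ) + 1) := by exact_mod_cast h2.le
  have h5 : (1 : ℝ) ≤ (T / g : ℕ) := by exact_mod_cast h3
  have hg0 : (0 : ℝ) < g := by exact_mod_cast (by omega : 0 < g)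
  rw [div_le_iff₀ (by positivity)]
  nlinarith

/-- a product is at most a sum of powers -/
lemma prod_le_sum_pow {ι : Type*} (s : Finset ι) (f : ι → ℝ) (hf : ∀ i ∈ s, 0 ≤ f i) :
    ∏ i ∈ s, f i ≤ 1 + ∑ i ∈ s, f i ^ s.card := by
  classical
  rcases s.eq_empty_or_nonempty with rfl | hs
  · simp
  obtain ⟨i0, hi0, hmax⟩ := s.exists_max_image f hs
  calc ∏ i ∈ s, f i ≤ ∏ _i ∈ s, f i0 := Finset.prod_le_prod hf hmax
    _ = f i0 ^ s.card := by rw [prod_const]
    _ ≤ ∑ i ∈ s, f i ^ s.card := single_le_sum (f := fun i => f i ^ s.card) (fun i hi => pow_nonneg (hf i hi) _) hi0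
    _ ≤ _ := by linarith

/-- sums of powers of `n / φ (n)` over differences -/
lemma sum_diff {m : ℕ} {B : ℝ} (HB : ∀ X : ℕ, ∑ n ∈ Icc 1 X, GG n ^ m ≤ B * X) (T D : ℕ) (e : ℤ) (he : e.natAbs ≤ D) :
    ∑ h' ∈ Icc 1 T, (if (h' : ℤ) + e = 0 then 0 else GG ((h' : ℤ) + e).natAbs ^ m) ≤ 2 * (B * (T + D)) := by
  classical
  have hG : ∀ n : ℕ, 0 ≤ GG n := fun n => by unfold GG; positivity
  have h1 : ∀ h' ∈ Icc 1 T, (if (h' : ℤ) + e = 0 then 0 else GG ((h' : ℤ) + e).natAbs ^ m) ≤
      (if 0 < (h' : ℤ) + e then GG ((h' : ℤ) + e).natAbs ^ m else 0) + (if (h' : ℤ) + e < 0 then GG ((h' : ℤ) + e).natAbs ^ m else 0) := by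
    intro h' _
    rcases lt_trichotomy ((h' : ℤ) + e) 0 with h2 | h2 | h2
    · rw [if_neg h2.ne, if_neg (by omega), if_pos h2, zero_add]
    · rw [if_pos h2, if_neg (by omega), if_neg (by omega), add_zero]
    · rw [if_neg h2.ne', if_pos h2, if_neg (by omega), add_zero]
  refine (sum_le_sum h1).trans ?_
  rw [sum_add_distrib, two_mul]
  have hGs : ∀ s : Finset ℕ, Set.InjOn (fun y : ℕ => ((y : ℤ) + e).natAbs) s → (∀ y ∈ s, 1 ≤ ((y : ℤ) + e).natAbs ∧ y ≤ T) →
      ∑ y ∈ s, GG ((y : ℤ) + e).natAbs ^ m ≤ B * (T + D) := by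
    intro s hinj hφ
    calc ∑ y ∈ s, GG ((y : ℤ) + e).natAbs ^ m = ∑ z ∈ s.image (fun y : ℕ => ((y : ℤ) + e).natAbs), GG z ^ m := by rw [sum_image hinj]
      _ ≤ ∑ z ∈ Icc 1 (T + D), GG z ^ m := by
          apply sum_le_sum_of_subset_of_nonneg
          · intro z hz
            obtain ⟨y, hy, rfl⟩ := mem_image.1 hz
            have h2 := hφ y hy
            refine mem_Icc.2 ⟨h2.1, ?_⟩
            have h3 := Int.natAbs_add_le (y : ℤ) e
            have h4 : (y : ℤ).natAbs = y := rfl
            omega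
          · intro _ _ _
            exact pow_nonneg (hG _) _
      _ ≤ B * (T + D) := by
          have := HB (T + D)
          push_cast at this
          exact this
  apply add_le_add
  · rw [← sum_filter]
    apply hGs
    · intro y hy y' hy' h3
      have h6 := (mem_filter.1 (mem_coe.1 hy)).2
      have h7 := (mem_filter.1 (mem_coe.1 hy')).2
      simp only at h3
      omega
    · intro y hy
      rw [mem_filter, mem_Icc] at hy
      omega
  · rw [← sum_filter]
    apply hGs
    · intro y hy y' hy' h3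
      have h6 := (mem_filter.1 (mem_coe.1 hy)).2
      have h7 := (mem_filter.1 (mem_coe.1 hy')).2
      simp only at h3
      omega
    · intro y hy
      rw [mem_filter, mem_Icc] at hy
      omega

open Classical in
/-- The number of the `h` with `1 ≤ h ≤ T` such that all `x + h + H j` have at most `r` prime factors, all larger than `y ^ (1 / r)`. -/
noncomputable def tuplesIn {k : ℕ} (H : Fin k → ℕ) (y r x T : ℕ) : ℕ := ((Icc 1 T).filter fun h => ∀ j, AlmostPrime y r (x + h + H j)).card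

lemma GG_le_self {n : ℕ} (hn : 1 ≤ n) : GG n ≤ n := by
  unfold GG
  rw [div_le_iff₀ (by exact_mod_cast Nat.totient_pos.2 hn)]
  have : (1 : ℝ) ≤ n.totient := by exact_mod_cast Nat.totient_pos.2 hn
  exact le_mul_of_one_le_right (Nat.cast_nonneg n) this

/-- **Upper bound for two tuples.** -/
theorem twoTuples {k : ℕ} (H : Fin k → ℕ) (hinj : Function.Injective H) (E : ℕ) :
    ∃ c : ℝ, 0 < c ∧ ∃ r₀ : ℕ, 2 ≤ r₀ ∧ ∀ r : ℕ, r₀ ≤ r → ∀ g : ℕ, 2 ≤ g → ∃ C : ℝ, 0 < C ∧
      ∀ᶠ K : ℕ in atTop, ∀ N T : ℕ, N ≤ g ^ (E * K) → 1 ≤ T → T ≤ g ^ (E * K) → ∀ A : ℕ → Finset ℕ, Rich c g K A →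
        ∑ h ∈ Icc 1 T, ∑ h' ∈ Icc 1 T, (count g K A (fun t => (∀ j, AlmostPrime (g ^ K) r (N + t + h + H j)) ∧
          ∀ j, AlmostPrime (g ^ K) r (N + t + h' + H j)) : ℝ) ≤ C * (T / (K : ℝ) ^ k) * (1 + T / (K : ℝ) ^ k) * choices K A := by
  classical
  obtain ⟨c1, hc1, r1, hr1, H1⟩ := upForms k (E + 1)
  obtain ⟨c2, hc2, r2, hr2, H2⟩ := upForms (k + k) (E + 1)
  obtain ⟨R, hR⟩ : ∃ R : Finset (Fin (k + k) × Fin (k + k)), R = univ.filter (fun x => x.1 < x.2) := ⟨_, rfl⟩
  obtain ⟨B, hB, HB⟩ := GG_moment R.card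
  obtain ⟨D, hD⟩ : ∃ D : ℕ, D = ∑ i, H i := ⟨_, rfl⟩
  have hHD : ∀ i, H i ≤ D := fun i => by rw [hD]; exact single_le_sum (f := H) (fun _ _ => Nat.zero_le _) (mem_univ i)
  have hG : ∀ n : ℕ, 0 ≤ GG n := fun n => by unfold GG; positivity
  refine ⟨min c1 c2, lt_min hc1 hc2, max r1 r2, by omega, fun r hr g hg => ?_⟩
  obtain ⟨C1, hC1, H1⟩ := H1 r (by omega) g hg
  obtain ⟨C2, hC2, H2⟩ := H2 r (by omega) g hg
  obtain ⟨w, W, hw, hW, HG⟩ := oneV_GG (E + 1) g hg
  obtain ⟨G0, hG0⟩ : ∃ G0 : ℝ, G0 = ∏ x ∈ (univ : Finset (Fin k × Fin k)).filter (fun x => x.1 < x.2), GG ((H x.2 : ℤ) - H x.1).natAbs := ⟨_, rfl⟩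
  have hG00 : 0 ≤ G0 := by rw [hG0]; exact prod_nonneg fun _ _ => hG _
  obtain ⟨Z, hZ⟩ : ∃ Z : ℝ, Z = 2 * (B * (2 + D)) + (D : ℝ) ^ R.card := ⟨_, rfl⟩
  have hZ0 : 0 ≤ Z := by rw [hZ]; positivity
  obtain ⟨C, hC⟩ : ∃ C : ℝ, C = C1 * W ^ k * G0 * (k * k) + C2 * W ^ (k + k) * (1 + R.card * Z) + 1 := ⟨_, rfl⟩
  refine ⟨C, by rw [hC]; positivity, ?_⟩
  filter_upwards [H1, H2, HG, eventually_ge_atTop (D + 1)] with K K1 K2 KG hK1
  intro N T hN hT1 hT A hA
  have hKr : (0 : ℝ) < K := by exact_mod_cast (by omega : 0 < K)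
  have hg1 : 1 ≤ g := by omega
  have hrich : ∀ c' : ℝ, min c1 c2 ≤ c' → Rich c' g K A := fun c' hc' => ⟨hA.1, hA.2.trans (by gcongr)⟩
  have hcs : (0 : ℝ) ≤ choices K A := Nat.cast_nonneg _
  have hTr : (1 : ℝ) ≤ T := by exact_mod_cast hT1
  have hN' : N ≤ g ^ ((E + 1) * K) := hN.trans (Nat.pow_le_pow_right hg1 (by nlinarith))
  have hone : 1 ≤ g ^ ((E + 1) * K) := Nat.one_le_pow _ _ hg1
  have hβ : ∀ h ≤ T, ∀ i, |((h : ℤ) + H i)| ≤ (g : ℤ) ^ ((E + 1) * K) := by
    intro h hh i
    rw [abs_of_nonneg (by positivity)]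
    have h1 : D + 1 ≤ g ^ K := by
      calc D + 1 ≤ K := hK1
        _ ≤ g ^ K := (Nat.lt_pow_self (by omega)).le
    have h2 : h + H i ≤ g ^ ((E + 1) * K) := by
      have e : g ^ ((E + 1) * K) = g ^ (E * K) * g ^ K := by rw [← pow_add]; congr 1; ring
      have e0 : 1 ≤ g ^ (E * K) := Nat.one_le_pow _ _ hg1
      calc h + H i ≤ g ^ (E * K) + D := Nat.add_le_add (hh.trans hT) (hHD i)
        _ ≤ g ^ (E * K) * (D + 1) := by nlinarith
        _ ≤ g ^ (E * K) * g ^ K := Nat.mul_le_mul_left _ h1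
        _ = _ := e.symm
    exact_mod_cast h2
  have honeZ : |(1 : ℤ)| ≤ (g : ℤ) ^ ((E + 1) * K) := by
    rw [abs_one]
    exact_mod_cast hone
  have hV1 : oneV (1 : ℤ) (g ^ K) ≤ W / K := by
    have hGG1 : GG 1 = 1 := by unfold GG; simp
    have := (KG 1 le_rfl hone).2
    rw [hGG1, mul_one] at this
    exact_mod_cast this
  have hV10 := oneV_nonneg 1 (g ^ K)
  -- one tuple
  have hsingle : ∀ h ∈ Icc 1 T, (count g K A (fun t => ∀ j, AlmostPrime (g ^ K) r (N + t + h + H j)) : ℝ) ≤
      C1 * W ^ k * G0 / (K : ℝ) ^ k * choices K A := by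
    intro h hh
    rw [mem_Icc] at hh
    have h4 := K1 (fun _ => (1 : ℤ)) (fun i => (h : ℤ) + H i) N (fun i t => N + t + h + H i) (fun _ => honeZ)
      (fun i => hβ h hh.2 i) hN' (fun _ => isCoprime_one_left)
      (fun i j hij => by
        intro h0
        have h5 : H i = H j := by omega
        exact hij.ne (hinj h5)) (fun t _ i => by push_cast; ring) A (hrich c1 (min_le_left _ _))
    have h5 : ∀ x : Fin k × Fin k, (1 * ((h : ℤ) + H x.2) - 1 * ((h : ℤ) + H x.1)) = (H x.2 : ℤ) - H x.1 := fun x => by ring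
    simp only [h5, ← hG0, prod_const, card_univ, Fintype.card_fin] at h4
    refine h4.trans ?_
    calc C1 * (oneV 1 (g ^ K) ^ k * G0) * choices K A ≤ C1 * ((W / K) ^ k * G0) * choices K A := by gcongr
      _ = _ := by rw [div_pow]; ring
  -- two tuples
  have hpair : ∀ h ∈ Icc 1 T, ∀ h' ∈ Icc 1 T, (count g K A (fun t => (∀ j, AlmostPrime (g ^ K) r (N + t + h + H j)) ∧
          ∀ j, AlmostPrime (g ^ K) r (N + t + h' + H j)) : ℝ) ≤
      (∑ x : Fin k × Fin k, if h' = h + H x.1 - H x.2 then C1 * W ^ k * G0 / (K : ℝ) ^ k * choices K A else 0) +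
      C2 * W ^ (k + k) / (K : ℝ) ^ (k + k) * choices K A * (1 + ∑ x ∈ R,
        (if Fin.append (fun i => (h : ℤ) + H i) (fun i => (h' : ℤ) + H i) x.2 -
          Fin.append (fun i => (h : ℤ) + H i) (fun i => (h' : ℤ) + H i) x.1 = 0 then 0 else
            GG (Fin.append (fun i => (h : ℤ) + H i) (fun i => (h' : ℤ) + H i) x.2 -
          Fin.append (fun i => (h : ℤ) + H i) (fun i => (h' : ℤ) + H i) x.1).natAbs ^ R.card)) := by
    intro h hh h' hh'
    obtain ⟨β, hβd⟩ : ∃ β : Fin (k + k) → ℤ, β = Fin.append (fun i => (h : ℤ) + H i) (fun i => (h' : ℤ) + H i) := ⟨_, rfl⟩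
    rw [← hβd]
    have hsum0 : 0 ≤ ∑ x ∈ R, (if β x.2 - β x.1 = 0 then 0 else GG (β x.2 - β x.1).natAbs ^ R.card) := by
      apply sum_nonneg
      intro x _
      split_ifs
      · exact le_rfl
      · exact pow_nonneg (hG _) _
    have hsum1 : 0 ≤ ∑ x : Fin k × Fin k, if h' = h + H x.1 - H x.2 then C1 * W ^ k * G0 / (K : ℝ) ^ k * choices K A else 0 := by
      apply sum_nonneg
      intro x _
      split_ifs
      · positivity
      · exact le_rfl
    by_cases hov : ∃ x : Fin k × Fin k, h' = h + H x.1 - H x.2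
    · obtain ⟨x, hx⟩ := hov
      have h1 : (count g K A (fun t => (∀ j, AlmostPrime (g ^ K) r (N + t + h + H j)) ∧
          ∀ j, AlmostPrime (g ^ K) r (N + t + h' + H j)) : ℝ) ≤ C1 * W ^ k * G0 / (K : ℝ) ^ k * choices K A :=
        (Nat.cast_le.2 (count_mono fun t _ hP => hP.1)).trans (hsingle h hh)
      have h2 : C1 * W ^ k * G0 / (K : ℝ) ^ k * choices K A ≤
          ∑ x : Fin k × Fin k, if h' = h + H x.1 - H x.2 then C1 * W ^ k * G0 / (K : ℝ) ^ k * choices K A else 0 := by
        calc C1 * W ^ k * G0 / (K : ℝ) ^ k * choices K A = if h' = h + H x.1 - H x.2 then C1 * W ^ k * G0 / (K : ℝ) ^ k * choices K A else 0 := by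
              rw [if_pos hx]
          _ ≤ _ := single_le_sum (f := fun x : Fin k × Fin k => if h' = h + H x.1 - H x.2 then C1 * W ^ k * G0 / (K : ℝ) ^ k * choices K A else 0)
              (fun x _ => by
                split_ifs
                · positivity
                · exact le_rfl) (mem_univ x)
      have h3 : 0 ≤ C2 * W ^ (k + k) / (K : ℝ) ^ (k + k) * choices K A * (1 + ∑ x ∈ R, (if β x.2 - β x.1 = 0 then 0 else GG (β x.2 - β x.1).natAbs ^ R.card)) := by
        positivity
      linarith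
    · push Not at hov
      rw [mem_Icc] at hh hh'
      have hne : ∀ i j : Fin (k + k), i < j → β j - β i ≠ 0 := by
        intro i j
        rw [hβd]
        refine Fin.addCases (fun i => ?_) (fun i => ?_) i
        · refine Fin.addCases (fun j => ?_) (fun j => ?_) j
          · intro hij h0
            rw [Fin.append_left, Fin.append_left] at h0
            have h5 : H i = H j := by omega
            have h6 := hinj h5
            rw [h6] at hij
            exact lt_irrefl _ hij
          · intro _ h0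
            rw [Fin.append_left, Fin.append_right] at h0
            exact hov (i, j) (by dsimp only; omega)
        · refine Fin.addCases (fun j => ?_) (fun j => ?_) j
          · intro hij
            exfalso
            have h5 : (Fin.natAdd k i : Fin (k + k)).val < (Fin.castAdd k j : Fin (k + k)).val := hij
            rw [Fin.val_natAdd, Fin.val_castAdd] at h5
            have := j.2
            omega
          · intro hij h0
            rw [Fin.append_right, Fin.append_right] at h0
            have h5 : H i = H j := by omega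
            have h6 := hinj h5
            rw [h6] at hij
            exact lt_irrefl _ hij
      have h4 := K2 (fun _ => (1 : ℤ)) β N (fun j t => Fin.append (fun i => N + t + h + H i) (fun i => N + t + h' + H i) j) (fun _ => honeZ)
        (fun j => by
          rw [hβd]
          refine Fin.addCases (fun i => ?_) (fun i => ?_) j
          · rw [Fin.append_left]; exact hβ h hh.2 i
          · rw [Fin.append_right]; exact hβ h' hh'.2 i) hN' (fun _ => isCoprime_one_left)
        (fun i j hij => by rw [one_mul, one_mul]; exact hne i j hij)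
        (fun t _ j => by
          rw [hβd]
          refine Fin.addCases (fun i => ?_) (fun i => ?_) j
          · rw [Fin.append_left, Fin.append_left]; push_cast; ring
          · rw [Fin.append_right, Fin.append_right]; push_cast; ring) A (hrich c2 (min_le_right _ _))
      rw [← hR] at h4
      simp only [prod_const, card_univ, Fintype.card_fin, one_mul] at h4
      have h5 : count g K A (fun t => (∀ j, AlmostPrime (g ^ K) r (N + t + h + H j)) ∧ ∀ j, AlmostPrime (g ^ K) r (N + t + h' + H j)) ≤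
          count g K A (fun t => ∀ j, AlmostPrime (g ^ K) r (Fin.append (fun i => N + t + h + H i) (fun i => N + t + h' + H i) j)) := by
        apply count_mono
        intro t _ hP j
        refine Fin.addCases (fun i => ?_) (fun i => ?_) j
        · rw [Fin.append_left]; exact hP.1 i
        · rw [Fin.append_right]; exact hP.2 i
      refine ((Nat.cast_le.2 h5).trans h4).trans ?_
      have h6 := prod_le_sum_pow R (fun x => GG (β x.2 - β x.1).natAbs) (fun _ _ => hG _)
      have h7 : ∑ x ∈ R, GG (β x.2 - β x.1).natAbs ^ R.card = ∑ x ∈ R, (if β x.2 - β x.1 = 0 then 0 else GG (β x.2 - β x.1).natAbs ^ R.card) := by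
        apply sum_congr rfl
        intro x hx
        rw [hR, mem_filter] at hx
        rw [if_neg (hne x.1 x.2 hx.2)]
      rw [h7] at h6
      calc C2 * (oneV 1 (g ^ K) ^ (k + k) * ∏ x ∈ R, GG (β x.2 - β x.1).natAbs) * choices K A
          ≤ C2 * ((W / K) ^ (k + k) * (1 + ∑ x ∈ R, (if β x.2 - β x.1 = 0 then 0 else GG (β x.2 - β x.1).natAbs ^ R.card))) * choices K A := by
            apply mul_le_mul_of_nonneg_right _ hcs
            apply mul_le_mul_of_nonneg_left _ hC2.le
            apply mul_le_mul (pow_le_pow_left₀ hV10 hV1 _) h6 (prod_nonneg fun _ _ => hG _) (by positivity)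
        _ = C2 * W ^ (k + k) / (K : ℝ) ^ (k + k) * choices K A * (1 + ∑ x ∈ R, (if β x.2 - β x.1 = 0 then 0 else GG (β x.2 - β x.1).natAbs ^ R.card)) := by
            rw [div_pow]; ring
        _ ≤ _ := by linarith
  -- the sum over the second tuple
  have hrow : ∀ h ∈ Icc 1 T, ∑ h' ∈ Icc 1 T, (count g K A (fun t => (∀ j, AlmostPrime (g ^ K) r (N + t + h + H j)) ∧
          ∀ j, AlmostPrime (g ^ K) r (N + t + h' + H j)) : ℝ) ≤
      C1 * W ^ k * G0 / (K : ℝ) ^ k * choices K A * (k * k) +
        C2 * W ^ (k + k) / (K : ℝ) ^ (k + k) * choices K A * (T + R.card * (Z * T)) := by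
    intro h hh
    refine (sum_le_sum fun h' hh' => hpair h hh h' hh').trans ?_
    rw [sum_add_distrib]
    apply add_le_add
    · rw [sum_comm]
      have h1 : ∀ x : Fin k × Fin k, ∑ h' ∈ Icc 1 T, (if h' = h + H x.1 - H x.2 then C1 * W ^ k * G0 / (K : ℝ) ^ k * choices K A else 0) ≤
          C1 * W ^ k * G0 / (K : ℝ) ^ k * choices K A := by
        intro x
        rw [sum_ite_eq']
        split_ifs
        · exact le_rfl
        · positivity
      refine (sum_le_sum fun x _ => h1 x).trans (le_of_eq ?_)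
      rw [sum_const, nsmul_eq_mul, card_univ, Fintype.card_prod, Fintype.card_fin]
      push_cast
      ring
    · rw [← mul_sum]
      apply mul_le_mul_of_nonneg_left _ (by positivity)
      rw [sum_add_distrib, sum_const, Nat.card_Icc, Nat.add_sub_cancel, nsmul_eq_mul, mul_one, sum_comm]
      apply add_le_add_right
      have h2 : ∀ x ∈ R, ∑ h' ∈ Icc 1 T, (if Fin.append (fun i => (h : ℤ) + H i) (fun i => (h' : ℤ) + H i) x.2 -
          Fin.append (fun i => (h : ℤ) + H i) (fun i => (h' : ℤ) + H i) x.1 = 0 then 0 else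
            GG (Fin.append (fun i => (h : ℤ) + H i) (fun i => (h' : ℤ) + H i) x.2 -
          Fin.append (fun i => (h : ℤ) + H i) (fun i => (h' : ℤ) + H i) x.1).natAbs ^ R.card) ≤ Z * T := by
        intro x hx
        rw [mem_Icc] at hh
        rw [hR, mem_filter] at hx
        have hconst : ∀ i j : Fin k, ∑ _h' ∈ Icc 1 T, (if (H j : ℤ) - H i = 0 then 0 else GG ((H j : ℤ) - H i).natAbs ^ R.card) ≤ Z * T := by
          intro i j
          have h3 : (if (H j : ℤ) - H i = 0 then 0 else GG ((H j : ℤ) - H i).natAbs ^ R.card) ≤ Z := by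
            split_ifs with h0
            · exact hZ0
            · have h4 : 1 ≤ ((H j : ℤ) - H i).natAbs := by omega
              have h5 : ((H j : ℤ) - H i).natAbs ≤ D := by have := hHD i; have := hHD j; omega
              have h6 : GG ((H j : ℤ) - H i).natAbs ≤ D := (GG_le_self h4).trans (by exact_mod_cast h5)
              have h7 := pow_le_pow_left₀ (hG _) h6 R.card
              rw [hZ]
              have : 0 ≤ 2 * (B * (2 + D)) := by positivity
              linarith
          rw [sum_const, Nat.card_Icc, Nat.add_sub_cancel, nsmul_eq_mul, mul_comm]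
          exact mul_le_mul_of_nonneg_right h3 (by linarith)
        obtain ⟨a, b⟩ := x
        dsimp only at hx ⊢
        revert hx
        refine Fin.addCases (fun i => ?_) (fun i => ?_) a
        · refine Fin.addCases (fun j => ?_) (fun j => ?_) b
          · intro _
            have e : ∀ h' : ℕ, Fin.append (fun i => (h : ℤ) + H i) (fun i => (h' : ℤ) + H i) (Fin.castAdd k j) -
                Fin.append (fun i => (h : ℤ) + H i) (fun i => (h' : ℤ) + H i) (Fin.castAdd k i) = (H j : ℤ) - H i := by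
              intro h'
              rw [Fin.append_left, Fin.append_left]; ring
            simp only [e]
            exact hconst i j
          · intro _
            have e : ∀ h' : ℕ, Fin.append (fun i => (h : ℤ) + H i) (fun i => (h' : ℤ) + H i) (Fin.natAdd k j) -
                Fin.append (fun i => (h : ℤ) + H i) (fun i => (h' : ℤ) + H i) (Fin.castAdd k i) = (h' : ℤ) + ((H j : ℤ) - H i - h) := by
              intro h'
              rw [Fin.append_left, Fin.append_right]; ring
            simp only [e]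
            have h3 := sum_diff HB T (T + D) ((H j : ℤ) - H i - h) (by have := hHD i; have := hHD j; omega)
            refine h3.trans ?_
            rw [hZ]
            push_cast
            have h4 : (0 : ℝ) ≤ (D : ℝ) ^ R.card * T := by positivity
            have h5 : 2 * (B * ((T : ℝ) + (T + D))) ≤ 2 * (B * (2 + D)) * T := by
              have h6 : (T : ℝ) + (T + D) ≤ (2 + D) * T := by
                have : (D : ℝ) ≤ D * T := le_mul_of_one_le_right (Nat.cast_nonneg D) hTr
                linarith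
              calc 2 * (B * ((T : ℝ) + (T + D))) ≤ 2 * (B * ((2 + D) * T)) := by gcongr
                _ = _ := by ring
            linarith
        · refine Fin.addCases (fun j => ?_) (fun j => ?_) b
          · intro hx
            exfalso
            have h5 : (Fin.natAdd k i : Fin (k + k)).val < (Fin.castAdd k j : Fin (k + k)).val := hx.2
            rw [Fin.val_natAdd, Fin.val_castAdd] at h5
            have := j.2
            omega
          · intro _
            have e : ∀ h' : ℕ, Fin.append (fun i => (h : ℤ) + H i) (fun i => (h' : ℤ) + H i) (Fin.natAdd k j) -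
                Fin.append (fun i => (h : ℤ) + H i) (fun i => (h' : ℤ) + H i) (Fin.natAdd k i) = (H j : ℤ) - H i := by
              intro h'
              rw [Fin.append_right, Fin.append_right]; ring
            simp only [e]
            exact hconst i j
      refine (sum_le_sum h2).trans (le_of_eq ?_)
      rw [sum_const, nsmul_eq_mul]
  refine (sum_le_sum hrow).trans ?_
  rw [sum_const, Nat.card_Icc, Nat.add_sub_cancel, nsmul_eq_mul]
  have hKk : (0 : ℝ) < (K : ℝ) ^ k := by positivity
  calc (T : ℝ) * (C1 * W ^ k * G0 / (K : ℝ) ^ k * choices K A * (k * k) +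
        C2 * W ^ (k + k) / (K : ℝ) ^ (k + k) * choices K A * (T + R.card * (Z * T)))
      = ((C1 * W ^ k * G0 * (k * k)) * 1 + (C2 * W ^ (k + k) * (1 + R.card * Z)) * (T / (K : ℝ) ^ k)) * (T / (K : ℝ) ^ k) * choices K A := by
        rw [pow_add (K : ℝ) k k]; field_simp
    _ ≤ (C * 1 + C * (T / (K : ℝ) ^ k)) * (T / (K : ℝ) ^ k) * choices K A := by
        have h3 : C1 * W ^ k * G0 * (k * k) ≤ C := by
          rw [hC]; have : 0 ≤ C2 * W ^ (k + k) * (1 + R.card * Z) := by positivity
          linarith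
        have h4 : C2 * W ^ (k + k) * (1 + R.card * Z) ≤ C := by
          rw [hC]; have : 0 ≤ C1 * W ^ k * G0 * (k * k) := by positivity
          linarith
        gcongr
    _ = _ := by ring

/-- **Almost prime tuples in short intervals**: `N` arbitrary, and the interval begins at `N + t`, where `t` has restricted digits. -/
theorem tupleWindow {k : ℕ} (H : Fin k → ℕ) (hinj : Function.Injective H) (hadm : AdmZ (fun _ => 1) (fun i => (H i : ℤ))) (E : ℕ) :
    ∃ c : ℝ, 0 < c ∧ ∃ r₀ : ℕ, 2 ≤ r₀ ∧ ∀ r : ℕ, r₀ ≤ r → ∀ g : ℕ, 2 ≤ g → ∃ κ : ℝ, 0 < κ ∧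
      ∀ᶠ K : ℕ in atTop, ∀ N T : ℕ, N ≤ g ^ (E * K) → g ≤ T → T ≤ g ^ (E * K) → ∀ A : ℕ → Finset ℕ, Rich c g K A →
        κ * min 1 ((T : ℝ) / (K : ℝ) ^ k) * choices K A ≤
          count g K A (fun t => κ * max 1 ((T : ℝ) / (K : ℝ) ^ k) ≤ tuplesIn H (g ^ K) r (N + t) T) := by
  classical
  obtain ⟨c1, hc1, r1, hr1, H1⟩ := famLinR k (E + 1)
  obtain ⟨c2, hc2, r2, hr2, H2⟩ := twoTuples H hinj E
  obtain ⟨D, hD⟩ : ∃ D : ℕ, D = ∑ i, H i := ⟨_, rfl⟩
  have hHD : ∀ i, H i ≤ D := fun i => by rw [hD]; exact single_le_sum (f := H) (fun _ _ => Nat.zero_le _) (mem_univ i)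
  refine ⟨min c1 c2, lt_min hc1 hc2, max r1 r2, by omega, fun r hr g hg => ?_⟩
  obtain ⟨κ1, C1, hκ1, hC1, H1⟩ := H1 r (by omega) g hg
  obtain ⟨C, hC, H2⟩ := H2 r (by omega) g hg
  obtain ⟨x0, hx0⟩ := exists_class_tuple H hadm g hg
  have hg0 : (0 : ℝ) < g := by exact_mod_cast (by omega : 0 < g)
  refine ⟨min (min 1 (κ1 / (4 * g))) (κ1 ^ 2 / (32 * g ^ 2 * C)), by positivity, ?_⟩
  filter_upwards [H1, H2, eventually_ge_atTop (D + 1)] with K K1 K2 hK1
  intro N T hN hgT hT A hA
  have hKr : (0 : ℝ) < K := by exact_mod_cast (by omega : 0 < K)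
  have hg1 : 1 ≤ g := by omega
  have hrich : ∀ c' : ℝ, min c1 c2 ≤ c' → Rich c' g K A := fun c' hc' => ⟨hA.1, hA.2.trans (by gcongr)⟩
  have hcs : (0 : ℝ) ≤ choices K A := Nat.cast_nonneg _
  have hTr : (0 : ℝ) < T := by exact_mod_cast (by omega : 0 < T)
  have hN' : N ≤ g ^ ((E + 1) * K) := hN.trans (Nat.pow_le_pow_right hg1 (by nlinarith))
  have hone : 1 ≤ g ^ ((E + 1) * K) := Nat.one_le_pow _ _ hg1
  have hβ : ∀ h ≤ T, ∀ i, |((h : ℤ) + H i)| ≤ (g : ℤ) ^ ((E + 1) * K) := by
    intro h hh i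
    rw [abs_of_nonneg (by positivity)]
    have h1 : D + 1 ≤ g ^ K := by
      calc D + 1 ≤ K := hK1
        _ ≤ g ^ K := (Nat.lt_pow_self (by omega)).le
    have h2 : h + H i ≤ g ^ ((E + 1) * K) := by
      have e : g ^ ((E + 1) * K) = g ^ (E * K) * g ^ K := by rw [← pow_add]; congr 1; ring
      have e0 : 1 ≤ g ^ (E * K) := Nat.one_le_pow _ _ hg1
      calc h + H i ≤ g ^ (E * K) + D := Nat.add_le_add (hh.trans hT) (hHD i)
        _ ≤ g ^ (E * K) * (D + 1) := by nlinarith
        _ ≤ g ^ (E * K) * g ^ K := Nat.mul_le_mul_left _ h1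
        _ = _ := e.symm
    exact_mod_cast h2
  have honeZ : |(1 : ℤ)| ≤ (g : ℤ) ^ ((E + 1) * K) := by
    rw [abs_one]
    exact_mod_cast hone
  have hA0 : (A 0).Nonempty := by
    rw [← card_pos, Nat.pos_iff_ne_zero]
    intro h0
    have h2 : choices K A = 0 := prod_eq_zero (mem_range.2 (by omega : 0 < K)) h0
    have h1 := hA.2
    rw [h2, Nat.cast_zero, mul_zero] at h1
    have : (0 : ℝ) < (g : ℝ) ^ K := by positivity
    linarith
  obtain ⟨d, hd⟩ := hA0
  obtain ⟨u, hu⟩ : ∃ u : ℝ, u = (T : ℝ) / (K : ℝ) ^ k := ⟨_, rfl⟩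
  have hu0 : 0 < u := by rw [hu]; positivity
  rw [← hu]
  have hX : κ1 * u / (2 * g) * choices K A ≤
      ∑ h ∈ Icc 1 T, (count g K A (fun t => True ∧ ∀ j, AlmostPrime (g ^ K) r (N + t + h + H j)) : ℝ) := by
    calc κ1 * u / (2 * g) * choices K A = T / (2 * g) * (κ1 * choices K A / (K : ℝ) ^ k) := by rw [hu]; field_simp
      _ ≤ (((Icc 1 T).filter fun h => (N + d) + h ≡ x0 [MOD g]).card : ℝ) * (κ1 * choices K A / (K : ℝ) ^ k) :=
          mul_le_mul_of_nonneg_right (class_many hg hgT) (by positivity)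
      _ = ∑ h ∈ (Icc 1 T).filter fun h => (N + d) + h ≡ x0 [MOD g], κ1 * choices K A / (K : ℝ) ^ k := by rw [sum_const, nsmul_eq_mul]
      _ ≤ ∑ h ∈ (Icc 1 T).filter fun h => (N + d) + h ≡ x0 [MOD g],
            (count g K A (fun t => True ∧ ∀ j, AlmostPrime (g ^ K) r (N + t + h + H j)) : ℝ) := by
          apply sum_le_sum
          intro h hh
          rw [mem_filter, mem_Icc] at hh
          have hadm' : AdmZ (fun _ => 1) (fun i => (h : ℤ) + H i) := by
            intro p hp
            obtain ⟨z, hz⟩ := hadm p hp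
            refine ⟨z - h, fun j hj => hz j ?_⟩
            have e : 1 * (z - (h : ℤ)) + ((h : ℤ) + H j) = 1 * z + H j := by ring
            rwa [e] at hj
          have h4 := K1 (fun _ => (1 : ℤ)) (fun i => (h : ℤ) + H i) N (fun i t => N + t + h + H i) (fun _ => honeZ)
            (fun i => hβ h hh.1.2 i) hN' hadm' (fun t _ i => by push_cast; ring) A (hrich c1 (min_le_left _ _))
          have h5 := (h4.1 ⟨d, hd, fun j => hx0 _ hh.2 j⟩).2
          simp only [true_and]
          exact h5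
      _ ≤ _ := sum_le_sum_of_subset_of_nonneg (filter_subset _ _) fun _ _ _ => Nat.cast_nonneg _
  have hY : ∑ h ∈ Icc 1 T, ∑ h' ∈ Icc 1 T, (count g K A (fun t => True ∧ (∀ j, AlmostPrime (g ^ K) r (N + t + h + H j)) ∧
          ∀ j, AlmostPrime (g ^ K) r (N + t + h' + H j)) : ℝ) ≤ C * u * (1 + u) * choices K A := by
    have := K2 N T hN (by omega) hT A (hrich c2 (min_le_right _ _))
    rw [← hu] at this
    simp only [true_and]
    exact this
  have hcard : (count g K A (fun _ => True) : ℝ) ≤ 1 * choices K A := by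
    rw [one_mul, ← card_digits (by omega) hA.1]
    apply Nat.cast_le.2
    unfold count
    apply card_le_card
    intro t ht
    simp only [mem_filter] at ht ⊢
    exact ⟨ht.1, ht.2.1⟩
  have h1 := pz (Icc 1 T) (fun _ => True) (fun h t => ∀ j, AlmostPrime (g ^ K) r (N + t + h + H j)) 1 (κ1 * u / (2 * g))
    (C * u * (1 + u)) one_pos (by positivity) (by positivity) hcard hX hY
  refine le_trans ?_ (h1.trans (Nat.cast_le.2 (count_mono fun t ht hP => ?_)))
  · apply mul_le_mul_of_nonneg_right _ hcs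
    have h4 : min 1 u * (1 + u) ≤ 2 * u := by
      rcases le_total 1 u with h | h
      · rw [min_eq_left h]; linarith
      · rw [min_eq_right h]; nlinarith
    rw [le_div_iff₀ (by positivity)]
    calc min (min 1 (κ1 / (4 * g))) (κ1 ^ 2 / (32 * g ^ 2 * C)) * min 1 u * (4 * (C * u * (1 + u))) =
          min (min 1 (κ1 / (4 * g))) (κ1 ^ 2 / (32 * g ^ 2 * C)) * (4 * C * u) * (min 1 u * (1 + u)) := by ring
      _ ≤ κ1 ^ 2 / (32 * g ^ 2 * C) * (4 * C * u) * (2 * u) := by
          apply mul_le_mul _ h4 (by positivity) (by positivity)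
          exact mul_le_mul_of_nonneg_right (min_le_right _ _) (by positivity)
      _ = _ := by field_simp; norm_num
  · have h2 : κ1 * u / (2 * g) / (2 * 1) ≤ (tuplesIn H (g ^ K) r (N + t) T : ℝ) := by
      refine hP.2.trans (le_of_eq ?_)
      unfold tuplesIn
      congr!
    have e : κ1 * u / (2 * g) / (2 * 1) = κ1 / (4 * g) * u := by field_simp; norm_num
    rw [e] at h2
    have h3 : (0 : ℝ) < tuplesIn H (g ^ K) r (N + t) T := lt_of_lt_of_le (by positivity) h2
    have h4 : (1 : ℝ) ≤ tuplesIn H (g ^ K) r (N + t) T := by exact_mod_cast (by exact_mod_cast h3 : 0 < tuplesIn H (g ^ K) r (N + t) T)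
    have h5 : 0 < max 1 u := lt_of_lt_of_le one_pos (le_max_left _ _)
    refine (mul_le_mul_of_nonneg_right (min_le_left _ _) h5.le).trans ?_
    rcases le_total 1 u with h | h
    · rw [max_eq_right h]
      exact (mul_le_mul_of_nonneg_right (min_le_right _ _) hu0.le).trans h2
    · rw [max_eq_left h, mul_one]
      exact (min_le_left _ _).trans h4

end Pool.Agent.Q48.RD
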