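import Pool.Agent.Q48.RD.One

/-!
# Pairs with an arbitrary even difference, at integers with restricted digits
-/

set_option autoImplicit false

namespace Pool.Agent.Q48.RD

open Filter Finset
open Pool.Agent.Q315.RD

/-- The product of `1 - ν (p) / p` over the primes `p ≤ y`, with `ν (p) = 1` if `p` divides `h`, and `ν (p) = 2` otherwise. -/
noncomputable def twoV (h y : ℕ) : ℝ := ∏ p ∈ (Icc 1 y).filter Nat.Prime, (1 - (if p ∣ h then 1 else 2) / (p : ℝ))

/-- The number of the zeros. -/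
lemma classes_two {a : ℤ} {h : ℕ} {p : ℕ} (hp : p.Prime) :
    (classes p fun n => (p : ℤ) ∣ ∏ j : Fin 2, ((1 : ℤ) * n + ![a, a + h] j)) = if p ∣ h then 1 else 2 := by
  classical
  have := Fact.mk hp
  rw [classes_eq]
  have key : ∀ n : ℕ, (p : ℤ) ∣ ∏ j : Fin 2, ((1 : ℤ) * n + ![a, a + h] j) ↔
      ((n : ℕ) : ZMod p) = -(a : ZMod p) ∨ ((n : ℕ) : ZMod p) = -(a : ZMod p) - h := by
    intro n
    rw [Fin.prod_univ_two, ← ZMod.intCast_zmod_eq_zero_iff_dvd]
    simp only [Matrix.cons_val_zero, Matrix.cons_val_one, Matrix.cons_val_fin_one]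
    push_cast
    rw [mul_eq_zero]
    constructor
    · rintro (h1 | h1)
      · left; linear_combination h1
      · right; linear_combination h1
    · rintro (h1 | h1)
      · left; rw [h1]; ring
      · right; rw [h1]; ring
  have hset : ((range p).filter fun n : ℕ => (p : ℤ) ∣ ∏ j : Fin 2, ((1 : ℤ) * n + ![a, a + h] j)) =
      {(-(a : ZMod p)).val, (-(a : ZMod p) - h).val} := by
    ext n
    simp only [mem_filter, mem_range, mem_insert, mem_singleton, key]
    constructor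
    · rintro ⟨h1, h3 | h3⟩
      · left; rw [← h3, ZMod.val_natCast, Nat.mod_eq_of_lt h1]
      · right; rw [← h3, ZMod.val_natCast, Nat.mod_eq_of_lt h1]
    · rintro (h1 | h1)
      · rw [h1]; exact ⟨ZMod.val_lt _, Or.inl (by rw [ZMod.natCast_val, ZMod.cast_id])⟩
      · rw [h1]; exact ⟨ZMod.val_lt _, Or.inr (by rw [ZMod.natCast_val, ZMod.cast_id])⟩
  rw [hset]
  split_ifs with hd
  · have h3 : ((h : ℕ) : ZMod p) = 0 := (ZMod.natCast_eq_zero_iff h p).2 hd
    rw [h3, sub_zero, pair_eq_singleton, card_singleton]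
  · rw [card_pair]
    intro h3
    have h4 := ZMod.val_injective p h3
    apply hd
    rw [← ZMod.natCast_eq_zero_iff]
    linear_combination h4

lemma adm_two (a : ℤ) {h : ℕ} (h2 : Even h) : AdmZ (fun _ : Fin 2 => 1) ![a, a + h] := by
  intro p hp
  rcases Nat.lt_or_ge 2 p with h3 | h3
  · refine adm_bigZ _ _ hp h3 fun j h1 => ?_
    have h2 : (p : ℤ) ∣ ((1 : ℕ) : ℤ) := by exact_mod_cast h1
    exact hp.one_lt.ne' (Nat.dvd_one.1 (Int.natCast_dvd_natCast.1 h2))
  · have h4 : p = 2 := by have := hp.two_le; omega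
    subst h4
    obtain ⟨w, hw⟩ := h2
    refine ⟨a + 1, fun j hj => ?_⟩
    fin_cases j
    · have h5 : ((2 : ℕ) : ℤ) ∣ 1 * (a + 1) + a := hj
      push_cast at h5
      omega
    · have h5 : ((2 : ℕ) : ℤ) ∣ 1 * (a + 1) + (a + h) := hj
      push_cast at h5
      omega

lemma linDensity_two (a : ℤ) (h y : ℕ) : linDensity (fun _ : Fin 2 => 1) ![a, a + h] y = twoV h y := by
  unfold linDensity rootDensity twoV
  apply prod_congr rfl
  intro p hp
  have h3 := classes_two (a := a) (h := h) (mem_filter.1 hp).2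
  rw [h3]
  split_ifs <;> simp

/-- **Pairs with an arbitrary even difference, at integers with restricted digits.** -/
theorem pairsH (E : ℕ) :
    ∃ c : ℝ, 0 < c ∧ ∃ r₀ : ℕ, 2 ≤ r₀ ∧ ∀ r : ℕ, r₀ ≤ r → ∀ g : ℕ, 2 ≤ g → ∃ κ C : ℝ, 0 < κ ∧ 0 < C ∧
      ∀ᶠ K : ℕ in atTop, ∀ M h : ℕ, M ≤ g ^ (E * K) → h ≤ g ^ (E * K) → Even h → ∀ A : ℕ → Finset ℕ, Rich c g K A →
          ((∃ d ∈ A 0, (M + d).Coprime g ∧ (M + d + h).Coprime g) →
            κ * twoV h (g ^ K) * choices K A ≤ count g K A (fun t =>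
              AlmostPrime (g ^ K) r (M + t) ∧ AlmostPrime (g ^ K) r (M + t + h)) ∧
            κ * choices K A / (K : ℝ) ^ 2 ≤ count g K A (fun t =>
              AlmostPrime (g ^ K) r (M + t) ∧ AlmostPrime (g ^ K) r (M + t + h))) ∧
          (count g K A (fun t => (M + t).Prime ∧ (M + t + h).Prime) : ℝ) ≤ C * twoV h (g ^ K) * choices K A := by
  classical
  obtain ⟨c, hc, r₀, hr₀, h1⟩ := famLin' 2 (E + 1)
  refine ⟨c, hc, r₀, hr₀, fun r hr g hg => ?_⟩
  obtain ⟨κ, C, hκ, hC, h2⟩ := h1 r hr g hg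
  refine ⟨κ, C, hκ, hC, ?_⟩
  filter_upwards [h2, eventually_ge_atTop 1] with K hK hK1
  intro M h hM hh hev A hA
  have hg1 : 1 ≤ g := by omega
  have hEE : 2 * g ^ (E * K) ≤ g ^ ((E + 1) * K) := by
    rw [add_mul, one_mul, pow_add, mul_comm]
    exact Nat.mul_le_mul_left _ (hg.trans (Nat.le_self_pow (by omega) g))
  have h3 := hK (fun _ => 1) ![(M : ℤ), (M : ℤ) + h] 0 (fun j t => ![M + t, M + t + h] j)
    (fun j => by
      rw [abs_one]
      exact_mod_cast Nat.one_le_pow _ _ hg1)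
    (fun j => by
      fin_cases j
      · change |(M : ℤ)| ≤ _
        rw [abs_of_nonneg (by positivity)]
        exact_mod_cast (by omega : M ≤ g ^ ((E + 1) * K))
      · change |(M : ℤ) + h| ≤ _
        rw [abs_of_nonneg (by positivity)]
        exact_mod_cast (by omega : M + h ≤ g ^ ((E + 1) * K)))
    (Nat.zero_le _) (adm_two _ hev)
    (fun t _ j => by
      fin_cases j
      · change ((M + t : ℕ) : ℤ) = 1 * (((0 : ℕ) : ℤ) + t) + (M : ℤ)
        push_cast; ring
      · change ((M + t + h : ℕ) : ℤ) = 1 * (((0 : ℕ) : ℤ) + t) + ((M : ℤ) + h)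
        push_cast; ring)
    (fun t _ j => by
      fin_cases j
      · change t ≤ M + t
        omega
      · change t ≤ M + t + h
        omega) A hA
  rw [linDensity_two] at h3
  simp only [Fin.forall_fin_two, Matrix.cons_val_zero, Matrix.cons_val_one, Matrix.cons_val_fin_one] at h3
  exact h3

end Pool.Agent.Q48.RD
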