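import Pool.Agent.Q48.RD.MomS2

/-!
# Averages of `n / φ (n)` over short intervals at arbitrary places
-/

set_option autoImplicit false

namespace Pool.Agent.Q48.RD

open Filter Finset
open Pool.Agent.Q315.RD
open Pool.Agent.Erdos456 (GG)

/-- averages of multiplicative functions over arbitrary values -/
lemma avg_values (S : Finset ℕ) (hS : ∀ p ∈ S, p.Prime) (c : ℝ) (hc : 0 ≤ c) (D : Finset ℕ) (v : ℕ → ℤ) (ρ T : ℝ)
    (hD : ∀ U ⊆ S, ((D.filter fun d => ∀ p ∈ U, (p : ℤ) ∣ v d).card : ℝ) ≤ ρ ^ U.card * (T / ∏ p ∈ U, (p : ℝ) + 1)) :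
    ∑ d ∈ D, ∏ p ∈ S.filter (fun p : ℕ => (p : ℤ) ∣ v d), (1 + c / (p : ℝ)) ≤
      T * ∏ p ∈ S, (1 + ρ * c / (p : ℝ) ^ 2) + ∏ p ∈ S, (1 + ρ * c / (p : ℝ)) := by
  classical
  have h1 : ∀ d ∈ D, ∏ p ∈ S.filter (fun p : ℕ => (p : ℤ) ∣ v d), (1 + c / (p : ℝ)) =
      ∑ U ∈ S.powerset, if ∀ p ∈ U, (p : ℤ) ∣ v d then ∏ p ∈ U, c / (p : ℝ) else 0 := by
    intro d _
    rw [prod_one_add, ← sum_filter]
    apply sum_congr _ fun _ _ => rfl
    ext U
    simp only [mem_powerset, mem_filter, subset_iff]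
    exact ⟨fun h => ⟨fun p hp => (h hp).1, fun p hp => (h hp).2⟩, fun h p hp => ⟨h.1 hp, h.2 p hp⟩⟩
  rw [sum_congr rfl h1, sum_comm]
  have h2 : ∀ U ∈ S.powerset, ∑ d ∈ D, (if ∀ p ∈ U, (p : ℤ) ∣ v d then ∏ p ∈ U, c / (p : ℝ) else 0) ≤
      T * ∏ p ∈ U, (ρ * c / (p : ℝ) ^ 2) + ∏ p ∈ U, (ρ * c / (p : ℝ)) := by
    intro U hU
    rw [mem_powerset] at hU
    have hprime : ∀ p ∈ U, p.Prime := fun p hp => hS p (hU hp)
    have hc0 : 0 ≤ ∏ p ∈ U, c / (p : ℝ) := prod_nonneg fun p _ => by positivity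
    rw [← sum_filter, sum_const, nsmul_eq_mul]
    refine (mul_le_mul_of_nonneg_right (hD U hU) hc0).trans (le_of_eq ?_)
    have e1 : ∏ p ∈ U, (ρ * c / (p : ℝ)) = ρ ^ U.card * ∏ p ∈ U, c / (p : ℝ) := by
      rw [← prod_const, ← prod_mul_distrib]
      apply prod_congr rfl
      intro p _
      ring
    have e2 : ∏ p ∈ U, (ρ * c / (p : ℝ) ^ 2) = ρ ^ U.card * (∏ p ∈ U, c / (p : ℝ)) / ∏ p ∈ U, (p : ℝ) := by
      rw [← prod_const, ← prod_mul_distrib, ← prod_div_distrib]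
      apply prod_congr rfl
      intro p hp
      have : (p : ℝ) ≠ 0 := by exact_mod_cast (hprime p hp).ne_zero
      field_simp
    rw [e1, e2]
    ring
  refine (sum_le_sum h2).trans (le_of_eq ?_)
  rw [sum_add_distrib, ← mul_sum, ← prod_one_add, ← prod_one_add]

/-- the number of the multiples of several primes in an interval -/
lemma count_mult (T : ℕ) (e : ℤ) (U : Finset ℕ) (hU : ∀ p ∈ U, p.Prime) :
    (((Icc 1 T).filter fun b : ℕ => ∀ p ∈ U, (p : ℤ) ∣ e + b).card : ℝ) ≤ 1 ^ U.card * (T / ∏ p ∈ U, (p : ℝ) + 1) := by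
  classical
  rw [one_pow, one_mul]
  obtain ⟨q, hq⟩ : ∃ q : ℕ, q = ∏ p ∈ U, p := ⟨_, rfl⟩
  have hq0 : 0 < q := by rw [hq]; exact prod_pos fun p hp => (hU p hp).pos
  have hdiv : ∀ b : ℕ, (∀ p ∈ U, (p : ℤ) ∣ e + b) → (q : ℤ) ∣ e + b := by
    intro b hb
    rw [← Int.dvd_natAbs, Int.natCast_dvd_natCast, hq]
    apply Finset.prod_primes_dvd
    · exact fun p hp => (hU p hp).prime
    · intro p hp
      rw [← Int.natCast_dvd_natCast, Int.dvd_natAbs]
      exact hb p hp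
  have h1 : ((Icc 1 T).filter fun b : ℕ => ∀ p ∈ U, (p : ℤ) ∣ e + b).card ≤ (range (T / q + 1)).card := by
    apply card_le_card_of_injOn (fun b => b / q)
    · intro b hb
      rw [mem_coe, mem_filter, mem_Icc] at hb
      rw [mem_coe, mem_range]
      exact Nat.lt_succ_of_le (Nat.div_le_div_right hb.1.2)
    · intro b hb b' hb' h
      rw [mem_coe, mem_filter] at hb hb'
      have h2 := dvd_sub (hdiv b hb.2) (hdiv b' hb'.2)
      have e1 : e + (b : ℤ) - (e + b') = (b : ℤ) - b' := by ring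
      rw [e1] at h2
      have h3 : b' ≡ b [MOD q] := (Nat.modEq_iff_dvd).2 h2
      have h4 : b' % q = b % q := h3
      rw [← Nat.div_add_mod b q, ← Nat.div_add_mod b' q, h4]
      simp only at h
      rw [h]
  rw [card_range] at h1
  have h2 : ((T / q + 1 : ℕ) : ℝ) ≤ T / (q : ℝ) + 1 := by
    push_cast
    have := @Nat.cast_div_le ℝ _ _ _ T q
    linarith
  have e3 : ∏ p ∈ U, (p : ℝ) = (q : ℝ) := by rw [hq]; push_cast; rfl
  rw [e3]
  exact (Nat.cast_le.2 h1).trans h2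

lemma prod_sq (c : ℝ) (hc : 0 ≤ c) (X : ℕ) : ∏ p ∈ (Icc 1 X).filter Nat.Prime, (1 + c / (p : ℝ) ^ 2) ≤ Real.exp (2 * c) := by
  classical
  obtain ⟨R, hR⟩ : ∃ R : Finset ℕ, R = (Icc 1 X).filter Nat.Prime := ⟨_, rfl⟩
  rw [← hR]
  have h3 : ∏ p ∈ R, (1 + c / (p : ℝ) ^ 2) ≤ ∏ p ∈ R, Real.exp (c / (p : ℝ) ^ 2) := by
    apply Finset.prod_le_prod
    · intro p _; positivity
    · intro p _
      rw [add_comm]
      exact Real.add_one_le_exp _
  refine h3.trans ?_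
  rw [← Real.exp_sum]
  apply Real.exp_le_exp.2
  have h4 : ∑ p ∈ R, c / (p : ℝ) ^ 2 ≤ ∑ n ∈ Icc 1 X, c / (n : ℝ) ^ 2 := by
    rw [hR]
    exact sum_le_sum_of_subset_of_nonneg (filter_subset _ _) fun _ _ _ => by positivity
  refine h4.trans ?_
  have h5 : ∀ X : ℕ, ∑ n ∈ Icc 1 X, c / (n : ℝ) ^ 2 ≤ 2 * c - c / X := by
    intro X
    induction X with
    | zero =>
      simp
      linarith
    | succ X ih =>
      rw [sum_Icc_succ_top (by omega)]
      rcases Nat.eq_zero_or_pos X with rfl | hX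
      · simp
        linarith
      · have hX0 : (0 : ℝ) < X := by exact_mod_cast hX
        have h6 : c / ((X + 1 : ℕ) : ℝ) ^ 2 ≤ c / X - c / (X + 1 : ℕ) := by
          push_cast
          rw [div_sub_div _ _ hX0.ne' (by positivity), div_le_div_iff₀ (by positivity) (by positivity)]
          nlinarith [mul_nonneg hc hX0.le, mul_nonneg hc (sq_nonneg (X : ℝ))]
        linarith
  have := h5 X
  have h6 : 0 ≤ c / (X : ℝ) := by positivity
  linarith

lemma prime_inv {p : ℕ} (hp : p.Prime) : 0 < 1 - 1 / (p : ℝ) ∧ 1 - 1 / (p : ℝ) ≤ 1 ∧ 1 / (p : ℝ) ≤ 1 / 2 := by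
  have h2 : (2 : ℝ) ≤ p := by exact_mod_cast hp.two_le
  have h3 : 1 / (p : ℝ) ≤ 1 / 2 := one_div_le_one_div_of_le (by norm_num) h2
  have h4 : 0 ≤ 1 / (p : ℝ) := by positivity
  exact ⟨by linarith, by linarith, h3⟩

/-- a consequence of the theorem of Mertens -/
lemma mertens_small (c : ℝ) (hc : 0 ≤ c) : ∀ᶠ K : ℕ in atTop, ∏ p ∈ (Icc 1 K).filter Nat.Prime, (1 + c / (p : ℝ)) ≤ K := by
  classical
  obtain ⟨w, W, hw, hW, H⟩ := oneV_GG 1 2 (by norm_num)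
  obtain ⟨m, hm⟩ : ∃ m : ℕ, c ≤ m := exists_nat_ge c
  have hlog : Tendsto (fun K : ℕ => Nat.log 2 K + 1) atTop atTop := by
    apply tendsto_atTop.2
    intro b
    filter_upwards [eventually_ge_atTop (2 ^ b)] with K hK
    have := Nat.log_mono_right (b := 2) hK
    rw [Nat.log_pow (by norm_num)] at this
    omega
  have h1 := hlog.eventually H
  have h2 := tendsto_pow_const_div_const_pow_of_one_lt m (r := (2 : ℝ)) (by norm_num)
  have h3 := (h2.comp hlog).eventually (gt_mem_nhds (show (0 : ℝ) < w ^ m / 2 by positivity))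
  filter_upwards [h1, h3, eventually_ge_atTop 1] with K hK hK2 hK1
  obtain ⟨L, hL⟩ : ∃ L : ℕ, L = Nat.log 2 K + 1 := ⟨_, rfl⟩
  simp only [Function.comp] at hK2
  rw [← hL] at hK hK2
  have hL0 : (0 : ℝ) < L := by exact_mod_cast (by omega : 0 < L)
  have hKL : K ≤ 2 ^ L := by
    rw [hL]
    exact (Nat.lt_pow_succ_log_self (by norm_num) K).le
  have hLK : (2 : ℝ) ^ L ≤ 2 * K := by
    have h4 : 2 ^ Nat.log 2 K ≤ K := Nat.pow_log_le_self 2 (by omega)
    have h5 : 2 ^ L ≤ 2 * K := by rw [hL, pow_succ]; omega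
    exact_mod_cast h5
  have h4 := (hK 1 le_rfl (Nat.one_le_pow _ _ (by norm_num))).1
  have hG1 : (1 : ℝ) ≤ GG 1 := GG_ge_one le_rfl
  have h5 : w / L ≤ oneV 1 (2 ^ L) := by
    refine le_trans ?_ (by exact_mod_cast h4)
    gcongr
    exact le_mul_of_one_le_right hw.le hG1
  have e : oneV 1 (2 ^ L) = ∏ p ∈ (Icc 1 (2 ^ L)).filter Nat.Prime, (1 - 1 / (p : ℝ)) := by
    unfold oneV
    apply prod_congr _ fun _ _ => rfl
    ext p
    simp only [mem_filter, mem_Icc]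
    constructor
    · rintro ⟨h6, h7, -⟩
      exact ⟨h6, h7⟩
    · rintro ⟨h6, h7⟩
      refine ⟨h6, h7, fun h8 => ?_⟩
      have h9 := Int.le_of_dvd one_pos h8
      have := h7.one_lt
      omega
  obtain ⟨P, hP⟩ : ∃ P : ℝ, P = ∏ p ∈ (Icc 1 K).filter Nat.Prime, (1 - 1 / (p : ℝ)) := ⟨_, rfl⟩
  have hP0 : 0 < P := by
    rw [hP]
    exact prod_pos fun p hp => (prime_inv (mem_filter.1 hp).2).1
  have h6 : w / L ≤ P := by
    refine h5.trans ?_
    rw [e, hP]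
    apply prod_le_prod_of_subset_of_le_one
    · intro p hp
      rw [mem_filter, mem_Icc] at hp ⊢
      exact ⟨⟨hp.1.1, hp.1.2.trans hKL⟩, hp.2⟩
    · intro p hp
      exact (prime_inv (mem_filter.1 hp).2).1.le
    · intro p hp _
      exact (prime_inv (mem_filter.1 hp).2).2.1
  have h7 : (∏ p ∈ (Icc 1 K).filter Nat.Prime, (1 + c / (p : ℝ))) * P ^ m ≤ 1 := by
    rw [hP, ← prod_pow, ← prod_mul_distrib]
    apply prod_le_one
    · intro p hp
      have := (prime_inv (mem_filter.1 hp).2).1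
      positivity
    · intro p hp
      obtain ⟨h8, h9, h10⟩ := prime_inv (mem_filter.1 hp).2
      have h11 : 1 + c / (p : ℝ) ≤ (1 + 1 / (p : ℝ)) ^ m := by
        have h13 : (0 : ℝ) ≤ 1 / p := by positivity
        have h12 := one_add_mul_le_pow (a := 1 / (p : ℝ)) (by linarith) m
        refine le_trans ?_ h12
        have : c / (p : ℝ) ≤ m * (1 / (p : ℝ)) := by
          rw [mul_one_div]
          gcongr
        linarith
      calc (1 + c / (p : ℝ)) * (1 - 1 / (p : ℝ)) ^ m ≤ (1 + 1 / (p : ℝ)) ^ m * (1 - 1 / (p : ℝ)) ^ m := by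
            gcongr
        _ = (1 - (1 / (p : ℝ)) ^ 2) ^ m := by rw [← mul_pow]; ring
        _ ≤ 1 := by
            apply pow_le_one₀
            · have : 0 ≤ 1 / (p : ℝ) := by positivity
              nlinarith
            · have : 0 ≤ (1 / (p : ℝ)) ^ 2 := by positivity
              linarith
  have h8 : (w / L) ^ m ≤ P ^ m := by gcongr
  have h9 : (∏ p ∈ (Icc 1 K).filter Nat.Prime, (1 + c / (p : ℝ))) * (w / L) ^ m ≤ 1 := by
    refine le_trans (mul_le_mul_of_nonneg_left h8 ?_) h7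
    exact prod_nonneg fun p _ => by positivity
  rw [div_pow, ← mul_div_assoc, div_le_one (by positivity)] at h9
  have h10 : (L : ℝ) ^ m ≤ w ^ m * K := by
    rw [div_lt_div_iff₀ (by positivity) (by norm_num)] at hK2
    have : (L : ℝ) ^ m * 2 ≤ w ^ m * (2 * K) := hK2.le.trans (by gcongr)
    linarith
  have h11 : (∏ p ∈ (Icc 1 K).filter Nat.Prime, (1 + c / (p : ℝ))) * w ^ m ≤ K * w ^ m := by
    refine h9.trans (h10.trans (le_of_eq (mul_comm _ _)))
  exact le_of_mul_le_mul_right h11 (by positivity)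

lemma pow_K (K : ℕ) (hK : 2 ≤ K) : (1 / 16 : ℝ) ≤ (1 - 1 / (K : ℝ)) ^ K := by
  have hK0 : (2 : ℝ) ≤ K := by exact_mod_cast hK
  have h1 : 1 / (K : ℝ) ≤ 1 / 2 := one_div_le_one_div_of_le (by norm_num) hK0
  have h0 : 0 ≤ 1 / (K : ℝ) := by positivity
  obtain ⟨m, hm⟩ : ∃ m : ℕ, m = (K + 1) / 2 := ⟨_, rfl⟩
  have hm1 : K ≤ 2 * m := by omega
  have hm2 : 2 * m ≤ K + 1 := by omega
  have h2 := one_add_mul_le_pow (a := -(1 / (K : ℝ))) (by linarith) m
  have h3 : (1 / 4 : ℝ) ≤ 1 + m * -(1 / (K : ℝ)) := by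
    have h4 : (m : ℝ) * (1 / K) ≤ 3 / 4 := by
      rw [mul_one_div, div_le_iff₀ (by linarith)]
      have : (2 : ℝ) * m ≤ K + 1 := by exact_mod_cast hm2
      linarith
    linarith
  have h5 : (1 / 4 : ℝ) ≤ (1 - 1 / (K : ℝ)) ^ m := by
    refine h3.trans (h2.trans (le_of_eq ?_))
    ring
  calc (1 / 16 : ℝ) = (1 / 4) ^ 2 := by norm_num
    _ ≤ ((1 - 1 / (K : ℝ)) ^ m) ^ 2 := by gcongr
    _ = (1 - 1 / (K : ℝ)) ^ (2 * m) := by rw [← pow_mul]; congr 1; ring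
    _ ≤ _ := pow_le_pow_of_le_one (by linarith) (by linarith) hm1

/-- the primes `p > K` do not matter -/
lemma GG_trunc (E g : ℕ) (hg : 2 ≤ g) : ∃ W : ℝ, 0 < W ∧ ∀ K : ℕ, 2 ≤ K → ∀ n : ℕ, 1 ≤ n → n ≤ g ^ (E * K) →
    GG n * ∏ p ∈ n.primeFactors.filter (fun p => p ≤ K), (1 - 1 / (p : ℝ)) ≤ W := by
  classical
  obtain ⟨L, hL⟩ : ∃ L : ℕ, g ≤ 2 ^ L := ⟨g, (Nat.lt_pow_self (by norm_num)).le⟩
  refine ⟨16 ^ (L * E), by positivity, fun K hK n hn1 hn => ?_⟩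
  have hK0 : (2 : ℝ) ≤ K := by exact_mod_cast hK
  have h1K : 1 / (K : ℝ) ≤ 1 / 2 := one_div_le_one_div_of_le (by norm_num) hK0
  obtain ⟨B, hB⟩ : ∃ B : Finset ℕ, B = n.primeFactors.filter (fun p => ¬ p ≤ K) := ⟨_, rfl⟩
  have hspl : (∏ p ∈ n.primeFactors.filter (fun p => p ≤ K), (1 - 1 / (p : ℝ))) * ∏ p ∈ B, (1 - 1 / (p : ℝ)) =
      ∏ p ∈ n.primeFactors, (1 - 1 / (p : ℝ)) := by
    rw [hB]
    exact prod_filter_mul_prod_filter_not _ _ _
  have hcard : B.card ≤ L * E * K := by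
    have h5 : 2 ^ B.card ≤ 2 ^ (L * E * K) := by
      calc 2 ^ B.card = ∏ _p ∈ B, 2 := by rw [prod_const]
        _ ≤ ∏ p ∈ B, p := prod_le_prod (fun _ _ => Nat.zero_le _) fun p hp => by
            rw [hB, mem_filter] at hp
            omega
        _ ≤ ∏ p ∈ n.primeFactors, p := by
            rw [hB]
            exact prod_le_prod_of_subset_of_one_le' (filter_subset _ _) fun p hp _ => (Nat.prime_of_mem_primeFactors hp).pos
        _ ≤ n := Nat.le_of_dvd hn1 (Nat.prod_primeFactors_dvd n)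
        _ ≤ g ^ (E * K) := hn
        _ ≤ (2 ^ L) ^ (E * K) := Nat.pow_le_pow_left hL _
        _ = _ := by rw [← pow_mul]; congr 1; ring
    exact (Nat.pow_le_pow_iff_right (by norm_num)).1 h5
  have hbig : (1 / 16 : ℝ) ^ (L * E) ≤ ∏ p ∈ B, (1 - 1 / (p : ℝ)) := by
    calc (1 / 16 : ℝ) ^ (L * E) ≤ ((1 - 1 / (K : ℝ)) ^ K) ^ (L * E) := by
          gcongr
          exact pow_K K hK
      _ = (1 - 1 / (K : ℝ)) ^ (L * E * K) := by rw [← pow_mul]; congr 1; ring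
      _ ≤ (1 - 1 / (K : ℝ)) ^ B.card := pow_le_pow_of_le_one (by linarith) (by
          have : 0 ≤ 1 / (K : ℝ) := by positivity
          linarith) hcard
      _ = ∏ _p ∈ B, (1 - 1 / (K : ℝ)) := by rw [prod_const]
      _ ≤ _ := prod_le_prod (fun _ _ => by linarith) fun p hp => by
          rw [hB, mem_filter] at hp
          have h6 : (K : ℝ) ≤ p := by exact_mod_cast (not_le.1 hp.2).le
          have h7 : 1 / (p : ℝ) ≤ 1 / K := one_div_le_one_div_of_le (by linarith) h6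
          linarith
  have h1 := GG_prod hn1
  have hG := GG_ge_one hn1
  have hQ : 0 ≤ ∏ p ∈ n.primeFactors.filter (fun p => p ≤ K), (1 - 1 / (p : ℝ)) :=
    prod_nonneg fun p hp => (prime_inv (Nat.prime_of_mem_primeFactors (mem_filter.1 hp).1)).1.le
  have h2 : GG n * (∏ p ∈ n.primeFactors.filter (fun p => p ≤ K), (1 - 1 / (p : ℝ))) * (1 / 16 : ℝ) ^ (L * E) ≤ 1 := by
    refine (mul_le_mul_of_nonneg_left hbig (by positivity)).trans (le_of_eq ?_)
    rw [mul_assoc, hspl, h1]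
  rwa [one_div_pow, mul_one_div, div_le_one (by positivity)] at h2

/-- **Averages of `n / φ (n)` over short intervals at arbitrary places.** -/
theorem avgGG (m E g : ℕ) (hg : 2 ≤ g) : ∃ C : ℝ, 0 < C ∧ ∀ᶠ K : ℕ in atTop, ∀ T : ℕ, K ≤ T → ∀ e : ℤ,
    (∀ b ∈ Icc 1 T, (e + (b : ℕ)).natAbs ≤ g ^ (E * K)) →
      ∑ b ∈ Icc 1 T, (if e + (b : ℕ) = 0 then (0 : ℝ) else GG (e + (b : ℕ)).natAbs ^ m) ≤ C * T := by
  classical
  obtain ⟨W, hW, H⟩ := GG_trunc E g hg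
  obtain ⟨c, hc, hcomp⟩ := pow_compare m
  refine ⟨W ^ m * (Real.exp (2 * c) + 1), by positivity, ?_⟩
  filter_upwards [mertens_small c hc, eventually_ge_atTop 2] with K KM hK2
  intro T hT e he
  obtain ⟨S, hS⟩ : ∃ S : Finset ℕ, S = (Icc 1 K).filter Nat.Prime := ⟨_, rfl⟩
  have hSp : ∀ p ∈ S, p.Prime := fun p hp => by rw [hS, mem_filter] at hp; exact hp.2
  have h1 : ∀ b ∈ Icc 1 T, (if e + (b : ℕ) = 0 then (0 : ℝ) else GG (e + (b : ℕ)).natAbs ^ m) ≤
      W ^ m * ∏ p ∈ S.filter (fun p : ℕ => (p : ℤ) ∣ e + b), (1 + c / (p : ℝ)) := by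
    intro b hb
    have hpr : 0 ≤ ∏ p ∈ S.filter (fun p : ℕ => (p : ℤ) ∣ e + b), (1 + c / (p : ℝ)) := prod_nonneg fun p _ => by positivity
    split_ifs with h0
    · positivity
    · have hn1 : 1 ≤ (e + (b : ℤ)).natAbs := Nat.one_le_iff_ne_zero.2 (Int.natAbs_ne_zero.2 h0)
      obtain ⟨n, hn⟩ : ∃ n : ℕ, n = (e + (b : ℤ)).natAbs := ⟨_, rfl⟩
      have hnle := he b hb
      rw [← hn] at hn1 hnle ⊢
      have hset : n.primeFactors.filter (fun p => p ≤ K) = S.filter (fun p : ℕ => (p : ℤ) ∣ e + b) := by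
        ext p
        rw [hS, mem_filter, mem_filter, mem_filter, mem_Icc, Nat.mem_primeFactors]
        have h5 : p ∣ n ↔ (p : ℤ) ∣ e + b := by rw [hn, ← Int.natCast_dvd_natCast, Int.dvd_natAbs]
        rw [h5]
        constructor
        · rintro ⟨⟨h6, h7, _⟩, h8⟩
          exact ⟨⟨⟨h6.one_lt.le, h8⟩, h6⟩, h7⟩
        · rintro ⟨⟨⟨h6, h8⟩, h9⟩, h7⟩
          exact ⟨⟨h9, h7, by omega⟩, h8⟩
      have h3 := H K hK2 n hn1 hnle
      rw [hset] at h3
      have h4 : 1 ≤ (∏ p ∈ S.filter (fun p : ℕ => (p : ℤ) ∣ e + b), (1 - 1 / (p : ℝ))) ^ m *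
          ∏ p ∈ S.filter (fun p : ℕ => (p : ℤ) ∣ e + b), (1 + c / (p : ℝ)) := by
        rw [← prod_pow, ← prod_mul_distrib]
        apply Finset.one_le_prod
        intro p hp
        obtain ⟨_, _, h7⟩ := prime_inv (hSp p (mem_filter.1 hp).1)
        have h3 := hcomp (1 / p) (by positivity) h7
        rwa [mul_one_div] at h3
      have hG : 0 ≤ GG n := by linarith [GG_ge_one hn1]
      have hQ : 0 ≤ ∏ p ∈ S.filter (fun p : ℕ => (p : ℤ) ∣ e + b), (1 - 1 / (p : ℝ)) :=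
        prod_nonneg fun p hp => (prime_inv (hSp p (mem_filter.1 hp).1)).1.le
      calc GG n ^ m = GG n ^ m * 1 := (mul_one _).symm
        _ ≤ GG n ^ m * ((∏ p ∈ S.filter (fun p : ℕ => (p : ℤ) ∣ e + b), (1 - 1 / (p : ℝ))) ^ m *
          ∏ p ∈ S.filter (fun p : ℕ => (p : ℤ) ∣ e + b), (1 + c / (p : ℝ))) := mul_le_mul_of_nonneg_left h4 (by positivity)
        _ = (GG n * ∏ p ∈ S.filter (fun p : ℕ => (p : ℤ) ∣ e + b), (1 - 1 / (p : ℝ))) ^ m *
          ∏ p ∈ S.filter (fun p : ℕ => (p : ℤ) ∣ e + b), (1 + c / (p : ℝ)) := by rw [mul_pow]; ring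
        _ ≤ _ := by gcongr
  refine (sum_le_sum h1).trans ?_
  rw [← mul_sum]
  have h2 := avg_values S hSp c hc (Icc 1 T) (fun b => e + (b : ℕ)) 1 T
    (fun U hU => count_mult T e U fun p hp => hSp p (hU hp))
  simp only [one_mul] at h2
  have h3 := prod_sq c hc K
  rw [← hS] at h3 KM
  have hT0 : (0 : ℝ) ≤ T := Nat.cast_nonneg T
  have hKT : (K : ℝ) ≤ T := by exact_mod_cast hT
  calc W ^ m * ∑ b ∈ Icc 1 T, ∏ p ∈ S.filter (fun p : ℕ => (p : ℤ) ∣ e + (b : ℕ)), (1 + c / (p : ℝ))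
      ≤ W ^ m * (T * Real.exp (2 * c) + T) := by
        apply mul_le_mul_of_nonneg_left _ (by positivity)
        refine h2.trans ?_
        have := mul_le_mul_of_nonneg_left h3 hT0
        linarith
    _ = _ := by ring

end Pool.Agent.Q48.RD
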