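import Pool.Agent.Q48.RD.Mom

/-!
# Almost primes in short intervals and progressions starting at integers with restricted digits
-/

set_option autoImplicit false

namespace Pool.Agent.Q48.RD

open Filter Finset Polynomial
open Pool.Agent.Q315.RD
open Pool.Agent.Erdos456 (GG)

/-- one class modulo `g` in which the values of the form are prime to `g` -/
lemma exists_class {q b : ℕ} (g : ℕ) (hg : 2 ≤ g) (hqb : q.Coprime b) : ∃ x0 : ℕ, ∀ n : ℕ, n ≡ x0 [MOD g] → (q * n + b).Coprime g := by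
  classical
  refine ⟨∏ p ∈ g.primeFactors.filter (fun p => ¬ p ∣ b), p, fun n hn => ?_⟩
  apply Nat.coprime_of_dvd
  intro p hp h1 h2
  have hn' : n ≡ ∏ p ∈ g.primeFactors.filter (fun p => ¬ p ∣ b), p [MOD p] := hn.of_dvd h2
  by_cases hb : p ∣ b
  · have h3 : p ∣ q * n := (Nat.dvd_add_left hb).1 h1
    have hq : ¬ p ∣ q := fun h => hp.one_lt.ne' (Nat.dvd_one.1 (hqb ▸ Nat.dvd_gcd h hb))
    have h4 : p ∣ n := (hp.dvd_mul.1 h3).resolve_left hq
    have h5 : p ∣ ∏ p ∈ g.primeFactors.filter (fun p => ¬ p ∣ b), p := (hn'.dvd_iff dvd_rfl).1 h4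
    obtain ⟨l, hl, hpl⟩ := (hp.prime.dvd_finsetProd_iff _).1 h5
    rw [mem_filter, Nat.mem_primeFactors] at hl
    have h6 : p = l := (Nat.prime_dvd_prime_iff_eq hp hl.1.1).1 hpl
    exact hl.2 (h6 ▸ hb)
  · have h4 : p ∣ ∏ p ∈ g.primeFactors.filter (fun p => ¬ p ∣ b), p :=
      dvd_prod_of_mem (fun p => p) (mem_filter.2 ⟨Nat.mem_primeFactors.2 ⟨hp, h2, by omega⟩, hb⟩)
    have h5 : p ∣ n := (hn'.dvd_iff dvd_rfl).2 h4
    exact hb ((Nat.dvd_add_right (h5.mul_left q)).1 h1)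

/-- many `h` in `[1, T]` -/
lemma class_card {g T m q b : ℕ} (hg : 2 ≤ g) (hT : g ≤ T) (hqb : q.Coprime b) :
    (T : ℝ) / (2 * g) ≤ (((Icc 1 T).filter fun h => (q * (m + h) + b).Coprime g).card : ℝ) := by
  classical
  obtain ⟨x0, hx0⟩ := exists_class g hg hqb
  obtain ⟨x1, hx1⟩ : ∃ x1, x1 = g * m + x0 + g * g := ⟨_, rfl⟩
  -- `h0` in `[1, g]` with `m + h0 ≡ x0`
  obtain ⟨h0, hh0, hh1, hh2⟩ : ∃ h0, 1 ≤ h0 ∧ h0 ≤ g ∧ m + h0 ≡ x0 [MOD g] := by
    obtain ⟨e, he⟩ : ∃ e, e = (m + (g - x0 % g)) % g := ⟨_, rfl⟩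
    have he1 : e < g := by rw [he]; exact Nat.mod_lt _ (by omega)
    refine ⟨g - e, by omega, by omega, ?_⟩
    have hx := Nat.mod_lt x0 (by omega : 0 < g)
    have h1 : e ≡ m + (g - x0 % g) [MOD g] := by rw [he]; exact Nat.mod_modEq _ _
    have h2 : m + (g - e) + e ≡ x0 + e [MOD g] := by
      have e1 : m + (g - e) + e = m + g := by omega
      rw [e1]
      have h3 : x0 + e ≡ x0 % g + (m + (g - x0 % g)) [MOD g] := ((Nat.mod_modEq x0 g).symm).add h1
      have e2 : x0 % g + (m + (g - x0 % g)) = m + g := by omega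
      rw [e2] at h3
      exact h3.symm
    exact Nat.ModEq.add_right_cancel' e h2
  have h1 : T / g ≤ ((Icc 1 T).filter fun h => (q * (m + h) + b).Coprime g).card := by
    calc T / g = (range (T / g)).card := (card_range _).symm
      _ ≤ _ := by
        apply card_le_card_of_injOn (fun i => h0 + g * i)
        · intro i hi
          have hi' := mem_range.1 (mem_coe.1 hi)
          rw [mem_coe, mem_filter, mem_Icc]
          have h2 : g * (i + 1) ≤ g * (T / g) := Nat.mul_le_mul_left _ hi'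
          have h3 : g * (T / g) ≤ T := Nat.mul_div_le T g
          have h4 : g * (i + 1) = g * i + g := by ring
          change (1 ≤ h0 + g * i ∧ h0 + g * i ≤ T) ∧ (q * (m + (h0 + g * i)) + b).Coprime g
          refine ⟨⟨by omega, by omega⟩, hx0 _ ?_⟩
          rw [← add_assoc]
          have h5 : m + h0 + g * i ≡ m + h0 + 0 [MOD g] := Nat.ModEq.add_left _ ((Nat.modEq_zero_iff_dvd).2 (Dvd.intro _ rfl))
          rw [add_zero] at h5
          exact h5.trans hh2
        · intro i _ i' _ h2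
          have h3 : g * i = g * i' := by simpa using h2
          exact Nat.eq_of_mul_eq_mul_left (by omega) h3
  refine le_trans ?_ (Nat.cast_le.2 h1)
  have h2 : T < g * (T / g + 1) := by
    have := Nat.div_add_mod T g
    have := Nat.mod_lt T (by omega : 0 < g)
    rw [mul_add, mul_one]
    omega
  have h3 : 1 ≤ T / g := (Nat.one_le_div_iff (by omega)).2 hT
  have h4 : (T : ℝ) ≤ g * ((T / g : ℕ) + 1) := by exact_mod_cast h2.le
  have h5 : (1 : ℝ) ≤ (T / g : ℕ) := by exact_mod_cast h3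
  have hg0 : (0 : ℝ) < g := by exact_mod_cast (by omega : 0 < g)
  rw [div_le_iff₀ (by positivity)]
  nlinarith

open Classical in
/-- The number of the `h` with `1 ≤ h ≤ T` such that `q (x + h) + b` has at most `r` prime factors, all of them larger than
`y ^ (1 / r)`. -/
noncomputable def inClass (y r q b x T : ℕ) : ℕ := ((Icc 1 T).filter fun h => AlmostPrime y r (q * (x + h) + b)).card

lemma oneV_pos (α : ℤ) (y : ℕ) : 0 < oneV α y := by
  apply prod_pos
  intro p hp
  have h2 : (2 : ℝ) ≤ p := by exact_mod_cast (mem_filter.1 hp).2.1.two_le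
  rw [sub_pos, div_lt_one (by linarith)]
  linarith

/-- **Almost primes in short segments of progressions**: the segment begins at `q (N + t) + b`, where `t` has restricted digits. -/
theorem windowAP (E : ℕ) :
    ∃ c : ℝ, 0 < c ∧ ∃ r₀ : ℕ, 2 ≤ r₀ ∧ ∀ r : ℕ, r₀ ≤ r → ∀ g : ℕ, 2 ≤ g → ∃ κ : ℝ, 0 < κ ∧
      ∀ᶠ K : ℕ in atTop, ∀ q b N T : ℕ, q ≤ g ^ (E * K) → b ≤ g ^ (E * K) → N ≤ g ^ (E * K) → q.Coprime b →
        g ≤ T → T ≤ g ^ (E * K) → ∀ A : ℕ → Finset ℕ, Rich c g K A →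
        κ * min 1 (oneV q (g ^ K) * T) * choices K A ≤
          count g K A (fun t => κ * max 1 (oneV q (g ^ K) * T) ≤ inClass (g ^ K) r q b (N + t) T) := by
  classical
  obtain ⟨c, hc, r0, hr0, H⟩ := moments E
  refine ⟨c, hc, r0, hr0, fun r hr g hg => ?_⟩
  obtain ⟨κ, C, hκ, hC, H⟩ := H r hr g hg
  obtain ⟨B, hB, HB⟩ := Pool.Agent.Y440.LC.sumGG
  have hg0 : (0 : ℝ) < g := by exact_mod_cast (by omega : 0 < g)
  refine ⟨min (min 1 (κ / (4 * g))) (κ ^ 2 / (32 * g ^ 2 * (C * (1 + 2 * B)))), by positivity, ?_⟩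
  filter_upwards [H, eventually_ge_atTop 1] with K HK hK1
  intro q b N T hq hb hN hqb hgT hT A hA
  obtain ⟨H1, H2, H3⟩ := HK q b N hq hb hN hqb A hA
  obtain ⟨V, hV⟩ : ∃ V : ℝ, V = oneV q (g ^ K) := ⟨_, rfl⟩
  have hV0 : 0 < V := by rw [hV]; exact oneV_pos q (g ^ K)
  rw [← hV] at H1 H2 H3
  have hK0 : (0 : ℝ) < K := by exact_mod_cast (by omega : 0 < K)
  have hT0 : (0 : ℝ) < T := by exact_mod_cast (by omega : 0 < T)
  obtain ⟨Q, hQ⟩ : ∃ Q : ℝ, Q = choices K A := ⟨_, rfl⟩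
  have hQ1 : 1 ≤ choices K A := by
    by_contra h
    have h0 : choices K A = 0 := by omega
    have h1 := hA.2
    rw [h0, Nat.cast_zero, mul_zero] at h1
    have : (0 : ℝ) < (g : ℝ) ^ K := by positivity
    linarith
  have hQ0 : 0 < Q := by rw [hQ]; exact_mod_cast hQ1
  have hA0 : (A 0).Nonempty := by
    rw [← card_pos, Nat.pos_iff_ne_zero]
    intro h0
    have : choices K A = 0 := prod_eq_zero (mem_range.2 (by omega : 0 < K)) h0
    omega
  obtain ⟨d, hd⟩ := hA0
  obtain ⟨D, hD⟩ : ∃ D : Finset ℕ, D = (range (g ^ K)).filter (HasDigits g K A) := ⟨_, rfl⟩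
  have hDc : (D.card : ℝ) = Q := by
    rw [hD, hQ, card_digits (by omega) hA.1]
  obtain ⟨S, hS⟩ : ∃ S : ℕ → ℕ, S = fun t => inClass (g ^ K) r q b (N + t) T := ⟨_, rfl⟩
  have hSt : ∀ t, S t = ((Icc 1 T).filter fun h => AlmostPrime (g ^ K) r (q * (N + t + h) + b)).card := fun t => by rw [hS]; rfl
  -- the first moment
  have hX : κ * V * T * Q / (2 * g) ≤ ∑ t ∈ D, (S t : ℝ) := by
    have h1 := count_sum (g := g) (K := K) (A := A) (Icc 1 T) (fun h t => AlmostPrime (g ^ K) r (q * (N + t + h) + b))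
    have h2 : ∑ t ∈ D, (S t : ℝ) = ∑ h ∈ Icc 1 T, (count g K A (fun t => AlmostPrime (g ^ K) r (q * (N + t + h) + b)) : ℝ) := by
      rw [← Nat.cast_sum, ← Nat.cast_sum, h1, hD]
      simp only [hSt]
    rw [h2]
    calc κ * V * T * Q / (2 * g) = T / (2 * g) * (κ * V * Q) := by field_simp
      _ ≤ (((Icc 1 T).filter fun h => (q * (N + d + h) + b).Coprime g).card : ℝ) * (κ * V * Q) :=
          mul_le_mul_of_nonneg_right (class_card hg hgT hqb) (by positivity)
      _ = ∑ h ∈ (Icc 1 T).filter fun h => (q * (N + d + h) + b).Coprime g, κ * V * Q := by rw [sum_const, nsmul_eq_mul]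
      _ ≤ ∑ h ∈ (Icc 1 T).filter fun h => (q * (N + d + h) + b).Coprime g, (count g K A (fun t => AlmostPrime (g ^ K) r (q * (N + t + h) + b)) : ℝ) := by
          apply sum_le_sum
          intro h hh
          rw [mem_filter, mem_Icc] at hh
          rw [hQ]
          exact H1 h (hh.1.2.trans hT) ⟨d, hd, hh.2⟩
      _ ≤ _ := sum_le_sum_of_subset_of_nonneg (filter_subset _ _) fun _ _ _ => Nat.cast_nonneg _
  -- the second moment
  have hY : ∑ t ∈ D, (S t : ℝ) ^ 2 ≤ C * (1 + 2 * B) * Q * (V * T) * (1 + V * T) := by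
    have h1 := count_sum (g := g) (K := K) (A := A) ((Icc 1 T) ×ˢ (Icc 1 T))
      (fun x t => AlmostPrime (g ^ K) r (q * (N + t + x.1) + b) ∧ AlmostPrime (g ^ K) r (q * (N + t + x.2) + b))
    have h2 : ∑ t ∈ D, (S t : ℝ) ^ 2 = ∑ x ∈ (Icc 1 T) ×ˢ (Icc 1 T), (count g K A (fun t =>
        AlmostPrime (g ^ K) r (q * (N + t + x.1) + b) ∧ AlmostPrime (g ^ K) r (q * (N + t + x.2) + b)) : ℝ) := by
      rw [← Nat.cast_sum, h1, hD]
      push_cast
      apply sum_congr rfl
      intro t _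
      rw [hSt, sq, ← Nat.cast_mul, ← card_product]
      congr 2
      ext ⟨x, y⟩
      simp only [mem_product, mem_filter]
      tauto
    rw [h2, sum_product]
    have h3 : ∀ x ∈ Icc 1 T, ∑ y ∈ Icc 1 T, (count g K A (fun t =>
        AlmostPrime (g ^ K) r (q * (N + t + x) + b) ∧ AlmostPrime (g ^ K) r (q * (N + t + y) + b)) : ℝ) ≤
          C * V * Q + 2 * (C * V ^ 2 * (B * T) * Q) := by
      intro x hx
      rw [mem_Icc] at hx
      have h4 : ∀ y ∈ Icc 1 T, (count g K A (fun t =>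
          AlmostPrime (g ^ K) r (q * (N + t + x) + b) ∧ AlmostPrime (g ^ K) r (q * (N + t + y) + b)) : ℝ) ≤
          (if y = x then C * V * Q else 0) + (if x < y then C * V ^ 2 * GG (y - x) ^ 2 * Q else 0) +
            (if y < x then C * V ^ 2 * GG (x - y) ^ 2 * Q else 0) := by
        intro y hy
        rw [mem_Icc] at hy
        rcases lt_trichotomy x y with h | h | h
        · rw [if_neg (by omega), if_pos h, if_neg (by omega), zero_add, add_zero, hQ]
          exact H3 x y h (hy.2.trans hT)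
        · subst h
          rw [if_pos rfl, if_neg (by omega), add_zero, add_zero, hQ]
          simp only [and_self]
          exact H2 x (hx.2.trans hT)
        · rw [if_neg (by omega), if_neg (by omega), if_pos h, zero_add, zero_add, hQ]
          have h5 := H3 y x h (hx.2.trans hT)
          have h6 : count g K A (fun t => AlmostPrime (g ^ K) r (q * (N + t + x) + b) ∧ AlmostPrime (g ^ K) r (q * (N + t + y) + b)) =
              count g K A (fun t => AlmostPrime (g ^ K) r (q * (N + t + y) + b) ∧ AlmostPrime (g ^ K) r (q * (N + t + x) + b)) :=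
            le_antisymm (count_mono fun t _ hP => ⟨hP.2, hP.1⟩) (count_mono fun t _ hP => ⟨hP.2, hP.1⟩)
          rw [h6]
          exact h5
      refine (sum_le_sum h4).trans ?_
      rw [sum_add_distrib, sum_add_distrib, sum_ite_eq' (Icc 1 T) x, if_pos (mem_Icc.2 hx), add_assoc, two_mul]
      apply add_le_add_right
      have hGs : ∀ s : Finset ℕ, ∀ φ : ℕ → ℕ, Set.InjOn φ s → (∀ y ∈ s, 1 ≤ φ y ∧ φ y ≤ T) →
          ∑ y ∈ s, C * V ^ 2 * GG (φ y) ^ 2 * Q ≤ C * V ^ 2 * (B * T) * Q := by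
        intro s φ hinj hφ
        calc ∑ y ∈ s, C * V ^ 2 * GG (φ y) ^ 2 * Q = C * V ^ 2 * Q * ∑ z ∈ s.image φ, GG z ^ 2 := by
              rw [sum_image hinj, mul_sum]
              apply sum_congr rfl
              intro y _
              ring
          _ ≤ C * V ^ 2 * Q * ∑ z ∈ Icc 1 T, GG z ^ 2 := by
              apply mul_le_mul_of_nonneg_left _ (by positivity)
              apply sum_le_sum_of_subset_of_nonneg
              · intro z hz
                obtain ⟨y, hy, rfl⟩ := mem_image.1 hz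
                exact mem_Icc.2 (hφ y hy)
              · intro _ _ _
                positivity
          _ ≤ C * V ^ 2 * Q * (B * T) := mul_le_mul_of_nonneg_left (HB T) (by positivity)
          _ = _ := by ring
      apply add_le_add
      · rw [← sum_filter]
        apply hGs _ (fun y => y - x)
        · intro y hy y' hy' h
          have h6 := (mem_filter.1 (mem_coe.1 hy)).2
          have h7 := (mem_filter.1 (mem_coe.1 hy')).2
          simp only at h
          omega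
        · intro y hy
          rw [mem_filter, mem_Icc] at hy
          omega
      · rw [← sum_filter]
        apply hGs _ (fun y => x - y)
        · intro y hy y' hy' h
          have h6 := (mem_filter.1 (mem_coe.1 hy)).2
          have h7 := (mem_filter.1 (mem_coe.1 hy')).2
          simp only at h
          omega
        · intro y hy
          rw [mem_filter, mem_Icc] at hy
          omega
    refine (sum_le_sum h3).trans ?_
    rw [sum_const, Nat.card_Icc, nsmul_eq_mul]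
    simp only [add_tsub_cancel_right]
    have e1 : (T : ℝ) * (C * V * Q + 2 * (C * V ^ 2 * (B * T) * Q)) = C * Q * (V * T) * (1 + 2 * B * (V * T)) := by
      ring
    rw [e1]
    have e2 : 1 + 2 * B * (V * T) ≤ (1 + 2 * B) * (1 + V * T) := by
      have : (0 : ℝ) ≤ V * T := by positivity
      nlinarith
    calc C * Q * (V * T) * (1 + 2 * B * (V * T)) ≤ C * Q * (V * T) * ((1 + 2 * B) * (1 + V * T)) :=
          mul_le_mul_of_nonneg_left e2 (by positivity)
      _ = _ := by ring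
  -- Cauchy-Schwarz
  obtain ⟨u, hu⟩ : ∃ u : ℝ, u = V * T := ⟨_, rfl⟩
  have hu0 : 0 < u := by rw [hu]; positivity
  obtain ⟨G, hG⟩ : ∃ G : Finset ℕ, G = D.filter fun t => κ / (4 * g) * u ≤ S t := ⟨_, rfl⟩
  have hlow : κ * u * Q / (4 * g) ≤ ∑ t ∈ G, (S t : ℝ) := by
    have h1 : ∑ t ∈ D, (S t : ℝ) = ∑ t ∈ G, (S t : ℝ) + ∑ t ∈ D.filter (fun t => ¬ κ / (4 * g) * u ≤ S t), (S t : ℝ) := by
      rw [hG, sum_filter_add_sum_filter_not]
    have h2 : ∑ t ∈ D.filter (fun t => ¬ κ / (4 * g) * u ≤ S t), (S t : ℝ) ≤ κ / (4 * g) * u * Q := by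
      calc ∑ t ∈ D.filter (fun t => ¬ κ / (4 * g) * u ≤ S t), (S t : ℝ) ≤
            ∑ t ∈ D.filter (fun t => ¬ κ / (4 * g) * u ≤ S t), κ / (4 * g) * u :=
            sum_le_sum fun t ht => (not_le.1 (mem_filter.1 ht).2).le
        _ = (D.filter (fun t => ¬ κ / (4 * g) * u ≤ S t)).card * (κ / (4 * g) * u) := by rw [sum_const, nsmul_eq_mul]
        _ ≤ D.card * (κ / (4 * g) * u) := by
            apply mul_le_mul_of_nonneg_right _ (by positivity)
            exact_mod_cast card_filter_le _ _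
        _ = _ := by rw [hDc]; ring
    have h3 : κ * V * T * Q / (2 * g) = κ / (4 * g) * u * Q + κ * u * Q / (4 * g) := by
      rw [hu]; field_simp; ring
    linarith
  have hcs : (∑ t ∈ G, (S t : ℝ)) ^ 2 ≤ G.card * ∑ t ∈ D, (S t : ℝ) ^ 2 := by
    have h1 := sq_sum_le_card_mul_sum_sq (s := G) (f := fun t => (S t : ℝ))
    refine h1.trans (mul_le_mul_of_nonneg_left ?_ (Nat.cast_nonneg _))
    rw [hG]
    exact sum_le_sum_of_subset_of_nonneg (filter_subset _ _) fun _ _ _ => sq_nonneg _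
  rw [← hV, ← hu]
  rw [← hu] at hY
  have hM : κ ^ 2 / (32 * g ^ 2 * (C * (1 + 2 * B))) * min 1 u * Q ≤ G.card := by
    have h1 : (κ * u * Q / (4 * g)) ^ 2 ≤ G.card * (C * (1 + 2 * B) * Q * u * (1 + u)) := by
      refine (pow_le_pow_left₀ (by positivity) hlow 2).trans (hcs.trans ?_)
      exact mul_le_mul_of_nonneg_left hY (Nat.cast_nonneg _)
    have h2 : min 1 u * (1 + u) ≤ 2 * u := by
      rcases le_total 1 u with h | h
      · rw [min_eq_left h]; linarith
      · rw [min_eq_right h]; nlinarith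
    have h3 : 0 < C * (1 + 2 * B) * Q * u * (1 + u) := by positivity
    refine le_of_mul_le_mul_right (le_trans ?_ h1) h3
    have h4 : 0 < C * (1 + 2 * B) := by positivity
    calc κ ^ 2 / (32 * g ^ 2 * (C * (1 + 2 * B))) * min 1 u * Q * (C * (1 + 2 * B) * Q * u * (1 + u)) =
          κ ^ 2 * Q ^ 2 * u / (32 * g ^ 2) * (min 1 u * (1 + u)) := by
            field_simp
      _ ≤ κ ^ 2 * Q ^ 2 * u / (32 * g ^ 2) * (2 * u) := mul_le_mul_of_nonneg_left h2 (by positivity)
      _ = _ := by field_simp; norm_num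
  have hfin : (G.card : ℝ) ≤ count g K A (fun t =>
      min (min 1 (κ / (4 * g))) (κ ^ 2 / (32 * g ^ 2 * (C * (1 + 2 * B)))) * max 1 u ≤ inClass (g ^ K) r q b (N + t) T) := by
    apply Nat.cast_le.2
    unfold count
    apply card_le_card
    intro t ht
    rw [hG, mem_filter, hD, mem_filter] at ht
    refine mem_filter.2 ⟨ht.1.1, ht.1.2, ?_⟩
    have h1 : (0 : ℝ) < S t := lt_of_lt_of_le (by positivity) ht.2
    have h2 : (1 : ℝ) ≤ S t := by exact_mod_cast (by exact_mod_cast h1 : 0 < S t)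
    have h3 : (inClass (g ^ K) r q b (N + t) T : ℝ) = S t := by rw [hS]
    beta_reduce
    rw [h3]
    have h4 : min (min 1 (κ / (4 * g))) (κ ^ 2 / (32 * g ^ 2 * (C * (1 + 2 * B)))) ≤ min 1 (κ / (4 * g)) := min_le_left _ _
    have h5 : 0 < max 1 u := lt_of_lt_of_le one_pos (le_max_left _ _)
    refine (mul_le_mul_of_nonneg_right h4 h5.le).trans ?_
    rcases le_total 1 u with h | h
    · rw [max_eq_right h]
      exact (mul_le_mul_of_nonneg_right (min_le_right _ _) (by linarith)).trans ht.2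
    · rw [max_eq_left h, mul_one]
      exact (min_le_left _ _).trans h2
  refine le_trans ?_ hfin
  refine le_trans ?_ hM
  rw [← hQ]
  apply mul_le_mul_of_nonneg_right _ hQ0.le
  apply mul_le_mul_of_nonneg_right (min_le_right _ _)
  exact le_min zero_le_one hu0.le

lemma oneV_split (q y : ℕ) : oneV q y * ∏ p ∈ ((Icc 1 y).filter Nat.Prime).filter (fun p => p ∣ q), (1 - 1 / (p : ℝ)) = oneV 1 y := by
  classical
  have h1 : oneV 1 y = ∏ p ∈ (Icc 1 y).filter Nat.Prime, (1 - 1 / (p : ℝ)) := by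
    unfold oneV
    apply prod_congr _ fun _ _ => rfl
    apply filter_congr
    intro p _
    constructor
    · exact fun h => h.1
    · exact fun h => ⟨h, fun hd => h.one_lt.ne' (by exact_mod_cast Int.eq_one_of_dvd_one (by positivity) hd)⟩
  have h2 : oneV q y = ∏ p ∈ ((Icc 1 y).filter Nat.Prime).filter (fun p => ¬ p ∣ q), (1 - 1 / (p : ℝ)) := by
    unfold oneV
    apply prod_congr _ fun _ _ => rfl
    rw [filter_filter]
    apply filter_congr
    intro p _
    rw [Int.natCast_dvd_natCast]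
  rw [h1, h2, mul_comm]
  exact prod_filter_mul_prod_filter_not _ _ _

/-- The order of magnitude of the density of the prime values of `q n + b`. -/
lemma oneV_GG (E g : ℕ) (hg : 2 ≤ g) : ∃ w W : ℝ, 0 < w ∧ 0 < W ∧ ∀ᶠ K : ℕ in atTop, ∀ q : ℕ, 1 ≤ q → q ≤ g ^ (E * K) →
    w * GG q / K ≤ oneV q (g ^ K) ∧ oneV q (g ^ K) ≤ W * GG q / K := by
  classical
  obtain ⟨v, hv, H1⟩ := linDensity_lower 1 g hg
  obtain ⟨W, hW, H2⟩ := oneV_unit g hg
  refine ⟨v / 2 ^ E, W, by positivity, hW, ?_⟩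
  filter_upwards [H1, H2, eventually_ge_atTop 1] with K K1 K2 hK1
  intro q hq1 hq
  have hK0 : (0 : ℝ) < K := by exact_mod_cast (by omega : 0 < K)
  have hG := GG_ge_one hq1
  have h1 := K1 (fun _ => 1) (fun _ => 0) (admZ_one isCoprime_one_left)
  rw [linDensity_one isCoprime_one_left, pow_one] at h1
  have h2 := K2 1 isUnit_one
  have h3 := oneV_split q (g ^ K)
  have h4 := GG_prod hq1
  obtain ⟨P, hP⟩ : ∃ P : ℝ, P = ∏ p ∈ ((Icc 1 (g ^ K)).filter Nat.Prime).filter (fun p => p ∣ q), (1 - 1 / (p : ℝ)) := ⟨_, rfl⟩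
  rw [← hP] at h3
  have hfac : ∀ p ∈ q.primeFactors, (1 / 2 : ℝ) ≤ 1 - 1 / (p : ℝ) ∧ 1 - 1 / (p : ℝ) ≤ 1 := by
    intro p hp
    have h2 : (2 : ℝ) ≤ p := by exact_mod_cast (Nat.prime_of_mem_primeFactors hp).two_le
    have h3 : 1 / (p : ℝ) ≤ 1 / 2 := one_div_le_one_div_of_le (by norm_num) h2
    have h4 : 0 ≤ 1 / (p : ℝ) := by positivity
    constructor <;> linarith
  have hset : ((Icc 1 (g ^ K)).filter Nat.Prime).filter (fun p => p ∣ q) = q.primeFactors.filter (fun p => p ≤ g ^ K) := by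
    ext p
    simp only [mem_filter, mem_Icc, Nat.mem_primeFactors]
    constructor
    · rintro ⟨⟨⟨h5, h6⟩, h7⟩, h8⟩
      exact ⟨⟨h7, h8, by omega⟩, h6⟩
    · rintro ⟨⟨h7, h8, -⟩, h6⟩
      exact ⟨⟨⟨h7.one_lt.le, h6⟩, h7⟩, h8⟩
  have hspl : P * ∏ p ∈ q.primeFactors.filter (fun p => ¬ p ≤ g ^ K), (1 - 1 / (p : ℝ)) = ∏ p ∈ q.primeFactors, (1 - 1 / (p : ℝ)) := by
    rw [hP, hset]
    exact prod_filter_mul_prod_filter_not _ _ _
  have hbig : (1 / 2 : ℝ) ^ E ≤ ∏ p ∈ q.primeFactors.filter (fun p => ¬ p ≤ g ^ K), (1 - 1 / (p : ℝ)) := by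
    have hcard : (q.primeFactors.filter (fun p => ¬ p ≤ g ^ K)).card ≤ E := by
      have h5 : (g ^ K) ^ (q.primeFactors.filter (fun p => ¬ p ≤ g ^ K)).card ≤ g ^ (E * K) := by
        calc (g ^ K) ^ (q.primeFactors.filter (fun p => ¬ p ≤ g ^ K)).card = ∏ _p ∈ q.primeFactors.filter (fun p => ¬ p ≤ g ^ K), g ^ K := by
              rw [prod_const]
          _ ≤ ∏ p ∈ q.primeFactors.filter (fun p => ¬ p ≤ g ^ K), p :=
              prod_le_prod (fun _ _ => Nat.zero_le _) fun p hp => (not_le.1 (mem_filter.1 hp).2).le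
          _ ≤ ∏ p ∈ q.primeFactors, p := prod_le_prod_of_subset_of_one_le' (filter_subset _ _)
              fun p hp _ => (Nat.prime_of_mem_primeFactors hp).pos
          _ ≤ q := Nat.le_of_dvd hq1 (Nat.prod_primeFactors_dvd q)
          _ ≤ _ := hq
      rw [← pow_mul, mul_comm] at h5
      have h6 := (Nat.pow_le_pow_iff_right (by omega : 1 < g)).1 h5
      exact Nat.le_of_mul_le_mul_right h6 (by omega)
    calc (1 / 2 : ℝ) ^ E ≤ (1 / 2 : ℝ) ^ (q.primeFactors.filter (fun p => ¬ p ≤ g ^ K)).card :=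
          pow_le_pow_of_le_one (by norm_num) (by norm_num) hcard
      _ = ∏ _p ∈ q.primeFactors.filter (fun p => ¬ p ≤ g ^ K), (1 / 2 : ℝ) := by rw [prod_const]
      _ ≤ _ := prod_le_prod (fun _ _ => by norm_num) fun p hp => (hfac p (mem_filter.1 hp).1).1
  have hsmall : ∏ p ∈ q.primeFactors.filter (fun p => ¬ p ≤ g ^ K), (1 - 1 / (p : ℝ)) ≤ 1 :=
    prod_le_one (fun p hp => by linarith [(hfac p (mem_filter.1 hp).1).1]) fun p hp => (hfac p (mem_filter.1 hp).1).2
  have hP0 : 0 < P := by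
    rw [hP, hset]
    exact prod_pos fun p hp => by linarith [(hfac p (mem_filter.1 hp).1).1]
  have hE : (0 : ℝ) < 2 ^ E := by positivity
  -- `1 / GG q ≤ P ≤ 2 ^ E / GG q`
  have hPl : 1 ≤ GG q * P := by
    rw [← h4, ← hspl]
    apply mul_le_mul_of_nonneg_left _ (by linarith)
    exact mul_le_of_le_one_right hP0.le hsmall
  have hPu : GG q * P ≤ 2 ^ E := by
    have h5 : GG q * P * (1 / 2 : ℝ) ^ E ≤ 1 := by
      refine (mul_le_mul_of_nonneg_left hbig (by positivity)).trans ?_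
      rw [mul_assoc, hspl, h4]
    rwa [one_div_pow, mul_one_div, div_le_one hE] at h5
  have hO := oneV_pos q (g ^ K)
  constructor
  · rw [div_mul_eq_mul_div, div_div, div_le_iff₀ (by positivity)]
    calc v * GG q = v / K * (GG q * K) := by field_simp
      _ ≤ oneV 1 (g ^ K) * (GG q * K) := mul_le_mul_of_nonneg_right h1 (by positivity)
      _ = oneV q (g ^ K) * (GG q * P) * K := by rw [← h3]; ring
      _ ≤ oneV q (g ^ K) * 2 ^ E * K := by gcongr
      _ = _ := by ring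
  · rw [le_div_iff₀ hK0]
    calc oneV q (g ^ K) * K ≤ oneV q (g ^ K) * K * (GG q * P) := le_mul_of_one_le_right (by positivity) hPl
      _ = oneV 1 (g ^ K) * K * GG q := by rw [← h3]; ring
      _ ≤ W / K * K * GG q := by gcongr
      _ = _ := by field_simp

/-- A small initial segment contains few of the integers with restricted digits. -/
lemma small_part (κ : ℝ) (hκ : 0 < κ) (g : ℕ) (hg : 2 ≤ g) : ∀ᶠ K : ℕ in atTop, ∀ A : ℕ → Finset ℕ, Rich (1 / 8) g K A →
    (g : ℝ) ^ (K / 2) ≤ κ * choices K A := by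
  have he : Real.exp (1 / 4) < 2 := by
    rw [← Real.lt_log_iff_exp_lt (by norm_num)]
    linarith [Real.log_two_gt_d9]
  have h1 : Tendsto (fun m : ℕ => Real.exp (1 / 8) * (Real.exp (1 / 4) / 2) ^ m) atTop (nhds (Real.exp (1 / 8) * 0)) :=
    (tendsto_pow_atTop_nhds_zero_of_lt_one (by positivity) (by rw [div_lt_one (by norm_num)]; exact he)).const_mul _
  rw [mul_zero] at h1
  have h2 : Tendsto (fun K : ℕ => K / 2) atTop atTop := Nat.tendsto_div_const_atTop (by norm_num)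
  have h3 := (h1.comp h2).eventually (gt_mem_nhds hκ)
  filter_upwards [h3] with K hK A hA
  simp only [Function.comp] at hK
  obtain ⟨m, hm⟩ : ∃ m, m = K / 2 := ⟨_, rfl⟩
  rw [← hm] at hK ⊢
  have hg0 : (0 : ℝ) < g := by exact_mod_cast (by omega : 0 < g)
  have hg2 : (2 : ℝ) ≤ g := by exact_mod_cast hg
  have h4 : Real.exp (1 / 8 * K) ≤ κ * (g : ℝ) ^ m := by
    have h5 : Real.exp (1 / 8 * K) ≤ Real.exp (1 / 8) * Real.exp (1 / 4) ^ m := by
      rw [← Real.exp_nat_mul, ← Real.exp_add]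
      apply Real.exp_le_exp.2
      have : (K : ℝ) ≤ 2 * m + 1 := by exact_mod_cast (by omega : K ≤ 2 * m + 1)
      linarith
    have h6 : Real.exp (1 / 8) * Real.exp (1 / 4) ^ m ≤ κ * 2 ^ m := by
      rw [div_pow, ← mul_div_assoc, div_lt_iff₀ (by positivity)] at hK
      exact hK.le
    refine h5.trans (h6.trans ?_)
    gcongr
  have h5 : (g : ℝ) ^ m * (g : ℝ) ^ m ≤ (g : ℝ) ^ K := by
    rw [← pow_add]
    exact pow_le_pow_right₀ (by linarith) (by omega)
  have h6 := hA.2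
  have h7 : 0 < Real.exp (1 / 8 * K) := Real.exp_pos _
  have h8 : Real.exp (1 / 8 * K) * (g : ℝ) ^ m ≤ Real.exp (1 / 8 * K) * (κ * choices K A) := by
    calc Real.exp (1 / 8 * K) * (g : ℝ) ^ m ≤ κ * (g : ℝ) ^ m * (g : ℝ) ^ m := mul_le_mul_of_nonneg_right h4 (by positivity)
      _ = κ * ((g : ℝ) ^ m * (g : ℝ) ^ m) := by ring
      _ ≤ κ * (g : ℝ) ^ K := mul_le_mul_of_nonneg_left h5 hκ.le
      _ ≤ κ * (Real.exp (1 / 8 * K) * choices K A) := mul_le_mul_of_nonneg_left h6 hκ.le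
      _ = _ := by ring
  exact le_of_mul_le_mul_left h8 h7

lemma count_split {g K : ℕ} {A : ℕ → Finset ℕ} {P R : ℕ → Prop} (y : ℕ) (h : ∀ t < g ^ K, y ≤ t → P t → R t) :
    (count g K A P : ℝ) ≤ count g K A R + y := by
  classical
  have h1 : count g K A P ≤ count g K A R + (range y).card := by
    unfold count
    refine le_trans (card_le_card ?_) (card_union_le _ _)
    intro t ht
    have h2 := mem_filter.1 ht
    rcases Nat.lt_or_ge t y with h3 | h3
    · exact mem_union_right _ (mem_range.2 h3)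
    · exact mem_union_left _ (mem_filter.2 ⟨h2.1, h2.2.1, h t (mem_range.1 h2.1) h3 h2.2.2⟩)
  rw [card_range] at h1
  exact_mod_cast h1

/-- **Almost primes in short intervals.** -/
theorem windowOne (E : ℕ) :
    ∃ c : ℝ, 0 < c ∧ ∃ r₀ : ℕ, 2 ≤ r₀ ∧ ∀ r : ℕ, r₀ ≤ r → ∀ g : ℕ, 2 ≤ g → ∃ κ : ℝ, 0 < κ ∧
      ∀ᶠ K : ℕ in atTop, ∀ N T : ℕ, N ≤ g ^ (E * K) → g ≤ T → T ≤ g ^ (E * K) → ∀ A : ℕ → Finset ℕ, Rich c g K A →
        κ * min 1 ((T : ℝ) / K) * choices K A ≤
          count g K A (fun t => κ * max 1 ((T : ℝ) / K) ≤ inClass (g ^ K) r 1 0 (N + t) T) := by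
  obtain ⟨c, hc, r0, hr0, H⟩ := windowAP E
  refine ⟨c, hc, r0, hr0, fun r hr g hg => ?_⟩
  obtain ⟨κ, hκ, H⟩ := H r hr g hg
  obtain ⟨w, W, hw, hW, H2⟩ := oneV_GG E g hg
  refine ⟨κ * min 1 w, by positivity, ?_⟩
  filter_upwards [H, H2, eventually_ge_atTop 1] with K HK HV hK1
  intro N T hN hgT hT A hA
  have hK0 : (0 : ℝ) < K := by exact_mod_cast (by omega : 0 < K)
  have h1 := HK 1 0 N T (Nat.one_le_pow _ _ (by omega)) (Nat.zero_le _) hN (by simp) hgT hT A hA
  have h2 := (HV 1 le_rfl (Nat.one_le_pow _ _ (by omega))).1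
  have h3 : GG 1 = 1 := by unfold GG; simp
  rw [h3, mul_one] at h2
  have hT0 : (0 : ℝ) ≤ T := Nat.cast_nonneg _
  have hm0 : 0 < min 1 w := by positivity
  have h4 : min 1 w * ((T : ℝ) / K) ≤ oneV (1 : ℕ) (g ^ K) * T := by
    calc min 1 w * ((T : ℝ) / K) ≤ w * ((T : ℝ) / K) := mul_le_mul_of_nonneg_right (min_le_right _ _) (by positivity)
      _ = w / K * T := by ring
      _ ≤ _ := mul_le_mul_of_nonneg_right h2 hT0
  have h5 : min 1 w * min 1 ((T : ℝ) / K) ≤ min 1 (oneV (1 : ℕ) (g ^ K) * T) := by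
    apply le_min
    · calc min 1 w * min 1 ((T : ℝ) / K) ≤ 1 * 1 := mul_le_mul (min_le_left _ _) (min_le_left _ _) (by positivity) zero_le_one
        _ = 1 := one_mul 1
    · exact (mul_le_mul_of_nonneg_left (min_le_right _ _) hm0.le).trans h4
  have h6 : min 1 w * max 1 ((T : ℝ) / K) ≤ max 1 (oneV (1 : ℕ) (g ^ K) * T) := by
    rw [mul_max_of_nonneg _ _ hm0.le, mul_one]
    exact max_le_max (min_le_left _ _) h4
  refine le_trans ?_ (h1.trans (Nat.cast_le.2 (count_mono fun t ht hP => ?_)))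
  · apply mul_le_mul_of_nonneg_right _ (Nat.cast_nonneg _)
    rw [mul_assoc]
    exact mul_le_mul_of_nonneg_left h5 hκ.le
  · refine le_trans ?_ hP
    rw [mul_assoc]
    exact mul_le_mul_of_nonneg_left h6 hκ.le

end Pool.Agent.Q48.RD
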